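import Mathlib
import Pool.Agent.Work.MP_610017_lc.StmtsA

/-!
# Two special sheets with complementary colours (MP_610017_lc, block PP)

The sheets with index `0` and `1` are special: in a true world sheet `0` is `true` on the bottom and
`false` on the left side, sheet `1` is `false` on the bottom and `true` on the left side.
-/

set_option autoImplicit false

namespace Pool.Agent.Work.MP_610017_lc.PP

/-- the colour of the sheet with index `i` at the vertex `v` -/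
def cl {k n : ℕ} (ω : GW k n) (v : Vx k) (i : Lb n) : Option Bool :=
  if i = 0 then ω.χ v else if i = 1 then (ω.χ v).map (fun c => !c) else some (ω.ζ i)

/-- truth of a fact in a covering -/
def holds {k n : ℕ} (ω : GW k n) : Fact k n → Prop
  | .edge v w a b => (ω.β v).symm a = (ω.β w).symm b
  | .col v a c => cl ω v ((ω.β v).symm a) = some c

/-- Restrictions: the sheets with index outside `I` are known. -/
structure Res (k n : ℕ) where
  β : Vx k → Equiv.Perm (Lb n)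
  ζ : Lb n → Bool
  I : Finset (Lb n)
  zero_mem : (0 : Lb n) ∈ I
  one_mem : (1 : Lb n) ∈ I
  one_ne : (1 : Lb n) ≠ 0
  corner : β (crn k) 0 = 0
  corner1 : β (crn k) 1 = 1

/-- `(β, ζ)` extends the restriction `ρ` -/
structure Ext {k n : ℕ} (ρ : Res k n) (β : Vx k → Equiv.Perm (Lb n)) (ζ : Lb n → Bool) :
    Prop where
  beta : ∀ v i, i ∉ ρ.I → β v i = ρ.β v i
  zeta : ∀ i, i ∉ ρ.I → ζ i = ρ.ζ i
  corner : β (crn k) 0 = 0
  corner1 : β (crn k) 1 = 1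

/-- `ρ'` is a further restriction of `ρ` -/
def Res.Le {k n : ℕ} (ρ' ρ : Res k n) : Prop := ρ'.I ⊆ ρ.I ∧ Ext ρ ρ'.β ρ'.ζ

/-- `F` is consistent with `ρ` -/
def Con {k n : ℕ} (ρ : Res k n) (F : Finset (Fact k n)) : Prop :=
  ∃ ω : GW k n, Ext ρ ω.β ω.ζ ∧ ω.χ = spec ∧ ∀ f ∈ F, holds ω f

/-- the fact is true on a known sheet -/
def SetTrue {k n : ℕ} (ρ : Res k n) : Fact k n → Prop
  | .edge v w a b => ∃ i, i ∉ ρ.I ∧ ρ.β v i = a ∧ ρ.β w i = b
  | .col v a c => ∃ i, i ∉ ρ.I ∧ ρ.β v i = a ∧ ρ.ζ i = c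

/-- the fact is decided (true) by `ρ` and `π` -/
def Dec {k n : ℕ} (ρ : Res k n) (π : Finset (Fact k n)) (f : Fact k n) : Prop :=
  f ∈ π ∨ SetTrue ρ f

/-- evaluation of a tree in a covering: facts of the branch and label -/
def ev {k n : ℕ} (ω : GW k n) : Tree k n → Finset (Fact k n) × Bool
  | .leaf r => (∅, r)
  | .node v a next =>
    let i := (ω.β v).symm a
    let b : Fin 4 → Lb n := fun d => ω.β (nb v d) i
    let c : Bool := bd v && (cl ω v i).getD false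
    (star v a b c ∪ (ev ω (next b c)).1, (ev ω (next b c)).2)

/-- `T` decides the disjunction, over `x ≤ m`, of the trees `Tx x`. -/
def OrRep {k n : ℕ} (ρ : Res k n) (h m : ℕ) (Tx : ℕ → Tree k n) (T : Tree k n) : Prop :=
  HLe h T ∧
  (∀ F, Br T F true → Con ρ F → ∃ x, x ≤ m ∧ ∃ F', Br (Tx x) F' true ∧ ∀ f ∈ F', Dec ρ F f) ∧
  (∀ F, Br T F false → ∀ x, x ≤ m → ∀ F', Br (Tx x) F' true → ¬ Con ρ (F ∪ F'))

/-- `T` is a tree for the formula `φ` at the assignment `e` (in the restriction `ρ`). -/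
def Rep {k n : ℕ} (ρ : Res k n) (h : ℕ) : {v : ℕ} → Gm v → (Fin v → ℕ) → Tree k n → Prop
  | _, .eq s t, e, T => T = .leaf (decide (s.val stdN e = t.val stdN e))
  | _, .le s t, e, T => T = .leaf (decide (s.val stdN e ≤ t.val stdN e))
  | _, .rel s, e, T => HLe h T ∧ T = relTree k n (fun i => (s i).val stdN e)
  | _, .neg φ, e, T => ∃ T1, T = T1.flip ∧ Rep ρ h φ e T1
  | _, .and φ ψ, e, T => HLe h T ∧ ∃ T1 T2, T = andT T1 T2 ∧ Rep ρ h φ e T1 ∧ Rep ρ h ψ e T2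
  | _, .bex t φ, e, T => ∃ Tx : ℕ → Tree k n,
      (∀ x, x ≤ t.val stdN e → Rep ρ h φ (Fin.cons x e) (Tx x)) ∧
      OrRep ρ h (t.val stdN e) Tx T
  | _, .ind φ, e, T => ∃ Tx : ℕ → Tree k n,
      (∀ x, x ≤ e 0 + 1 → Rep ρ h φ (Fin.cons x (Fin.tail e)) (Tx x)) ∧
      OrRep ρ h (e 0) (fun x => andT (Tx x) (Tx (x + 1)).flip) T

/-- The facts in `F` reveal the special sheets in the box `[0, r] ^ 2`. -/
def SB {k n : ℕ} (r : ℕ) (F : Finset (Fact k n)) : Prop :=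
  ∀ ω : GW k n, ω.β (crn k) 0 = 0 → ω.β (crn k) 1 = 1 → (∀ f ∈ F, holds ω f) →
    ∀ v : Vx k, v.1.val ≤ r → v.2.val ≤ r → ∀ i : Lb n, i = 0 ∨ i = 1 →
      ∀ f, Valid f → (v, ω.β v i) ∈ touch f → holds ω f → f ∈ F

/-- The covering `ρ.β` whose special sheet has colour `true` on `1 ≤ x ≤ N`, `y = 0` and
`false` elsewhere. -/
def gw {k n : ℕ} (ρ : Res k n) (N : ℕ) : GW k n where
  β := ρ.β
  ζ := ρ.ζ
  χ := fun v => some (decide (v.2.val = 0 ∧ 1 ≤ v.1.val ∧ v.1.val ≤ N))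

/-- `Bad ρ π 𝓣 q`: no term of the family `𝓣` is decided by `ρ` and `π`, and there are `q`
consistent terms whose undecided parts touch disjoint sets of elements. -/
def Bad {k n : ℕ} (ρ : Res k n) (π : Finset (Fact k n)) (𝓣 : Set (Finset (Fact k n)))
    (q : ℕ) : Prop :=
  (¬ ∃ F ∈ 𝓣, ∀ f ∈ F, Dec ρ π f) ∧
  ∃ Fs : Fin q → Finset (Fact k n), (∀ j, Fs j ∈ 𝓣 ∧ Con ρ (π ∪ Fs j)) ∧
    ∀ j j', j ≠ j' → ∀ f ∈ Fs j, ¬ Dec ρ π f → ∀ f' ∈ Fs j', ¬ Dec ρ π f' →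
      Disjoint (touch f) (touch f')

/-- `T` decides, given `π`, whether a term of the family `𝓣` is true. -/
def OrSet {k n : ℕ} (ρ : Res k n) (π : Finset (Fact k n)) (𝓣 : Set (Finset (Fact k n)))
    (T : Tree k n) : Prop :=
  (∀ P, Br T P true → Con ρ (π ∪ P) → ∃ F ∈ 𝓣, ∀ f ∈ F, Dec ρ (π ∪ P) f) ∧
  (∀ P, Br T P false → ∀ F ∈ 𝓣, ¬ Con ρ (π ∪ P ∪ F))

end Pool.Agent.Work.MP_610017_lc.PP
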