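import Mathlib
import Pool.Agent.Work.MP_610017_lc.PP.Core

/-!
# Statements of block A with two special sheets (MP_610017_lc, block PP)
-/

set_option autoImplicit false

namespace Pool.Agent.Work.MP_610017_lc.PP

/-- A07: exchanging indices at every vertex. -/
def S_Reroute : Prop := ∀ (k n : ℕ) (ω : GW k n) (F : Finset (Fact k n))
  (τ : Vx k → Equiv.Perm (Lb n)) (ζ' : Lb n → Bool) (χ' : Vx k → Option Bool),
  (∀ f ∈ F, holds ω f) →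
  (∀ v w a b, Fact.edge v w a b ∈ F →
    (τ v).symm ((ω.β v).symm a) = (τ w).symm ((ω.β v).symm a)) →
  (∀ v a c, Fact.col v a c ∈ F →
    cl ⟨fun v => ω.β v * τ v, ζ', χ'⟩ v ((τ v).symm ((ω.β v).symm a)) = some c) →
  ∀ f ∈ F, holds ⟨fun v => ω.β v * τ v, ζ', χ'⟩ f

/-- A01 (c): the facts of an answer are all valid true facts at the element. -/
def S_StarClosed : Prop := ∀ (k n : ℕ) (ω : GW k n) (v : Vx k) (a : Lb n) (b : Fin 4 → Lb n)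
  (c : Bool) (f : Fact k n), (∀ g ∈ star v a b c, holds ω g) → Valid f → (v, a) ∈ touch f →
  holds ω f → f ∈ star v a b c

/-- A04 (a): evaluation of trees in a covering. -/
def S_Ev : Prop := ∀ (k n : ℕ) (ω : GW k n) (T : Tree k n),
  Br T (ev ω T).1 (ev ω T).2 ∧
  ((∀ v : Vx k, bd v = true → (ω.χ v).isSome = true) → ∀ f ∈ (ev ω T).1, holds ω f) ∧
  (∀ F r, Br T F r → (∀ f ∈ F, holds ω f) → F = (ev ω T).1 ∧ r = (ev ω T).2)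

/-- A04 (b): two branches of a tree that hold in the same covering are equal. -/
def S_BrUnique : Prop := ∀ (k n : ℕ) (ω : GW k n) (T : Tree k n) (F F' : Finset (Fact k n))
  (r r' : Bool), Br T F r → Br T F' r' → (∀ f ∈ F, holds ω f) → (∀ f ∈ F', holds ω f) →
  F = F' ∧ r = r'

/-- A05: revealing the special sheets in the box `[0, r] ^ 2`. -/
def S_Ball : Prop := ∀ (k n r : ℕ), ∃ T : Tree k n, HLe (2 * (r + 1) ^ 2) T ∧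
  ∀ F b, Br T F b → SB r F

/-- A06: monotonicity in the restriction. -/
def S_ResMono : Prop := ∀ (k n : ℕ) (ρ' ρ : Res k n), ρ'.Le ρ →
  (∀ β ζ, Ext ρ' β ζ → Ext ρ β ζ) ∧ (∀ F, Con ρ' F → Con ρ F) ∧
  (∀ f, SetTrue ρ f → SetTrue ρ' f) ∧ (∀ ρ'' : Res k n, ρ''.Le ρ' → ρ''.Le ρ) ∧
  (∀ h m Tx T, OrRep ρ h m Tx T → OrRep ρ' h m Tx T)

/-- A08: the extension property, one query. -/
def S_Ext1 : Prop := ∀ (k n : ℕ) (ρ : Res k n) (F : Finset (Fact k n)) (v : Vx k) (a : Lb n),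
  (∀ f ∈ F, Valid f) → Con ρ F → 2 * F.card + 3 ≤ k → F.card + 4 ≤ ρ.I.card →
  ∃ b c, (bd v = true ∨ c = false) ∧ Con ρ (F ∪ star v a b c)

/-- A09: the extension property, trees. -/
def S_Ext : Prop := ∀ (k n h : ℕ) (ρ : Res k n) (F : Finset (Fact k n)) (T : Tree k n),
  (∀ f ∈ F, Valid f) → Con ρ F → HLe h T → 2 * (F.card + 9 * h) + 3 ≤ k →
  F.card + 9 * h + 4 ≤ ρ.I.card → ∃ F' r, Br T F' r ∧ Con ρ (F ∪ F')

/-- A10: local embedding of the coverings `gw ρ N`. -/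
def S_LE : Prop := ∀ (k n : ℕ) (ρ : Res k n) (N N' : ℕ) (F : Finset (Fact k n)),
  (∀ f ∈ F, Valid f) → (∀ f ∈ F, holds (gw ρ N) f) → (∀ f ∈ F, holds (gw ρ N') f) →
  N + F.card + 1 ≤ N' → N' < k → F.card + 4 ≤ ρ.I.card → Con ρ F

/-- A13: the undecided part of a consistent term splits into at most `w` groups. -/
def S_Emb : Prop := ∀ (k n w r : ℕ) (ρ : Res k n) (π F : Finset (Fact k n)),
  (∀ f ∈ F, Valid f) → F.card ≤ w → w ≤ r → SB r π → Con ρ (π ∪ F) →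
  ∃ G : Fin w → Grp k n,
    (∀ g, (G g).supp.card ≤ 2 * w) ∧
    (∀ g, ∀ v ∈ (G g).supp, (ρ.β v).symm ((G g).p v) ∈ ρ.I) ∧
    (∀ g, crn k ∈ (G g).supp → (G g).p (crn k) ≠ 0 ∧ (G g).p (crn k) ≠ 1) ∧
    (∀ g g', g ≠ g' → ∀ v, v ∈ (G g).supp → v ∈ (G g').supp → (G g).p v ≠ (G g').p v) ∧
    (∀ f ∈ F, ¬ Dec ρ π f → ∃ g, Carries (G g) f) ∧
    (∀ g, ∀ v ∈ (G g).supp, ∃ f ∈ F, ¬ Dec ρ π f ∧ (v, (G g).p v) ∈ touch f)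

open Classical in
/-- The finite set of all extensions of a restriction. -/
noncomputable def Om {k n : ℕ} (ρ : Res k n) :
    Finset ((Vx k → Equiv.Perm (Lb n)) × (Lb n → Bool)) :=
  Finset.univ.filter (fun ω => Ext ρ ω.1 ω.2)

/-- the extension `ω` is bad if the restriction `(ω, I1)` is `Bad` -/
def BadW {k n : ℕ} (I1 : Finset (Lb n)) (π : Finset (Fact k n)) (𝓣 : Set (Finset (Fact k n)))
    (q : ℕ) (ω : (Vx k → Equiv.Perm (Lb n)) × (Lb n → Bool)) : Prop :=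
  ∃ ρ1 : Res k n, ρ1.β = ω.1 ∧ ρ1.ζ = ω.2 ∧ ρ1.I = I1 ∧ Bad ρ1 π 𝓣 q

open Classical in
/-- A14: the modification lemma. A bad extension `ω` of `ρ`; for every injective choice `i` of
known sheets outside a set `D` of at most `q * w` indices there is a modified extension `ω'`; the
pair `(ω', i)` and a code `s` determine `ω`; all `ω'`, `i` satisfy the counting condition. -/
def S_Mod : Prop := ∀ (k n w r q : ℕ) (ρ : Res k n) (I1 : Finset (Lb n))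
  (π : Finset (Fact k n)) (𝓣 : Set (Finset (Fact k n))), I1 ⊆ ρ.I → 0 ∈ I1 → 1 ∈ I1 →
  (∀ F ∈ 𝓣, F.card ≤ w ∧ ∀ f ∈ F, Valid f) → w ≤ r → SB r π →
  ∃ 𝓔 : ((Vx k → Equiv.Perm (Lb n)) × (Lb n → Bool)) → Set (Finset (Lb n)),
    (∀ ω', ∀ E ∈ 𝓔 ω', E.card ≤ w) ∧
    ∃ rec : ((Vx k → Equiv.Perm (Lb n)) × (Lb n → Bool)) → (Fin (q * w) → Lb n) →
        (Fin (q * w) → (Fin (2 * w) → Option (Vx k × I1)) × Bool) →
        ((Vx k → Equiv.Perm (Lb n)) × (Lb n → Bool)),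
      ∀ ω ∈ Om ρ, BadW I1 π 𝓣 q ω → ∃ D : Finset (Lb n), D.card ≤ q * w ∧
        ∀ i : Fin (q * w) → Lb n, Function.Injective i → (∀ g, i g ∈ (ρ.I \ I1) \ D) →
          ∃ ω' ∈ Om ρ, ∃ s, rec ω' i s = ω ∧ (∀ E ∈ 𝓔 ω', ∃ g, i g ∈ E) ∧
            ∃ Es : Fin q → Finset (Lb n), (∀ j, Es j ∈ 𝓔 ω') ∧
              ∀ j j', j ≠ j' → ∀ g, ¬ (i g ∈ Es j ∧ i g ∈ Es j')

open Classical in
/-- A15: the hitting lemma for one task. -/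
def S_Hit1 : Prop := ∀ (k n w r q : ℕ) (ρ : Res k n) (I1 : Finset (Lb n))
  (π : Finset (Fact k n)) (𝓣 : Set (Finset (Fact k n))), I1 ⊆ ρ.I → 0 ∈ I1 → 1 ∈ I1 →
  (∀ F ∈ 𝓣, F.card ≤ w ∧ ∀ f ∈ F, Valid f) → w ≤ r → SB r π →
  2 * (I1.card + 2 * (q * w)) ≤ ρ.I.card →
  ((Om ρ).filter (BadW I1 π 𝓣 q)).card * ρ.I.card ^ q ≤
    (Om ρ).card * ((q * w * w) ^ q *
      (4 * ((k + 1) ^ 2 * I1.card + 1) ^ (2 * w)) ^ (q * w))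

/-- A16: the hitting lemma for polynomially many tasks. -/
def S_Hit : Prop := ∀ w B : ℕ, ∃ q A m0 : ℕ, 1 ≤ A ∧
  ∀ (k n m : ℕ) (ρ : Res k n) (ι : Type) [Fintype ι] (π : ι → Finset (Fact k n))
    (𝓣 : ι → Set (Finset (Fact k n))), m0 ≤ m → (k + 1) ^ 2 ≤ m → ρ.I.card = m ^ A →
    Fintype.card ι ≤ (m ^ A) ^ B → (∀ i, SB w (π i)) →
    (∀ i, ∀ F ∈ 𝓣 i, F.card ≤ w ∧ ∀ f ∈ F, Valid f) →
    ∃ ρ' : Res k n, ρ'.Le ρ ∧ ρ'.I.card = m ∧ ∀ i, ¬ Bad ρ' (π i) (𝓣 i) q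

open Classical in
/-- A17: if `Bad` fails then either a term is decided or few elements meet the undecided part of
every consistent term. -/
def S_Greedy : Prop := ∀ (k n w q : ℕ) (ρ : Res k n) (π : Finset (Fact k n))
  (𝓣 : Set (Finset (Fact k n))), (∀ F ∈ 𝓣, F.card ≤ w) → ¬ Bad ρ π 𝓣 q →
  (∃ F ∈ 𝓣, ∀ f ∈ F, Dec ρ π f) ∨
  ∃ H : Finset (Vx k × Lb n), H.card ≤ 2 * w * q ∧
    ∀ F ∈ 𝓣, Con ρ (π ∪ F) → ∃ f ∈ F, ¬ Dec ρ π f ∧ ¬ Disjoint (touch f) H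

open Classical in
/-- A18: the round lemma. -/
def S_Round : Prop := ∀ j w B : ℕ, ∃ h A m0 : ℕ, 1 ≤ A ∧
  ∀ (k n m : ℕ) (ρ : Res k n) (ι : Type) [Fintype ι] (π : ι → Finset (Fact k n))
    (𝓣 : ι → Set (Finset (Fact k n))), m0 ≤ m → (k + 1) ^ 2 ≤ m → ρ.I.card = m ^ A →
    n + 1 ≤ (m ^ A) ^ B → Fintype.card ι ≤ (m ^ A) ^ B → (∀ i, SB w (π i)) →
    (∀ i, ∀ F ∈ 𝓣 i, F.card ≤ w ∧ ∀ f ∈ F, Valid f) →
    (∀ i, ∀ F ∈ 𝓣 i, Con ρ (π i ∪ F) → (F.filter (fun f => ¬ Dec ρ (π i) f)).card ≤ j) →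
    ∃ ρ' : Res k n, ρ'.Le ρ ∧ ρ'.I.card = m ∧
      ∀ i, ∃ T, HLe h T ∧ OrSet ρ' (π i) (𝓣 i) T

/-- A19: the OR lemma. -/
def S_OR : Prop := ∀ w B : ℕ, ∃ h A m0 : ℕ, 1 ≤ A ∧
  ∀ (k n m : ℕ) (ρ : Res k n) (ι : Type) [Fintype ι] (M : ι → ℕ) (Tx : ι → ℕ → Tree k n),
    m0 ≤ m → (k + 1) ^ 2 ≤ m → ρ.I.card = m ^ A → n + 1 ≤ (m ^ A) ^ B →
    Fintype.card ι ≤ (m ^ A) ^ B → (∀ i x, x ≤ M i → HLe w (Tx i x)) →
    ∃ ρ' : Res k n, ρ'.Le ρ ∧ ρ'.I.card = m ∧ ∀ i, ∃ T, OrRep ρ' h (M i) (Tx i) T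

/-- A20 (a): monotonicity of `Rep`. -/
def S_RepMono : Prop := ∀ (k n : ℕ) (ρ' ρ : Res k n) (h h' v : ℕ) (φ : Gm v) (e : Fin v → ℕ)
  (T : Tree k n), ρ'.Le ρ → h ≤ h' → Rep ρ h φ e T → Rep ρ' h' φ e T

/-- A20 (b): height of trees in `Rep`. -/
def S_RepHLe : Prop := ∀ (k n : ℕ) (ρ : Res k n) (h v : ℕ) (φ : Gm v) (e : Fin v → ℕ)
  (T : Tree k n), Rep ρ h φ e T → HLe h T

/-- A22: existence of trees for formulas. -/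
def S_Exist : Prop := ∀ (v : ℕ) (φ : Gm v) (J B : ℕ), ∃ h A m0 : ℕ, 1 ≤ A ∧
  ∀ (k n m : ℕ) (ρ : Res k n), m0 ≤ m → (k + 1) ^ 2 ≤ m → ρ.I.card = m ^ A →
    n + 1 ≤ (m ^ A) ^ B → ∃ ρ' : Res k n, ρ'.Le ρ ∧ ρ'.I.card = m ∧
      ∀ e : Fin v → ℕ, (∀ j, e j ≤ (n + 1) ^ J) → ∃ T, Rep ρ' h φ e T

/-- The output of the finite combinatorics: a sequence of restrictions. -/
structure SD where
  kk : ℕ → ℕ
  nn : ℕ → ℕ
  ρ : ∀ i, Res (kk i) (nn i)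
  le_kk : ∀ i, i ≤ kk i
  le_I : ∀ i, i ≤ (ρ i).I.card
  pow_le : ∀ i, 2 ^ kk i ≤ nn i + 1
  ex : ∀ (v : ℕ) (φ : Gm v) (J : ℕ), ∃ h i0 : ℕ, ∀ i, i0 ≤ i → ∀ e : Fin v → ℕ,
    (∀ j, e j ≤ (nn i + 1) ^ J) → ∃ T, Rep (ρ i) h φ e T

/-- A24: the diagonal construction. -/
def S_Seq : Prop := Nonempty SD

end Pool.Agent.Work.MP_610017_lc.PP
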