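import Mathlib
import Pool.Agent.Work.MP_610017_lc.PP.StmtsA
import Pool.Agent.Work.MP_610017_lc.Bd.B02

/-!
# A05: revealing the special sheet in the box `[0, r] ^ 2`  (MP_610017_lc, item Ball)
-/

set_option autoImplicit false

namespace Pool.Agent.Work.MP_610017_lc.PP

/-- the facts in `F` reveal the label of the special sheet `i` at the vertex `v` -/
def BallRev {k n : ℕ} (i : Lb n) (F : Finset (Fact k n)) (v : Vx k) : Prop :=
  ∃ (a : Lb n) (b : Fin 4 → Lb n) (c : Bool), star v a b c ⊆ F ∧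
    ∀ ω : GW k n, ω.β (crn k) i = i → (∀ f ∈ F, holds ω f) → ω.β v i = a

theorem Ball_mono {k n : ℕ} {i : Lb n} {F F' : Finset (Fact k n)} {v : Vx k} (h : F ⊆ F')
    (hr : BallRev i F v) : BallRev i F' v := by
  obtain ⟨a, b, c, hs, hw⟩ := hr
  exact ⟨a, b, c, hs.trans h, fun ω h0 hf => hw ω h0 (fun f hf' => hf f (h hf'))⟩

theorem Ball_nb {k n : ℕ} {i : Lb n} {F : Finset (Fact k n)} {u : Vx k} (d : Fin 4)
    (hr : BallRev i F u) :
    ∃ x : Lb n, ∀ (F' : Finset (Fact k n)), F ⊆ F' → ∀ b' c',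
      BallRev i (F' ∪ star (nb u d) x b' c') (nb u d) := by
  obtain ⟨a, b, c, hs, hw⟩ := hr
  refine ⟨b d, fun F' hF b' c' => ⟨b d, b', c', Finset.subset_union_right, fun ω h0 hf => ?_⟩⟩
  have h1 : ω.β u i = a := hw ω h0 (fun f hf' => hf f (Finset.mem_union_left _ (hF hf')))
  have hmem : Fact.edge u (nb u d) a (b d) ∈ star u a b c := by
    unfold star
    exact Finset.mem_union_left _ (Finset.mem_union_left _
      (Finset.mem_image.mpr ⟨d, Finset.mem_univ _, rfl⟩))
  have h2 : holds ω (Fact.edge u (nb u d) a (b d)) :=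
    hf _ (Finset.mem_union_left _ (hF (hs hmem)))
  have h2' : (ω.β u).symm a = (ω.β (nb u d)).symm (b d) := h2
  have h3 : (ω.β u).symm a = i := by rw [← h1]; simp
  rw [h3] at h2'
  rw [h2']; simp

theorem Ball_step (hG : S_Graft) {k n h : ℕ} (i : Lb n) (V : Vx k → Prop) (u : Vx k) (hu : V u) (d : Fin 4)
    (hT : ∃ T : Tree k n, HLe h T ∧ ∀ F b, Br T F b → ∀ v, V v → BallRev i F v) :
    ∃ T : Tree k n, HLe (h + 1) T ∧
      ∀ F b, Br T F b → ∀ v, (V v ∨ v = nb u d) → BallRev i F v := by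
  obtain ⟨Q, hQ1, hQ2⟩ := hT
  obtain ⟨T, hT1, hT2⟩ := hG k n h 1 Q
    (fun F T => ∃ x : Lb n, (∀ (F' : Finset (Fact k n)), F ⊆ F' → ∀ b' c',
      BallRev i (F' ∪ star (nb u d) x b' c') (nb u d)) ∧
      T = Tree.node (nb u d) x (fun _ _ => Tree.leaf true)) hQ1 (by
        intro F r hF
        obtain ⟨x, hx⟩ := Ball_nb d (hQ2 F r hF u hu)
        refine ⟨Tree.node (nb u d) x (fun _ _ => Tree.leaf true), ?_, x, hx, rfl⟩
        intro b c
        simp [HLe])
  refine ⟨T, hT1, fun F r hF v hv => ?_⟩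
  obtain ⟨F1, r1, F2, T2, hB1, ⟨x, hx, rfl⟩, hB2, rfl⟩ := hT2 F r hF
  rcases hv with hv | rfl
  · exact Ball_mono Finset.subset_union_left (hQ2 F1 r1 hB1 v hv)
  · cases hB2 with
    | node _ _ _ b c F0 _ hc h0 =>
      cases h0
      rw [Finset.union_empty]
      exact hx F1 (Finset.Subset.refl _) b c

theorem Ball_fin_up {k : ℕ} (x : Fin (k + 1)) (h : 1 ≤ x.val) :
    ∃ y : Fin (k + 1), y.val + 1 = x.val ∧ up1 y = x := by
  refine ⟨⟨x.val - 1, by omega⟩, by simp; omega, ?_⟩
  apply Fin.ext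
  unfold up1
  have := x.isLt
  simp only
  omega

theorem Ball_claim (hG : S_Graft) (hM : S_HLeMono) (k n r : ℕ) (i : Lb n) (j : ℕ) :
    ∃ T : Tree k n, HLe (j + 1) T ∧ ∀ F b, Br T F b → ∀ v : Vx k,
      (v.1.val ≤ r ∧ v.2.val * (r + 1) + v.1.val ≤ j) → BallRev i F v := by
  induction j with
  | zero =>
    refine ⟨Tree.node (crn k) i (fun _ _ => Tree.leaf true), ?_, ?_⟩
    · intro b c
      simp [HLe]
    · intro F b hB v hv
      have h1 : v.1.val = 0 := by omega
      have h2 : v.2.val = 0 := by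
        have : v.2.val * (r + 1) = 0 := by omega
        rcases Nat.mul_eq_zero.mp this with h | h
        · exact h
        · omega
      have hv0 : v = crn k := by
        apply Prod.ext
        · apply Fin.ext; simpa [crn] using h1
        · apply Fin.ext; simpa [crn] using h2
      subst hv0
      cases hB with
      | node _ _ _ b c F0 _ hc h0 =>
        cases h0
        rw [Finset.union_empty]
        exact ⟨i, b, c, Finset.Subset.refl _, fun ω h0 _ => h0⟩
  | succ j ih =>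
    by_cases hex : ∃ v : Vx k, v.1.val ≤ r ∧ v.2.val * (r + 1) + v.1.val = j + 1
    · obtain ⟨v0, hv1, hv2⟩ := hex
      have key : ∃ (u : Vx k) (d : Fin 4),
          (u.1.val ≤ r ∧ u.2.val * (r + 1) + u.1.val ≤ j) ∧ v0 = nb u d := by
        by_cases h0 : 1 ≤ v0.1.val
        · obtain ⟨y, hy1, hy2⟩ := Ball_fin_up v0.1 h0
          refine ⟨(y, v0.2), 0, ⟨by simp; omega, by simp; omega⟩, ?_⟩
          apply Prod.ext
          · simp [nb, hy2]
          · simp [nb]
        · have h0' : v0.1.val = 0 := by omega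
          have h2 : 1 ≤ v0.2.val := by
            by_contra hc
            have : v0.2.val = 0 := by omega
            rw [this] at hv2
            omega
          obtain ⟨y, hy1, hy2⟩ := Ball_fin_up v0.2 h2
          refine ⟨(v0.1, y), 1, ⟨by simp; omega, ?_⟩, ?_⟩
          · simp only
            rw [← hy1, h0'] at hv2
            rw [h0']
            have : (y.val + 1) * (r + 1) = y.val * (r + 1) + (r + 1) := by ring
            omega
          · apply Prod.ext
            · simp [nb]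
            · simp [nb, hy2]
      obtain ⟨u, d, hu, hd⟩ := key
      obtain ⟨T, hT1, hT2⟩ := Ball_step (n := n) hG i
        (fun v : Vx k => v.1.val ≤ r ∧ v.2.val * (r + 1) + v.1.val ≤ j) u hu d ih
      refine ⟨T, hT1, fun F b hB v hv => hT2 F b hB v ?_⟩
      by_cases hj : v.2.val * (r + 1) + v.1.val ≤ j
      · exact Or.inl ⟨hv.1, hj⟩
      · right
        rw [← hd]
        have he : v.2.val * (r + 1) + v.1.val = v0.2.val * (r + 1) + v0.1.val := by omega
        have hlt1 : v.1.val < r + 1 := by omega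
        have hlt2 : v0.1.val < r + 1 := by omega
        have hmod : v.1.val = v0.1.val := by
          have h1 : (v.2.val * (r + 1) + v.1.val) % (r + 1) = v.1.val := by
            rw [Nat.mul_comm, Nat.mul_add_mod, Nat.mod_eq_of_lt hlt1]
          have h2 : (v0.2.val * (r + 1) + v0.1.val) % (r + 1) = v0.1.val := by
            rw [Nat.mul_comm, Nat.mul_add_mod, Nat.mod_eq_of_lt hlt2]
          rw [← h1, ← h2, he]
        have hdiv : v.2.val = v0.2.val := by
          have : v.2.val * (r + 1) = v0.2.val * (r + 1) := by omega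
          exact Nat.eq_of_mul_eq_mul_right (by omega) this
        exact Prod.ext (Fin.ext hmod) (Fin.ext hdiv)
    · obtain ⟨T, hT1, hT2⟩ := ih
      refine ⟨T, hM k n (j + 1) (j + 1 + 1) T (by omega) hT1, fun F b hB v hv => hT2 F b hB v ?_⟩
      refine ⟨hv.1, ?_⟩
      by_contra hc
      exact hex ⟨v, hv.1, by omega⟩

/-- the tree for one special sheet -/
theorem Ball_one (hG : S_Graft) (hM : S_HLeMono) (k n r : ℕ) (i : Lb n) :
    ∃ T : Tree k n, HLe ((r + 1) ^ 2) T ∧ ∀ F b, Br T F b → ∀ v : Vx k,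
      v.1.val ≤ r → v.2.val ≤ r → BallRev i F v := by
  obtain ⟨T, hT1, hT2⟩ := Ball_claim hG hM k n r i ((r + 1) ^ 2 - 1)
  have hpos : 1 ≤ (r + 1) ^ 2 := Nat.one_le_pow _ _ (by omega)
  have heq : (r + 1) ^ 2 - 1 + 1 = (r + 1) ^ 2 := by omega
  rw [heq] at hT1
  refine ⟨T, hT1, fun F b hB v hv1 hv2 => ?_⟩
  refine hT2 F b hB v ⟨hv1, ?_⟩
  have h1 : v.2.val * (r + 1) ≤ r * (r + 1) := Nat.mul_le_mul_right _ hv2
  have h2 : (r + 1) ^ 2 = r * (r + 1) + (r + 1) := by ring
  omega

/-- A05: revealing the special sheets in the box `[0, r] ^ 2`. -/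
theorem prf_Ball (hG : S_Graft) (hC : S_StarClosed) (hM : S_HLeMono) : S_Ball := by
  intro k n r
  obtain ⟨T0, hT01, hT02⟩ := Ball_one hG hM k n r 0
  obtain ⟨T1, hT11, hT12⟩ := Ball_one hG hM k n r 1
  obtain ⟨T, hT1, hT2⟩ := hG k n _ _ T0 (fun _ T => T = T1) hT01
    (fun F r' hF => ⟨T1, hT11, rfl⟩)
  refine ⟨T, ?_, fun F b hB => ?_⟩
  · rw [two_mul]
    exact hT1
  obtain ⟨F1, r1, F2, T2, hB1, rfl, hB2, rfl⟩ := hT2 F b hB
  intro ω h0 h01 hF v hv1 hv2 i hi f hval htouch hhold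
  have hrev : ∃ (a : Lb n) (b' : Fin 4 → Lb n) (c : Bool), star v a b' c ⊆ F1 ∪ F2 ∧
      ω.β v i = a := by
    rcases hi with rfl | rfl
    · obtain ⟨a, b', c, hs, hw⟩ := hT02 F1 r1 hB1 v hv1 hv2
      exact ⟨a, b', c, hs.trans Finset.subset_union_left,
        hw ω h0 fun g hg => hF g (Finset.mem_union_left _ hg)⟩
    · obtain ⟨a, b', c, hs, hw⟩ := hT12 F2 b hB2 v hv1 hv2
      exact ⟨a, b', c, hs.trans Finset.subset_union_right,
        hw ω h01 fun g hg => hF g (Finset.mem_union_right _ hg)⟩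
  obtain ⟨a, b', c, hs, ha⟩ := hrev
  rw [ha] at htouch
  exact hs (hC k n ω v a b' c f (fun g hg => hF g (hs hg)) hval htouch hhold)

end Pool.Agent.Work.MP_610017_lc.PP
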