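import Mathlib
import Pool.Agent.Work.MP_610017_lc.PP.StmtsA
import Pool.Agent.Work.MP_610017_lc.Bd.B02

/-!
# A13: the undecided part of a consistent term splits into at most `w` groups
-/

set_option autoImplicit false

namespace Pool.Agent.Work.MP_610017_lc.PP

/-- the index of the sheet of the first element of a fact -/
def Emb_ix {k n : ℕ} (ω : GW k n) : Fact k n → Lb n
  | .edge v _ a _ => (ω.β v).symm a
  | .col v a _ => (ω.β v).symm a

/-- the first vertex of a fact -/
def Emb_fv {k n : ℕ} : Fact k n → Vx k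
  | .edge v _ _ _ => v
  | .col v _ _ => v

/-- the lower level of a fact -/
def Emb_lv {k n : ℕ} : Fact k n → ℕ
  | .edge v w _ _ => min v.2.val w.2.val
  | .col _ _ _ => 0

lemma Emb_idx {k n : ℕ} {ω : GW k n} {f : Fact k n} (hf : holds ω f) {v : Vx k} {a : Lb n}
    (h : (v, a) ∈ touch f) : (ω.β v).symm a = Emb_ix ω f := by
  cases f with
  | edge v1 w1 a1 b1 =>
    simp only [touch, Finset.mem_insert, Finset.mem_singleton, Prod.mk.injEq] at h
    rcases h with ⟨rfl, rfl⟩ | ⟨rfl, rfl⟩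
    · rfl
    · exact hf.symm
  | col v1 a1 c1 =>
    simp only [touch, Finset.mem_singleton, Prod.mk.injEq] at h
    obtain ⟨rfl, rfl⟩ := h
    rfl

lemma Emb_fv_touch {k n : ℕ} (f : Fact k n) : ∃ a, (Emb_fv f, a) ∈ touch f := by
  cases f with
  | edge v1 w1 a1 b1 => exact ⟨a1, by simp [touch, Emb_fv]⟩
  | col v1 a1 c1 => exact ⟨a1, by simp [touch, Emb_fv]⟩

lemma Emb_touch_card {k n : ℕ} (f : Fact k n) : (touch f).card ≤ 2 := by
  cases f with
  | edge v1 w1 a1 b1 => exact Finset.card_le_two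
  | col v1 a1 c1 => simp [touch]

/-- An undecided true fact is on an unknown sheet. -/
lemma Emb_mem_I {k n : ℕ} {ρ : Res k n} {ω : GW k n} {π : Finset (Fact k n)} {f : Fact k n}
    (hext : Ext ρ ω.β ω.ζ) (hf : holds ω f) (hd : ¬ Dec ρ π f) : Emb_ix ω f ∈ ρ.I := by
  by_contra hi
  apply hd
  refine Or.inr ?_
  cases f with
  | edge v w a b =>
    change (ω.β v).symm a ∉ ρ.I at hi
    refine ⟨(ω.β v).symm a, hi, ?_, ?_⟩
    · rw [← hext.beta v _ hi, Equiv.apply_symm_apply]
    · rw [← hext.beta w _ hi]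
      have h : (ω.β v).symm a = (ω.β w).symm b := hf
      rw [h, Equiv.apply_symm_apply]
  | col v a c =>
    change (ω.β v).symm a ∉ ρ.I at hi
    refine ⟨(ω.β v).symm a, hi, ?_, ?_⟩
    · rw [← hext.beta v _ hi, Equiv.apply_symm_apply]
    · have h0 : (ω.β v).symm a ≠ 0 := by
        intro h0
        apply hi
        rw [h0]
        exact ρ.zero_mem
      have h01 : (ω.β v).symm a ≠ 1 := by
        intro h0
        apply hi
        rw [h0]
        exact ρ.one_mem
      have h : cl ω v ((ω.β v).symm a) = some c := hf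
      unfold cl at h
      rw [if_neg h0, if_neg h01] at h
      rw [← hext.zeta _ hi]
      exact Option.some.inj h

/-- An enumeration of a small finite set. -/
lemma Emb_enum {α : Type} (K : Finset α) (w : ℕ) (h : K.card ≤ w) :
    ∃ s : Fin w → Option α, (∀ g g' κ, s g = some κ → s g' = some κ → g = g') ∧
      ∀ κ ∈ K, ∃ g, s g = some κ := by
  classical
  obtain ⟨e⟩ : Nonempty (K ↪ Fin w) :=
    Function.Embedding.nonempty_of_card_le (by simpa using h)
  refine ⟨fun g => if h : ∃ κ : K, e κ = g then some (h.choose : α) else none, ?_, ?_⟩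
  · intro g g' κ h1 h2
    by_cases hg : ∃ κ : K, e κ = g
    · by_cases hg' : ∃ κ : K, e κ = g'
      · simp only [dif_pos hg, Option.some.injEq] at h1
        simp only [dif_pos hg', Option.some.injEq] at h2
        have h3 : hg.choose = hg'.choose := Subtype.ext (h1.trans h2.symm)
        rw [← hg.choose_spec, ← hg'.choose_spec, h3]
      · simp only [dif_neg hg', reduceCtorEq] at h2
    · simp only [dif_neg hg, reduceCtorEq] at h1
  · intro κ hκ
    have hg : ∃ κ' : K, e κ' = e ⟨κ, hκ⟩ := ⟨⟨κ, hκ⟩, rfl⟩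
    refine ⟨e ⟨κ, hκ⟩, ?_⟩
    simp only [dif_pos hg, Option.some.injEq]
    have h3 : hg.choose = ⟨κ, hκ⟩ := e.injective hg.choose_spec
    rw [h3]

theorem prf_Emb (hL : S_NbLevel) : S_Emb := by
  classical
  intro k n w r ρ π F hval hFw hwr hSB hcon
  obtain ⟨η, hext, hχ, hold⟩ := hcon
  have hπ : ∀ f ∈ π, holds η f := fun f hf => hold f (Finset.mem_union_left _ hf)
  have hF : ∀ f ∈ F, holds η f := fun f hf => hold f (Finset.mem_union_right _ hf)
  set U := F.filter (fun f => ¬ Dec ρ π f) with hU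
  have hUF : ∀ f ∈ U, f ∈ F := fun f hf => (Finset.mem_filter.1 hf).1
  have hUD : ∀ f ∈ U, ¬ Dec ρ π f := fun f hf => (Finset.mem_filter.1 hf).2
  have hUh : ∀ f ∈ U, holds η f := fun f hf => hF f (hUF f hf)
  have hUcard : U.card ≤ w := (Finset.card_filter_le _ _).trans hFw
  -- (1)
  have s1 : ∀ f ∈ U, Emb_ix η f ∈ ρ.I := fun f hf => Emb_mem_I hext (hUh f hf) (hUD f hf)
  -- (2)
  have s2 : ∀ f ∈ U, (Emb_ix η f = 0 ∨ Emb_ix η f = 1) → ∀ v a, (v, a) ∈ touch f →
      ¬ (v.1.val ≤ r ∧ v.2.val ≤ r) := by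
    intro f hf h0 v a hva hle
    have h1 : (η.β v).symm a = Emb_ix η f := Emb_idx (hUh f hf) hva
    have h2 : a = η.β v (Emb_ix η f) := by rw [← h1, Equiv.apply_symm_apply]
    have h3 := hSB η hext.corner hext.corner1 hπ v hle.1 hle.2 _ h0 f (hval f (hUF f hf))
      (h2 ▸ hva) (hUh f hf)
    exact hUD f hf (Or.inl h3)
  -- (3)
  obtain ⟨j, hjr, hj⟩ : ∃ j, j ≤ r ∧ j ∉ U.image Emb_lv := by
    by_contra hcon
    push Not at hcon
    have h1 : Finset.range (r + 1) ⊆ U.image Emb_lv := fun j hj =>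
      hcon j (Nat.lt_succ_iff.1 (Finset.mem_range.1 hj))
    have h2 := (Finset.card_le_card h1).trans Finset.card_image_le
    rw [Finset.card_range] at h2
    omega
  have s3 : ∀ f ∈ U, ∀ v a, (v, a) ∈ touch f → (v.2.val ≤ j ↔ (Emb_fv f).2.val ≤ j) := by
    intro f hf v a hva
    cases f with
    | edge v1 w1 a1 b1 =>
      obtain ⟨d, hd⟩ := hval _ (hUF _ hf)
      have h1 := (hL k v1 d).1
      rw [← hd] at h1
      have h2 : min v1.2.val w1.2.val ≠ j := fun h =>
        hj (Finset.mem_image.2 ⟨_, hf, h⟩)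
      simp only [touch, Finset.mem_insert, Finset.mem_singleton, Prod.mk.injEq] at hva
      rcases hva with ⟨rfl, rfl⟩ | ⟨rfl, rfl⟩
      · exact Iff.rfl
      · simp only [Emb_fv]
        omega
    | col v1 a1 c1 =>
      simp only [touch, Finset.mem_singleton, Prod.mk.injEq] at hva
      obtain ⟨rfl, rfl⟩ := hva
      exact Iff.rfl
  -- keys and groups
  set key : Fact k n → Lb n × Bool := fun f =>
    (Emb_ix η f, decide ((Emb_ix η f = 0 ∨ Emb_ix η f = 1) ∧ (Emb_fv f).2.val ≤ j)) with hkey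
  obtain ⟨s, hs1, hs2⟩ := Emb_enum (U.image key) w (Finset.card_image_le.trans hUcard)
  set Gk : Lb n × Bool → Grp k n := fun κ =>
    ⟨(U.filter (fun f => key f = κ)).biUnion (fun f => (touch f).image Prod.fst),
      fun v => η.β v κ.1, if κ.1 = 0 then κ.2 else if κ.1 = 1 then !κ.2 else η.ζ κ.1⟩ with hGk
  have hsupp : ∀ κ v, v ∈ (Gk κ).supp → ∃ f ∈ U, key f = κ ∧ (v, η.β v κ.1) ∈ touch f := by
    intro κ v hv
    simp only [hGk, Finset.mem_biUnion, Finset.mem_filter, Finset.mem_image] at hv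
    obtain ⟨f, ⟨hf, hfκ⟩, ⟨v', a⟩, hva, rfl⟩ := hv
    refine ⟨f, hf, hfκ, ?_⟩
    have h1 : (η.β v').symm a = κ.1 := by
      rw [Emb_idx (hUh f hf) hva, ← hfκ]
    rw [← h1, Equiv.apply_symm_apply]
    exact hva
  have hsupp2 : ∀ f ∈ U, ∀ v a, (v, a) ∈ touch f → v ∈ (Gk (key f)).supp := by
    intro f hf v a hva
    simp only [hGk, Finset.mem_biUnion, Finset.mem_filter, Finset.mem_image]
    exact ⟨f, ⟨hf, rfl⟩, (v, a), hva, rfl⟩
  have hpv : ∀ f ∈ U, ∀ v a, (v, a) ∈ touch f → η.β v (Emb_ix η f) = a := by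
    intro f hf v a hva
    rw [← Emb_idx (hUh f hf) hva, Equiv.apply_symm_apply]
  set G : Fin w → Grp k n := fun g => (s g).elim ⟨∅, fun _ => 0, false⟩ Gk with hG
  have hGs : ∀ g κ, s g = some κ → G g = Gk κ := by
    intro g κ h
    simp only [hG, h, Option.elim]
  have hGn : ∀ g, s g = none → (G g).supp = ∅ := by
    intro g h
    simp only [hG, h, Option.elim]
  have hcase : ∀ g v, v ∈ (G g).supp → ∃ κ, s g = some κ ∧ G g = Gk κ ∧ v ∈ (Gk κ).supp := by
    intro g v hv
    cases h : s g with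
    | none =>
      rw [hGn g h] at hv
      exact absurd hv (Finset.notMem_empty v)
    | some κ => exact ⟨κ, rfl, hGs g κ h, by rw [← hGs g κ h]; exact hv⟩
  refine ⟨G, ?_, ?_, ?_, ?_, ?_, ?_⟩
  · -- size
    intro g
    cases h : s g with
    | none => rw [hGn g h]; simp
    | some κ =>
      rw [hGs g κ h]
      calc (Gk κ).supp.card ≤ ∑ f ∈ U.filter (fun f => key f = κ),
            ((touch f).image Prod.fst).card := Finset.card_biUnion_le
        _ ≤ ∑ f ∈ U.filter (fun f => key f = κ), 2 := Finset.sum_le_sum fun f _ =>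
            Finset.card_image_le.trans (Emb_touch_card f)
        _ = (U.filter (fun f => key f = κ)).card * 2 := by
            rw [Finset.sum_const, smul_eq_mul]
        _ ≤ U.card * 2 := Nat.mul_le_mul_right 2 (Finset.card_filter_le _ _)
        _ ≤ 2 * w := by omega
  · -- unknown sheets
    intro g v hv
    obtain ⟨κ, -, hgκ, hv⟩ := hcase g v hv
    obtain ⟨f, hf, hfκ, -⟩ := hsupp κ v hv
    rw [hgκ]
    have hi : κ.1 ∈ ρ.I := by
      rw [← hfκ]
      exact s1 f hf
    by_contra hn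
    have h1 := hext.beta v _ hn
    change η.β v ((ρ.β v).symm (η.β v κ.1)) = ρ.β v ((ρ.β v).symm (η.β v κ.1)) at h1
    rw [Equiv.apply_symm_apply] at h1
    have h2 := (η.β v).injective h1
    apply hn
    change (ρ.β v).symm (η.β v κ.1) ∈ ρ.I
    rw [h2]
    exact hi
  · -- corner
    intro g hv
    obtain ⟨κ, -, hgκ, hv⟩ := hcase g _ hv
    obtain ⟨f, hf, hfκ, hvf⟩ := hsupp κ _ hv
    rw [hgκ]
    constructor
    · intro h0
      change η.β (crn k) κ.1 = 0 at h0
      have h1 : κ.1 = 0 := (η.β (crn k)).injective (h0.trans hext.corner.symm)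
      have h2 : Emb_ix η f = 0 := by
        rw [← h1, ← hfκ]
      exact s2 f hf (Or.inl h2) _ _ hvf ⟨Nat.zero_le _, Nat.zero_le _⟩
    · intro h0
      change η.β (crn k) κ.1 = 1 at h0
      have h1 : κ.1 = 1 := (η.β (crn k)).injective (h0.trans hext.corner1.symm)
      have h2 : Emb_ix η f = 1 := by
        rw [← h1, ← hfκ]
      exact s2 f hf (Or.inr h2) _ _ hvf ⟨Nat.zero_le _, Nat.zero_le _⟩
  · -- disjointness
    intro g g' hgg' v hv hv'
    obtain ⟨κ, hsκ, hgκ, hv⟩ := hcase g v hv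
    obtain ⟨κ', hsκ', hgκ', hv'⟩ := hcase g' v hv'
    obtain ⟨f, hf, hfκ, hvf⟩ := hsupp κ v hv
    obtain ⟨f', hf', hfκ', hvf'⟩ := hsupp κ' v hv'
    rw [hgκ, hgκ']
    intro he
    have h1 : κ.1 = κ'.1 := (η.β v).injective he
    have hne : κ ≠ κ' := by
      intro h
      rw [← h] at hsκ'
      exact hgg' (hs1 g g' κ hsκ hsκ')
    have h2 := s3 f hf v _ hvf
    have h3 := s3 f' hf' v _ hvf'
    apply hne
    refine Prod.ext h1 ?_
    rw [← hfκ, ← hfκ'] at h1 ⊢
    simp only [hkey] at h1 ⊢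
    rw [h1]
    exact decide_eq_decide.2 ⟨fun h => ⟨h.1, h3.1 (h2.2 h.2)⟩, fun h => ⟨h.1, h2.1 (h3.2 h.2)⟩⟩
  · -- carries
    intro f hf hfd
    have hfU : f ∈ U := Finset.mem_filter.2 ⟨hf, hfd⟩
    obtain ⟨g, hg⟩ := hs2 (key f) (Finset.mem_image_of_mem key hfU)
    refine ⟨g, ?_⟩
    rw [hGs g _ hg]
    have hm := hsupp2 f hfU
    have hp := hpv f hfU
    have hh := hUh f hfU
    have h2 := s2 f hfU
    cases f with
    | edge v w a b =>
      exact ⟨hm v a (by simp [touch]), hm w b (by simp [touch]),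
        hp v a (by simp [touch]), hp w b (by simp [touch])⟩
    | col v a c =>
      refine ⟨hm v a (by simp [touch]), hp v a (by simp [touch]), ?_⟩
      have h3 : cl η v ((η.β v).symm a) = some c := hh
      simp only [hGk, hkey, Emb_ix, Emb_fv]
      unfold cl at h3
      by_cases h0 : (η.β v).symm a = 0
      · rw [if_pos h0] at h3 ⊢
        have h4 := h2 (Or.inl h0) v a (by simp [touch])
        rw [hχ] at h3
        simp only [spec] at h3
        split_ifs at h3 with h5 h6
        · rw [Option.some.injEq] at h3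
          rw [← h3]
          exact decide_eq_true ⟨Or.inl h0, by omega⟩
        · rw [Option.some.injEq] at h3
          rw [← h3]
          exact decide_eq_false (fun h => h4 ⟨by omega, by omega⟩)
      by_cases h01 : (η.β v).symm a = 1
      · rw [if_neg h0, if_pos h01] at h3 ⊢
        have h4 := h2 (Or.inr h01) v a (by simp [touch])
        rw [hχ] at h3
        simp only [spec] at h3
        split_ifs at h3 with h5 h6
        · rw [← Option.some.inj h3]
          congr 1
          exact decide_eq_true ⟨Or.inr h01, by omega⟩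
        · rw [← Option.some.inj h3]
          congr 1
          exact decide_eq_false (fun h => h4 ⟨by omega, by omega⟩)
        · exact absurd h3 (by simp)
      · rw [if_neg h0, if_neg h01] at h3 ⊢
        exact Option.some.inj h3
  · -- last property
    intro g v hv
    obtain ⟨κ, -, hgκ, hv⟩ := hcase g v hv
    obtain ⟨f, hf, -, hvf⟩ := hsupp κ v hv
    rw [hgκ]
    exact ⟨f, hUF f hf, hUD f hf, hvf⟩

end Pool.Agent.Work.MP_610017_lc.PP
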