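import Mathlib
import Pool.Agent.Work.MP_610017_lc.PP.StmtsA
import Pool.Agent.Work.MP_610017_lc.Bd.B02

/-!
# Items Ev and BrUnique: evaluation of trees in a covering (MP_610017_lc)
-/

set_option autoImplicit false

namespace Pool.Agent.Work.MP_610017_lc.PP

theorem Ev_star {k n : ℕ} (v : Vx k) (a : Lb n) (b : Fin 4 → Lb n) (c : Bool) (f : Fact k n) :
    f ∈ star v a b c ↔ (∃ d, Fact.edge v (nb v d) a (b d) = f) ∨
      (∃ d, Fact.edge (nb v d) v (b d) a = f) ∨ (bd v = true ∧ f = Fact.col v a c) := by
  unfold star
  rw [Finset.mem_union, Finset.mem_union, or_assoc]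
  refine or_congr ?_ (or_congr ?_ ?_)
  · simp
  · simp
  · by_cases h : bd v = true
    · simp [h]
    · simp [h]

theorem prf_Ev : S_Ev := by
  intro k n ω T
  refine ⟨?_, ?_, ?_⟩
  · induction T with
    | leaf r => exact Br.leaf r
    | node v a next ih =>
      refine Br.node v a next _ _ _ _ ?_ (ih _ _)
      by_cases h : bd v = true
      · exact Or.inl h
      · right
        simp [h]
  · intro hχ
    induction T with
    | leaf r =>
      intro f hf
      exact absurd hf (Finset.notMem_empty f)
    | node v a next ih =>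
      intro f hf
      rcases Finset.mem_union.1 hf with hf | hf
      · rcases (Ev_star _ _ _ _ _).1 hf with ⟨d, rfl⟩ | ⟨d, rfl⟩ | ⟨hb, rfl⟩
        · change (ω.β v).symm a = (ω.β (nb v d)).symm (ω.β (nb v d) ((ω.β v).symm a))
          rw [Equiv.symm_apply_apply]
        · change (ω.β (nb v d)).symm (ω.β (nb v d) ((ω.β v).symm a)) = (ω.β v).symm a
          rw [Equiv.symm_apply_apply]
        · obtain ⟨x, hx⟩ := Option.isSome_iff_exists.1 (hχ v hb)
          have hx2 : ∃ y, cl ω v ((ω.β v).symm a) = some y := by
            unfold cl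
            split_ifs
            · exact ⟨x, hx⟩
            · exact ⟨!x, by rw [hx]; rfl⟩
            · exact ⟨_, rfl⟩
          obtain ⟨y, hy⟩ := hx2
          change cl ω v ((ω.β v).symm a) = some (bd v && (cl ω v ((ω.β v).symm a)).getD false)
          rw [hb, hy]
          rfl
      · exact ih _ _ f hf
  · intro F r hF
    induction hF with
    | leaf r => exact fun _ => ⟨rfl, rfl⟩
    | node v a next b c F r hc h ih =>
      intro hh
      have h1 : ∀ f ∈ star v a b c, holds ω f := fun f hf => hh f (Finset.mem_union_left _ hf)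
      have h2 := ih fun f hf => hh f (Finset.mem_union_right _ hf)
      have hb : b = fun d => ω.β (nb v d) ((ω.β v).symm a) := by
        funext d
        have h3 : (ω.β v).symm a = (ω.β (nb v d)).symm (b d) :=
          h1 (Fact.edge v (nb v d) a (b d)) ((Ev_star _ _ _ _ _).2 (Or.inl ⟨d, rfl⟩))
        rw [h3, Equiv.apply_symm_apply]
      have hcc : c = (bd v && (cl ω v ((ω.β v).symm a)).getD false) := by
        by_cases hv : bd v = true
        · have h3 : cl ω v ((ω.β v).symm a) = some c :=
            h1 (Fact.col v a c) ((Ev_star _ _ _ _ _).2 (Or.inr (Or.inr ⟨hv, rfl⟩)))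
          rw [hv, Bool.true_and, h3]
          rfl
        · have hv' : bd v = false := by simpa using hv
          rcases hc with hc | hc
          · exact absurd hc hv
          · rw [hv', Bool.false_and]
            exact hc
      subst hb
      subst hcc
      refine ⟨?_, h2.2⟩
      rw [h2.1]
      rfl

theorem prf_BrUnique : S_BrUnique := by
  intro k n ω T F F' r r' h h' hF hF'
  have h1 := (prf_Ev k n ω T).2.2 F r h hF
  have h2 := (prf_Ev k n ω T).2.2 F' r' h' hF'
  exact ⟨h1.1.trans h2.1.symm, h1.2.trans h2.2.symm⟩

end Pool.Agent.Work.MP_610017_lc.PP
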