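import Mathlib
import Pool.Agent.Work.MP_610017_lc.PP.StmtsA
import Pool.Agent.Work.MP_610017_lc.Bd.B02

/-!
# MP_610017_lc, block A, item Exist
-/

set_option autoImplicit false

namespace Pool.Agent.Work.MP_610017_lc.PP

theorem Exist_refl {k n : ℕ} (ρ : Res k n) : ρ.Le ρ :=
  ⟨Finset.Subset.refl _, ⟨fun _ _ _ => rfl, fun _ _ => rfl, ρ.corner, ρ.corner1⟩⟩

theorem Exist_pow {m m1 A2 : ℕ} (h : m1 ≤ m) (hm : 1 ≤ m) (hA : 1 ≤ A2) : m1 ≤ m ^ A2 :=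
  h.trans (by
    calc m = m ^ 1 := (pow_one m).symm
      _ ≤ m ^ A2 := Nat.pow_le_pow_right hm hA)

/-- The statement for one formula. -/
def ExistP {v : ℕ} (φ : Gm v) : Prop :=
  ∀ (J B : ℕ), ∃ h A m0 : ℕ, 1 ≤ A ∧
  ∀ (k n m : ℕ) (ρ : Res k n), m0 ≤ m → (k + 1) ^ 2 ≤ m → ρ.I.card = m ^ A →
    n + 1 ≤ (m ^ A) ^ B → ∃ ρ' : Res k n, ρ'.Le ρ ∧ ρ'.I.card = m ∧
      ∀ e : Fin v → ℕ, (∀ j, e j ≤ (n + 1) ^ J) → ∃ T, Rep ρ' h φ e T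

theorem Exist_core (hO : S_OR) (hR : S_ResMono) (hRM : S_RepMono) (hH : S_RepHLe) (hT : S_TmBound)
    (hM : S_HLeMono) {u v : ℕ} (t : Tm u) (rr : (Fin u → ℕ) → Fin v → ℕ)
    (hrr : ∀ e j, ∃ i, rr e j = e i) (φ : Gm (v + 1)) (ih : ExistP φ) (J B : ℕ) (W : ℕ → ℕ)
    (Ψ : ∀ k n : ℕ, (ℕ → Tree k n) → ℕ → Tree k n)
    (hΨ : ∀ (k n h1 M : ℕ) (Tx : ℕ → Tree k n), (∀ x, x ≤ M + 1 → HLe h1 (Tx x)) →
      ∀ x, x ≤ M → HLe (W h1) (Ψ k n Tx x)) :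
    ∃ h A m0 : ℕ, 1 ≤ A ∧ ∀ (k n m : ℕ) (ρ : Res k n), m0 ≤ m → (k + 1) ^ 2 ≤ m →
      ρ.I.card = m ^ A → n + 1 ≤ (m ^ A) ^ B → ∃ ρ' : Res k n, ρ'.Le ρ ∧ ρ'.I.card = m ∧
      ∀ e : Fin u → ℕ, (∀ j, e j ≤ (n + 1) ^ J) → ∃ Tx T,
        (∀ x, x ≤ t.val stdN e + 1 → Rep ρ' h φ (Fin.cons x (rr e)) (Tx x)) ∧
        OrRep ρ' h (t.val stdN e) (Ψ k n Tx) T ∧ HLe h T := by
  obtain ⟨J1, hJ1⟩ := hT u t J
  obtain ⟨h1, A1, m1, hA1, H1⟩ := ih (max J (J1 + 1)) B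
  obtain ⟨h2, A2, m2, hA2, H2⟩ := hO (W h1) (A1 * B * ((J + 1) * u + 1))
  refine ⟨max h1 h2, A2 * A1, max (max m1 m2) 2, Nat.mul_pos hA2 hA1, ?_⟩
  intro k n m ρ hm hk hcard hn
  have hm1 : m1 ≤ m := le_trans (le_max_left _ _) (le_trans (le_max_left _ _) hm)
  have hm2 : m2 ≤ m := le_trans (le_max_right _ _) (le_trans (le_max_left _ _) hm)
  have hm3 : 2 ≤ m := le_trans (le_max_right _ _) hm
  have hmA : 1 ≤ m ^ A2 := Exist_pow (by omega) (by omega) hA2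
  -- `n + 1 ≥ 2`
  have hn2 : 2 ≤ n + 1 := by
    have e1 : ρ.I.card ≤ n + 1 := by
      have := Finset.card_le_univ ρ.I
      rwa [Fintype.card_fin] at this
    have e2 : 2 ≤ m ^ (A2 * A1) := Exist_pow hm3 (by omega) (Nat.mul_pos hA2 hA1)
    omega
  obtain ⟨ρ1, hρ1, hρ1c, hρ1T⟩ := H1 k n (m ^ A2) ρ (Exist_pow hm1 (by omega) hA2)
    (Exist_pow hk (by omega) hA2) (by rw [hcard, pow_mul]) (by rw [pow_mul] at hn; exact hn)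
  -- the family of trees
  have hTz : ∀ (e : Fin u → ℕ) (x : ℕ), ∃ T : Tree k n, (∀ j, e j ≤ (n + 1) ^ J) →
      x ≤ (n + 1) ^ (J1 + 1) → Rep ρ1 h1 φ (Fin.cons x (rr e)) T := by
    intro e x
    by_cases hc : (∀ j, e j ≤ (n + 1) ^ J) ∧ x ≤ (n + 1) ^ (J1 + 1)
    · obtain ⟨T, hT'⟩ := hρ1T (Fin.cons x (rr e)) (by
        intro j
        refine Fin.cases ?_ ?_ j
        · rw [Fin.cons_zero]
          exact hc.2.trans (Nat.pow_le_pow_right (by omega) (le_max_right _ _))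
        · intro i
          rw [Fin.cons_succ]
          obtain ⟨i', hi'⟩ := hrr e i
          rw [hi']
          exact (hc.1 i').trans (Nat.pow_le_pow_right (by omega) (le_max_left _ _)))
      exact ⟨T, fun _ _ => hT'⟩
    · exact ⟨.leaf false, fun h3 h4 => absurd ⟨h3, h4⟩ hc⟩
  choose Tz hTz using hTz
  have hn' : n + 1 ≤ (m ^ A2) ^ (A1 * B) := by
    rw [pow_mul (m ^ A2), ← pow_mul m]; exact hn
  have hMb : ∀ e : Fin u → ℕ, (∀ j, e j ≤ (n + 1) ^ J) →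
      ∀ x, x ≤ t.val stdN e + 1 → x ≤ (n + 1) ^ (J1 + 1) := by
    intro e he x hx
    have h3 := hJ1 (n + 1) e hn2 he
    have h4 : 1 ≤ (n + 1) ^ J1 := Nat.one_le_pow _ _ (by omega)
    calc x ≤ (n + 1) ^ J1 + 1 := by omega
      _ ≤ (n + 1) ^ J1 * 2 := by omega
      _ ≤ (n + 1) ^ J1 * (n + 1) := Nat.mul_le_mul_left _ hn2
      _ = (n + 1) ^ (J1 + 1) := (pow_succ _ _).symm
  have hcardι : Fintype.card (Fin u → Fin ((n + 1) ^ J + 1)) ≤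
      (m ^ A2) ^ (A1 * B * ((J + 1) * u + 1)) := by
    rw [Fintype.card_fun, Fintype.card_fin, Fintype.card_fin]
    have h4 : 1 ≤ (n + 1) ^ J := Nat.one_le_pow _ _ (by omega)
    have h5 : (n + 1) ^ J + 1 ≤ (n + 1) ^ (J + 1) := by
      calc (n + 1) ^ J + 1 ≤ (n + 1) ^ J * 2 := by omega
        _ ≤ (n + 1) ^ J * (n + 1) := Nat.mul_le_mul_left _ hn2
        _ = (n + 1) ^ (J + 1) := (pow_succ _ _).symm
    calc ((n + 1) ^ J + 1) ^ u ≤ ((n + 1) ^ (J + 1)) ^ u := Nat.pow_le_pow_left h5 u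
      _ = (n + 1) ^ ((J + 1) * u) := (pow_mul _ _ _).symm
      _ ≤ ((m ^ A2) ^ (A1 * B)) ^ ((J + 1) * u) := Nat.pow_le_pow_left hn' _
      _ = (m ^ A2) ^ (A1 * B * ((J + 1) * u)) := (pow_mul _ _ _).symm
      _ ≤ (m ^ A2) ^ (A1 * B * ((J + 1) * u + 1)) :=
        Nat.pow_le_pow_right hmA (Nat.mul_le_mul_left _ (by omega))
  obtain ⟨ρ', hρ', hρ'c, hρ'T⟩ := H2 k n m ρ1 (Fin u → Fin ((n + 1) ^ J + 1))
    (fun i => t.val stdN (fun j => (i j).val))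
    (fun i => Ψ k n (Tz (fun j => (i j).val))) hm2 hk hρ1c
    (hn'.trans (Nat.pow_le_pow_right hmA (by
      calc A1 * B = A1 * B * 1 := (Nat.mul_one _).symm
        _ ≤ A1 * B * ((J + 1) * u + 1) := Nat.mul_le_mul_left _ (by omega)))) hcardι (by
      intro i x hx
      have hib : ∀ j, (i j).val ≤ (n + 1) ^ J := fun j => by have := (i j).2; omega
      exact hΨ k n h1 _ _ (fun y hy => hH k n ρ1 h1 _ φ _ _
        (hTz _ y hib (hMb _ hib y hy))) x hx)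
  refine ⟨ρ', ((hR k n ρ1 ρ hρ1).2.2.2.1) ρ' hρ', hρ'c, ?_⟩
  intro e he
  obtain ⟨T, hT'⟩ := hρ'T (fun j => ⟨e j, by have := he j; omega⟩)
  have hT'' : OrRep ρ' h2 (t.val stdN e) (Ψ k n (Tz e)) T := hT'
  have hHT : HLe (max h1 h2) T := hM k n h2 _ T (le_max_right _ _) hT''.1
  exact ⟨Tz e, T, fun x hx => hRM k n ρ' ρ1 h1 _ _ φ _ _ hρ' (le_max_left _ _)
    (hTz e x he (hMb e he x hx)), ⟨hHT, hT''.2⟩, hHT⟩

theorem Exist_all (hO : S_OR) (hR : S_ResMono) (hRM : S_RepMono) (hH : S_RepHLe) (hT : S_TmBound)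
    (hM : S_HLeMono) (hF : S_BrFlip) (hA : S_BrAnd) {v : ℕ} (φ : Gm v) : ExistP φ := by
  induction φ with
  | eq s t =>
    intro J B
    refine ⟨0, 1, 0, le_rfl, ?_⟩
    intro k n m ρ _ _ hc _
    exact ⟨ρ, Exist_refl ρ, by rw [hc, pow_one], fun e _ => ⟨_, rfl⟩⟩
  | le s t =>
    intro J B
    refine ⟨0, 1, 0, le_rfl, ?_⟩
    intro k n m ρ _ _ hc _
    exact ⟨ρ, Exist_refl ρ, by rw [hc, pow_one], fun e _ => ⟨_, rfl⟩⟩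
  | rel s =>
    intro J B
    refine ⟨1, 1, 0, le_rfl, ?_⟩
    intro k n m ρ _ _ hc _
    refine ⟨ρ, Exist_refl ρ, by rw [hc, pow_one], fun e _ => ⟨_, ?_, rfl⟩⟩
    unfold relTree
    split_ifs <;> simp [HLe]
  | neg φ ih =>
    intro J B
    obtain ⟨h, A, m0, hA1, H⟩ := ih J B
    refine ⟨h, A, m0, hA1, ?_⟩
    intro k n m ρ h1 h2 h3 h4
    obtain ⟨ρ', h5, h6, h7⟩ := H k n m ρ h1 h2 h3 h4
    refine ⟨ρ', h5, h6, fun e he => ?_⟩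
    obtain ⟨T, hT'⟩ := h7 e he
    exact ⟨T.flip, T, rfl, hT'⟩
  | and φ ψ ihφ ihψ =>
    intro J B
    obtain ⟨h1, A1, m1, hA1, H1⟩ := ihφ J B
    obtain ⟨h2, A2, m2, hA2, H2⟩ := ihψ J (A1 * B)
    refine ⟨h1 + h2, A2 * A1, max (max m1 m2) 1, Nat.mul_pos hA2 hA1, ?_⟩
    intro k n m ρ hm hk hcard hn
    have hm1 : m1 ≤ m := le_trans (le_max_left _ _) (le_trans (le_max_left _ _) hm)
    have hm2 : m2 ≤ m := le_trans (le_max_right _ _) (le_trans (le_max_left _ _) hm)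
    have hm3 : 1 ≤ m := le_trans (le_max_right _ _) hm
    obtain ⟨ρ1, hρ1, hρ1c, hρ1T⟩ := H1 k n (m ^ A2) ρ (Exist_pow hm1 hm3 hA2)
      (Exist_pow hk hm3 hA2) (by rw [hcard, pow_mul]) (by rw [pow_mul] at hn; exact hn)
    obtain ⟨ρ', hρ', hρ'c, hρ'T⟩ := H2 k n m ρ1 hm2 hk hρ1c (by
      rw [pow_mul (m ^ A2), ← pow_mul m]; exact hn)
    refine ⟨ρ', ((hR k n ρ1 ρ hρ1).2.2.2.1) ρ' hρ', hρ'c, ?_⟩
    intro e he
    obtain ⟨T1, hT1⟩ := hρ1T e he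
    obtain ⟨T2, hT2⟩ := hρ'T e he
    refine ⟨andT T1 T2, ?_, T1, T2, rfl, ?_, ?_⟩
    · exact (hA k n T1 T2).2.2 h1 h2 (hH k n ρ1 h1 _ φ e T1 hT1) (hH k n ρ' h2 _ ψ e T2 hT2)
    · exact hRM k n ρ' ρ1 h1 _ _ φ e T1 hρ' (by omega) hT1
    · exact hRM k n ρ' ρ' h2 _ _ ψ e T2 (Exist_refl ρ') (by omega) hT2
  | bex t φ ih =>
    intro J B
    obtain ⟨h, A, m0, hA1, H⟩ := Exist_core hO hR hRM hH hT hM t (fun e => e)
      (fun e j => ⟨j, rfl⟩) φ ih J B id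
      (fun _ _ Tx => Tx) (fun k n h1 M Tx h x hx => h x (by omega))
    refine ⟨h, A, m0, hA1, ?_⟩
    intro k n m ρ h1 h2 h3 h4
    obtain ⟨ρ', h5, h6, h7⟩ := H k n m ρ h1 h2 h3 h4
    refine ⟨ρ', h5, h6, fun e he => ?_⟩
    obtain ⟨Tx, T, h8, h9, h10⟩ := h7 e he
    exact ⟨T, Tx, fun x hx => h8 x (by omega), h9⟩
  | ind φ ih =>
    intro J B
    obtain ⟨h, A, m0, hA1, H⟩ := Exist_core hO hR hRM hH hT hM (.var 0) (fun e => Fin.tail e)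
      (fun e j => ⟨j.succ, rfl⟩) φ ih J B (fun h => h + h)
      (fun k n Tx x => andT (Tx x) (Tx (x + 1)).flip)
      (fun k n h1 M Tx h x hx => (hA k n _ _).2.2 h1 h1 (h x (by omega))
        (((hF k n (Tx (x + 1))).2 h1).2 (h (x + 1) (by omega))))
    refine ⟨h, A, m0, hA1, ?_⟩
    intro k n m ρ h1 h2 h3 h4
    obtain ⟨ρ', h5, h6, h7⟩ := H k n m ρ h1 h2 h3 h4
    refine ⟨ρ', h5, h6, fun e he => ?_⟩
    obtain ⟨Tx, T, h8, h9, h10⟩ := h7 e he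
    exact ⟨T, Tx, h8, h9⟩

theorem prf_Exist (hO : S_OR) (hR : S_ResMono) (hRM : S_RepMono) (hH : S_RepHLe)
    (hT : S_TmBound) (hM : S_HLeMono) (hF : S_BrFlip) (hA : S_BrAnd) : S_Exist :=
  fun _ φ => Exist_all hO hR hRM hH hT hM hF hA φ

end Pool.Agent.Work.MP_610017_lc.PP
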