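import Mathlib
import Pool.Agent.Work.MP_610017_lc.PP.StmtsA
import Pool.Agent.Work.MP_610017_lc.Bd.B02

/-!
# Exchanging indices at every vertex (MP_610017_lc, block PP)
-/

set_option autoImplicit false

namespace Pool.Agent.Work.MP_610017_lc.PP

theorem prf_Reroute : S_Reroute := by
  intro k n ω F τ ζ' χ' hF h1 h2 f hf
  cases f with
  | edge v w a b =>
    have h : (ω.β v).symm a = (ω.β w).symm b := hF _ hf
    show (τ v).symm ((ω.β v).symm a) = (τ w).symm ((ω.β w).symm b)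
    rw [h1 v w a b hf, h]
  | col v a c => exact h2 v a c hf

/-- exchange of `0` and `s0` and of `1` and `s1` -/
def dsw {n : ℕ} (s0 s1 : Lb n) : Equiv.Perm (Lb n) := Equiv.swap 0 s0 * Equiv.swap 1 s1

theorem dsw_of_ne {n : ℕ} {s0 s1 i : Lb n} (h0 : i ≠ 0) (h1 : i ≠ 1) (h2 : i ≠ s0) (h3 : i ≠ s1) :
    dsw s0 s1 i = i := by
  show Equiv.swap 0 s0 (Equiv.swap 1 s1 i) = i
  rw [Equiv.swap_apply_of_ne_of_ne h1 h3, Equiv.swap_apply_of_ne_of_ne h0 h2]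

theorem dsw_symm_of_ne {n : ℕ} {s0 s1 i : Lb n} (h0 : i ≠ 0) (h1 : i ≠ 1) (h2 : i ≠ s0)
    (h3 : i ≠ s1) : (dsw s0 s1).symm i = i := by
  rw [Equiv.symm_apply_eq, dsw_of_ne h0 h1 h2 h3]

theorem dsw_symm_zero {n : ℕ} {s0 s1 : Lb n} (h1 : s0 ≠ 1) (h2 : s0 ≠ s1) :
    (dsw s0 s1).symm 0 = s0 := by
  rw [Equiv.symm_apply_eq]
  show 0 = Equiv.swap 0 s0 (Equiv.swap 1 s1 s0)
  rw [Equiv.swap_apply_of_ne_of_ne h1 h2, Equiv.swap_apply_right]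

theorem dsw_symm_one {n : ℕ} {s0 s1 : Lb n} (h0 : (1 : Lb n) ≠ 0) (h1 : s0 ≠ 1) :
    (dsw s0 s1).symm 1 = s1 := by
  rw [Equiv.symm_apply_eq]
  show 1 = Equiv.swap 0 s0 (Equiv.swap 1 s1 s1)
  rw [Equiv.swap_apply_right, Equiv.swap_apply_of_ne_of_ne h0 h1.symm]

end Pool.Agent.Work.MP_610017_lc.PP
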