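import Mathlib
import Pool.Agent.Work.MP_610017_lc.PP.A_Reroute

/-!
# Local embedding of the coverings `gw ρ N` (MP_610017_lc, block PP)
-/

set_option autoImplicit false

namespace Pool.Agent.Work.MP_610017_lc.PP

theorem LE_touch {k n : ℕ} (ω : GW k n) (f : Fact k n) (hf : holds ω f) (v : Vx k) (a : Lb n)
    (h : (v, a) ∈ touch f) : (ω.β v).symm a = LE_i ω.β f := by
  cases f with
  | edge v' w' a' b' =>
    simp only [touch, Finset.mem_insert, Finset.mem_singleton, Prod.mk.injEq] at h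
    rcases h with ⟨rfl, rfl⟩ | ⟨rfl, rfl⟩
    · rfl
    · exact hf.symm
  | col v' a' c' =>
    simp only [touch, Finset.mem_singleton, Prod.mk.injEq] at h
    obtain ⟨rfl, rfl⟩ := h
    rfl

/-- two fresh indices -/
theorem LE_fresh {k n : ℕ} (ρ : Res k n) (S : Finset (Lb n)) (h : S.card + 4 ≤ ρ.I.card) :
    ∃ s0 s1, s0 ∈ ρ.I ∧ s1 ∈ ρ.I ∧ s0 ≠ 0 ∧ s0 ≠ 1 ∧ s1 ≠ 0 ∧ s1 ≠ 1 ∧ s0 ≠ s1 ∧
      s0 ∉ S ∧ s1 ∉ S := by
  classical
  have hc : 1 < (ρ.I \ insert 0 (insert 1 S)).card := by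
    have h1 := Finset.le_card_sdiff (insert 0 (insert 1 S)) ρ.I
    have h2 := Finset.card_insert_le (0 : Lb n) (insert 1 S)
    have h3 := Finset.card_insert_le (1 : Lb n) S
    omega
  obtain ⟨s0, hs0, s1, hs1, h01⟩ := Finset.one_lt_card.1 hc
  simp only [Finset.mem_sdiff, Finset.mem_insert, not_or] at hs0 hs1
  exact ⟨s0, s1, hs0.1, hs1.1, hs0.2.1, hs0.2.2.1, hs1.2.1, hs1.2.2.1, h01, hs0.2.2.2, hs1.2.2.2⟩

theorem cl_zero {k n : ℕ} (ω : GW k n) (v : Vx k) : cl ω v 0 = ω.χ v := if_pos rfl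

theorem cl_one {k n : ℕ} (h : (1 : Lb n) ≠ 0) (ω : GW k n) (v : Vx k) :
    cl ω v (1 : Lb n) = (ω.χ v).map (fun c => !c) := by
  unfold cl
  rw [if_neg h, if_pos rfl]

theorem cl_other {k n : ℕ} {i : Lb n} (h0 : i ≠ 0) (h1 : i ≠ 1) (ω : GW k n) (v : Vx k) :
    cl ω v i = some (ω.ζ i) := by
  unfold cl
  rw [if_neg h0, if_neg h1]

theorem prf_LE (hR : S_Reroute) (hL : S_NbLevel) : S_LE := by
  intro k n ρ N N' F hV h1 h2 hN hk hI
  obtain ⟨d, hd1, hd2, hd3⟩ := LE_cut F N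
  have hcard : (F.image (LE_i ρ.β)).card ≤ F.card := Finset.card_image_le
  obtain ⟨s0, s1, hs0I, hs1I, hs00, hs01, hs10, hs11, hss, hs0F, hs1F⟩ :=
    LE_fresh ρ (F.image (LE_i ρ.β)) (by omega)
  have hdN : d ≤ N' := by omega
  obtain ⟨τ, hτ⟩ : ∃ τ : Vx k → Equiv.Perm (Lb n),
    τ = fun u => if LE_L u ≤ d then 1 else dsw s0 s1 := ⟨_, rfl⟩
  obtain ⟨ζ', hζ⟩ : ∃ ζ' : Lb n → Bool,
    ζ' = Function.update (Function.update ρ.ζ s0 false) s1 true := ⟨_, rfl⟩
  have hτ_le : ∀ u, LE_L u ≤ d → τ u = 1 := fun u hu => by rw [hτ]; exact if_pos hu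
  have hτ_gt : ∀ u, ¬ LE_L u ≤ d → τ u = dsw s0 s1 := fun u hu => by rw [hτ]; exact if_neg hu
  have hζ0 : ζ' s0 = false := by
    rw [hζ, Function.update_of_ne hss, Function.update_self]
  have hζ1 : ζ' s1 = true := by
    rw [hζ, Function.update_self]
  have hζi : ∀ i, i ≠ s0 → i ≠ s1 → ζ' i = ρ.ζ i := fun i h3 h4 => by
    rw [hζ, Function.update_of_ne h4, Function.update_of_ne h3]
  -- indices of the facts
  have hidx : ∀ f ∈ F, ∀ v a, (v, a) ∈ touch f → (ρ.β v).symm a ≠ s0 ∧ (ρ.β v).symm a ≠ s1 := by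
    intro f hf v a hva
    have hi : (ρ.β v).symm a = LE_i ρ.β f := LE_touch (gw ρ N) f (h1 f hf) v a hva
    have hm : LE_i ρ.β f ∈ F.image (LE_i ρ.β) := Finset.mem_image_of_mem _ hf
    rw [hi]
    exact ⟨fun h => hs0F (h ▸ hm), fun h => hs1F (h ▸ hm)⟩
  have hres := hR k n (gw ρ N) F τ ζ' spec h1 ?_ ?_
  · refine ⟨⟨fun v => ρ.β v * τ v, ζ', spec⟩, ⟨?_, ?_, ?_, ?_⟩, rfl, hres⟩
    · intro v i hi
      have hi0 : i ≠ 0 := fun h => hi (h ▸ ρ.zero_mem)
      have hi1 : i ≠ 1 := fun h => hi (h ▸ ρ.one_mem)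
      have his0 : i ≠ s0 := fun h => hi (h ▸ hs0I)
      have his1 : i ≠ s1 := fun h => hi (h ▸ hs1I)
      show ρ.β v (τ v i) = ρ.β v i
      by_cases hu : LE_L v ≤ d
      · rw [hτ_le v hu]
        rfl
      · rw [hτ_gt v hu, dsw_of_ne hi0 hi1 his0 his1]
    · intro i hi
      exact hζi i (fun h => hi (h ▸ hs0I)) (fun h => hi (h ▸ hs1I))
    · have h0 : τ (crn k) = 1 := hτ_le _ (by simp [LE_L, crn])
      show ρ.β (crn k) (τ (crn k) 0) = 0
      rw [h0]
      exact ρ.corner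
    · have h0 : τ (crn k) = 1 := hτ_le _ (by simp [LE_L, crn])
      show ρ.β (crn k) (τ (crn k) 1) = 1
      rw [h0]
      exact ρ.corner1
  · -- edges
    intro v w a b hf
    have hc := LE_cross hL F hV d hd3 v w a b hf
    by_cases hv : LE_L v ≤ d
    · rw [hτ_le v hv, hτ_le w (hc.1 hv)]
    · rw [hτ_gt v hv, hτ_gt w (fun h => hv (hc.2 h))]
  · -- colours
    intro v a c hf
    have hb : bd v = true := hV _ hf
    have g1 : cl (gw ρ N) v ((ρ.β v).symm a) = some c := h1 _ hf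
    have g2 : cl (gw ρ N') v ((ρ.β v).symm a) = some c := h2 _ hf
    have hne := hidx _ hf v a (by simp [touch])
    show cl ⟨fun v => ρ.β v * τ v, ζ', spec⟩ v ((τ v).symm ((ρ.β v).symm a)) = some c
    generalize (ρ.β v).symm a = i at g1 g2 hne
    simp only [bd, decide_eq_true_eq] at hb
    obtain ⟨hb1, hb2⟩ := hb
    by_cases hi0 : i = 0
    · subst hi0
      rw [cl_zero] at g1 g2
      have g1' : decide (v.2.val = 0 ∧ 1 ≤ v.1.val ∧ v.1.val ≤ N) = c := Option.some.inj g1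
      have g2' : decide (v.2.val = 0 ∧ 1 ≤ v.1.val ∧ v.1.val ≤ N') = c := Option.some.inj g2
      by_cases hv : LE_L v ≤ d
      · rw [hτ_le v hv]
        show cl _ v 0 = _
        rw [cl_zero]
        show spec v = some c
        unfold LE_L at hv
        unfold spec
        by_cases h3 : v.2.val = 0
        · have h4 : v.2.val = 0 ∧ 1 ≤ v.1.val ∧ v.1.val < k := by omega
          rw [if_pos h4, ← g2']
          congr 1
          rw [eq_comm, decide_eq_true_eq]
          omega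
        · have h4 : ¬ (v.2.val = 0 ∧ 1 ≤ v.1.val ∧ v.1.val < k) := by omega
          have h5 : v.1.val = 0 ∧ 1 ≤ v.2.val ∧ v.2.val < k := by omega
          rw [if_neg h4, if_pos h5, ← g2']
          congr 1
          rw [eq_comm, decide_eq_false_iff_not]
          omega
      · rw [hτ_gt v hv, dsw_symm_zero hs01 hss, cl_other hs00 hs01]
        show some (ζ' s0) = some c
        rw [hζ0, ← g1']
        congr 1
        rw [eq_comm, decide_eq_false_iff_not]
        unfold LE_L at hv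
        omega
    by_cases hi1 : i = 1
    · subst hi1
      rw [cl_one ρ.one_ne] at g1 g2
      have g1' : (!decide (v.2.val = 0 ∧ 1 ≤ v.1.val ∧ v.1.val ≤ N)) = c := Option.some.inj g1
      have g2' : (!decide (v.2.val = 0 ∧ 1 ≤ v.1.val ∧ v.1.val ≤ N')) = c := Option.some.inj g2
      by_cases hv : LE_L v ≤ d
      · rw [hτ_le v hv]
        show cl _ v 1 = _
        rw [cl_one ρ.one_ne]
        show (spec v).map (fun c => !c) = some c
        unfold LE_L at hv
        unfold spec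
        by_cases h3 : v.2.val = 0
        · have h4 : v.2.val = 0 ∧ 1 ≤ v.1.val ∧ v.1.val < k := by omega
          rw [if_pos h4, ← g2']
          show some (!true) = some _
          congr 2
          rw [eq_comm, decide_eq_true_eq]
          omega
        · have h4 : ¬ (v.2.val = 0 ∧ 1 ≤ v.1.val ∧ v.1.val < k) := by omega
          have h5 : v.1.val = 0 ∧ 1 ≤ v.2.val ∧ v.2.val < k := by omega
          rw [if_neg h4, if_pos h5, ← g2']
          show some (!false) = some _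
          congr 2
          rw [eq_comm, decide_eq_false_iff_not]
          omega
      · rw [hτ_gt v hv, dsw_symm_one ρ.one_ne hs01, cl_other hs10 hs11]
        show some (ζ' s1) = some c
        rw [hζ1, ← g1', eq_comm]
        congr 1
        rw [Bool.not_eq_true', decide_eq_false_iff_not]
        unfold LE_L at hv
        omega
    · rw [cl_other hi0 hi1] at g1
      have h5 : (τ v).symm i = i := by
        by_cases hv : LE_L v ≤ d
        · rw [hτ_le v hv]
          rfl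
        · rw [hτ_gt v hv, dsw_symm_of_ne hi0 hi1 hne.1 hne.2]
      rw [h5, cl_other hi0 hi1]
      show some (ζ' i) = some c
      rw [hζi i hne.1 hne.2]
      exact g1

end Pool.Agent.Work.MP_610017_lc.PP
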