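import Mathlib
import Pool.Agent.Work.MP_610017_lc.A_Ext1
import Pool.Agent.Work.MP_610017_lc.PP.A_LE

/-!
# The extension property for one query (MP_610017_lc, block PP)
-/

set_option autoImplicit false

namespace Pool.Agent.Work.MP_610017_lc.PP

/-- the easy cases -/
theorem Ext1_easy {k n : ℕ} (ρ : Res k n) (F : Finset (Fact k n)) (v : Vx k) (a : Lb n)
    (ω : GW k n) (hext : Ext ρ ω.β ω.ζ) (hχ : ω.χ = spec) (hF : ∀ f ∈ F, holds ω f)
    (h : ((ω.β v).symm a ≠ 0 ∧ (ω.β v).symm a ≠ 1) ∨ bd v = false ∨ ∃ c0, spec v = some c0) :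
    ∃ b c, (bd v = true ∨ c = false) ∧ Con ρ (F ∪ star v a b c) := by
  classical
  have key : ∃ c : Bool, (bd v = true ∨ c = false) ∧ (bd v = true → holds ω (Fact.col v a c)) := by
    cases hb : bd v with
    | false => exact ⟨false, Or.inr rfl, fun h => absurd h (by simp)⟩
    | true =>
      have hy : ∃ y, cl ω v ((ω.β v).symm a) = some y := by
        rcases h with h | h | ⟨c0, h⟩
        · exact ⟨_, cl_other h.1 h.2 ω v⟩
        · rw [hb] at h
          exact absurd h (by simp)
        · unfold cl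
          rw [hχ]
          split_ifs
          · exact ⟨c0, h⟩
          · exact ⟨!c0, by rw [h]; rfl⟩
          · exact ⟨_, rfl⟩
      obtain ⟨y, hy⟩ := hy
      exact ⟨y, Or.inl rfl, fun _ => hy⟩
  obtain ⟨c, hc1, hc2⟩ := key
  refine ⟨fun d => ω.β (nb v d) ((ω.β v).symm a), c, hc1, ω, hext, hχ, ?_⟩
  intro f hf
  rcases Finset.mem_union.1 hf with hf | hf
  · exact hF f hf
  · unfold star at hf
    rcases Finset.mem_union.1 hf with hf | hf
    · rcases Finset.mem_union.1 hf with hf | hf
      · obtain ⟨d, _, rfl⟩ := Finset.mem_image.1 hf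
        show (ω.β v).symm a = (ω.β (nb v d)).symm (ω.β (nb v d) ((ω.β v).symm a))
        rw [Equiv.symm_apply_apply]
      · obtain ⟨d, _, rfl⟩ := Finset.mem_image.1 hf
        show (ω.β (nb v d)).symm (ω.β (nb v d) ((ω.β v).symm a)) = (ω.β v).symm a
        rw [Equiv.symm_apply_apply]
    · split_ifs at hf with hb
      · rw [Finset.mem_singleton] at hf
        rw [hf]
        exact hc2 hb
      · simp at hf

theorem prf_Ext1 (hR : S_Reroute) (hL : S_NbLevel) (_hV : S_StarValid) : S_Ext1 := by
  classical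
  intro k n ρ F v a hVal hCon hk hI
  obtain ⟨ω, hext, hχ, hF⟩ := hCon
  by_cases heasy : ((ω.β v).symm a ≠ 0 ∧ (ω.β v).symm a ≠ 1) ∨ bd v = false ∨
    ∃ c0, spec v = some c0
  · exact Ext1_easy ρ F v a ω hext hχ hF heasy
  rw [not_or, not_or, not_and_or, not_not, not_not, not_exists] at heasy
  obtain ⟨h0, hb, hs⟩ := heasy
  have hb' : bd v = true := by
    cases h : bd v with
    | false => exact absurd h hb
    | true => rfl
  have hs' : spec v = none := by
    cases h : spec v with
    | none => rfl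
    | some c => exact absurd h (hs c)
  have hmax := Ext1_max v hb' hs'
  obtain ⟨j, _, hj2, hj3⟩ := Ext1_cut F (fun u => u.2.val) (fun v d => (hL k v d).1) hVal 0
  obtain ⟨d, hd1, hd2, hd3⟩ := Ext1_cut F (fun u => max u.1.val u.2.val)
    (fun v d => (hL k v d).2) hVal (F.card + 1)
  have hcard : (F.image (LE_i ω.β)).card ≤ F.card := Finset.card_image_le
  obtain ⟨s1, s2, hs1I, hs2I, hs10, hs11, hs20, hs21, hss, hs1F, hs2F⟩ :=
    LE_fresh ρ (F.image (LE_i ω.β)) (by omega)
  obtain ⟨τ, hτ⟩ : ∃ τ : Vx k → Equiv.Perm (Lb n), τ = fun u =>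
    if max u.1.val u.2.val ≤ d then 1 else if u.2.val ≤ j then dsw s1 s2 else dsw s2 s1 :=
      ⟨_, rfl⟩
  obtain ⟨ζ', hζ⟩ : ∃ ζ' : Lb n → Bool, ζ' = fun i => if i = s1 then true else
    if i = s2 then false else ω.ζ i := ⟨_, rfl⟩
  have hτ_in : ∀ u : Vx k, max u.1.val u.2.val ≤ d → τ u = 1 := fun u hu => by
    rw [hτ]; exact if_pos hu
  have hτ_lo : ∀ u : Vx k, ¬ max u.1.val u.2.val ≤ d → u.2.val ≤ j → τ u = dsw s1 s2 :=
    fun u hu hu2 => by
      rw [hτ]
      show (if _ then _ else _) = _
      rw [if_neg hu, if_pos hu2]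
  have hτ_up : ∀ u : Vx k, ¬ max u.1.val u.2.val ≤ d → ¬ u.2.val ≤ j → τ u = dsw s2 s1 :=
    fun u hu hu2 => by
      rw [hτ]
      show (if _ then _ else _) = _
      rw [if_neg hu, if_neg hu2]
  have hζ1 : ζ' s1 = true := by rw [hζ]; exact if_pos rfl
  have hζ2 : ζ' s2 = false := by
    rw [hζ]
    show (if _ then _ else _) = _
    rw [if_neg hss.symm, if_pos rfl]
  have hζi : ∀ i, i ≠ s1 → i ≠ s2 → ζ' i = ω.ζ i := fun i h3 h4 => by
    rw [hζ]
    show (if _ then _ else _) = _
    rw [if_neg h3, if_neg h4]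
  have hidx : ∀ f ∈ F, ∀ v a, (v, a) ∈ touch f → (ω.β v).symm a ≠ s1 ∧ (ω.β v).symm a ≠ s2 := by
    intro f hf v a hva
    have hi : (ω.β v).symm a = LE_i ω.β f := LE_touch ω f (hF f hf) v a hva
    have hm : LE_i ω.β f ∈ F.image (LE_i ω.β) := Finset.mem_image_of_mem _ hf
    rw [hi]
    exact ⟨fun h => hs1F (h ▸ hm), fun h => hs2F (h ▸ hm)⟩
  have hhold := hR k n ω F τ ζ' spec hF
    (by
      intro u w x y hf
      have h1 : u.2.val ≤ j ↔ w.2.val ≤ j := hj3 u w x y hf
      have h2 : max u.1.val u.2.val ≤ d ↔ max w.1.val w.2.val ≤ d := hd3 u w x y hf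
      have h3 : τ u = τ w := by
        rw [hτ]
        simp only [h1, h2]
      rw [h3])
    (by
      intro u x c hf
      have h1 : cl ω u ((ω.β u).symm x) = some c := hF _ hf
      have hne := hidx _ hf u x (by simp [touch])
      generalize (ω.β u).symm x = i at h1 hne ⊢
      by_cases hi0 : i = 0
      · subst hi0
        rw [cl_zero, hχ] at h1
        by_cases hd : max u.1.val u.2.val ≤ d
        · rw [hτ_in u hd]
          show cl _ u 0 = _
          rw [cl_zero]
          exact h1
        by_cases hj : u.2.val ≤ j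
        · rw [hτ_lo u hd hj, dsw_symm_zero hs11 hss, cl_other hs10 hs11]
          show some (ζ' s1) = some c
          rw [hζ1]
          unfold spec at h1
          split_ifs at h1 with h3 h4
          · exact h1
          · exfalso
            omega
        · rw [hτ_up u hd hj, dsw_symm_zero hs21 hss.symm, cl_other hs20 hs21]
          show some (ζ' s2) = some c
          rw [hζ2]
          unfold spec at h1
          split_ifs at h1 with h3 h4
          · exfalso
            omega
          · exact h1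
      by_cases hi1 : i = 1
      · subst hi1
        rw [cl_one ρ.one_ne, hχ] at h1
        by_cases hd : max u.1.val u.2.val ≤ d
        · rw [hτ_in u hd]
          show cl _ u 1 = _
          rw [cl_one ρ.one_ne]
          exact h1
        by_cases hj : u.2.val ≤ j
        · rw [hτ_lo u hd hj, dsw_symm_one ρ.one_ne hs11, cl_other hs20 hs21]
          show some (ζ' s2) = some c
          rw [hζ2]
          unfold spec at h1
          split_ifs at h1 with h3 h4
          · exact h1
          · exfalso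
            omega
          · exact absurd h1 (by simp)
        · rw [hτ_up u hd hj, dsw_symm_one ρ.one_ne hs21, cl_other hs10 hs11]
          show some (ζ' s1) = some c
          rw [hζ1]
          unfold spec at h1
          split_ifs at h1 with h3 h4
          · exfalso
            omega
          · exact h1
          · exact absurd h1 (by simp)
      · rw [cl_other hi0 hi1] at h1
        have h5 : (τ u).symm i = i := by
          by_cases hd : max u.1.val u.2.val ≤ d
          · rw [hτ_in u hd]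
            rfl
          by_cases hj : u.2.val ≤ j
          · rw [hτ_lo u hd hj, dsw_symm_of_ne hi0 hi1 hne.1 hne.2]
          · rw [hτ_up u hd hj, dsw_symm_of_ne hi0 hi1 hne.2 hne.1]
        rw [h5, cl_other hi0 hi1]
        show some (ζ' i) = some c
        rw [hζi i hne.1 hne.2]
        exact h1)
  have hcrn : max (crn k).1.val (crn k).2.val ≤ d := by
    show max 0 0 ≤ d
    simp
  refine Ext1_easy ρ F v a ⟨fun v => ω.β v * τ v, ζ', spec⟩ ?_ rfl hhold (Or.inl ?_)
  · refine ⟨fun u i hi => ?_, fun i hi => ?_, ?_, ?_⟩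
    · show ω.β u (τ u i) = ρ.β u i
      have hi0 : i ≠ 0 := fun h => hi (h ▸ ρ.zero_mem)
      have hi1 : i ≠ 1 := fun h => hi (h ▸ ρ.one_mem)
      have his1 : i ≠ s1 := fun h => hi (h ▸ hs1I)
      have his2 : i ≠ s2 := fun h => hi (h ▸ hs2I)
      have h5 : τ u i = i := by
        by_cases hd : max u.1.val u.2.val ≤ d
        · rw [hτ_in u hd]
          rfl
        by_cases hj : u.2.val ≤ j
        · rw [hτ_lo u hd hj, dsw_of_ne hi0 hi1 his1 his2]
        · rw [hτ_up u hd hj, dsw_of_ne hi0 hi1 his2 his1]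
      rw [h5, hext.beta u i hi]
    · show ζ' i = ρ.ζ i
      rw [hζi i (fun h => hi (h ▸ hs1I)) (fun h => hi (h ▸ hs2I)), hext.zeta i hi]
    · show ω.β (crn k) (τ (crn k) 0) = 0
      rw [hτ_in _ hcrn]
      exact hext.corner
    · show ω.β (crn k) (τ (crn k) 1) = 1
      rw [hτ_in _ hcrn]
      exact hext.corner1
  · show (τ v).symm ((ω.β v).symm a) ≠ 0 ∧ (τ v).symm ((ω.β v).symm a) ≠ 1
    have h1 : ¬ max v.1.val v.2.val ≤ d := by omega
    rcases h0 with h0 | h0 <;> rw [h0]
    · by_cases hj : v.2.val ≤ j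
      · rw [hτ_lo v h1 hj, dsw_symm_zero hs11 hss]
        exact ⟨hs10, hs11⟩
      · rw [hτ_up v h1 hj, dsw_symm_zero hs21 hss.symm]
        exact ⟨hs20, hs21⟩
    · by_cases hj : v.2.val ≤ j
      · rw [hτ_lo v h1 hj, dsw_symm_one ρ.one_ne hs11]
        exact ⟨hs20, hs21⟩
      · rw [hτ_up v h1 hj, dsw_symm_one ρ.one_ne hs21]
        exact ⟨hs10, hs11⟩

end Pool.Agent.Work.MP_610017_lc.PP
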