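import Mathlib
import Pool.Agent.Work.MP_610017_lc.PP.StmtsA
import Pool.Agent.Work.MP_610017_lc.Bd.B02

set_option autoImplicit false

namespace Pool.Agent.Work.MP_610017_lc.PP

/-- A disjoint family of `j` consistent terms. -/
def Greedy_P {k n : ℕ} (ρ : Res k n) (π : Finset (Fact k n)) (𝓣 : Set (Finset (Fact k n)))
    (j : ℕ) : Prop :=
  ∃ Fs : Fin j → Finset (Fact k n), (∀ i, Fs i ∈ 𝓣 ∧ Con ρ (π ∪ Fs i)) ∧
    ∀ i i', i ≠ i' → ∀ f ∈ Fs i, ¬ Dec ρ π f → ∀ f' ∈ Fs i', ¬ Dec ρ π f' →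
      Disjoint (touch f) (touch f')

theorem Greedy_touch {k n : ℕ} (f : Fact k n) : (touch f).card ≤ 2 := by
  cases f with
  | edge v w a b => exact Finset.card_le_two
  | col v a c => simp [touch]

theorem Greedy_cons {k n : ℕ} (ρ : Res k n) (π : Finset (Fact k n))
    (𝓣 : Set (Finset (Fact k n))) (j : ℕ) (Fs : Fin j → Finset (Fact k n))
    (h1 : ∀ i, Fs i ∈ 𝓣 ∧ Con ρ (π ∪ Fs i))
    (h2 : ∀ i i', i ≠ i' → ∀ f ∈ Fs i, ¬ Dec ρ π f → ∀ f' ∈ Fs i', ¬ Dec ρ π f' →
      Disjoint (touch f) (touch f'))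
    (F : Finset (Fact k n)) (hF : F ∈ 𝓣) (hC : Con ρ (π ∪ F))
    (hd : ∀ f ∈ F, ¬ Dec ρ π f → ∀ i, ∀ f' ∈ Fs i, ¬ Dec ρ π f' →
      Disjoint (touch f) (touch f')) : Greedy_P ρ π 𝓣 (j + 1) := by
  refine ⟨Fin.cons F Fs, ?_, ?_⟩
  · intro i
    refine Fin.cases ?_ (fun i => ?_) i
    · simpa using ⟨hF, hC⟩
    · simpa using h1 i
  · intro i i'
    refine Fin.cases ?_ (fun i => ?_) i
    · refine Fin.cases ?_ (fun i' => ?_) i'
      · intro h
        exact absurd rfl h
      · intro _ f hf hfd f' hf' hfd'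
        rw [Fin.cons_zero] at hf
        rw [Fin.cons_succ] at hf'
        exact hd f hf hfd i' f' hf' hfd'
    · refine Fin.cases ?_ (fun i' => ?_) i'
      · intro _ f hf hfd f' hf' hfd'
        rw [Fin.cons_succ] at hf
        rw [Fin.cons_zero] at hf'
        exact (hd f' hf' hfd' i f hf hfd).symm
      · intro hne f hf hfd f' hf' hfd'
        rw [Fin.cons_succ] at hf hf'
        exact h2 i i' (fun h => hne (by rw [h])) f hf hfd f' hf' hfd'

theorem prf_Greedy : S_Greedy := by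
  classical
  intro k n w q ρ π 𝓣 hw hB
  by_cases hdec : ∃ F ∈ 𝓣, ∀ f ∈ F, Dec ρ π f
  · exact Or.inl hdec
  right
  have hq : ¬ Greedy_P ρ π 𝓣 q := fun h => hB ⟨hdec, h⟩
  have h0 : Greedy_P ρ π 𝓣 0 := ⟨fun i => i.elim0, fun i => i.elim0, fun i => i.elim0⟩
  obtain ⟨j, hjq, ⟨Fs, h1, h2⟩, hj1⟩ : ∃ j, j < q ∧ Greedy_P ρ π 𝓣 j ∧
      ¬ Greedy_P ρ π 𝓣 (j + 1) := by
    by_contra hcon
    push Not at hcon
    apply hq
    have : ∀ j, j ≤ q → Greedy_P ρ π 𝓣 j := by
      intro j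
      induction j with
      | zero => exact fun _ => h0
      | succ j ih => exact fun hj => hcon j (by omega) (ih (by omega))
    exact this q le_rfl
  refine ⟨Finset.univ.biUnion fun i : Fin j =>
    ((Fs i).filter fun f => ¬ Dec ρ π f).biUnion touch, ?_, ?_⟩
  · calc (Finset.univ.biUnion fun i : Fin j =>
        ((Fs i).filter fun f => ¬ Dec ρ π f).biUnion touch).card
        ≤ ∑ i : Fin j, (((Fs i).filter fun f => ¬ Dec ρ π f).biUnion touch).card :=
          Finset.card_biUnion_le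
      _ ≤ ∑ _i : Fin j, w * 2 := by
          refine Finset.sum_le_sum fun i _ => ?_
          calc (((Fs i).filter fun f => ¬ Dec ρ π f).biUnion touch).card
              ≤ ((Fs i).filter fun f => ¬ Dec ρ π f).card * 2 :=
                Finset.card_biUnion_le_card_mul _ _ _ fun f _ => Greedy_touch f
            _ ≤ w * 2 := Nat.mul_le_mul_right _
                ((Finset.card_filter_le _ _).trans (hw _ (h1 i).1))
      _ = j * (w * 2) := by simp
      _ ≤ q * (w * 2) := Nat.mul_le_mul_right _ hjq.le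
      _ = 2 * w * q := by ring
  · intro F hF hC
    by_contra hno
    apply hj1
    refine Greedy_cons ρ π 𝓣 j Fs h1 h2 F hF hC ?_
    intro f hf hfd i f' hf' hfd'
    have hdis : Disjoint (touch f) (Finset.univ.biUnion fun i : Fin j =>
        ((Fs i).filter fun f => ¬ Dec ρ π f).biUnion touch) := by
      by_contra hnd
      exact hno ⟨f, hf, hfd, hnd⟩
    refine Finset.disjoint_of_subset_right ?_ hdis
    intro x hx
    rw [Finset.mem_biUnion]
    refine ⟨i, Finset.mem_univ _, ?_⟩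
    rw [Finset.mem_biUnion]
    exact ⟨f', Finset.mem_filter.2 ⟨hf', hfd'⟩, hx⟩

end Pool.Agent.Work.MP_610017_lc.PP
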