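import Mathlib
import Pool.Agent.Work.MP_610017_lc.PP.StmtsA
import Pool.Agent.Work.MP_610017_lc.Bd.B02

/-!
# A16: the hitting lemma for polynomially many tasks (MP_610017_lc)
-/

set_option autoImplicit false

namespace Pool.Agent.Work.MP_610017_lc.PP

theorem Hit_bound (k m w q : ℕ) (h4 : 4 ≤ m) (hk : (k + 1) ^ 2 ≤ m) (hq : q * w * w ≤ m) :
    (q * w * w) ^ q * (4 * ((k + 1) ^ 2 * m + 1) ^ (2 * w)) ^ (q * w) ≤
      m ^ (q * (1 + w * (6 * w + 1))) := by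
  have h1 : (k + 1) ^ 2 * m + 1 ≤ m ^ 3 := by
    have : (k + 1) ^ 2 * m ≤ m * m := Nat.mul_le_mul_right _ hk
    nlinarith
  have h2 : 4 * ((k + 1) ^ 2 * m + 1) ^ (2 * w) ≤ m ^ (6 * w + 1) := by
    calc 4 * ((k + 1) ^ 2 * m + 1) ^ (2 * w) ≤ m * (m ^ 3) ^ (2 * w) :=
          Nat.mul_le_mul h4 (Nat.pow_le_pow_left h1 _)
      _ = m ^ (6 * w + 1) := by rw [← pow_mul, ← pow_succ']; congr 1; ring
  calc (q * w * w) ^ q * (4 * ((k + 1) ^ 2 * m + 1) ^ (2 * w)) ^ (q * w)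
      ≤ m ^ q * (m ^ (6 * w + 1)) ^ (q * w) :=
        Nat.mul_le_mul (Nat.pow_le_pow_left hq _) (Nat.pow_le_pow_left h2 _)
    _ = m ^ (q * (1 + w * (6 * w + 1))) := by
        rw [← pow_mul, ← pow_add]; congr 1; ring

open Classical in
theorem prf_Hit (hH : S_Hit1) : S_Hit := by
  intro w B
  set c : ℕ := 1 + w * (6 * w + 1) with hc
  set q : ℕ := 2 * B + 2 with hq
  refine ⟨q, 2 * c + 1, 12 + q * w * w + 8 * (q * w), by omega, ?_⟩
  intro k n m ρ ι _ π 𝓣 hm hk hI hcard hSB hT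
  have hm4 : 4 ≤ m := by omega
  have hqm : q * w * w ≤ m := by omega
  have hqm8 : 8 * (q * w) ≤ m := by omega
  have hmA3 : m ^ 2 ≤ m ^ (2 * c + 1) := Nat.pow_le_pow_right (by omega) (by omega)
  obtain ⟨I1, h0, hI1, hcI⟩ := Finset.exists_subsuperset_card_eq
    (s := ({0, 1} : Finset (Lb n))) (t := ρ.I) (n := m)
    (Finset.insert_subset ρ.zero_mem (Finset.singleton_subset_iff.2 ρ.one_mem))
    (Finset.card_le_two.trans (by omega)) (by rw [hI]; nlinarith)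
  have h0' : (0 : Lb n) ∈ I1 := h0 (by simp)
  have h1' : (1 : Lb n) ∈ I1 := h0 (by simp)
  have hsize : 2 * (I1.card + 2 * (q * w)) ≤ ρ.I.card := by
    rw [hcI, hI]
    nlinarith
  have hOm : 0 < (Om ρ).card := by
    rw [Finset.card_pos]
    refine ⟨(ρ.β, ρ.ζ), ?_⟩
    rw [Om, Finset.mem_filter]
    exact ⟨Finset.mem_univ _, ⟨fun _ _ _ => rfl, fun _ _ => rfl, ρ.corner, ρ.corner1⟩⟩
  have hbad : ∀ i, ((Om ρ).filter (BadW I1 (π i) (𝓣 i) q)).card * m ^ ((2 * c + 1) * q) ≤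
      (Om ρ).card * m ^ (q * c) := by
    intro i
    have h1 := hH k n w w q ρ I1 (π i) (𝓣 i) hI1 h0' h1' (hT i) le_rfl (hSB i) hsize
    rw [hcI, hI, ← pow_mul] at h1
    exact h1.trans (Nat.mul_le_mul_left _ (Hit_bound k m w q hm4 hk hqm))
  have hsum : (∑ i, ((Om ρ).filter (BadW I1 (π i) (𝓣 i) q)).card) < (Om ρ).card := by
    have h2 : (∑ i, ((Om ρ).filter (BadW I1 (π i) (𝓣 i) q)).card) * m ^ ((2 * c + 1) * q) ≤
        (Om ρ).card * m ^ ((2 * c + 1) * B + q * c) := by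
      rw [Finset.sum_mul]
      calc ∑ i, ((Om ρ).filter (BadW I1 (π i) (𝓣 i) q)).card * m ^ ((2 * c + 1) * q)
          ≤ ∑ _i : ι, (Om ρ).card * m ^ (q * c) := Finset.sum_le_sum fun i _ => hbad i
        _ = Fintype.card ι * ((Om ρ).card * m ^ (q * c)) := by
            rw [Finset.sum_const, smul_eq_mul, Finset.card_univ]
        _ ≤ (m ^ (2 * c + 1)) ^ B * ((Om ρ).card * m ^ (q * c)) :=
            Nat.mul_le_mul_right _ hcard
        _ = (Om ρ).card * m ^ ((2 * c + 1) * B + q * c) := by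
            rw [← pow_mul, pow_add]; ring
    have h3 : (2 * c + 1) * q = ((2 * c + 1) * B + q * c) + (2 * c + B + 2) := by
      rw [hq]; ring
    by_contra hcon
    push Not at hcon
    have h4 : (Om ρ).card * m ^ ((2 * c + 1) * q) ≤
        (Om ρ).card * m ^ ((2 * c + 1) * B + q * c) :=
      (Nat.mul_le_mul_right _ hcon).trans h2
    have h5 : m ^ ((2 * c + 1) * q) ≤ m ^ ((2 * c + 1) * B + q * c) :=
      Nat.le_of_mul_le_mul_left h4 hOm
    have h6 := (Nat.pow_le_pow_iff_right (by omega : 1 < m)).mp h5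
    omega
  have hex : ∃ om ∈ Om ρ, ∀ i, ¬ BadW I1 (π i) (𝓣 i) q om := by
    by_contra hcon
    push Not at hcon
    have hsub : Om ρ ⊆ Finset.univ.biUnion fun i =>
        (Om ρ).filter (BadW I1 (π i) (𝓣 i) q) := by
      intro om hom
      obtain ⟨i, hi⟩ := hcon om hom
      rw [Finset.mem_biUnion]
      exact ⟨i, Finset.mem_univ _, Finset.mem_filter.mpr ⟨hom, hi⟩⟩
    have := (Finset.card_le_card hsub).trans Finset.card_biUnion_le
    omega
  obtain ⟨om, hom, hgood⟩ := hex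
  have hExt : Ext ρ om.1 om.2 := by
    rw [Om, Finset.mem_filter] at hom
    exact hom.2
  refine ⟨⟨om.1, om.2, I1, h0', h1', ρ.one_ne, hExt.corner, hExt.corner1⟩, ⟨hI1, hExt⟩, hcI, ?_⟩
  intro i hBad
  exact hgood i ⟨_, rfl, rfl, rfl, hBad⟩

end Pool.Agent.Work.MP_610017_lc.PP
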