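import Mathlib
import Pool.Agent.Work.MP_610017_lc.PP.StmtsA
import Pool.Agent.Work.MP_610017_lc.Bd.B02

/-!
# The hitting lemma for one task (MP_610017_lc)
-/

set_option autoImplicit false

namespace Pool.Agent.Work.MP_610017_lc.PP

/-- the number of injective functions with values in a finite set -/
theorem Hit1_inj (n t : ℕ) (T : Finset (Lb n)) :
    T.card.descFactorial t ≤ (Finset.univ.filter (fun i : Fin t → Lb n =>
      Function.Injective i ∧ ∀ g, i g ∈ T)).card := by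
  classical
  have h1 : (Finset.univ : Finset (Fin t ↪ T)).card = T.card.descFactorial t := by
    rw [Finset.card_univ, Fintype.card_embedding_eq, Fintype.card_coe, Fintype.card_fin]
  rw [← h1]
  refine Finset.card_le_card_of_injOn (fun e g => ((e g : T) : Lb n)) ?_ ?_
  · intro e _
    rw [Finset.mem_coe, Finset.mem_filter]
    refine ⟨Finset.mem_univ _, ?_, fun g => (e g).2⟩
    intro a b hab
    exact e.injective (Subtype.ext hab)
  · intro e _ e' _ h
    ext g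
    have := congrFun h g
    exact congrArg Fin.val this

theorem Hit1_low (n t I a : ℕ) (R I1 D : Finset (Lb n)) (hsub : I1 ⊆ R) (hR : R.card = I)
    (hI1 : I1.card = a) (hD : D.card ≤ t) (h : 2 * (a + 2 * t) ≤ I) :
    I ^ t ≤ 2 ^ t * (Finset.univ.filter (fun i : Fin t → Lb n =>
      Function.Injective i ∧ ∀ g, i g ∈ (R \ I1) \ D)).card := by
  have h1 : I - a - t ≤ ((R \ I1) \ D).card := by
    have h2 : (R \ I1).card = I - a := by
      rw [Finset.card_sdiff_of_subset hsub, hR, hI1]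
    have h3 := Finset.le_card_sdiff D (R \ I1)
    omega
  have h4 := (Nat.pow_sub_le_descFactorial ((R \ I1) \ D).card t).trans (Hit1_inj n t _)
  calc I ^ t ≤ (2 * (((R \ I1) \ D).card + 1 - t)) ^ t := by
        apply Nat.pow_le_pow_left
        omega
    _ = 2 ^ t * (((R \ I1) \ D).card + 1 - t) ^ t := by rw [mul_pow]
    _ ≤ _ := Nat.mul_le_mul_left _ h4

theorem prf_Hit1 (hM : S_Mod) (hC : S_Count) : S_Hit1 := by
  classical
  intro k n w r q ρ I1 π 𝓣 hI1 h0 h01 h𝓣 hwr hSB hcard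
  have hM' := hM k n w r q ρ I1 π 𝓣 hI1 h0 h01 h𝓣 hwr hSB
  obtain ⟨t, ht⟩ : ∃ t, t = q * w := ⟨_, rfl⟩
  rw [← ht] at hcard hM' ⊢
  obtain ⟨𝓔, h𝓔, rec, hrec⟩ := hM'
  have hIpos : 0 < ρ.I.card := Finset.card_pos.2 ⟨0, hI1 h0⟩
  -- the case `t < q`
  rcases lt_or_ge t q with htq | htq
  · have hw : w = 0 := by
      by_contra hw
      have : q * 1 ≤ q * w := Nat.mul_le_mul_left q (Nat.one_le_iff_ne_zero.2 hw)
      omega
    have ht0 : t = 0 := by rw [ht, hw, mul_zero]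
    have hempty : (Om ρ).filter (BadW I1 π 𝓣 q) = ∅ := by
      rw [Finset.filter_eq_empty_iff]
      intro ω hω hbad
      obtain ⟨D, -, hD⟩ := hrec ω hω hbad
      have hemp : IsEmpty (Fin t) := by rw [ht0]; infer_instance
      obtain ⟨ω', -, s, -, h1, Es, h2, -⟩ := hD (fun g => hemp.elim g)
        (fun g => hemp.elim g) (fun g => hemp.elim g)
      obtain ⟨g, -⟩ := h1 _ (h2 ⟨0, by omega⟩)
      exact hemp.elim g
    rw [hempty, Finset.card_empty, zero_mul]
    exact Nat.zero_le _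
  -- the sets `D`
  have hDex : ∀ ω, ∃ D : Finset (Lb n), D.card ≤ t ∧ (ω ∈ (Om ρ).filter (BadW I1 π 𝓣 q) →
      ∀ i : Fin t → Lb n, Function.Injective i → (∀ g, i g ∈ (ρ.I \ I1) \ D) →
          ∃ ω' ∈ Om ρ, ∃ s, rec ω' i s = ω ∧ (∀ E ∈ 𝓔 ω', ∃ g, i g ∈ E) ∧
            ∃ Es : Fin q → Finset (Lb n), (∀ j, Es j ∈ 𝓔 ω') ∧
              ∀ j j', j ≠ j' → ∀ g, ¬ (i g ∈ Es j ∧ i g ∈ Es j')) := by
    intro ω
    by_cases h : ω ∈ (Om ρ).filter (BadW I1 π 𝓣 q)
    · obtain ⟨h1, h2⟩ := Finset.mem_filter.1 h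
      obtain ⟨D, hD1, hD2⟩ := hrec ω h1 h2
      exact ⟨D, hD1, fun _ => hD2⟩
    · exact ⟨∅, by simp, fun h' => absurd h' h⟩
  choose D hD1 hD2 using hDex
  set S : Finset (Lb n) := ρ.I \ I1 with hS
  set BAD := (Om ρ).filter (BadW I1 π 𝓣 q) with hBAD
  set P : Finset (Σ _ : (Vx k → Equiv.Perm (Lb n)) × (Lb n → Bool), (Fin t → Lb n)) :=
    BAD.sigma (fun ω => Finset.univ.filter (fun i : Fin t → Lb n =>
      Function.Injective i ∧ ∀ g, i g ∈ S \ D ω)) with hP
  -- lower bound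
  have hlow : BAD.card * ρ.I.card ^ t ≤ 2 ^ t * P.card := by
    rw [hP, Finset.card_sigma, Finset.mul_sum, ← smul_eq_mul BAD.card]
    apply Finset.card_nsmul_le_sum
    intro ω _
    exact Hit1_low n t ρ.I.card I1.card ρ.I I1 (D ω) hI1 rfl rfl (hD1 ω) hcard
  -- upper bound
  set c : ℕ := (k + 1) ^ 2 * I1.card + 1 with hc
  have hcode : Fintype.card (Fin t → (Fin (2 * w) → Option (Vx k × I1)) × Bool) =
      (c ^ (2 * w) * 2) ^ t := by
    simp only [Fintype.card_fun, Fintype.card_prod, Fintype.card_option, Fintype.card_fin,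
      Fintype.card_coe, Fintype.card_bool, hc, pow_two]
  have hup : P.card ≤ (Om ρ).card * ((t * w) ^ q * S.card ^ (t - q) *
      (c ^ (2 * w) * 2) ^ t) := by
    have hsub : P ⊆ (Om ρ).biUnion (fun ω' =>
        (((Fintype.piFinset (fun _ : Fin t => S)).filter (fun i : Fin t → Lb n =>
          (∀ E ∈ 𝓔 ω', ∃ g, i g ∈ E) ∧
          ∃ Es : Fin q → Finset (Lb n), (∀ j, Es j ∈ 𝓔 ω') ∧
            ∀ j j', j ≠ j' → ∀ g, ¬ (i g ∈ Es j ∧ i g ∈ Es j'))) ×ˢ
          (Finset.univ : Finset (Fin t → (Fin (2 * w) → Option (Vx k × I1)) × Bool))).image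
          (fun x => (⟨rec ω' x.1 x.2, x.1⟩ :
            Σ _ : (Vx k → Equiv.Perm (Lb n)) × (Lb n → Bool), (Fin t → Lb n)))) := by
      rintro ⟨ω, i⟩ hx
      rw [hP, Finset.mem_sigma] at hx
      obtain ⟨hω, hi⟩ := hx
      obtain ⟨-, hinj, hmem⟩ := Finset.mem_filter.1 hi
      obtain ⟨ω', hω', s, hs, h1, h2⟩ := hD2 ω hω i hinj hmem
      rw [Finset.mem_biUnion]
      refine ⟨ω', hω', ?_⟩
      rw [Finset.mem_image]
      refine ⟨(i, s), ?_, ?_⟩
      · rw [Finset.mem_product, Finset.mem_filter, Fintype.mem_piFinset]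
        exact ⟨⟨fun g => (Finset.mem_sdiff.1 (hmem g)).1, h1, h2⟩, Finset.mem_univ _⟩
      · change (⟨rec ω' i s, i⟩ :
            Σ _ : (Vx k → Equiv.Perm (Lb n)) × (Lb n → Bool), (Fin t → Lb n)) = ⟨ω, i⟩
        rw [hs]
    refine (Finset.card_le_card hsub).trans (Finset.card_biUnion_le_card_mul _ _ _ ?_)
    intro ω' _
    refine Finset.card_image_le.trans ?_
    rw [Finset.card_product, Finset.card_univ, hcode]
    exact Nat.mul_le_mul_right _ (hC n t q w S (𝓔 ω') (h𝓔 ω'))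
  have hSI : S.card ≤ ρ.I.card := Finset.card_le_card Finset.sdiff_subset
  have hfin : (BAD.card * ρ.I.card ^ q) * ρ.I.card ^ (t - q) ≤
      ((Om ρ).card * ((t * w) ^ q * (4 * c ^ (2 * w)) ^ t)) * ρ.I.card ^ (t - q) := by
    calc (BAD.card * ρ.I.card ^ q) * ρ.I.card ^ (t - q) = BAD.card * ρ.I.card ^ t := by
          rw [mul_assoc, ← pow_add]
          congr 2
          omega
      _ ≤ 2 ^ t * P.card := hlow
      _ ≤ 2 ^ t * ((Om ρ).card * ((t * w) ^ q * S.card ^ (t - q) * (c ^ (2 * w) * 2) ^ t)) :=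
          Nat.mul_le_mul_left _ hup
      _ ≤ 2 ^ t * ((Om ρ).card * ((t * w) ^ q * ρ.I.card ^ (t - q) *
          (c ^ (2 * w) * 2) ^ t)) := by
          gcongr
      _ = ((Om ρ).card * ((t * w) ^ q * (4 * c ^ (2 * w)) ^ t)) * ρ.I.card ^ (t - q) := by
          rw [show (4 : ℕ) = 2 * 2 by norm_num]
          simp only [mul_pow]
          ring
  exact Nat.le_of_mul_le_mul_right hfin (pow_pos hIpos _)

end Pool.Agent.Work.MP_610017_lc.PP
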