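import Mathlib
import Pool.Agent.Work.MP_610017_lc.PP.StmtsA
import Pool.Agent.Work.MP_610017_lc.Bd.B02

/-!
# Block A, item Mod: the modification lemma (MP_610017_lc)
-/

set_option autoImplicit false

namespace Pool.Agent.Work.MP_610017_lc.PP

/-- pairs (permutations, colours) -/
abbrev Mod_W (k n : ℕ) : Type := (Vx k → Equiv.Perm (Lb n)) × (Lb n → Bool)

/-- codes -/
abbrev Mod_C {n : ℕ} (k w t : ℕ) (I1 : Finset (Lb n)) : Type :=
  Fin t → (Fin (2 * w) → Option (Vx k × I1)) × Bool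

/-- the first element of a fact -/
def Mod_fst {k n : ℕ} : Fact k n → Vx k × Lb n
  | .edge v _ a _ => (v, a)
  | .col v a _ => (v, a)

/-- the index of the sheet of the first element of a fact -/
def Mod_idx {k n : ℕ} (β : Vx k → Equiv.Perm (Lb n)) (f : Fact k n) : Lb n :=
  (β (Mod_fst f).1).symm (Mod_fst f).2

/-- the fact is true on the ordinary sheet `x` -/
def Mod_on {k n : ℕ} (ω : Mod_W k n) (x : Lb n) : Fact k n → Prop
  | .edge v w a b => ω.1 v x = a ∧ ω.1 w x = b
  | .col v a c => ω.1 v x = a ∧ ω.2 x = c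

/-- the fact is true on a sheet with index outside `I1` -/
def Mod_str {k n : ℕ} (ω : Mod_W k n) (I1 : Finset (Lb n)) (f : Fact k n) : Prop :=
  ∃ x, x ∉ I1 ∧ Mod_on ω x f

theorem Mod_setTrue {k n : ℕ} (ρ : Res k n) (f : Fact k n) :
    SetTrue ρ f ↔ Mod_str (ρ.β, ρ.ζ) ρ.I f := by
  cases f <;> rfl

theorem Mod_idx_of_on {k n : ℕ} {ω : Mod_W k n} {x : Lb n} {f : Fact k n}
    (h : Mod_on ω x f) : Mod_idx ω.1 f = x := by
  cases f with
  | edge v w a b =>
    unfold Mod_idx Mod_fst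
    rw [Equiv.symm_apply_eq]
    exact h.1.symm
  | col v a c =>
    unfold Mod_idx Mod_fst
    rw [Equiv.symm_apply_eq]
    exact h.1.symm

theorem Mod_on_congr {k n : ℕ} {ω ω' : Mod_W k n} {x : Lb n} (f : Fact k n)
    (h1 : ∀ v, ω'.1 v x = ω.1 v x) (h2 : ω'.2 x = ω.2 x) : Mod_on ω' x f ↔ Mod_on ω x f := by
  cases f with
  | edge v w a b =>
    simp only [Mod_on, h1]
  | col v a c =>
    simp only [Mod_on, h1, h2]

theorem Mod_on_of_carries {k n : ℕ} {ω : Mod_W k n} {x : Lb n} {f : Fact k n} {G : Grp k n}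
    (hc : Carries G f) (h1 : ∀ v ∈ G.supp, ω.1 v x = G.p v) (h2 : ω.2 x = G.c) :
    Mod_on ω x f := by
  cases f with
  | edge v w a b =>
    obtain ⟨hv, hw, ha, hb⟩ := hc
    exact ⟨by rw [h1 v hv, ha], by rw [h1 w hw, hb]⟩
  | col v a c =>
    obtain ⟨hv, ha, hcc⟩ := hc
    exact ⟨by rw [h1 v hv, ha], by rw [h2, hcc]⟩

/-- the properties of the exchange permutation -/
def Mod_P {n t : ℕ} (A : Finset (Fin t)) (f g : Fin t → Lb n) (τ : Equiv.Perm (Lb n)) : Prop :=
  (∀ i ∈ A, τ (f i) = g i) ∧ (∀ i ∈ A, τ (g i) = f i) ∧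
    ∀ x, (∀ i ∈ A, x ≠ f i ∧ x ≠ g i) → τ x = x

open Classical in
/-- a choice of the exchange permutation -/
noncomputable def Mod_swp {n t : ℕ} (A : Finset (Fin t)) (f g : Fin t → Lb n) :
    Equiv.Perm (Lb n) :=
  if h : ∃ τ, Mod_P A f g τ then h.choose else 1

theorem Mod_swp_spec {n t : ℕ} {A : Finset (Fin t)} {f g : Fin t → Lb n}
    (h : ∃ τ, Mod_P A f g τ) : Mod_P A f g (Mod_swp A f g) := by
  unfold Mod_swp
  rw [dif_pos h]
  exact h.choose_spec

open Classical in
/-- the groups at the vertex `v` -/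
noncomputable def Mod_A {k n w t : ℕ} {I1 : Finset (Lb n)} (s : Mod_C k w t I1) (v : Vx k) :
    Finset (Fin t) :=
  Finset.univ.filter (fun x => ∃ l y, (s x).1 l = some (v, y))

open Classical in
/-- the old index of the group at the vertex `v` -/
noncomputable def Mod_r {k n w t : ℕ} {I1 : Finset (Lb n)} (s : Mod_C k w t I1) (v : Vx k)
    (x : Fin t) : Lb n :=
  if h : ∃ y : I1, ∃ l, (s x).1 l = some (v, y) then (h.choose : Lb n) else 0

/-- the permutation at the vertex `v` -/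
noncomputable def Mod_tau {k n w t : ℕ} {I1 : Finset (Lb n)} (i : Fin t → Lb n)
    (s : Mod_C k w t I1) (v : Vx k) : Equiv.Perm (Lb n) :=
  Mod_swp (Mod_A s v) i (Mod_r s v)

open Classical in
/-- the reconstruction -/
noncomputable def Mod_rec {k n w t : ℕ} {I1 : Finset (Lb n)} (ω' : Mod_W k n)
    (i : Fin t → Lb n) (s : Mod_C k w t I1) : Mod_W k n :=
  (fun v => ω'.1 v * (Mod_tau i s v)⁻¹,
    fun y => if h : ∃ g, i g = y then (s h.choose).2 else ω'.2 y)

open Classical in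
/-- the modification -/
noncomputable def Mod_new {k n w t : ℕ} {I1 : Finset (Lb n)} (ω : Mod_W k n)
    (i : Fin t → Lb n) (s : Mod_C k w t I1) (c : Fin t → Bool) : Mod_W k n :=
  (fun v => ω.1 v * Mod_tau i s v,
    fun y => if h : ∃ g, i g = y then c h.choose else ω.2 y)

theorem Mod_rec_new {k n w t : ℕ} {I1 : Finset (Lb n)} (ω : Mod_W k n)
    (i : Fin t → Lb n) (s : Mod_C k w t I1) (c : Fin t → Bool)
    (hs : ∀ x, (s x).2 = ω.2 (i x)) : Mod_rec (Mod_new ω i s c) i s = ω := by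
  unfold Mod_rec Mod_new
  refine Prod.ext ?_ ?_
  · funext v
    simp
  · funext y
    by_cases h : ∃ g, i g = y
    · simp only [h, dif_pos]
      rw [hs, h.choose_spec]
    · simp only [h]
      simp

open Classical in
/-- the traces -/
noncomputable def Mod_tr {k n : ℕ} (ω : Mod_W k n) (π F : Finset (Fact k n)) : Finset (Lb n) :=
  (F.filter (fun f => f ∉ π)).image (fun f => Mod_idx ω.1 f)

/-- the code of the groups -/
noncomputable def Mod_code {k n w t : ℕ} {I1 : Finset (Lb n)} (G : Fin t → Grp k n)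
    (rI : Fin t → Vx k → I1) (c : Fin t → Bool) : Mod_C k w t I1 :=
  fun x => (fun l => ((G x).supp.toList[l.val]?).map (fun v => (v, rI x v)), c x)

theorem Mod_code_iff {k n w t : ℕ} {I1 : Finset (Lb n)} (G : Fin t → Grp k n)
    (rI : Fin t → Vx k → I1) (c : Fin t → Bool) (hG : ∀ x, (G x).supp.card ≤ 2 * w)
    (x : Fin t) (v : Vx k) (y : I1) :
    (∃ l, ((Mod_code G rI c : Mod_C k w t I1) x).1 l = some (v, y)) ↔
      v ∈ (G x).supp ∧ y = rI x v := by
  constructor
  · rintro ⟨l, hl⟩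
    unfold Mod_code at hl
    simp only [Option.map_eq_some_iff, Prod.mk.injEq] at hl
    obtain ⟨v', h1, h2, h3⟩ := hl
    subst h2
    refine ⟨?_, h3.symm⟩
    rw [← Finset.mem_toList]
    exact List.mem_of_getElem? h1
  · rintro ⟨hv, rfl⟩
    rw [← Finset.mem_toList] at hv
    obtain ⟨j, hj, hj'⟩ := List.mem_iff_getElem.1 hv
    rw [Finset.length_toList] at hj
    refine ⟨⟨j, lt_of_lt_of_le hj (hG x)⟩, ?_⟩
    unfold Mod_code
    simp only [Option.map_eq_some_iff, Prod.mk.injEq]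
    refine ⟨v, ?_, rfl, rfl⟩
    rw [List.getElem?_eq_some_iff]
    exact ⟨by rw [Finset.length_toList]; exact hj, hj'⟩

theorem Mod_A_code {k n w t : ℕ} {I1 : Finset (Lb n)} (G : Fin t → Grp k n)
    (rI : Fin t → Vx k → I1) (c : Fin t → Bool) (hG : ∀ x, (G x).supp.card ≤ 2 * w)
    (v : Vx k) (x : Fin t) :
    x ∈ Mod_A (Mod_code G rI c : Mod_C k w t I1) v ↔ v ∈ (G x).supp := by
  unfold Mod_A
  rw [Finset.mem_filter]
  constructor
  · rintro ⟨-, l, y, h⟩
    exact ((Mod_code_iff G rI c hG x v y).1 ⟨l, h⟩).1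
  · intro hv
    obtain ⟨l, h⟩ := (Mod_code_iff G rI c hG x v (rI x v)).2 ⟨hv, rfl⟩
    exact ⟨Finset.mem_univ _, l, _, h⟩

theorem Mod_r_code {k n w t : ℕ} {I1 : Finset (Lb n)} (G : Fin t → Grp k n)
    (rI : Fin t → Vx k → I1) (c : Fin t → Bool) (hG : ∀ x, (G x).supp.card ≤ 2 * w)
    (v : Vx k) (x : Fin t) (hv : v ∈ (G x).supp) :
    Mod_r (Mod_code G rI c : Mod_C k w t I1) v x = rI x v := by
  unfold Mod_r
  have h : ∃ y : I1, ∃ l, ((Mod_code G rI c : Mod_C k w t I1) x).1 l = some (v, y) :=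
    ⟨rI x v, (Mod_code_iff G rI c hG x v (rI x v)).2 ⟨hv, rfl⟩⟩
  rw [dif_pos h]
  have := ((Mod_code_iff G rI c hG x v h.choose).1 h.choose_spec).2
  rw [this]

open Classical in
theorem prf_Mod (hE : S_Emb) (hS : S_Swap) : S_Mod := by
  intro k n w r q ρ I1 π 𝓣 hI1 h0 h01 h𝓣 hwr hSB
  refine ⟨fun ω' => {E | ∃ F ∈ 𝓣, (∀ f ∈ F, f ∈ π ∨ Mod_str ω' I1 f) ∧ E = Mod_tr ω' π F},
    ?_, Mod_rec, ?_⟩
  · rintro ω' E ⟨F, hF, -, rfl⟩
    exact le_trans Finset.card_image_le (le_trans (Finset.card_filter_le _ _) (h𝓣 F hF).1)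
  intro ω hω hbad
  have hExt : Ext ρ ω.1 ω.2 := by
    have := (Finset.mem_filter.1 hω).2
    exact this
  obtain ⟨ρ1, e1, e2, e3, hno, Fs, hFs, hdis⟩ := hbad
  have hst : ∀ f, SetTrue ρ1 f ↔ Mod_str ω I1 f := by
    intro f
    rw [Mod_setTrue, e1, e2, e3]
  have hemb : ∀ j, _ := fun j => hE k n w r ρ1 π (Fs j) (h𝓣 _ (hFs j).1).2 (h𝓣 _ (hFs j).1).1
    hwr hSB (hFs j).2
  choose G hG1 hG2 hG3 hG4 hG5 hG6 using hemb
  rw [e1, e3] at hG2
  -- enumeration of the groups
  set GG : Fin (q * w) → Grp k n := fun x =>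
    G (finProdFinEquiv.symm x).1 (finProdFinEquiv.symm x).2 with hGG
  have gs : ∀ x, (GG x).supp.card ≤ 2 * w := fun x => hG1 _ _
  have gI : ∀ x, ∀ v ∈ (GG x).supp, (ω.1 v).symm ((GG x).p v) ∈ I1 := fun x v hv => hG2 _ _ v hv
  have gc : ∀ x, crn k ∈ (GG x).supp → (GG x).p (crn k) ≠ 0 ∧ (GG x).p (crn k) ≠ 1 :=
    fun x hx => hG3 _ _ hx
  have gne : ∀ x x', x ≠ x' → ∀ v, v ∈ (GG x).supp → v ∈ (GG x').supp →
      (GG x).p v ≠ (GG x').p v := by
    intro x x' hxx v hv hv'
    by_cases hj : (finProdFinEquiv.symm x).1 = (finProdFinEquiv.symm x').1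
    · have hg : (finProdFinEquiv.symm x).2 ≠ (finProdFinEquiv.symm x').2 := by
        intro hg
        apply hxx
        apply finProdFinEquiv.symm.injective
        exact Prod.ext hj hg
      have := hG4 (finProdFinEquiv.symm x).1 (finProdFinEquiv.symm x).2
        (finProdFinEquiv.symm x').2 hg v hv
      have hv'' : v ∈ (G (finProdFinEquiv.symm x).1 (finProdFinEquiv.symm x').2).supp := by
        rw [hj]
        exact hv'
      have h3 := this hv''
      intro h4
      apply h3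
      have h5 : (GG x').p v = (G (finProdFinEquiv.symm x).1 (finProdFinEquiv.symm x').2).p v := by
        rw [hj]
      rw [← h5, ← h4]
    · obtain ⟨f, hf, hfd, hft⟩ := hG6 _ _ v hv
      obtain ⟨f', hf', hfd', hft'⟩ := hG6 _ _ v hv'
      have := hdis _ _ hj f hf hfd f' hf' hfd'
      intro h4
      rw [Finset.disjoint_left] at this
      apply this hft
      have h5 : (G (finProdFinEquiv.symm x).1 (finProdFinEquiv.symm x).2).p v =
        (G (finProdFinEquiv.symm x').1 (finProdFinEquiv.symm x').2).p v := h4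
      rw [h5]
      exact hft'
  -- the set D
  refine ⟨Finset.univ.biUnion (fun j => (Fs j).image (fun f => Mod_idx ω.1 f)), ?_, ?_⟩
  · refine le_trans Finset.card_biUnion_le ?_
    have : ∀ j ∈ (Finset.univ : Finset (Fin q)), ((Fs j).image (fun f => Mod_idx ω.1 f)).card ≤ w :=
      fun j _ => le_trans Finset.card_image_le (h𝓣 _ (hFs j).1).1
    refine le_trans (Finset.sum_le_sum this) ?_
    simp
  intro i hi hiD
  have hiI : ∀ g, i g ∈ ρ.I := fun g => by
    have := hiD g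
    simp only [Finset.mem_sdiff] at this
    exact this.1.1
  have hiI1 : ∀ g, i g ∉ I1 := fun g => by
    have := hiD g
    simp only [Finset.mem_sdiff] at this
    exact this.1.2
  have hiD' : ∀ g, ∀ j, ∀ f ∈ Fs j, Mod_idx ω.1 f ≠ i g := by
    intro g j f hf he
    have := hiD g
    simp only [Finset.mem_sdiff] at this
    apply this.2
    rw [Finset.mem_biUnion]
    exact ⟨j, Finset.mem_univ _, Finset.mem_image.2 ⟨f, hf, he⟩⟩
  -- the code
  set rI : Fin (q * w) → Vx k → I1 := fun x v =>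
    if h : (ω.1 v).symm ((GG x).p v) ∈ I1 then ⟨(ω.1 v).symm ((GG x).p v), h⟩ else ⟨0, h0⟩ with hrI
  have hrI' : ∀ x v, v ∈ (GG x).supp → (rI x v : Lb n) = (ω.1 v).symm ((GG x).p v) := by
    intro x v hv
    simp only [hrI]
    rw [dif_pos (gI x v hv)]
  set s : Mod_C k w (q * w) I1 := Mod_code GG rI (fun x => ω.2 (i x)) with hs
  have hA : ∀ v x, x ∈ Mod_A s v ↔ v ∈ (GG x).supp := fun v x => Mod_A_code GG rI _ gs v x
  have hr : ∀ v x, v ∈ (GG x).supp → Mod_r s v x = (ω.1 v).symm ((GG x).p v) := by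
    intro v x hv
    rw [hs, Mod_r_code GG rI _ gs v x hv, hrI' x v hv]
  -- the permutations
  have hP : ∀ v, Mod_P (Mod_A s v) i (Mod_r s v) (Mod_tau i s v) := by
    intro v
    apply Mod_swp_spec
    apply hS n (q * w) (Mod_A s v) i (Mod_r s v)
    · intro x _ x' _ hxx h
      exact hxx (hi h)
    · intro x hx x' hx' hxx h
      rw [hA] at hx hx'
      rw [hr v x hx, hr v x' hx'] at h
      exact gne x x' hxx v hx hx' ((ω.1 v).symm.injective h)
    · intro x _ x' hx' h
      rw [hA] at hx'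
      rw [hr v x' hx'] at h
      apply hiI1 x
      rw [h]
      exact gI x' v hx'
  have t1 : ∀ v x, v ∈ (GG x).supp → Mod_tau i s v (i x) = (ω.1 v).symm ((GG x).p v) := by
    intro v x hv
    rw [(hP v).1 x ((hA v x).2 hv), hr v x hv]
  have t3 : ∀ v y, (∀ x, y ≠ i x) → (∀ x, v ∈ (GG x).supp → y ≠ (ω.1 v).symm ((GG x).p v)) →
      Mod_tau i s v y = y := by
    intro v y h1 h2
    apply (hP v).2.2
    intro x hx
    rw [hA] at hx
    refine ⟨h1 x, ?_⟩
    rw [hr v x hx]
    exact h2 x hx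
  have t4 : ∀ v y, (∀ x, y ≠ i x) → y ∉ I1 → Mod_tau i s v y = y := by
    intro v y h1 h2
    refine t3 v y h1 ?_
    intro x hx h3
    apply h2
    rw [h3]
    exact gI x v hx
  set ω' : Mod_W k n := Mod_new ω i s (fun x => (GG x).c) with hω'
  have n1 : ∀ v y, ω'.1 v y = ω.1 v (Mod_tau i s v y) := by
    intro v y
    rfl
  have n2 : ∀ x, ω'.2 (i x) = (GG x).c := by
    intro x
    have h : ∃ g, i g = i x := ⟨x, rfl⟩
    have h2 : h.choose = x := hi h.choose_spec
    change (if h : ∃ g, i g = i x then (GG h.choose).c else ω.2 (i x)) = (GG x).c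
    rw [dif_pos h, h2]
  have n3 : ∀ y, (∀ x, y ≠ i x) → ω'.2 y = ω.2 y := by
    intro y hy
    have h : ¬ ∃ g, i g = y := by
      rintro ⟨g, hg⟩
      exact hy g hg.symm
    change (if h : ∃ g, i g = y then (GG h.choose).c else ω.2 y) = ω.2 y
    rw [dif_neg h]
  have n4 : ∀ f x, (∀ g, x ≠ i g) → x ∉ I1 → (Mod_on ω' x f ↔ Mod_on ω x f) := by
    intro f x h1 h2
    apply Mod_on_congr
    · intro v
      rw [n1, t4 v x h1 h2]
    · exact n3 x h1
  have n5 : ∀ x f, Carries (GG x) f → Mod_on ω' (i x) f := by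
    intro x f hc
    apply Mod_on_of_carries hc
    · intro v hv
      rw [n1, t1 v x hv, Equiv.apply_symm_apply]
    · exact n2 x
  -- facts of Fs j
  have key : ∀ j, ∀ f ∈ Fs j, f ∉ π → (Mod_on ω' (Mod_idx ω'.1 f) f ∧ Mod_idx ω'.1 f ∉ I1 ∧
      ∀ g, Mod_idx ω'.1 f = i g → (finProdFinEquiv.symm g).1 = j) := by
    intro j f hf hfπ
    by_cases hd : Dec ρ1 π f
    · rcases hd with hd | hd
      · exact absurd hd hfπ
      · obtain ⟨x, hx1, hx2⟩ := (hst f).1 hd
        have hx3 : Mod_idx ω.1 f = x := Mod_idx_of_on hx2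
        have hx4 : ∀ g, x ≠ i g := by
          intro g
          rw [← hx3]
          exact hiD' g j f hf
        have hx5 : Mod_on ω' x f := (n4 f x hx4 hx1).2 hx2
        have hx6 : Mod_idx ω'.1 f = x := Mod_idx_of_on hx5
        rw [hx6]
        exact ⟨hx5, hx1, fun g hg => absurd hg (hx4 g)⟩
    · obtain ⟨g, hg⟩ := hG5 j f hf hd
      have hgg : GG (finProdFinEquiv (j, g)) = G j g := by
        simp only [hGG, Equiv.symm_apply_apply]
      have h5 : Mod_on ω' (i (finProdFinEquiv (j, g))) f := by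
        apply n5
        rw [hgg]
        exact hg
      have h6 : Mod_idx ω'.1 f = i (finProdFinEquiv (j, g)) := Mod_idx_of_on h5
      rw [h6]
      refine ⟨h5, hiI1 _, ?_⟩
      intro g' hg'
      rw [← hi hg', Equiv.symm_apply_apply]
  refine ⟨ω', ?_, s, Mod_rec_new ω i s _ (fun x => rfl), ?_, fun j => Mod_tr ω' π (Fs j), ?_, ?_⟩
  · -- ω' is an extension of ρ
    have : Ext ρ ω'.1 ω'.2 := by
      refine ⟨?_, ?_, ?_, ?_⟩
      · intro v y hy
        have hy1 : ∀ x, y ≠ i x := fun x h => hy (h ▸ hiI x)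
        have hy2 : y ∉ I1 := fun h => hy (hI1 h)
        rw [n1, t4 v y hy1 hy2]
        exact hExt.beta v y hy
      · intro y hy
        have hy1 : ∀ x, y ≠ i x := fun x h => hy (h ▸ hiI x)
        rw [n3 y hy1]
        exact hExt.zeta y hy
      · rw [n1]
        have : Mod_tau i s (crn k) 0 = 0 := by
          apply t3
          · intro x hx
            exact hiI1 x (hx ▸ h0)
          · intro x hx h
            apply (gc x hx).1
            rw [(Equiv.symm_apply_eq _).1 h.symm]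
            exact hExt.corner
        rw [this]
        exact hExt.corner
      · rw [n1]
        have : Mod_tau i s (crn k) 1 = 1 := by
          apply t3
          · intro x hx
            exact hiI1 x (hx ▸ h01)
          · intro x hx h
            apply (gc x hx).2
            rw [(Equiv.symm_apply_eq _).1 h.symm]
            exact hExt.corner1
        rw [this]
        exact hExt.corner1
    exact Finset.mem_filter.2 ⟨Finset.mem_univ _, this⟩
  · -- every trace meets the image of i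
    rintro E ⟨F, hF, hF2, rfl⟩
    by_contra hcon
    apply hno
    refine ⟨F, hF, ?_⟩
    intro f hf
    by_cases hfπ : f ∈ π
    · exact Or.inl hfπ
    · right
      rcases hF2 f hf with h | ⟨x, hx1, hx2⟩
      · exact absurd h hfπ
      · rw [hst]
        have hx3 : Mod_idx ω'.1 f = x := Mod_idx_of_on hx2
        have hx4 : ∀ g, x ≠ i g := by
          intro g hg
          apply hcon
          refine ⟨g, ?_⟩
          unfold Mod_tr
          rw [Finset.mem_image]
          exact ⟨f, Finset.mem_filter.2 ⟨hf, hfπ⟩, by rw [hx3, hg]⟩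
        exact ⟨x, hx1, (n4 f x hx4 hx1).1 hx2⟩
  · intro j
    refine ⟨Fs j, (hFs j).1, ?_, rfl⟩
    intro f hf
    by_cases hfπ : f ∈ π
    · exact Or.inl hfπ
    · right
      exact ⟨_, (key j f hf hfπ).2.1, (key j f hf hfπ).1⟩
  · intro j j' hjj g hg
    obtain ⟨h1, h2⟩ := hg
    unfold Mod_tr at h1 h2
    rw [Finset.mem_image] at h1 h2
    obtain ⟨f, hf, hfe⟩ := h1
    obtain ⟨f', hf', hfe'⟩ := h2
    rw [Finset.mem_filter] at hf hf'
    apply hjj
    rw [← (key j f hf.1 hf.2).2.2 g hfe, ← (key j' f' hf'.1 hf'.2).2.2 g hfe']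

end Pool.Agent.Work.MP_610017_lc.PP
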