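import Mathlib
import Pool.Agent.Work.MP_610017_lc.PP.StmtsA
import Pool.Agent.Work.MP_610017_lc.Bd.B02

/-!
# MP_610017_lc, block A, item OR
-/

set_option autoImplicit false

namespace Pool.Agent.Work.MP_610017_lc.PP

/-- the number of tasks -/
theorem or_count (a n1 B hb cι cS : ℕ) (h2 : 2 ≤ n1) (hn : n1 ≤ a ^ B) (hι : cι ≤ a ^ B)
    (hS : cS ≤ (2 * n1 ^ 4) ^ hb) : cι * cS ≤ a ^ (B * (1 + 5 * hb)) := by
  have h1 : (2 * n1 ^ 4) ^ hb ≤ ((a ^ B) ^ 5) ^ hb := by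
    apply Nat.pow_le_pow_left
    calc 2 * n1 ^ 4 ≤ n1 * n1 ^ 4 := Nat.mul_le_mul_right _ h2
      _ = n1 ^ 5 := by ring
      _ ≤ (a ^ B) ^ 5 := Nat.pow_le_pow_left hn 5
  calc cι * cS ≤ a ^ B * ((a ^ B) ^ 5) ^ hb := Nat.mul_le_mul hι (hS.trans h1)
    _ = a ^ (B * (1 + 5 * hb)) := by
      rw [← pow_mul, ← pow_mul, ← pow_add]
      congr 1
      ring

theorem prf_OR (hR : S_Round) (hB : S_Ball) (hC : S_BrCount) (hG : S_Graft) (hV : S_BrBasic)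
    (hM : S_HLeMono) : S_OR := by
  have _ := hM
  classical
  intro w B
  obtain ⟨h1, A, m1, hA, hRd⟩ := hR (9 * w) (9 * w) (B * (1 + 5 * (2 * (9 * w + 1) ^ 2)))
  refine ⟨(2 * (9 * w + 1) ^ 2) + h1, A, m1 + 2, hA, ?_⟩
  intro k n m ρ ι _ M Tx hm hk hρ hn hι hTx
  obtain ⟨TB, hTB, hSB⟩ := hB k n (9 * w)
  obtain ⟨S, hS, hSm⟩ := hC k n ((2 * (9 * w + 1) ^ 2)) TB hTB
  have hm1 : m1 ≤ m := by omega
  have hm2 : 2 ≤ m := by omega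
  have hmA : m ≤ m ^ A := Nat.le_self_pow (by omega) m
  have hn2 : 2 ≤ n + 1 := by
    have h3 : ρ.I.card ≤ n + 1 := by
      have := Finset.card_le_univ ρ.I
      rwa [Fintype.card_fin] at this
    omega
  set S' : Finset (Finset (Fact k n)) := S.filter (fun π => ∃ r, Br TB π r) with hS'
  have hS'c : S'.card ≤ (2 * (n + 1) ^ 4) ^ ((2 * (9 * w + 1) ^ 2)) :=
    (Finset.card_filter_le _ _).trans hS
  have hTT : ∀ i, ∀ F ∈ {F : Finset (Fact k n) | ∃ x, x ≤ M i ∧ Br (Tx i x) F true},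
      F.card ≤ 9 * w ∧ ∀ f ∈ F, Valid f := by
    rintro i F ⟨x, hx, hF⟩
    exact hV k n w (Tx i x) F true (hTx i x hx) hF
  obtain ⟨ρ', hle, hc, hT⟩ := hRd k n m ρ (ι × {π // π ∈ S'}) (fun p => p.2.1)
    (fun p => {F : Finset (Fact k n) | ∃ x, x ≤ M p.1 ∧ Br (Tx p.1 x) F true}) hm1 hk hρ
    (by
      refine hn.trans (Nat.pow_le_pow_right (by omega) ?_)
      exact Nat.le_mul_of_pos_right _ (by omega))
    (by
      rw [Fintype.card_prod, Fintype.card_coe]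
      exact or_count (m ^ A) (n + 1) B ((2 * (9 * w + 1) ^ 2)) _ _ hn2 hn hι hS'c)
    (by
      rintro ⟨i, π, hπ⟩
      obtain ⟨r, hr⟩ := (Finset.mem_filter.1 hπ).2
      exact hSB π r hr)
    (fun p F hF => hTT p.1 F hF)
    (fun p F hF _ => (Finset.card_filter_le _ _).trans (hTT p.1 F hF).1)
  refine ⟨ρ', hle, hc, fun i => ?_⟩
  obtain ⟨T, hT1, hT2⟩ := hG k n ((2 * (9 * w + 1) ^ 2)) h1 TB
    (fun F T => OrSet ρ' F {F : Finset (Fact k n) | ∃ x, x ≤ M i ∧ Br (Tx i x) F true} T) hTB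
    (fun F r hF => hT (i, ⟨F, Finset.mem_filter.2 ⟨hSm F r hF, r, hF⟩⟩))
  refine ⟨T, hT1, ?_, ?_⟩
  · intro F hF hcon
    obtain ⟨F1, r1, F2, T2, _, hO, hB2, rfl⟩ := hT2 F true hF
    obtain ⟨F', ⟨x, hx, hF'⟩, hd⟩ := hO.1 F2 hB2 hcon
    exact ⟨x, hx, F', hF', hd⟩
  · intro F hF x hx F' hF'
    obtain ⟨F1, r1, F2, T2, _, hO, hB2, rfl⟩ := hT2 F false hF
    exact hO.2 F2 hB2 F' ⟨x, hx, hF'⟩

end Pool.Agent.Work.MP_610017_lc.PP
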