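import Mathlib
import Pool.Agent.Work.MP_610017_lc.PP.StmtsA
import Pool.Agent.Work.MP_610017_lc.Bd.B02

/-!
# Block A: monotonicity in the restriction (items ResMono, RepMono, RepHLe; MP_610017_lc)
-/

set_option autoImplicit false

namespace Pool.Agent.Work.MP_610017_lc.PP

theorem ResMono_ext {k n : ℕ} {ρ' ρ : Res k n} (h : ρ'.Le ρ)
    {β : Vx k → Equiv.Perm (Lb n)} {ζ : Lb n → Bool} (hE : Ext ρ' β ζ) : Ext ρ β ζ := by
  obtain ⟨hI, hR⟩ := h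
  refine ⟨fun v i hi => ?_, fun i hi => ?_, hE.corner, hE.corner1⟩
  · rw [hE.beta v i (fun h1 => hi (hI h1)), hR.beta v i hi]
  · rw [hE.zeta i (fun h1 => hi (hI h1)), hR.zeta i hi]

theorem ResMono_con {k n : ℕ} {ρ' ρ : Res k n} (h : ρ'.Le ρ) {F : Finset (Fact k n)}
    (hF : Con ρ' F) : Con ρ F := by
  obtain ⟨ω, h1, h2, h3⟩ := hF
  exact ⟨ω, ResMono_ext h h1, h2, h3⟩

theorem ResMono_setTrue {k n : ℕ} {ρ' ρ : Res k n} (h : ρ'.Le ρ) {f : Fact k n}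
    (hf : SetTrue ρ f) : SetTrue ρ' f := by
  obtain ⟨hI, hR⟩ := h
  cases f with
  | edge v w a b =>
    obtain ⟨i, hi, h1, h2⟩ := hf
    refine ⟨i, fun h3 => hi (hI h3), ?_, ?_⟩
    · rw [hR.beta v i hi, h1]
    · rw [hR.beta w i hi, h2]
  | col v a c =>
    obtain ⟨i, hi, h1, h2⟩ := hf
    refine ⟨i, fun h3 => hi (hI h3), ?_, ?_⟩
    · rw [hR.beta v i hi, h1]
    · rw [hR.zeta i hi, h2]

theorem ResMono_orRep {k n : ℕ} {ρ' ρ : Res k n} (h : ρ'.Le ρ) {w m : ℕ}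
    {Tx : ℕ → Tree k n} {T : Tree k n} (hO : OrRep ρ w m Tx T) : OrRep ρ' w m Tx T := by
  obtain ⟨h1, h2, h3⟩ := hO
  refine ⟨h1, fun F hB hC => ?_, fun F hB x hx F' hB' hC => ?_⟩
  · obtain ⟨x, hx, F', hF', hD⟩ := h2 F hB (ResMono_con h hC)
    refine ⟨x, hx, F', hF', fun f hf => ?_⟩
    rcases hD f hf with h4 | h4
    · exact Or.inl h4
    · exact Or.inr (ResMono_setTrue h h4)
  · exact h3 F hB x hx F' hB' (ResMono_con h hC)

theorem prf_ResMono : S_ResMono := by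
  intro k n ρ' ρ h
  refine ⟨fun β ζ hE => ResMono_ext h hE, fun F hF => ResMono_con h hF,
    fun f hf => ResMono_setTrue h hf, fun ρ'' h' => ?_, fun w m Tx T hO => ResMono_orRep h hO⟩
  exact ⟨fun i hi => h.1 (h'.1 hi), ResMono_ext h h'.2⟩

theorem RepMono_orRep (hM : S_HLeMono) {k n : ℕ} {ρ : Res k n} {h h' m : ℕ}
    {Tx : ℕ → Tree k n} {T : Tree k n} (hh : h ≤ h') (hO : OrRep ρ h m Tx T) :
    OrRep ρ h' m Tx T :=
  ⟨hM k n h h' T hh hO.1, hO.2⟩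

theorem prf_RepMono (hR : S_ResMono) (hM : S_HLeMono) : S_RepMono := by
  intro k n ρ' ρ h h' v φ e T hL hh
  have hO := (hR k n ρ' ρ hL).2.2.2.2
  induction φ generalizing T with
  | eq s t => exact fun hT => hT
  | le s t => exact fun hT => hT
  | rel s =>
    rintro ⟨h1, h2⟩
    exact ⟨hM k n h h' T hh h1, h2⟩
  | neg φ ih =>
    rintro ⟨T1, h1, h2⟩
    exact ⟨T1, h1, ih _ _ h2⟩
  | and φ ψ ih1 ih2 =>
    rintro ⟨h1, T1, T2, h2, h3, h4⟩
    exact ⟨hM k n h h' T hh h1, T1, T2, h2, ih1 _ _ h3, ih2 _ _ h4⟩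
  | bex t φ ih =>
    rintro ⟨Tx, h1, h2⟩
    exact ⟨Tx, fun x hx => ih _ _ (h1 x hx), RepMono_orRep hM hh (hO _ _ _ _ h2)⟩
  | ind φ ih =>
    rintro ⟨Tx, h1, h2⟩
    exact ⟨Tx, fun x hx => ih _ _ (h1 x hx), RepMono_orRep hM hh (hO _ _ _ _ h2)⟩

theorem prf_RepHLe (hF : S_BrFlip) : S_RepHLe := by
  intro k n ρ h v φ e T
  induction φ generalizing T with
  | eq s t =>
    intro hT
    have h1 : T = .leaf (decide (s.val stdN e = t.val stdN e)) := hT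
    rw [h1]
    cases h <;> trivial
  | le s t =>
    intro hT
    have h1 : T = .leaf (decide (s.val stdN e ≤ t.val stdN e)) := hT
    rw [h1]
    cases h <;> trivial
  | rel s => exact fun hT => hT.1
  | neg φ ih =>
    rintro ⟨T1, h1, h2⟩
    rw [h1]
    exact ((hF k n T1).2 h).2 (ih _ _ h2)
  | and φ ψ ih1 ih2 => exact fun hT => hT.1
  | bex t φ ih =>
    rintro ⟨Tx, h1, h2⟩
    exact h2.1
  | ind φ ih =>
    rintro ⟨Tx, h1, h2⟩
    exact h2.1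

end Pool.Agent.Work.MP_610017_lc.PP
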