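import Mathlib
import Pool.Agent.Work.MP_610017_lc.PP.StmtsA
import Pool.Agent.Work.MP_610017_lc.Bd.B02

/-!
# MP_610017_lc, block A, item Round: the round lemma
-/

set_option autoImplicit false

namespace Pool.Agent.Work.MP_610017_lc.PP

theorem Round_le_refl {k n : ℕ} (ρ : Res k n) : ρ.Le ρ :=
  ⟨Finset.Subset.refl _, ⟨fun _ _ _ => rfl, fun _ _ => rfl, ρ.corner, ρ.corner1⟩⟩

theorem Round_leaf {k n : ℕ} {r r' : Bool} {P : Finset (Fact k n)}
    (h : Br (Tree.leaf r) P r') : P = ∅ ∧ r' = r := by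
  cases h
  exact ⟨rfl, rfl⟩

theorem Round_con_sub {k n : ℕ} {ρ : Res k n} {F F' : Finset (Fact k n)} (h : F ⊆ F')
    (hc : Con ρ F') : Con ρ F := by
  obtain ⟨ω, h1, h2, h3⟩ := hc
  exact ⟨ω, h1, h2, fun f hf => h3 f (h hf)⟩

theorem Round_sb {k n r : ℕ} {F F' : Finset (Fact k n)} (h : F ⊆ F') (hs : SB r F) :
    SB r F' := by
  intro ω h0 h01 h1 v hv1 hv2 i hi f hf ht hh
  exact h (hs ω h0 h01 (fun g hg => h1 g (h hg)) v hv1 hv2 i hi f hf ht hh)

/-- The arithmetic of the number of tasks. -/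
theorem Round_num {m A1 A2 B hq n c N : ℕ} (hm : 1 ≤ m) (hn2 : 2 ≤ n + 1)
    (hn : n + 1 ≤ (m ^ (A2 * A1)) ^ B) (hc : c ≤ (m ^ (A2 * A1)) ^ B)
    (hN : N ≤ c * (2 * (n + 1) ^ 4) ^ hq) :
    N ≤ (m ^ A2) ^ (A1 * B * (1 + 5 * hq)) ∧ n + 1 ≤ (m ^ A2) ^ (A1 * B * (1 + 5 * hq)) := by
  have e : (m ^ (A2 * A1)) ^ B = (m ^ A2) ^ (A1 * B) := by
    rw [pow_mul, pow_mul]
  rw [e] at hn hc
  set X := (m ^ A2) ^ (A1 * B) with hX
  have hX1 : 1 ≤ X := Nat.one_le_pow _ _ (Nat.one_le_pow _ _ hm)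
  have e2 : (m ^ A2) ^ (A1 * B * (1 + 5 * hq)) = X * (X ^ 5) ^ hq := by
    rw [pow_mul, ← hX, pow_add, pow_one, pow_mul]
  rw [e2]
  constructor
  · refine hN.trans (Nat.mul_le_mul hc (Nat.pow_le_pow_left ?_ hq))
    calc 2 * (n + 1) ^ 4 ≤ (n + 1) * (n + 1) ^ 4 := Nat.mul_le_mul_right _ hn2
      _ = (n + 1) ^ 5 := by ring
      _ ≤ X ^ 5 := Nat.pow_le_pow_left hn 5
  · refine hn.trans ?_
    exact Nat.le_mul_of_pos_right _ (Nat.one_le_pow _ _ (Nat.one_le_pow _ _ hX1))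

open Classical in
theorem Round_card {k n : ℕ} (ι : Type) [Fintype ι] (S : ι → Finset (Finset (Fact k n)))
    (Z : ℕ) (hS : ∀ i, (S i).card ≤ Z) :
    Fintype.card (Σ i : ι, {P // P ∈ S i}) ≤ Fintype.card ι * Z := by
  rw [Fintype.card_sigma]
  calc ∑ i : ι, Fintype.card {P // P ∈ S i} ≤ ∑ _i : ι, Z := by
        refine Finset.sum_le_sum fun i _ => ?_
        rw [Fintype.card_coe]
        exact hS i
    _ = Fintype.card ι * Z := by simp

open Classical in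
/-- The count of the undecided facts. -/
theorem Round_undec (hS : S_StarClosed) (hR : S_ResMono) {k n j w : ℕ} {ρ ρ1 : Res k n}
    (hle : ρ1.Le ρ) {π P F : Finset (Fact k n)} {H : Finset (Vx k × Lb n)}
    (hF : F.card ≤ w ∧ ∀ f ∈ F, Valid f)
    (hH : Con ρ1 (π ∪ F) → ∃ f ∈ F, ¬ Dec ρ1 π f ∧ ¬ Disjoint (touch f) H)
    (hP : ∀ p ∈ H, ∃ b c, star p.1 p.2 b c ⊆ P)
    (hj : Con ρ (π ∪ F) → (F.filter (fun f => ¬ Dec ρ π f)).card ≤ j + 1)
    (hc : Con ρ1 (π ∪ P ∪ F)) :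
    (F.filter (fun f => ¬ Dec ρ1 (π ∪ P) f)).card ≤ j := by
  have hc1 : Con ρ1 (π ∪ F) := Round_con_sub (by
    intro f hf
    rcases Finset.mem_union.1 hf with h | h
    · exact Finset.mem_union_left _ (Finset.mem_union_left _ h)
    · exact Finset.mem_union_right _ h) hc
  obtain ⟨r1, r2, r3, -, -⟩ := hR k n ρ1 ρ hle
  have hj' := hj (r2 _ hc1)
  obtain ⟨f, hfF, hfd, hft⟩ := hH hc1
  obtain ⟨p, hp1, hp2⟩ := Finset.not_disjoint_iff.1 hft
  obtain ⟨b, c, hbc⟩ := hP p hp2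
  obtain ⟨ω, h1, h2, h3⟩ := hc
  have hfs : f ∈ star p.1 p.2 b c := by
    refine hS k n ω p.1 p.2 b c f (fun g hg => ?_) (hF.2 f hfF) hp1 ?_
    · exact h3 g (Finset.mem_union_left _ (Finset.mem_union_right _ (hbc hg)))
    · exact h3 f (Finset.mem_union_right _ hfF)
  have hdec : Dec ρ1 (π ∪ P) f := Or.inl (Finset.mem_union_right _ (hbc hfs))
  have hnd : ¬ Dec ρ π f := by
    rintro (h | h)
    · exact hfd (Or.inl h)
    · exact hfd (Or.inr (r3 f h))
  have hss : F.filter (fun f => ¬ Dec ρ1 (π ∪ P) f) ⊂ F.filter (fun f => ¬ Dec ρ π f) := by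
    rw [Finset.ssubset_iff_of_subset]
    · refine ⟨f, Finset.mem_filter.2 ⟨hfF, hnd⟩, fun h => ?_⟩
      exact (Finset.mem_filter.1 h).2 hdec
    · intro g hg
      rw [Finset.mem_filter] at hg ⊢
      refine ⟨hg.1, fun h => hg.2 ?_⟩
      rcases h with h | h
      · exact Or.inl (Finset.mem_union_left _ h)
      · exact Or.inr (r3 g h)
  have := Finset.card_lt_card hss
  omega

open Classical in
theorem prf_Round (hH : S_Hit) (hG : S_Greedy) (hQ : S_Query) (hC : S_BrCount) (hT : S_Graft)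
    (hS : S_StarClosed) (hR : S_ResMono) (hM : S_HLeMono) (hB : S_BrBasic) : S_Round := by
  have _hB := hB
  intro j
  induction j with
  | zero =>
    intro w B
    refine ⟨0, 1, 0, le_rfl, ?_⟩
    intro k n m ρ ι _ π 𝓣 _ _ hI _ _ _ _ hj
    refine ⟨ρ, Round_le_refl ρ, by rw [hI, pow_one], fun i => ?_⟩
    refine ⟨.leaf (decide (∃ F ∈ 𝓣 i, ∀ f ∈ F, Dec ρ (π i) f)), trivial, ?_, ?_⟩
    · intro P hP _
      obtain ⟨rfl, h2⟩ := Round_leaf hP
      rw [eq_comm, decide_eq_true_iff] at h2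
      rw [Finset.union_empty]
      exact h2
    · intro P hP F hF hc
      obtain ⟨rfl, h2⟩ := Round_leaf hP
      rw [eq_comm, decide_eq_false_iff_not] at h2
      rw [Finset.union_empty] at hc
      apply h2
      refine ⟨F, hF, fun f hf => ?_⟩
      by_contra hd
      have h3 := hj i F hF hc
      have h4 : f ∈ F.filter (fun f => ¬ Dec ρ (π i) f) := Finset.mem_filter.2 ⟨hf, hd⟩
      have h5 := Finset.card_pos.2 ⟨f, h4⟩
      omega
  | succ j ih =>
    intro w B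
    obtain ⟨q, A1, m1, hA1, hit⟩ := hH w B
    obtain ⟨h2, A2, m2, hA2, ih'⟩ := ih w (A1 * B * (1 + 5 * (2 * w * q)))
    refine ⟨2 * w * q + h2, A2 * A1, max (max m1 m2) 2, Nat.mul_pos hA2 hA1, ?_⟩
    intro k n m ρ ι _ π 𝓣 hm hk hI hn hι hSB hw hj
    have hm2 : 2 ≤ m := le_trans (le_max_right _ _) hm
    have hm1' : m1 ≤ m := le_trans (le_trans (le_max_left _ _) (le_max_left _ _)) hm
    have hm2' : m2 ≤ m := le_trans (le_trans (le_max_right _ _) (le_max_left _ _)) hm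
    have hmA : m ≤ m ^ A2 := Nat.le_self_pow (by omega) m
    have hn2 : 2 ≤ n + 1 := by
      have h3 : ρ.I.card ≤ n + 1 := by
        have := Finset.card_le_univ ρ.I
        rwa [Fintype.card_fin] at this
      have h4 : m ≤ m ^ (A2 * A1) := Nat.le_self_pow (Nat.mul_pos hA2 hA1).ne' m
      omega
    obtain ⟨ρ1, hle1, hI1, hbad⟩ := hit k n (m ^ A2) ρ ι π 𝓣 (hm1'.trans hmA) (hk.trans hmA)
      (by rw [hI, pow_mul]) (by rw [← pow_mul m A2 A1]; exact hι) hSB hw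
    have hgr := fun i => hG k n w q ρ1 (π i) (𝓣 i) (fun F hF => (hw i F hF).1) (hbad i)
    -- the query trees
    have hQt : ∀ i, ∃ Q : Tree k n, HLe (2 * w * q) Q ∧
        ((∃ F ∈ 𝓣 i, ∀ f ∈ F, Dec ρ1 (π i) f) ∨
          ∃ H : Finset (Vx k × Lb n), (∀ F ∈ 𝓣 i, Con ρ1 (π i ∪ F) →
            ∃ f ∈ F, ¬ Dec ρ1 (π i) f ∧ ¬ Disjoint (touch f) H) ∧
          ∀ F r, Br Q F r → ∀ p ∈ H, ∃ b c, star p.1 p.2 b c ⊆ F) := by
      intro i
      rcases hgr i with h | ⟨H, hH1, hH2⟩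
      · exact ⟨.leaf true, by cases (2 * w * q) <;> trivial, Or.inl h⟩
      · obtain ⟨Q, hQ1, hQ2⟩ := hQ k n H
        exact ⟨Q, hM k n _ _ Q hH1 hQ1, Or.inr ⟨H, hH2, hQ2⟩⟩
    choose Q hQ1 hQ2 using hQt
    choose S hS1 hS2 using fun i => hC k n (2 * w * q) (Q i) (hQ1 i)
    let S' : ι → Finset (Finset (Fact k n)) := fun i => (S i).filter (fun P => ∃ r, Br (Q i) P r)
    have hS1' : ∀ i, (S' i).card ≤ (2 * (n + 1) ^ 4) ^ (2 * w * q) := fun i =>
      (Finset.card_filter_le _ _).trans (hS1 i)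
    have hcard := Round_card ι S' _ hS1'
    obtain ⟨n1, n2⟩ := Round_num (m := m) (A1 := A1) (A2 := A2) (B := B) (hq := 2 * w * q)
      (by omega) hn2 hn hι hcard
    let G1 : ι → Prop := fun i => ∃ F ∈ 𝓣 i, ∀ f ∈ F, Dec ρ1 (π i) f
    obtain ⟨ρ', hle', hI', hρ'⟩ := ih' k n m ρ1 (Σ i : ι, {P // P ∈ S' i})
      (fun x => π x.1 ∪ x.2.1) (fun x => if G1 x.1 then ∅ else 𝓣 x.1) hm2' hk hI1 n2 n1
      (fun x => Round_sb Finset.subset_union_left (hSB x.1))
      (by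
        intro x F hF
        by_cases hg : G1 x.1
        · rw [if_pos hg] at hF
          exact absurd hF (Set.notMem_empty F)
        · rw [if_neg hg] at hF
          exact hw x.1 F hF)
      (by
        rintro ⟨i, P, hP⟩ F hF hc
        by_cases hg : G1 i
        · simp only [if_pos hg] at hF
          exact absurd hF (Set.notMem_empty F)
        · simp only [if_neg hg] at hF
          obtain ⟨r, hr⟩ := (Finset.mem_filter.1 hP).2
          rcases hQ2 i with h | ⟨H, hH1, hH2⟩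
          · exact absurd h hg
          · exact Round_undec hS hR hle1 (hw i F hF) (hH1 F hF) (hH2 P r hr) (hj i F hF) hc)
    obtain ⟨-, -, r3, -, -⟩ := hR k n ρ' ρ1 hle'
    refine ⟨ρ', (hR k n ρ1 ρ hle1).2.2.2.1 ρ' hle', hI', fun i => ?_⟩
    by_cases hg : G1 i
    · refine ⟨.leaf true, by cases (2 * w * q + h2) <;> trivial, ?_, ?_⟩
      · intro P _ _
        obtain ⟨F, hF, hd⟩ := hg
        refine ⟨F, hF, fun f hf => ?_⟩
        rcases hd f hf with h | h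
        · exact Or.inl (Finset.mem_union_left _ h)
        · exact Or.inr (r3 f h)
      · intro P hP
        obtain ⟨-, h⟩ := Round_leaf hP
        exact absurd h (by decide)
    · obtain ⟨T, hT1, hT2⟩ := hT k n (2 * w * q) h2 (Q i)
        (fun F T => OrSet ρ' (π i ∪ F) (𝓣 i) T) (hQ1 i) (by
          intro F r hr
          obtain ⟨T, hT1, hT2⟩ := hρ' ⟨i, F, Finset.mem_filter.2 ⟨hS2 i F r hr, r, hr⟩⟩
          simp only [if_neg hg] at hT2
          exact ⟨T, hT1, hT2⟩)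
      refine ⟨T, hT1, ?_, ?_⟩
      · intro P hP hc
        obtain ⟨F1, r1, F2, T2, hb1, ho, hb2, rfl⟩ := hT2 P true hP
        rw [← Finset.union_assoc] at hc ⊢
        exact ho.1 F2 hb2 hc
      · intro P hP F hF hc
        obtain ⟨F1, r1, F2, T2, hb1, ho, hb2, rfl⟩ := hT2 P false hP
        rw [← Finset.union_assoc] at hc
        exact ho.2 F2 hb2 F hF hc

end Pool.Agent.Work.MP_610017_lc.PP
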