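import Mathlib
import Pool.Agent.Work.MP_610017_lc.PP.StmtsA
import Pool.Agent.Work.MP_610017_lc.Bd.B02

/-!
# Item Seq: the diagonal construction (MP_610017_lc)
-/

set_option autoImplicit false

namespace Pool.Agent.Work.MP_610017_lc.PP

/-- the exponents `B_j = A_0 ... A_(j-1)` -/
def Seq_B (A : ℕ → ℕ → ℕ) : ℕ → ℕ
  | 0 => 1
  | j + 1 => Seq_B A j * A j (Seq_B A j)

theorem Seq_B_prod (A : ℕ → ℕ → ℕ) (j : ℕ) :
    Seq_B A j = ∏ l ∈ Finset.range j, A l (Seq_B A l) := by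
  induction j with
  | zero => simp [Seq_B]
  | succ j ih =>
    rw [Finset.prod_range_succ, ← ih]
    rfl

/-- the full restriction -/
def Seq_top (k n : ℕ) (hn : (1 : Lb n) ≠ 0) : Res k n where
  β := fun _ => 1
  ζ := fun _ => true
  I := Finset.univ
  zero_mem := Finset.mem_univ _
  one_mem := Finset.mem_univ _
  one_ne := hn
  corner := rfl
  corner1 := rfl

theorem Seq_le_pow (m c : ℕ) (hc : 1 ≤ c) : m ≤ m ^ c := by
  rcases Nat.eq_zero_or_pos m with h | h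
  · rw [h]
    exact Nat.zero_le _
  · calc m = m ^ 1 := (pow_one m).symm
      _ ≤ m ^ c := Nat.pow_le_pow_right h hc

theorem prf_Seq (hE : S_Exist) (hC : S_Countable) (hR : S_ResMono) (hM : S_RepMono) :
    S_Seq := by
  classical
  have _ := hR
  haveI : Countable (Σ v : ℕ, Gm v) := hC
  haveI : Nonempty ((Σ v : ℕ, Gm v) × ℕ) := ⟨(⟨0, Gm.eq Tm.zero Tm.zero⟩, 0)⟩
  obtain ⟨p, hp⟩ := exists_surjective_nat ((Σ v : ℕ, Gm v) × ℕ)
  choose h A m0 hA H using hE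
  let AA : ℕ → ℕ → ℕ := fun j B => A (p j).1.1 (p j).1.2 (p j).2 B
  let B : ℕ → ℕ := Seq_B AA
  let Aj : ℕ → ℕ := fun j => AA j (B j)
  let hj : ℕ → ℕ := fun j => h (p j).1.1 (p j).1.2 (p j).2 (B j)
  let mj : ℕ → ℕ := fun j => m0 (p j).1.1 (p j).1.2 (p j).2 (B j)
  have hAj : ∀ j, 1 ≤ Aj j := fun j => hA _ _ _ _
  have hBj : ∀ j, B j = ∏ l ∈ Finset.range j, Aj l := fun j => Seq_B_prod AA j
  have Hj : ∀ (j k n m : ℕ) (ρ : Res k n), mj j ≤ m → (k + 1) ^ 2 ≤ m → ρ.I.card = m ^ Aj j →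
      n + 1 ≤ (m ^ Aj j) ^ B j → ∃ ρ' : Res k n, ρ'.Le ρ ∧ ρ'.I.card = m ∧
      ∀ e : Fin (p j).1.1 → ℕ, (∀ l, e l ≤ (n + 1) ^ (p j).2) →
        ∃ T, Rep ρ' (hj j) (p j).1.2 e T :=
    fun j k n m ρ h1 h2 h3 h4 => H _ _ _ _ k n m ρ h1 h2 h3 h4
  have key : ∀ i : ℕ, ∃ (k n : ℕ) (ρ : Res k n), i ≤ k ∧ i ≤ ρ.I.card ∧ 2 ^ k ≤ n + 1 ∧
      ∀ j ≤ i, ∀ e : Fin (p j).1.1 → ℕ, (∀ l, e l ≤ (n + 1) ^ (p j).2) →
        ∃ T, Rep ρ (hj j) (p j).1.2 e T := by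
    intro i
    obtain ⟨k, hk⟩ : ∃ k, k = i + 1 := ⟨_, rfl⟩
    obtain ⟨m, hm1, hm2, hm3, hm4⟩ : ∃ m : ℕ, i + 2 ≤ m ∧ (k + 1) ^ 2 ≤ m ∧ 2 ^ k ≤ m ∧
        ∀ j ≤ i, mj j ≤ m := by
      obtain ⟨P, hP⟩ : ∃ P : ℕ, P = 2 ^ k := ⟨_, rfl⟩
      obtain ⟨Q, hQ⟩ : ∃ Q : ℕ, Q = (k + 1) ^ 2 := ⟨_, rfl⟩
      rw [← hP, ← hQ]
      refine ⟨i + 2 + Q + P + ∑ j ∈ Finset.range (i + 1), mj j, by omega, by omega,
        by omega, fun j hj => ?_⟩
      have := Finset.single_le_sum (f := mj) (s := Finset.range (i + 1)) (fun _ _ => Nat.zero_le _)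
        (Finset.mem_range.2 (Nat.lt_succ_of_le hj))
      omega
    obtain ⟨a, ha⟩ : ∃ a : ℕ → ℕ, ∀ j, a j = m ^ ∏ l ∈ Finset.Ico j (i + 1), Aj l :=
      ⟨_, fun _ => rfl⟩
    have ha1 : ∀ j, m ≤ a j := by
      intro j
      rw [ha]
      exact Seq_le_pow _ _ (Finset.one_le_prod' fun l _ => hAj l)
    have ha2 : ∀ j ≤ i, a j = a (j + 1) ^ Aj j := by
      intro j hji
      rw [ha, ha, ← pow_mul, Finset.prod_eq_prod_Ico_succ_bot (Nat.lt_succ_of_le hji), mul_comm]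
    have ha3 : ∀ j ≤ i, a 0 = a j ^ B j := by
      intro j hji
      rw [ha, ha, ← pow_mul, hBj, mul_comm, Finset.prod_range_mul_prod_Ico _ (by omega),
        Finset.range_eq_Ico]
    have ha4 : a (i + 1) = m := by
      rw [ha, Finset.Ico_self, Finset.prod_empty, pow_one]
    obtain ⟨n, hn⟩ : ∃ n, n + 1 = a 0 := ⟨a 0 - 1, by have := ha1 0; omega⟩
    have claim : ∀ j ≤ i + 1, ∃ ρ : Res k n, ρ.I.card = a j ∧
        ∀ j' < j, ∀ e : Fin (p j').1.1 → ℕ, (∀ l, e l ≤ (n + 1) ^ (p j').2) →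
          ∃ T, Rep ρ (hj j') (p j').1.2 e T := by
      intro j
      induction j with
      | zero =>
        intro _
        have hn1 : (1 : Lb n) ≠ 0 := by
          have h8 : 2 ≤ n + 1 := by
            have h9 := ha1 0
            omega
          intro h9
          have h10 : 1 % (n + 1) = 0 := congrArg Fin.val h9
          rw [Nat.mod_eq_of_lt (by omega)] at h10
          exact one_ne_zero h10
        refine ⟨Seq_top k n hn1, ?_, fun j' hj' => absurd hj' (Nat.not_lt_zero _)⟩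
        show (Finset.univ : Finset (Lb n)).card = a 0
        rw [Finset.card_univ, Fintype.card_fin, hn]
      | succ j ih =>
        intro hji
        obtain ⟨ρ, hρ1, hρ2⟩ := ih (by omega)
        have hji' : j ≤ i := by omega
        obtain ⟨ρ', h1, h2, h3⟩ := Hj j k n (a (j + 1)) ρ ((hm4 j hji').trans (ha1 _))
          (hm2.trans (ha1 _)) (by rw [hρ1, ha2 j hji']) (by rw [← ha2 j hji', ← ha3 j hji', hn])
        refine ⟨ρ', h2, fun j' hj' e he => ?_⟩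
        rcases Nat.lt_succ_iff_lt_or_eq.1 hj' with hlt | heq
        · obtain ⟨T, hT⟩ := hρ2 j' hlt e he
          exact ⟨T, hM _ _ _ _ _ _ _ _ _ _ h1 le_rfl hT⟩
        · subst heq
          exact h3 e he
    obtain ⟨ρ, hρ1, hρ2⟩ := claim (i + 1) le_rfl
    refine ⟨k, n, ρ, by omega, ?_, ?_, fun j hji => hρ2 j (Nat.lt_succ_of_le hji)⟩
    · rw [hρ1, ha4]
      omega
    · rw [hn]
      exact hm3.trans (ha1 0)
  choose kk nn ρ h1 h2 h3 h4 using key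
  refine ⟨⟨kk, nn, ρ, h1, h2, h3, fun v φ J => ?_⟩⟩
  obtain ⟨j, hj1⟩ := hp (⟨v, φ⟩, J)
  have h5 : ∀ (x : (Σ v : ℕ, Gm v) × ℕ), p j = x → ∀ i, j ≤ i → ∀ e : Fin x.1.1 → ℕ,
      (∀ l, e l ≤ (nn i + 1) ^ x.2) → ∃ T, Rep (ρ i) (hj j) x.1.2 e T := by
    rintro x rfl i hi
    exact h4 i j hi
  exact ⟨hj j, j, fun i hi e he => h5 _ hj1 i hi e he⟩

end Pool.Agent.Work.MP_610017_lc.PP
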