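import Mathlib
import Pool.Agent.Work.MP_610017_lc.Model
import Pool.Agent.Work.MP_610017_lc.PP.StmtsA

/-!
# The model with two special sheets (MP_610017_lc, block PP)
-/

set_option autoImplicit false

namespace Pool.Agent.Work.MP_610017_lc.PP

theorem SD.two_le (s : SD) : ∀ᶠ i in UU, 2 ≤ s.nn i + 1 := by
  filter_upwards [UU_ge 1] with i hi
  have h1 := s.pow_le i
  have h2 := s.le_kk i
  calc 2 = 2 ^ 1 := by norm_num
    _ ≤ 2 ^ s.kk i := Nat.pow_le_pow_right (by norm_num) (by omega)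
    _ ≤ _ := h1

/-- polynomially bounded sequences -/
def BSeq (s : SD) : Type := {x : ℕ → ℕ // ∃ J, ∀ᶠ i in UU, x i ≤ (s.nn i + 1) ^ J}

/-- the setoid of equality almost everywhere -/
instance bsSetoid (s : SD) : Setoid (BSeq s) where
  r x y := ∀ᶠ i in UU, x.1 i = y.1 i
  iseqv :=
    { refl := fun x => Filter.Eventually.of_forall fun _ => rfl
      symm := fun {x y} h => h.mono fun _ hi => hi.symm
      trans := fun {x y z} h1 h2 => by
        filter_upwards [h1, h2] with i a b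
        exact a.trans b }

/-- the domain of the model -/
def MM (s : SD) : Type := Quotient (bsSetoid s)

/-- the class of a sequence -/
def MM.mk {s : SD} (x : BSeq s) : MM s := Quotient.mk (bsSetoid s) x

theorem MM.eq_iff {s : SD} (x y : BSeq s) : MM.mk x = MM.mk y ↔ ∀ᶠ i in UU, x.1 i = y.1 i :=
  Quotient.eq (r := bsSetoid s)

theorem MM.ind' {s : SD} {P : MM s → Prop} (h : ∀ x : BSeq s, P (MM.mk x)) (a : MM s) : P a :=
  Quotient.inductionOn a h

theorem bs_add_aux (s : SD) (x y : ℕ → ℕ) (J K : ℕ) (hx : ∀ᶠ i in UU, x i ≤ (s.nn i + 1) ^ J)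
    (hy : ∀ᶠ i in UU, y i ≤ (s.nn i + 1) ^ K) :
    ∀ᶠ i in UU, x i + y i ≤ (s.nn i + 1) ^ (J + K + 1) := by
  filter_upwards [hx, hy, s.two_le] with i h1 h2 h3
  have h4 : (s.nn i + 1) ^ J ≤ (s.nn i + 1) ^ (J + K) :=
    Nat.pow_le_pow_right (by omega) (by omega)
  have h5 : (s.nn i + 1) ^ K ≤ (s.nn i + 1) ^ (J + K) :=
    Nat.pow_le_pow_right (by omega) (by omega)
  have h6 : (s.nn i + 1) ^ (J + K + 1) = (s.nn i + 1) ^ (J + K) * (s.nn i + 1) := pow_succ _ _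
  have h7 : (s.nn i + 1) ^ (J + K) * 2 ≤ (s.nn i + 1) ^ (J + K) * (s.nn i + 1) :=
    Nat.mul_le_mul_left _ h3
  omega

theorem bs_mul_aux (s : SD) (x y : ℕ → ℕ) (J K : ℕ) (hx : ∀ᶠ i in UU, x i ≤ (s.nn i + 1) ^ J)
    (hy : ∀ᶠ i in UU, y i ≤ (s.nn i + 1) ^ K) :
    ∀ᶠ i in UU, x i * y i ≤ (s.nn i + 1) ^ (J + K) := by
  filter_upwards [hx, hy] with i h1 h2
  rw [pow_add]
  exact Nat.mul_le_mul h1 h2

/-- constant sequences -/
def BSeq.const (s : SD) (c : ℕ) : BSeq s := ⟨fun _ => c, c, by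
  filter_upwards [s.two_le] with i hi
  calc c ≤ 2 ^ c := Nat.lt_two_pow_self.le
    _ ≤ _ := Nat.pow_le_pow_left hi c⟩

/-- sum of sequences -/
def BSeq.add {s : SD} (x y : BSeq s) : BSeq s := ⟨fun i => x.1 i + y.1 i, by
  obtain ⟨J, hJ⟩ := x.2
  obtain ⟨K, hK⟩ := y.2
  exact ⟨_, bs_add_aux s _ _ J K hJ hK⟩⟩

/-- product of sequences -/
def BSeq.mul {s : SD} (x y : BSeq s) : BSeq s := ⟨fun i => x.1 i * y.1 i, by
  obtain ⟨J, hJ⟩ := x.2
  obtain ⟨K, hK⟩ := y.2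
  exact ⟨_, bs_mul_aux s _ _ J K hJ hK⟩⟩

/-- successor of a sequence -/
def BSeq.succ {s : SD} (x : BSeq s) : BSeq s := ⟨fun i => x.1 i + 1, (x.add (BSeq.const s 1)).2⟩

/-- the sequence of trees `T` is true in the coverings `gw (ρ i) N`, for all large standard `N` -/
def EvT (s : SD) (T : ∀ i, Tree (s.kk i) (s.nn i)) : Prop :=
  ∃ N0, ∀ N, N0 ≤ N → ∀ᶠ i in UU, (ev (gw (s.ρ i) N) (T i)).2 = true

/-- the model -/
noncomputable def MStr (s : SD) : Str (MM s) where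
  zero := MM.mk (BSeq.const s 0)
  succ := fun a => MM.mk (BSeq.succ (Quotient.out a))
  add := fun a b => MM.mk (BSeq.add (Quotient.out a) (Quotient.out b))
  mul := fun a b => MM.mk (BSeq.mul (Quotient.out a) (Quotient.out b))
  le := fun a b => ∀ᶠ i in UU, (Quotient.out a).1 i ≤ (Quotient.out b).1 i
  rel := fun t => EvT s fun i => relTree (s.kk i) (s.nn i) fun j => (Quotient.out (t j)).1 i

theorem MM.out_mk {s : SD} (x : BSeq s) : ∀ᶠ i in UU, (Quotient.out (MM.mk x)).1 i = x.1 i :=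
  Quotient.mk_out (s := bsSetoid s) x

theorem MStr_zero (s : SD) : (MStr s).zero = MM.mk (BSeq.const s 0) := rfl

theorem MStr_succ (s : SD) (x : BSeq s) : (MStr s).succ (MM.mk x) = MM.mk (BSeq.succ x) := by
  refine (MM.eq_iff _ _).2 ?_
  filter_upwards [MM.out_mk x] with i hi
  simp only [BSeq.succ, hi]

theorem MStr_add (s : SD) (x y : BSeq s) :
    (MStr s).add (MM.mk x) (MM.mk y) = MM.mk (BSeq.add x y) := by
  refine (MM.eq_iff _ _).2 ?_
  filter_upwards [MM.out_mk x, MM.out_mk y] with i hi hj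
  simp only [BSeq.add, hi, hj]

theorem MStr_mul (s : SD) (x y : BSeq s) :
    (MStr s).mul (MM.mk x) (MM.mk y) = MM.mk (BSeq.mul x y) := by
  refine (MM.eq_iff _ _).2 ?_
  filter_upwards [MM.out_mk x, MM.out_mk y] with i hi hj
  simp only [BSeq.mul, hi, hj]

theorem MStr_le (s : SD) (x y : BSeq s) :
    (MStr s).le (MM.mk x) (MM.mk y) ↔ ∀ᶠ i in UU, x.1 i ≤ y.1 i := by
  constructor
  · intro h
    filter_upwards [MM.out_mk x, MM.out_mk y, h] with i hi hj hk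
    rw [← hi, ← hj]
    exact hk
  · intro h
    change ∀ᶠ i in UU, (Quotient.out (MM.mk x)).1 i ≤ (Quotient.out (MM.mk y)).1 i
    filter_upwards [MM.out_mk x, MM.out_mk y, h] with i hi hj hk
    rw [hi, hj]
    exact hk

theorem EvT_congr (s : SD) (T T' : ∀ i, Tree (s.kk i) (s.nn i)) (h : ∀ᶠ i in UU, T i = T' i) :
    EvT s T ↔ EvT s T' := by
  constructor
  · rintro ⟨N0, h0⟩
    refine ⟨N0, fun N hN => ?_⟩
    filter_upwards [h, h0 N hN] with i hi hj
    rw [← hi]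
    exact hj
  · rintro ⟨N0, h0⟩
    refine ⟨N0, fun N hN => ?_⟩
    filter_upwards [h, h0 N hN] with i hi hj
    rw [hi]
    exact hj

theorem MStr_rel (s : SD) (x : Fin 5 → BSeq s) :
    (MStr s).rel (fun j => MM.mk (x j)) ↔
      EvT s fun i => relTree (s.kk i) (s.nn i) fun j => (x j).1 i := by
  refine EvT_congr s _ _ ?_
  have h : ∀ᶠ i in UU, ∀ j, (Quotient.out (MM.mk (x j))).1 i = (x j).1 i :=
    Filter.eventually_all.2 fun j => MM.out_mk (x j)
  filter_upwards [h] with i hi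
  have : (fun j => (Quotient.out (MM.mk (x j))).1 i) = fun j => (x j).1 i := funext hi
  rw [this]

theorem MStr_lt (s : SD) (x y : BSeq s) :
    (MStr s).lt (MM.mk x) (MM.mk y) ↔ ∀ᶠ i in UU, x.1 i < y.1 i := by
  constructor
  · rintro ⟨h1, h2⟩
    rw [MStr_le] at h1
    rw [Ne, MM.eq_iff, UU_not] at h2
    filter_upwards [h1, h2] with i a b
    omega
  · intro h
    refine ⟨(MStr_le s x y).2 (h.mono fun i hi => hi.le), ?_⟩
    rw [Ne, MM.eq_iff, UU_not]
    exact h.mono fun i hi => hi.ne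

/-- every tuple of elements of the model is represented by a tuple of sequences -/
theorem MM.reps {s : SD} {v : ℕ} (e : Fin v → MM s) :
    ∃ r : Fin v → BSeq s, e = fun j => MM.mk (r j) :=
  ⟨fun j => Quotient.out (e j), funext fun j => (Quotient.out_eq (e j)).symm⟩

/-- the number of sheets, as an element of the model -/
def nM (s : SD) : MM s := MM.mk ⟨fun i => s.nn i + 1, 1, Filter.Eventually.of_forall
  fun i => by simp⟩

/-- the size of the grid, as an element of the model -/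
def kM (s : SD) : MM s := MM.mk ⟨fun i => s.kk i, 1, Filter.Eventually.of_forall
  fun i => by
    have h1 := s.pow_le i
    have h2 : s.kk i < 2 ^ s.kk i := Nat.lt_two_pow_self
    rw [pow_one]
    exact h2.le.trans h1⟩

/-- the relation `H` of the covering -/
def hR {k n : ℕ} (ρ : Res k n) (x y a b : ℕ) : Prop :=
  x < k ∧ y ≤ k ∧ a ≤ n ∧ b ≤ n ∧
    ρ.β (Fin.ofNat (k + 1) (x + 1), Fin.ofNat (k + 1) y)
      ((ρ.β (Fin.ofNat (k + 1) x, Fin.ofNat (k + 1) y)).symm (Fin.ofNat (n + 1) a)) =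
      Fin.ofNat (n + 1) b

/-- the relation `U` of the covering -/
def uR {k n : ℕ} (ρ : Res k n) (x y a b : ℕ) : Prop :=
  x ≤ k ∧ y < k ∧ a ≤ n ∧ b ≤ n ∧
    ρ.β (Fin.ofNat (k + 1) x, Fin.ofNat (k + 1) (y + 1))
      ((ρ.β (Fin.ofNat (k + 1) x, Fin.ofNat (k + 1) y)).symm (Fin.ofNat (n + 1) a)) =
      Fin.ofNat (n + 1) b

/-- the colour of the covering `gw ρ N` -/
def cR {k n : ℕ} (ρ : Res k n) (N x y a : ℕ) : Prop :=
  x ≤ k ∧ y ≤ k ∧ a ≤ n ∧ (x = 0 ∨ x = k ∨ y = 0 ∨ y = k) ∧ ¬ (x = 0 ∧ y = 0) ∧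
    if (ρ.β (Fin.ofNat (k + 1) x, Fin.ofNat (k + 1) y)).symm (Fin.ofNat (n + 1) a) = 0 then
      y = 0 ∧ 1 ≤ x ∧ x ≤ N
    else if (ρ.β (Fin.ofNat (k + 1) x, Fin.ofNat (k + 1) y)).symm (Fin.ofNat (n + 1) a) = 1 then
      ¬ (y = 0 ∧ 1 ≤ x ∧ x ≤ N)
    else ρ.ζ ((ρ.β (Fin.ofNat (k + 1) x, Fin.ofNat (k + 1) y)).symm (Fin.ofNat (n + 1) a)) =
      true

end Pool.Agent.Work.MP_610017_lc.PP
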