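import Mathlib
import Pool.Agent.Work.MP_610017_lc.PP.Model
import Pool.Agent.Work.MP_610017_lc.Bd.B03

/-!
# Block B: statements for the model (MP_610017_lc)
-/

set_option autoImplicit false

namespace Pool.Agent.Work.MP_610017_lc.PP

/-- B01: the model satisfies Robinson arithmetic. -/
def S_RobM : Prop := ∀ s : SD, Robinson (MStr s)

/-- B02: values of terms in the model. -/
def S_TmVal : Prop := ∀ (s : SD) (v : ℕ) (t : Tm v) (r : Fin v → BSeq s),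
  ∃ tv : BSeq s, (∀ i, tv.1 i = t.val stdN (fun j => (r j).1 i)) ∧
    t.val (MStr s) (fun j => MM.mk (r j)) = MM.mk tv

/-- B03: the branch of a tree of bounded height is independent of `N` for large `N`. -/
def S_Stab : Prop := ∀ (s : SD) (h : ℕ) (T : ∀ i, Tree (s.kk i) (s.nn i)),
  (∀ᶠ i in UU, HLe h (T i)) → ∃ N0, ∀ N, N0 ≤ N →
    ∀ᶠ i in UU, ev (gw (s.ρ i) N) (T i) = ev (gw (s.ρ i) N0) (T i)

/-- B04: negation and conjunction. -/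
def S_EvBool : Prop := ∀ (s : SD) (h : ℕ) (T T' : ∀ i, Tree (s.kk i) (s.nn i)),
  (∀ᶠ i in UU, HLe h (T i)) →
  (EvT s (fun i => (T i).flip) ↔ ¬ EvT s T) ∧
  (EvT s (fun i => andT (T i) (T' i)) ↔ EvT s T ∧ EvT s T')

/-- B05: disjunction. -/
def S_OrTruth : Prop := ∀ (s : SD) (h h' : ℕ) (m : ℕ → ℕ)
  (Tx : ∀ i, ℕ → Tree (s.kk i) (s.nn i)) (T : ∀ i, Tree (s.kk i) (s.nn i)),
  (∀ᶠ i in UU, OrRep (s.ρ i) h (m i) (Tx i) (T i)) →
  (∀ᶠ i in UU, ∀ x, x ≤ m i → HLe h' (Tx i x)) →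
  (EvT s T ↔ ∃ x : ℕ → ℕ, (∀ᶠ i in UU, x i ≤ m i) ∧ EvT s (fun i => Tx i (x i)))

/-- B06: truth in the model is truth of the trees. -/
def S_Truth : Prop := ∀ (s : SD) (v : ℕ) (φ : Gm v) (h : ℕ) (r : Fin v → BSeq s)
  (T : ∀ i, Tree (s.kk i) (s.nn i)),
  (∀ᶠ i in UU, Rep (s.ρ i) h φ (fun j => (r j).1 i) (T i)) →
  (φ.sat (MStr s) (fun j => MM.mk (r j)) ↔ EvT s T)

/-- B07: the finite form of the induction principle. -/
def S_FinInd : Prop := ∀ (k n h a : ℕ) (ρ : Res k n) (Tx : ℕ → Tree k n) (T : Tree k n)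
  (F0 Fa Fz : Finset (Fact k n)), (∀ x, x ≤ a + 1 → HLe h (Tx x)) →
  OrRep ρ h a (fun x => andT (Tx x) (Tx (x + 1)).flip) T → Br T F0 false →
  Br (Tx a) Fa false → Br (Tx 0) Fz true → Con ρ (F0 ∪ Fa ∪ Fz) →
  2 * (63 * h) + 3 ≤ k → 63 * h + 4 ≤ ρ.I.card → False

/-- B08: induction in the model. -/
def S_IndM : Prop := ∀ s : SD, Induction (MStr s)

/-- B09: the relations in the model. -/
def S_Rels : Prop := ∀ (s : SD) (x y a b : BSeq s),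
  ((MStr s).H (MM.mk x) (MM.mk y) (MM.mk a) (MM.mk b) ↔
    ∀ᶠ i in UU, hR (s.ρ i) (x.1 i) (y.1 i) (a.1 i) (b.1 i)) ∧
  ((MStr s).U (MM.mk x) (MM.mk y) (MM.mk a) (MM.mk b) ↔
    ∀ᶠ i in UU, uR (s.ρ i) (x.1 i) (y.1 i) (a.1 i) (b.1 i)) ∧
  ((MStr s).C (MM.mk x) (MM.mk y) (MM.mk a) ↔
    ∃ N0, ∀ N, N0 ≤ N → ∀ᶠ i in UU, cR (s.ρ i) N (x.1 i) (y.1 i) (a.1 i)) ∧
  ((MStr s).P (MM.mk x) (MM.mk y) ↔
    ∀ᶠ i in UU, x.1 i ≤ s.kk i ∧ y.1 i = 2 ^ x.1 i)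

/-- B10: the first half of `Hyp` in the model. -/
def S_HypA : Prop := ∀ s : SD, ∀ N : Str (MM s), N = MStr s → ∀ n k : MM s, n = nM s → k = kM s →
  (N.lt N.zero k) ∧
  (∀ u, N.le u n → N.P N.zero u → u = N.num 1) ∧
  (∀ i, N.le i k → ∃ u, N.le u n ∧ N.P i u) ∧
  (∀ i u u', N.lt i k → N.le u n → N.le u' n → N.P i u → N.P (N.succ i) u' → u' = N.add u u) ∧
  (∀ x y a, N.lt x k → N.le y k → N.lt a n → ∃ b, N.lt b n ∧ N.H x y a b) ∧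
  (∀ x y a, N.le x k → N.lt y k → N.lt a n → ∃ b, N.lt b n ∧ N.U x y a b) ∧
  (∀ x y a b c d, N.lt x k → N.lt y k → N.lt a n → N.lt b n → N.lt c n → N.lt d n →
    N.H x y a b → N.U x y a d → N.U (N.succ x) y b c → N.H x (N.succ y) d c)

/-- B11: the second half of `Hyp` in the model. -/
def S_HypB : Prop := ∀ s : SD, ∀ N : Str (MM s), N = MStr s → ∀ n k : MM s, n = nM s → k = kM s →
  (∀ x a b, N.lt N.zero x → N.lt x k → N.lt a n → N.lt b n → N.H x N.zero a b →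
    (N.C x N.zero a ↔ N.C (N.succ x) N.zero b)) ∧
  (∀ x a b, N.lt x k → N.lt a n → N.lt b n → N.H x k a b →
    (N.C x k a ↔ N.C (N.succ x) k b)) ∧
  (∀ y a b, N.lt N.zero y → N.lt y k → N.lt a n → N.lt b n → N.U N.zero y a b →
    (N.C N.zero y a ↔ N.C N.zero (N.succ y) b)) ∧
  (∀ y a b, N.lt y k → N.lt a n → N.lt b n → N.U k y a b →
    (N.C k y a ↔ N.C k (N.succ y) b)) ∧
  (∀ b, N.lt b n → N.H N.zero N.zero N.zero b → N.C (N.num 1) N.zero b) ∧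
  (∀ b, N.lt b n → N.U N.zero N.zero N.zero b → ¬ N.C N.zero (N.num 1) b)

/-- B12: the model satisfies all bounded formulas without `R` that are true in the standard
model. -/
def S_LosM : Prop := ∀ (s : SD) (v : ℕ) (φ : Fm v), φ.RFree → (∀ e, φ.sat stdN e) →
  ∀ e, φ.sat (MStr s) e

/-- assembly of the lower side -/
theorem lower_of (h1 : S_Seq) (h2 : S_RobM) (h3 : S_IndM) (h4 : S_HypA) (h5 : S_HypB)
    (h6 : S_LosM) : S_Lower := by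
  obtain ⟨s⟩ := h1
  refine ⟨MM s, MStr s, ⟨h2 s, h3 s⟩, h6 s, nM s, kM s, ?_⟩
  obtain ⟨a1, a2, a3, a4, a5, a6, a7⟩ := h4 s _ rfl _ _ rfl rfl
  obtain ⟨b1, b2, b3, b4, b5, b6⟩ := h5 s _ rfl _ _ rfl rfl
  exact ⟨a1, a2, a3, a4, a5, a6, a7, b1, b2, b3, b4, b5, b6⟩

end Pool.Agent.Work.MP_610017_lc.PP
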