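import Mathlib
import Pool.Agent.Work.MP_610017_lc.PP.B_Stmts
import Pool.Agent.Work.MP_610017_lc.Bd.B03

/-!
# Negation and conjunction of trees (MP_610017_lc, item EvBool)
-/

set_option autoImplicit false

namespace Pool.Agent.Work.MP_610017_lc.PP

theorem EvBool_flip {k n : ℕ} (ω : GW k n) (T : Tree k n) :
    ev ω T.flip = ((ev ω T).1, !(ev ω T).2) := by
  induction T with
  | leaf r => rfl
  | node v a next ih =>
    simp only [Tree.flip, ev]
    rw [ih]

theorem EvBool_and {k n : ℕ} (ω : GW k n) (T T' : Tree k n) :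
    (ev ω (andT T T')).2 = ((ev ω T).2 && (ev ω T').2) := by
  induction T with
  | leaf r =>
    cases r
    · simp only [andT, ev, Bool.false_and]
    · simp only [andT, ev, Bool.true_and]
  | node v a next ih =>
    simp only [andT, ev]
    rw [ih]

theorem EvBool_iff (hS : S_Stab) (s : SD) (h : ℕ) (T : ∀ i, Tree (s.kk i) (s.nn i))
    (hT : ∀ᶠ i in UU, HLe h (T i)) :
    ∃ N0, (EvT s T ↔ ∀ᶠ i in UU, (ev (gw (s.ρ i) N0) (T i)).2 = true) ∧
      (EvT s (fun i => (T i).flip) ↔ ∀ᶠ i in UU, (ev (gw (s.ρ i) N0) (T i)).2 = false) := by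
  obtain ⟨N0, hN0⟩ := hS s h T hT
  refine ⟨N0, ⟨?_, ?_⟩, ⟨?_, ?_⟩⟩
  · rintro ⟨N1, h1⟩
    filter_upwards [h1 (max N0 N1) (le_max_right _ _), hN0 (max N0 N1) (le_max_left _ _)]
      with i a b
    rw [← b]
    exact a
  · intro h0
    refine ⟨N0, fun N hN => ?_⟩
    filter_upwards [hN0 N hN, h0] with i a b
    rw [a]
    exact b
  · rintro ⟨N1, h1⟩
    filter_upwards [h1 (max N0 N1) (le_max_right _ _), hN0 (max N0 N1) (le_max_left _ _)]
      with i a b
    rw [EvBool_flip] at a
    rw [← b]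
    simpa using a
  · intro h0
    refine ⟨N0, fun N hN => ?_⟩
    filter_upwards [hN0 N hN, h0] with i a b
    rw [EvBool_flip, a]
    simpa using b

theorem prf_EvBool (hS : S_Stab) : S_EvBool := by
  intro s h T T' hT
  refine ⟨?_, ?_⟩
  · obtain ⟨N0, h1, h2⟩ := EvBool_iff hS s h T hT
    rw [h1, h2, UU_not]
    constructor
    · intro h0
      filter_upwards [h0] with i hi
      simp [hi]
    · intro h0
      filter_upwards [h0] with i hi
      simpa using hi
  · constructor
    · rintro ⟨N0, h0⟩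
      refine ⟨⟨N0, fun N hN => ?_⟩, ⟨N0, fun N hN => ?_⟩⟩
      · filter_upwards [h0 N hN] with i hi
        rw [EvBool_and, Bool.and_eq_true] at hi
        exact hi.1
      · filter_upwards [h0 N hN] with i hi
        rw [EvBool_and, Bool.and_eq_true] at hi
        exact hi.2
    · rintro ⟨⟨N0, h0⟩, ⟨N1, h1⟩⟩
      refine ⟨max N0 N1, fun N hN => ?_⟩
      filter_upwards [h0 N ((le_max_left _ _).trans hN), h1 N ((le_max_right _ _).trans hN)]
        with i a b
      rw [EvBool_and, a, b]
      rfl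

end Pool.Agent.Work.MP_610017_lc.PP
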