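import Mathlib
import Pool.Agent.Work.MP_610017_lc.PP.B_Stmts
import Pool.Agent.Work.MP_610017_lc.Bd.B03

/-!
# Block B, FinInd: the finite form of the induction principle (MP_610017_lc)
-/

set_option autoImplicit false

namespace Pool.Agent.Work.MP_610017_lc.PP

theorem FinInd_con_mono {k n : ℕ} {ρ : Res k n} {F F' : Finset (Fact k n)} (h : F ⊆ F')
    (hC : Con ρ F') : Con ρ F := by
  obtain ⟨ω, h1, h2, h3⟩ := hC
  exact ⟨ω, h1, h2, fun f hf => h3 f (h hf)⟩

theorem FinInd_unique (hU : S_BrUnique) {k n : ℕ} {ρ : Res k n} {T : Tree k n}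
    {F b b' : Finset (Fact k n)} (h1 : Br T b true) (h2 : Br T b' false) (hb : b ⊆ F)
    (hb' : b' ⊆ F) (hC : Con ρ F) : False := by
  obtain ⟨ω, _, _, h3⟩ := hC
  have := (hU k n ω T b b' true false h1 h2 (fun f hf => h3 f (hb hf))
    (fun f hf => h3 f (hb' hf))).2
  simp at this

theorem prf_FinInd (hE : S_Ext) (hB : S_BrBasic) (hU : S_BrUnique) (hF : S_BrFlip)
    (hA : S_BrAnd) (_hM : S_HLeMono) : S_FinInd := by
  intro k n h a ρ Tx T F0 Fa Fz hT hOr hF0 hFa hFz hCon hk hI
  obtain ⟨hTh, _, hOr3⟩ := hOr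
  have key : ∀ x, x ≤ a → ∃ b, Br (Tx x) b true ∧ Con ρ (F0 ∪ Fa ∪ Fz ∪ b) := by
    intro x
    induction x with
    | zero =>
      intro _
      refine ⟨Fz, hFz, FinInd_con_mono ?_ hCon⟩
      exact Finset.union_subset (Finset.Subset.refl _) Finset.subset_union_right
    | succ x ih =>
      intro hx
      obtain ⟨b, hb, hCb⟩ := ih (by omega)
      obtain ⟨c0, v0⟩ := hB k n h T F0 false hTh hF0
      obtain ⟨ca, va⟩ := hB k n h (Tx a) Fa false (hT a (by omega)) hFa
      obtain ⟨cz, vz⟩ := hB k n h (Tx 0) Fz true (hT 0 (by omega)) hFz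
      obtain ⟨cb, vb⟩ := hB k n h (Tx x) b true (hT x (by omega)) hb
      have hcard : (F0 ∪ Fa ∪ Fz ∪ b).card ≤ 36 * h := by
        have e1 := Finset.card_union_le (F0 ∪ Fa ∪ Fz) b
        have e2 := Finset.card_union_le (F0 ∪ Fa) Fz
        have e3 := Finset.card_union_le F0 Fa
        omega
      have hvalid : ∀ f ∈ F0 ∪ Fa ∪ Fz ∪ b, Valid f := by
        intro f hf
        simp only [Finset.mem_union] at hf
        rcases hf with ((hf | hf) | hf) | hf
        · exact v0 f hf
        · exact va f hf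
        · exact vz f hf
        · exact vb f hf
      have hTree : HLe (h + h) (andT (Tx x) (Tx (x + 1)).flip) :=
        (hA k n (Tx x) (Tx (x + 1)).flip).2.2 h h (hT x (by omega))
          (((hF k n (Tx (x + 1))).2 h).2 (hT (x + 1) (by omega)))
      obtain ⟨c, r, hc, hCc⟩ := hE k n (h + h) ρ (F0 ∪ Fa ∪ Fz ∪ b) _ hvalid hCb hTree
        (by omega) (by omega)
      cases r with
      | true =>
        exfalso
        refine hOr3 F0 hF0 x (by omega) c hc (FinInd_con_mono ?_ hCc)
        intro f hf
        simp only [Finset.mem_union] at hf ⊢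
        tauto
      | false =>
        rcases ((hA k n (Tx x) (Tx (x + 1)).flip).2.1 c).1 hc with h1 | ⟨F1, F2, h1, h2, rfl⟩
        · exfalso
          exact FinInd_unique hU hb h1 (Finset.subset_union_right.trans
            Finset.subset_union_left) Finset.subset_union_right hCc
        · refine ⟨F2, ?_, FinInd_con_mono ?_ hCc⟩
          · have := ((hF k n (Tx (x + 1))).1 F2 false).1 h2
            simpa using this
          · intro f hf
            simp only [Finset.mem_union] at hf ⊢
            tauto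
  obtain ⟨b, hb, hCb⟩ := key a le_rfl
  refine FinInd_unique hU hb hFa Finset.subset_union_right ?_ hCb
  intro f hf
  simp only [Finset.mem_union]
  tauto

end Pool.Agent.Work.MP_610017_lc.PP
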