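import Mathlib
import Pool.Agent.Work.MP_610017_lc.PP.B_Stmts
import Pool.Agent.Work.MP_610017_lc.Bd.B03

/-!
# Block B, item HypB: the second half of `Hyp` in the model (MP_610017_lc)
-/

set_option autoImplicit false

namespace Pool.Agent.Work.MP_610017_lc.PP

theorem B_HypB_mk {s : SD} (x : MM s) : ∃ x' : BSeq s, x = MM.mk x' :=
  ⟨Quotient.out x, (Quotient.out_eq x).symm⟩

theorem B_HypB_hidx {k n : ℕ} {ρ : Res k n} {x y a b : ℕ} (h : hR ρ x y a b) :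
    (ρ.β (Fin.ofNat (k + 1) (x + 1), Fin.ofNat (k + 1) y)).symm (Fin.ofNat (n + 1) b) =
      (ρ.β (Fin.ofNat (k + 1) x, Fin.ofNat (k + 1) y)).symm (Fin.ofNat (n + 1) a) := by
  rw [Equiv.symm_apply_eq]
  exact h.2.2.2.2.symm

theorem B_HypB_uidx {k n : ℕ} {ρ : Res k n} {x y a b : ℕ} (h : uR ρ x y a b) :
    (ρ.β (Fin.ofNat (k + 1) x, Fin.ofNat (k + 1) (y + 1))).symm (Fin.ofNat (n + 1) b) =
      (ρ.β (Fin.ofNat (k + 1) x, Fin.ofNat (k + 1) y)).symm (Fin.ofNat (n + 1) a) := by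
  rw [Equiv.symm_apply_eq]
  exact h.2.2.2.2.symm

/-- bottom, forwards -/
theorem B_HypB_bot1 {k n : ℕ} {ρ : Res k n} {x a b N : ℕ} (h : hR ρ x 0 a b)
    (hc : cR ρ N x 0 a) : cR ρ (N + 1) (x + 1) 0 b := by
  have hi := B_HypB_hidx h
  obtain ⟨h1, h2, h3, h4, -⟩ := h
  obtain ⟨c1, c2, c3, c4, c5, c6⟩ := hc
  refine ⟨h1, Nat.zero_le _, h4, Or.inr (Or.inr (Or.inl rfl)), by omega, ?_⟩
  rw [hi]
  split_ifs at c6 ⊢ with h0
  · exact ⟨rfl, by omega, by omega⟩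
  · omega
  · exact c6

/-- bottom, backwards -/
theorem B_HypB_bot2 {k n : ℕ} {ρ : Res k n} {x a b N : ℕ} (hx : 0 < x) (h : hR ρ x 0 a b)
    (hc : cR ρ (N + 1) (x + 1) 0 b) : cR ρ N x 0 a := by
  have hi := B_HypB_hidx h
  obtain ⟨h1, h2, h3, h4, -⟩ := h
  obtain ⟨c1, c2, c3, c4, c5, c6⟩ := hc
  refine ⟨h1.le, Nat.zero_le _, h3, Or.inr (Or.inr (Or.inl rfl)), by omega, ?_⟩
  rw [hi] at c6
  split_ifs at c6 ⊢ with h0
  · exact ⟨rfl, by omega, by omega⟩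
  · omega
  · exact c6

/-- top -/
theorem B_HypB_top {k n : ℕ} {ρ : Res k n} {x a b N : ℕ} (h : hR ρ x k a b) :
    cR ρ N x k a ↔ cR ρ N (x + 1) k b := by
  have hi := B_HypB_hidx h
  obtain ⟨h1, h2, h3, h4, -⟩ := h
  unfold cR
  rw [hi]
  constructor
  · rintro ⟨c1, c2, c3, c4, c5, c6⟩
    refine ⟨h1, le_rfl, h4, Or.inr (Or.inr (Or.inr rfl)), by omega, ?_⟩
    split_ifs at c6 ⊢ with h0
    · omega
    · omega
    · exact c6
  · rintro ⟨c1, c2, c3, c4, c5, c6⟩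
    refine ⟨h1.le, le_rfl, h3, Or.inr (Or.inr (Or.inr rfl)), by omega, ?_⟩
    split_ifs at c6 ⊢ with h0
    · omega
    · omega
    · exact c6

/-- left -/
theorem B_HypB_left {k n : ℕ} {ρ : Res k n} {y a b N : ℕ} (hy : 0 < y) (h : uR ρ 0 y a b) :
    cR ρ N 0 y a ↔ cR ρ N 0 (y + 1) b := by
  have hi := B_HypB_uidx h
  obtain ⟨h1, h2, h3, h4, -⟩ := h
  unfold cR
  rw [hi]
  constructor
  · rintro ⟨c1, c2, c3, c4, c5, c6⟩
    refine ⟨Nat.zero_le _, h2, h4, Or.inl rfl, by omega, ?_⟩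
    split_ifs at c6 ⊢ with h0
    · omega
    · omega
    · exact c6
  · rintro ⟨c1, c2, c3, c4, c5, c6⟩
    refine ⟨Nat.zero_le _, h2.le, h3, Or.inl rfl, by omega, ?_⟩
    split_ifs at c6 ⊢ with h0
    · omega
    · omega
    · exact c6

/-- right -/
theorem B_HypB_right {k n : ℕ} {ρ : Res k n} {y a b N : ℕ} (hN : N < k) (h : uR ρ k y a b) :
    cR ρ N k y a ↔ cR ρ N k (y + 1) b := by
  have hi := B_HypB_uidx h
  obtain ⟨h1, h2, h3, h4, -⟩ := h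
  unfold cR
  rw [hi]
  constructor
  · rintro ⟨c1, c2, c3, c4, c5, c6⟩
    refine ⟨le_rfl, h2, h4, Or.inr (Or.inl rfl), by omega, ?_⟩
    split_ifs at c6 ⊢ with h0
    · omega
    · omega
    · exact c6
  · rintro ⟨c1, c2, c3, c4, c5, c6⟩
    refine ⟨le_rfl, h2.le, h3, Or.inr (Or.inl rfl), by omega, ?_⟩
    split_ifs at c6 ⊢ with h0
    · omega
    · omega
    · exact c6

theorem B_HypB_crn {k n : ℕ} (ρ : Res k n) :
    (ρ.β (Fin.ofNat (k + 1) 0, Fin.ofNat (k + 1) 0)).symm (Fin.ofNat (n + 1) 0) = 0 := by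
  rw [Equiv.symm_apply_eq]
  exact ρ.corner.symm

theorem B_HypB_start1 {k n : ℕ} {ρ : Res k n} {b N : ℕ} (hN : 1 ≤ N) (h : hR ρ 0 0 0 b) :
    cR ρ N 1 0 b := by
  have hi := B_HypB_hidx h
  rw [B_HypB_crn] at hi
  obtain ⟨h1, h2, h3, h4, -⟩ := h
  refine ⟨h1, Nat.zero_le _, h4, Or.inr (Or.inr (Or.inl rfl)), by omega, ?_⟩
  have hi' : (ρ.β (Fin.ofNat (k + 1) 1, Fin.ofNat (k + 1) 0)).symm (Fin.ofNat (n + 1) b) = 0 := hi
  rw [if_pos hi']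
  exact ⟨rfl, le_rfl, hN⟩

theorem B_HypB_start2 {k n : ℕ} {ρ : Res k n} {b N : ℕ} (h : uR ρ 0 0 0 b) :
    ¬ cR ρ N 0 1 b := by
  have hi := B_HypB_uidx h
  rw [B_HypB_crn] at hi
  rintro ⟨c1, c2, c3, c4, c5, c6⟩
  have hi' : (ρ.β (Fin.ofNat (k + 1) 0, Fin.ofNat (k + 1) 1)).symm (Fin.ofNat (n + 1) b) = 0 := hi
  rw [if_pos hi'] at c6
  omega

theorem prf_HypB (hRels : S_Rels) : S_HypB := by
  intro s N hN n k hn hk
  subst hN hn hk
  obtain ⟨K, hK, hKv⟩ : ∃ K : BSeq s, kM s = MM.mk K ∧ ∀ i, K.1 i = s.kk i :=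
    ⟨_, rfl, fun _ => rfl⟩
  have h0v : ∀ i, (BSeq.const s 0).1 i = 0 := fun _ => rfl
  have hsv : ∀ (x : BSeq s) i, (BSeq.succ x).1 i = x.1 i + 1 := fun _ _ => rfl
  have hH : ∀ x y a b : BSeq s, (MStr s).H (MM.mk x) (MM.mk y) (MM.mk a) (MM.mk b) ↔
      ∀ᶠ i in UU, hR (s.ρ i) (x.1 i) (y.1 i) (a.1 i) (b.1 i) :=
    fun x y a b => (hRels s x y a b).1
  have hU : ∀ x y a b : BSeq s, (MStr s).U (MM.mk x) (MM.mk y) (MM.mk a) (MM.mk b) ↔
      ∀ᶠ i in UU, uR (s.ρ i) (x.1 i) (y.1 i) (a.1 i) (b.1 i) :=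
    fun x y a b => (hRels s x y a b).2.1
  have hC : ∀ x y a : BSeq s, (MStr s).C (MM.mk x) (MM.mk y) (MM.mk a) ↔
      ∃ N0, ∀ N, N0 ≤ N → ∀ᶠ i in UU, cR (s.ρ i) N (x.1 i) (y.1 i) (a.1 i) :=
    fun x y a => (hRels s x y a a).2.2.1
  have hn1 : (MStr s).num 1 = MM.mk (BSeq.succ (BSeq.const s 0)) := MStr_succ s _
  rw [hK, MStr_zero, hn1]
  refine ⟨?_, ?_, ?_, ?_, ?_, ?_⟩
  · intro x a b hx _ _ _ h
    obtain ⟨x, rfl⟩ := B_HypB_mk x
    obtain ⟨a, rfl⟩ := B_HypB_mk a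
    obtain ⟨b, rfl⟩ := B_HypB_mk b
    rw [hH] at h
    rw [MStr_lt] at hx
    rw [MStr_succ, hC, hC]
    simp only [h0v, hsv] at h hx ⊢
    constructor
    · rintro ⟨N0, h1⟩
      refine ⟨N0 + 1, fun N hN => ?_⟩
      filter_upwards [h, h1 (N - 1) (by omega)] with i hi h2
      have h3 := B_HypB_bot1 hi h2
      have h4 : N - 1 + 1 = N := by omega
      rw [h4] at h3
      exact h3
    · rintro ⟨N0, h1⟩
      refine ⟨N0, fun N hN => ?_⟩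
      filter_upwards [h, hx, h1 (N + 1) (by omega)] with i hi h0 h2
      exact B_HypB_bot2 h0 hi h2
  · intro x a b _ _ _ h
    obtain ⟨x, rfl⟩ := B_HypB_mk x
    obtain ⟨a, rfl⟩ := B_HypB_mk a
    obtain ⟨b, rfl⟩ := B_HypB_mk b
    rw [hH] at h
    rw [MStr_succ, hC, hC]
    simp only [hKv, hsv] at h ⊢
    constructor
    · rintro ⟨N0, h1⟩
      refine ⟨N0, fun N hN => ?_⟩
      filter_upwards [h, h1 N hN] with i hi h2
      exact (B_HypB_top hi).1 h2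
    · rintro ⟨N0, h1⟩
      refine ⟨N0, fun N hN => ?_⟩
      filter_upwards [h, h1 N hN] with i hi h2
      exact (B_HypB_top hi).2 h2
  · intro x a b hx _ _ _ h
    obtain ⟨x, rfl⟩ := B_HypB_mk x
    obtain ⟨a, rfl⟩ := B_HypB_mk a
    obtain ⟨b, rfl⟩ := B_HypB_mk b
    rw [hU] at h
    rw [MStr_lt] at hx
    rw [MStr_succ, hC, hC]
    simp only [h0v, hsv] at h hx ⊢
    constructor
    · rintro ⟨N0, h1⟩
      refine ⟨N0, fun N hN => ?_⟩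
      filter_upwards [h, hx, h1 N hN] with i hi h0 h2
      exact (B_HypB_left h0 hi).1 h2
    · rintro ⟨N0, h1⟩
      refine ⟨N0, fun N hN => ?_⟩
      filter_upwards [h, hx, h1 N hN] with i hi h0 h2
      exact (B_HypB_left h0 hi).2 h2
  · intro x a b _ _ _ h
    obtain ⟨x, rfl⟩ := B_HypB_mk x
    obtain ⟨a, rfl⟩ := B_HypB_mk a
    obtain ⟨b, rfl⟩ := B_HypB_mk b
    rw [hU] at h
    rw [MStr_succ, hC, hC]
    simp only [hKv, hsv] at h ⊢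
    constructor
    · rintro ⟨N0, h1⟩
      refine ⟨N0, fun N hN => ?_⟩
      filter_upwards [h, UU_ge (N + 1), h1 N hN] with i hi h0 h2
      exact (B_HypB_right (lt_of_lt_of_le h0 (s.le_kk i)) hi).1 h2
    · rintro ⟨N0, h1⟩
      refine ⟨N0, fun N hN => ?_⟩
      filter_upwards [h, UU_ge (N + 1), h1 N hN] with i hi h0 h2
      exact (B_HypB_right (lt_of_lt_of_le h0 (s.le_kk i)) hi).2 h2
  · intro b _ h
    obtain ⟨b, rfl⟩ := B_HypB_mk b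
    rw [hH] at h
    rw [hC]
    refine ⟨1, fun N hN => ?_⟩
    filter_upwards [h] with i hi
    exact B_HypB_start1 hN hi
  · intro b _ h hc
    obtain ⟨b, rfl⟩ := B_HypB_mk b
    rw [hU] at h
    rw [hC] at hc
    obtain ⟨N0, h1⟩ := hc
    apply UU_false
    filter_upwards [h, h1 N0 le_rfl] with i hi h2
    exact B_HypB_start2 hi h2

end Pool.Agent.Work.MP_610017_lc.PP
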