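import Mathlib
import Pool.Agent.Work.MP_610017_lc.PP.B_Stmts
import Pool.Agent.Work.MP_610017_lc.Bd.B03

/-!
# Block B: induction in the model (MP_610017_lc)
-/

set_option autoImplicit false

namespace Pool.Agent.Work.MP_610017_lc.PP

/-- If a sequence of trees is not eventually true then it is false for all large `N`. -/
theorem IndM_false (s : SD) (T : ∀ i, Tree (s.kk i) (s.nn i)) (N0 : ℕ)
    (hst : ∀ N, N0 ≤ N → ∀ᶠ i in UU, ev (gw (s.ρ i) N) (T i) = ev (gw (s.ρ i) N0) (T i))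
    (h : ¬ EvT s T) (N : ℕ) (hN : N0 ≤ N) :
    ∀ᶠ i in UU, (ev (gw (s.ρ i) N) (T i)).2 = false := by
  unfold EvT at h
  push Not at h
  obtain ⟨N1, hN1, h1⟩ := h N0
  have h2 := (UU_not _).1 h1
  filter_upwards [h2, hst N1 hN1, hst N hN] with i a b c
  rw [c, ← b]
  simpa using a

/-- The branch of a tree of height `h` in `gw ρ N`, if it is the same as in `gw ρ N'`. -/
theorem IndM_branch (hE : S_Ev) (hB : S_BrBasic) {k n h : ℕ} (ρ : Res k n) (N N' : ℕ)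
    (T : Tree k n) (hT : HLe h T) (heq : ev (gw ρ N') T = ev (gw ρ N) T) (r : Bool)
    (hr : (ev (gw ρ N) T).2 = r) :
    ∃ F, Br T F r ∧ (∀ f ∈ F, holds (gw ρ N) f) ∧ (∀ f ∈ F, holds (gw ρ N') f) ∧
      F.card ≤ 9 * h ∧ ∀ f ∈ F, Valid f := by
  obtain ⟨h1, h2, -⟩ := hE k n (gw ρ N) T
  obtain ⟨h3, h4, -⟩ := hE k n (gw ρ N') T
  rw [hr] at h1
  refine ⟨(ev (gw ρ N) T).1, h1, h2 (fun _ _ => rfl), ?_, hB k n h T _ _ hT h1⟩
  have h5 := h4 (fun _ _ => rfl)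
  rw [heq] at h5
  exact h5

theorem prf_IndM (hT : S_Truth) (hI : S_FinInd) (hS : S_Stab) (hE : S_Ev) (hL : S_LE)
    (hB : S_BrBasic) (hH : S_RepHLe) : S_IndM := by
  intro s v φ e h0 hstep a
  by_contra ha
  obtain ⟨r, rfl⟩ := MM.reps e
  obtain ⟨ra, rfl⟩ : ∃ ra : BSeq s, a = MM.mk ra :=
    ⟨Quotient.out a, (Quotient.out_eq a).symm⟩
  -- the assignment
  set R : Fin (v + 1) → BSeq s := Fin.cons ra r with hR
  have hRsat : (fun j => MM.mk (R j)) = (Fin.cons (MM.mk ra) (fun j => MM.mk (r j)) :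
      Fin (v + 1) → MM s) := by
    funext j
    refine Fin.cases rfl (fun j => rfl) j
  -- a common bound
  obtain ⟨J, hJ⟩ : ∃ J, ∀ᶠ i in UU, ∀ j, (R j).1 i ≤ (s.nn i + 1) ^ J := by
    have h1 := fun j => (R j).2
    choose J hJ using h1
    refine ⟨Finset.univ.sup J, Filter.eventually_all.2 fun j => ?_⟩
    filter_upwards [hJ j] with i hi
    exact hi.trans (Nat.pow_le_pow_right (Nat.succ_pos _) (Finset.le_sup (Finset.mem_univ j)))
  obtain ⟨h, i0, hex⟩ := s.ex (v + 1) (Gm.ind φ.toGm) J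
  -- the trees
  have hP0 : ∀ᶠ i in UU, ∃ (T : Tree (s.kk i) (s.nn i)) (Tx : ℕ → Tree (s.kk i) (s.nn i)),
      (∀ x, x ≤ ra.1 i + 1 → Rep (s.ρ i) h φ.toGm (Fin.cons x (fun j => (r j).1 i)) (Tx x)) ∧
      OrRep (s.ρ i) h (ra.1 i) (fun x => andT (Tx x) (Tx (x + 1)).flip) T := by
    filter_upwards [hJ, UU_ge i0] with i hi hi0
    obtain ⟨T, hTi⟩ := hex i hi0 (fun j => (R j).1 i) hi
    obtain ⟨Tx, h1, h2⟩ := hTi
    exact ⟨T, Tx, h1, h2⟩
  have hch : ∀ i, ∃ (T : Tree (s.kk i) (s.nn i)) (Tx : ℕ → Tree (s.kk i) (s.nn i)),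
      (∃ (T : Tree (s.kk i) (s.nn i)) (Tx : ℕ → Tree (s.kk i) (s.nn i)),
        (∀ x, x ≤ ra.1 i + 1 → Rep (s.ρ i) h φ.toGm (Fin.cons x (fun j => (r j).1 i)) (Tx x)) ∧
        OrRep (s.ρ i) h (ra.1 i) (fun x => andT (Tx x) (Tx (x + 1)).flip) T) →
      ((∀ x, x ≤ ra.1 i + 1 → Rep (s.ρ i) h φ.toGm (Fin.cons x (fun j => (r j).1 i)) (Tx x)) ∧
        OrRep (s.ρ i) h (ra.1 i) (fun x => andT (Tx x) (Tx (x + 1)).flip) T) := by
    intro i
    by_cases hc : ∃ (T : Tree (s.kk i) (s.nn i)) (Tx : ℕ → Tree (s.kk i) (s.nn i)),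
        (∀ x, x ≤ ra.1 i + 1 → Rep (s.ρ i) h φ.toGm (Fin.cons x (fun j => (r j).1 i)) (Tx x)) ∧
        OrRep (s.ρ i) h (ra.1 i) (fun x => andT (Tx x) (Tx (x + 1)).flip) T
    · obtain ⟨T, Tx, h1⟩ := hc
      exact ⟨T, Tx, fun _ => h1⟩
    · exact ⟨.leaf true, fun _ => .leaf true, fun h1 => absurd h1 hc⟩
  choose T Tx hTTx using hch
  have hP : ∀ᶠ i in UU,
      (∀ x, x ≤ ra.1 i + 1 →
        Rep (s.ρ i) h φ.toGm (Fin.cons x (fun j => (r j).1 i)) (Tx i x)) ∧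
      OrRep (s.ρ i) h (ra.1 i) (fun x => andT (Tx i x) (Tx i (x + 1)).flip) (T i) :=
    hP0.mono fun i hi => hTTx i hi
  -- the induction formula is false in the model
  have hsat : ¬ (Gm.ind φ.toGm).sat (MStr s) (fun j => MM.mk (R j)) := by
    rw [hRsat]
    rintro ⟨x, -, h1, h2⟩
    have e1 : Fin.tail (Fin.cons (MM.mk ra) (fun j => MM.mk (r j)) : Fin (v + 1) → MM s) =
        fun j => MM.mk (r j) := Fin.tail_cons _ _
    rw [e1] at h1 h2
    rw [Fm.sat_toGm] at h1 h2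
    exact h2 (hstep x h1)
  have hT0 : ¬ EvT s T := by
    intro hev
    apply hsat
    refine (hT s (v + 1) (Gm.ind φ.toGm) h R T ?_).2 hev
    filter_upwards [hP] with i hi
    exact ⟨Tx i, hi.1, hi.2⟩
  -- the instance at zero
  have hTz : EvT s (fun i => Tx i 0) := by
    refine (hT s (v + 1) φ.toGm h (Fin.cons (BSeq.const s 0) r) (fun i => Tx i 0) ?_).1 ?_
    · filter_upwards [hP] with i hi
      have h1 := hi.1 0 (Nat.zero_le _)
      have e1 : (fun j => ((Fin.cons (BSeq.const s 0) r : Fin (v + 1) → BSeq s) j).1 i) =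
          (Fin.cons 0 (fun j => (r j).1 i) : Fin (v + 1) → ℕ) := by
        funext j
        refine Fin.cases rfl (fun j => rfl) j
      rw [e1]
      exact h1
    · have e1 : (fun j => MM.mk ((Fin.cons (BSeq.const s 0) r : Fin (v + 1) → BSeq s) j)) =
          (Fin.cons (MStr s).zero (fun j => MM.mk (r j)) : Fin (v + 1) → MM s) := by
        funext j
        refine Fin.cases rfl (fun j => rfl) j
      rw [e1, Fm.sat_toGm]
      exact h0
  -- the instance at `a`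
  have hTa : ¬ EvT s (fun i => Tx i (ra.1 i)) := by
    intro hev
    apply ha
    rw [← Fm.sat_toGm, ← hRsat]
    refine (hT s (v + 1) φ.toGm h R (fun i => Tx i (ra.1 i)) ?_).2 hev
    filter_upwards [hP] with i hi
    have h1 := hi.1 (ra.1 i) (Nat.le_succ _)
    have e1 : (fun j => (R j).1 i) =
        (Fin.cons (ra.1 i) (fun j => (r j).1 i) : Fin (v + 1) → ℕ) := by
      funext j
      refine Fin.cases rfl (fun j => rfl) j
    rw [e1]
    exact h1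
  -- heights
  have hh : ∀ᶠ i in UU, ∀ x, x ≤ ra.1 i + 1 → HLe h (Tx i x) :=
    hP.mono fun i hi x hx => hH _ _ _ _ _ _ _ _ (hi.1 x hx)
  have hhT : ∀ᶠ i in UU, HLe h (T i) := hP.mono fun i hi => hi.2.1
  obtain ⟨NT, hNT⟩ := hS s h T hhT
  obtain ⟨NZ, hNZ⟩ := hS s h (fun i => Tx i 0) (hh.mono fun i hi => hi 0 (Nat.zero_le _))
  obtain ⟨NA, hNA⟩ := hS s h (fun i => Tx i (ra.1 i)) (hh.mono fun i hi => hi _ (Nat.le_succ _))
  obtain ⟨NE, hNE⟩ := hTz
  set N := max (max NT NZ) (max NA NE) with hN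
  have l1 : NT ≤ N := (le_max_left _ _).trans (le_max_left _ _)
  have l2 : NZ ≤ N := (le_max_right _ _).trans (le_max_left _ _)
  have l3 : NA ≤ N := (le_max_left _ _).trans (le_max_right _ _)
  have l4 : NE ≤ N := (le_max_right _ _).trans (le_max_right _ _)
  set N' := N + 27 * h + 1 with hN'
  have hNN : N ≤ N' := by omega
  apply UU_false
  filter_upwards [hP, hh, hhT, hNT N l1, hNT N' (l1.trans hNN), hNZ N l2, hNZ N' (l2.trans hNN),
    hNA N l3, hNA N' (l3.trans hNN), hNE N l4, IndM_false s T NT hNT hT0 N l1,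
    IndM_false s (fun i => Tx i (ra.1 i)) NA hNA hTa N l3,
    UU_ge (N' + 1 + (2 * (63 * h) + 3) + (27 * h + 2))] with
    i p1 p2 p3 t1 t2 z1 z2 a1 a2 ez et ea hi
  have hk := s.le_kk i
  have hc := s.le_I i
  obtain ⟨F0, b1, b2, b3, b4, b5⟩ := IndM_branch hE hB (s.ρ i) N N' (T i) p3 (by rw [t1, t2])
    false et
  obtain ⟨Fa, c1, c2, c3, c4, c5⟩ := IndM_branch hE hB (s.ρ i) N N' (Tx i (ra.1 i))
    (p2 _ (Nat.le_succ _)) (by rw [a1, a2]) false ea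
  obtain ⟨Fz, d1, d2, d3, d4, d5⟩ := IndM_branch hE hB (s.ρ i) N N' (Tx i 0)
    (p2 _ (Nat.zero_le _)) (by rw [z1, z2]) true ez
  have hcard : (F0 ∪ Fa ∪ Fz).card ≤ 27 * h := by
    have q1 := Finset.card_union_le (F0 ∪ Fa) Fz
    have q2 := Finset.card_union_le F0 Fa
    omega
  have hmem : ∀ (P : Fact (s.kk i) (s.nn i) → Prop), (∀ f ∈ F0, P f) → (∀ f ∈ Fa, P f) →
      (∀ f ∈ Fz, P f) → ∀ f ∈ F0 ∪ Fa ∪ Fz, P f := by
    intro P q1 q2 q3 f hf
    rcases Finset.mem_union.1 hf with hf | hf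
    · rcases Finset.mem_union.1 hf with hf | hf
      · exact q1 f hf
      · exact q2 f hf
    · exact q3 f hf
  have hCon : Con (s.ρ i) (F0 ∪ Fa ∪ Fz) :=
    hL _ _ (s.ρ i) N N' _ (hmem _ b5 c5 d5) (hmem _ b2 c2 d2) (hmem _ b3 c3 d3)
      (by omega) (by omega) (by omega)
  exact hI _ _ h (ra.1 i) (s.ρ i) (Tx i) (T i) F0 Fa Fz (fun x hx => p2 x hx) p1.2 b1 c1 d1 hCon
    (by omega) (by omega)

end Pool.Agent.Work.MP_610017_lc.PP
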