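import Mathlib
import Pool.Agent.Work.MP_610017_lc.PP.B_Stmts
import Pool.Agent.Work.MP_610017_lc.Bd.B03

/-!
# The theorem of Los for bounded formulas without `R`
-/

set_option autoImplicit false

namespace Pool.Agent.Work.MP_610017_lc.PP

theorem LosM_cons {s : SD} {v : ℕ} (x : BSeq s) (r : Fin v → BSeq s) :
    (Fin.cons (MM.mk x) (fun j => MM.mk (r j)) : Fin (v + 1) → MM s) =
      fun j => MM.mk ((Fin.cons x r : Fin (v + 1) → BSeq s) j) := by
  funext j
  refine Fin.cases ?_ (fun j => ?_) j <;> rfl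

theorem LosM_cons' {s : SD} {v : ℕ} (x : BSeq s) (r : Fin v → BSeq s) (i : ℕ) :
    (fun j => ((Fin.cons x r : Fin (v + 1) → BSeq s) j).1 i) =
      (Fin.cons (x.1 i) (fun j => (r j).1 i) : Fin (v + 1) → ℕ) := by
  funext j
  refine Fin.cases ?_ (fun j => ?_) j <;> rfl

theorem LosM_main (hV : S_TmVal) (s : SD) {v : ℕ} (φ : Fm v) (hφ : φ.RFree) :
    ∀ r : Fin v → BSeq s, φ.sat (MStr s) (fun j => MM.mk (r j)) ↔
      ∀ᶠ i in UU, φ.sat stdN (fun j => (r j).1 i) := by
  induction φ with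
  | eq t u =>
    intro r
    obtain ⟨tv, h1, h2⟩ := hV s _ t r
    obtain ⟨uv, h3, h4⟩ := hV s _ u r
    simp only [Fm.sat]
    rw [h2, h4, MM.eq_iff]
    simp only [h1, h3]
  | le t u =>
    intro r
    obtain ⟨tv, h1, h2⟩ := hV s _ t r
    obtain ⟨uv, h3, h4⟩ := hV s _ u r
    simp only [Fm.sat]
    rw [h2, h4, MStr_le]
    simp only [h1, h3]
    rfl
  | rel t => exact absurd hφ (by simp [Fm.RFree])
  | neg φ ih =>
    intro r
    simp only [Fm.sat]
    rw [ih hφ r, UU_not]
  | and φ ψ ih1 ih2 =>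
    intro r
    simp only [Fm.sat]
    rw [ih1 hφ.1 r, ih2 hφ.2 r, Filter.eventually_and]
  | bex t φ ih =>
    intro r
    obtain ⟨tv, h1, h2⟩ := hV s _ t r
    simp only [Fm.sat]
    constructor
    · rintro ⟨x, hx1, hx2⟩
      obtain ⟨ra, rfl⟩ : ∃ ra : BSeq s, x = MM.mk ra :=
        ⟨Quotient.out x, (Quotient.out_eq x).symm⟩
      rw [h2, MStr_le] at hx1
      rw [LosM_cons, ih hφ] at hx2
      filter_upwards [hx1, hx2] with i a b
      rw [LosM_cons'] at b
      exact ⟨ra.1 i, by rw [← h1]; exact a, b⟩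
    · intro h
      classical
      have hx : ∀ i, ∃ x, x ≤ tv.1 i ∧ ((∃ x, stdN.le x (t.val stdN fun j => (r j).1 i) ∧
          φ.sat stdN (Fin.cons x fun j => (r j).1 i)) →
          φ.sat stdN (Fin.cons x fun j => (r j).1 i)) := by
        intro i
        by_cases hi : ∃ x, stdN.le x (t.val stdN fun j => (r j).1 i) ∧
          φ.sat stdN (Fin.cons x fun j => (r j).1 i)
        · obtain ⟨x, hx1, hx2⟩ := hi
          refine ⟨x, ?_, fun _ => hx2⟩
          rw [h1]
          exact hx1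
        · exact ⟨0, Nat.zero_le _, fun h => absurd h hi⟩
      choose x hx1 hx2 using hx
      obtain ⟨J, hJ⟩ := tv.2
      let ra : BSeq s := ⟨x, J, by
        filter_upwards [hJ] with i hi
        exact (hx1 i).trans hi⟩
      refine ⟨MM.mk ra, ?_, ?_⟩
      · rw [h2, MStr_le]
        exact Filter.Eventually.of_forall hx1
      · rw [LosM_cons, ih hφ]
        filter_upwards [h] with i hi
        rw [LosM_cons']
        exact hx2 i hi

theorem prf_LosM (hV : S_TmVal) : S_LosM := by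
  intro s v φ hφ hst e
  obtain ⟨r, rfl⟩ := MM.reps e
  rw [LosM_main hV s φ hφ]
  exact Filter.Eventually.of_forall fun i => hst _

end Pool.Agent.Work.MP_610017_lc.PP
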