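import Mathlib
import Pool.Agent.Work.MP_610017_lc.PP.B_Stmts
import Pool.Agent.Work.MP_610017_lc.Bd.B03

/-!
# Truth of disjunctions in the model (MP_610017_lc)
-/

set_option autoImplicit false

namespace Pool.Agent.Work.MP_610017_lc.PP

theorem OrTruth_isSome {k n : ℕ} (ρ : Res k n) (N : ℕ) (v : Vx k) :
    ((gw ρ N).χ v).isSome = true := rfl

theorem OrTruth_set {k n : ℕ} (ρ : Res k n) (N : ℕ) (f : Fact k n) (h : SetTrue ρ f) :
    holds (gw ρ N) f := by
  cases f with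
  | edge v w a b =>
    obtain ⟨i, -, h1, h2⟩ := h
    change (ρ.β v).symm a = (ρ.β w).symm b
    rw [← h1, ← h2, Equiv.symm_apply_apply, Equiv.symm_apply_apply]
  | col v a c =>
    obtain ⟨i, hi, h1, h2⟩ := h
    have h3 : (ρ.β v).symm a = i := by rw [← h1, Equiv.symm_apply_apply]
    have h4 : i ≠ 0 := fun h0 => hi (by rw [h0]; exact ρ.zero_mem)
    have h5 : i ≠ 1 := fun h0 => hi (by rw [h0]; exact ρ.one_mem)
    change cl (gw ρ N) v ((ρ.β v).symm a) = some c
    rw [h3]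
    unfold cl
    rw [if_neg h4, if_neg h5]
    exact congrArg some h2

theorem OrTruth_holds (hE : S_Ev) {k n : ℕ} (ρ : Res k n) (N : ℕ) (T : Tree k n) :
    ∀ f ∈ (ev (gw ρ N) T).1, holds (gw ρ N) f :=
  (hE k n (gw ρ N) T).2.1 fun v _ => OrTruth_isSome ρ N v

theorem OrTruth_stab (hS : S_Stab) (s : SD) (h : ℕ) (T : ∀ i, Tree (s.kk i) (s.nn i))
    (hT : ∀ᶠ i in UU, HLe h (T i)) : ∃ N1, ∀ N N', N1 ≤ N → N1 ≤ N' →
    ∀ᶠ i in UU, ev (gw (s.ρ i) N') (T i) = ev (gw (s.ρ i) N) (T i) := by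
  obtain ⟨N1, h1⟩ := hS s h T hT
  refine ⟨N1, fun N N' hN hN' => ?_⟩
  filter_upwards [h1 N hN, h1 N' hN'] with i a b
  rw [a, b]

theorem prf_OrTruth (hS : S_Stab) (hE : S_Ev) (hL : S_LE) (hB : S_BrBasic) : S_OrTruth := by
  intro s h h' m Tx T hR hx
  have hTh : ∀ᶠ i in UU, HLe h (T i) := hR.mono fun i hi => hi.1
  constructor
  · rintro ⟨N0, h0⟩
    obtain ⟨N1, h1⟩ := OrTruth_stab hS s h T hTh
    have hN0 : N0 ≤ max N0 N1 := le_max_left _ _
    have hN1 : N1 ≤ max N0 N1 := le_max_right _ _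
    generalize max N0 N1 = N at hN0 hN1
    classical
    let P : ∀ i, ℕ → Prop := fun i x => x ≤ m i ∧ ∃ F', Br (Tx i x) F' true ∧
      ∀ f ∈ F', Dec (s.ρ i) (ev (gw (s.ρ i) N) (T i)).1 f
    let x : ℕ → ℕ := fun i => if hi : ∃ x, P i x then hi.choose else 0
    have hP : ∀ᶠ i in UU, P i (x i) := by
      have hN' : N1 ≤ N + 9 * h + 1 := by omega
      filter_upwards [hR, h0 N hN0, h1 N (N + 9 * h + 1) hN1 hN', UU_ge (N + 9 * h + 4)] with
        i a1 a2 a3 a4
      have b1 : Br (T i) (ev (gw (s.ρ i) N) (T i)).1 true := by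
        have := (hE _ _ (gw (s.ρ i) N) (T i)).1
        rwa [a2] at this
      obtain ⟨b2, b3⟩ := hB _ _ h (T i) _ _ a1.1 b1
      have b4 := OrTruth_holds hE (s.ρ i) N (T i)
      have b5 : ∀ f ∈ (ev (gw (s.ρ i) N) (T i)).1, holds (gw (s.ρ i) (N + 9 * h + 1)) f := by
        have := OrTruth_holds hE (s.ρ i) (N + 9 * h + 1) (T i)
        rwa [a3] at this
      have b6 := s.le_kk i
      have b7 := s.le_I i
      have hc : Con (s.ρ i) (ev (gw (s.ρ i) N) (T i)).1 :=
        hL _ _ (s.ρ i) N (N + 9 * h + 1) _ b3 b4 b5 (by omega) (by omega) (by omega)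
      have hex : ∃ x, P i x := a1.2.1 _ b1 hc
      have hxi : x i = hex.choose := dif_pos hex
      rw [hxi]
      exact hex.choose_spec
    refine ⟨x, hP.mono fun i hi => hi.1, N, fun N'' hN'' => ?_⟩
    have hN1'' : N1 ≤ N'' := hN1.trans hN''
    filter_upwards [hP, h1 N N'' hN1 hN1''] with i a1 a2
    obtain ⟨-, F', c1, c2⟩ := a1
    have c3 : ∀ f ∈ F', holds (gw (s.ρ i) N'') f := by
      intro f hf
      rcases c2 f hf with c4 | c4
      · have c5 := OrTruth_holds hE (s.ρ i) N'' (T i)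
        rw [a2] at c5
        exact c5 f c4
      · exact OrTruth_set _ _ f c4
    exact ((hE _ _ (gw (s.ρ i) N'') (Tx i (x i))).2.2 F' true c1 c3).2.symm
  · rintro ⟨x, hxm, N0, h0⟩
    by_contra hcon
    have hTx : ∀ᶠ i in UU, HLe h' (Tx i (x i)) := by
      filter_upwards [hx, hxm] with i a b
      exact a _ b
    obtain ⟨N1, h1⟩ := OrTruth_stab hS s h T hTh
    obtain ⟨N2, h2⟩ := OrTruth_stab hS s h' (fun i => Tx i (x i)) hTx
    have hN0 : N0 ≤ max N0 (max N1 N2) := le_max_left _ _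
    have hN1 : N1 ≤ max N0 (max N1 N2) := (le_max_left _ _).trans (le_max_right _ _)
    have hN2 : N2 ≤ max N0 (max N1 N2) := (le_max_right _ _).trans (le_max_right _ _)
    generalize max N0 (max N1 N2) = N at hN0 hN1 hN2
    have hf : ∀ᶠ i in UU, (ev (gw (s.ρ i) N) (T i)).2 = false := by
      rcases UU_em (fun i => (ev (gw (s.ρ i) N) (T i)).2 = true) with h3 | h3
      · exfalso
        apply hcon
        refine ⟨N, fun N'' hN'' => ?_⟩
        filter_upwards [h3, h1 N N'' hN1 (hN1.trans hN'')] with i a b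
        rw [b]
        exact a
      · exact h3.mono fun i hi => by simpa using hi
    have hN1' : N1 ≤ N + 9 * h + 9 * h' + 1 := by omega
    have hN2' : N2 ≤ N + 9 * h + 9 * h' + 1 := by omega
    apply UU_false
    filter_upwards [hR, hf, h0 N hN0, h1 N (N + 9 * h + 9 * h' + 1) hN1 hN1',
      h2 N (N + 9 * h + 9 * h' + 1) hN2 hN2', UU_ge (N + 9 * h + 9 * h' + 4), hxm, hTx] with
      i a1 a2 a3 a4 a5 a6 a7 a8
    have b1 : Br (T i) (ev (gw (s.ρ i) N) (T i)).1 false := by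
      have := (hE _ _ (gw (s.ρ i) N) (T i)).1
      rwa [a2] at this
    have b1' : Br (Tx i (x i)) (ev (gw (s.ρ i) N) (Tx i (x i))).1 true := by
      have := (hE _ _ (gw (s.ρ i) N) (Tx i (x i))).1
      rwa [a3] at this
    obtain ⟨b2, b3⟩ := hB _ _ h (T i) _ _ a1.1 b1
    obtain ⟨b2', b3'⟩ := hB _ _ h' (Tx i (x i)) _ _ a8 b1'
    have b4 := OrTruth_holds hE (s.ρ i) N (T i)
    have b4' := OrTruth_holds hE (s.ρ i) N (Tx i (x i))
    have b5 := OrTruth_holds hE (s.ρ i) (N + 9 * h + 9 * h' + 1) (T i)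
    have b5' := OrTruth_holds hE (s.ρ i) (N + 9 * h + 9 * h' + 1) (Tx i (x i))
    rw [a4] at b5
    rw [a5] at b5'
    have b6 := s.le_kk i
    have b7 := s.le_I i
    refine a1.2.2 _ b1 (x i) a7 _ b1' ?_
    have hcard := Finset.card_union_le (ev (gw (s.ρ i) N) (T i)).1
      (ev (gw (s.ρ i) N) (Tx i (x i))).1
    refine hL _ _ (s.ρ i) N (N + 9 * h + 9 * h' + 1) _ ?_ ?_ ?_ (by omega) (by omega) (by omega)
    · intro f hf
      rcases Finset.mem_union.1 hf with hf | hf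
      · exact b3 f hf
      · exact b3' f hf
    · intro f hf
      rcases Finset.mem_union.1 hf with hf | hf
      · exact b4 f hf
      · exact b4' f hf
    · intro f hf
      rcases Finset.mem_union.1 hf with hf | hf
      · exact b5 f hf
      · exact b5' f hf

end Pool.Agent.Work.MP_610017_lc.PP
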