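import Mathlib
import Pool.Agent.Work.MP_610017_lc.PP.B_Stmts
import Pool.Agent.Work.MP_610017_lc.Bd.B03

/-!
# Block B: the relations in the model (MP_610017_lc)
-/

set_option autoImplicit false

namespace Pool.Agent.Work.MP_610017_lc.PP

theorem Rels_num (s : SD) (c : ℕ) : (MStr s).num c = MM.mk (BSeq.const s c) := by
  induction c with
  | zero => rfl
  | succ c ih =>
    change (MStr s).succ ((MStr s).num c) = _
    rw [ih, MStr_succ]
    exact (MM.eq_iff _ _).2 (Filter.Eventually.of_forall fun _ => rfl)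

theorem Rels_rel (s : SD) (p0 p1 p2 p3 p4 : BSeq s) :
    (MStr s).rel ![MM.mk p0, MM.mk p1, MM.mk p2, MM.mk p3, MM.mk p4] ↔
      EvT s fun i => relTree (s.kk i) (s.nn i) ![p0.1 i, p1.1 i, p2.1 i, p3.1 i, p4.1 i] := by
  have h := MStr_rel s ![p0, p1, p2, p3, p4]
  have e1 : (fun j => MM.mk ((![p0, p1, p2, p3, p4] : Fin 5 → BSeq s) j)) =
      ![MM.mk p0, MM.mk p1, MM.mk p2, MM.mk p3, MM.mk p4] := by
    funext j
    fin_cases j <;> rfl
  have e2 : ∀ i, (fun j => ((![p0, p1, p2, p3, p4] : Fin 5 → BSeq s) j).1 i) =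
      ![p0.1 i, p1.1 i, p2.1 i, p3.1 i, p4.1 i] := by
    intro i
    funext j
    fin_cases j <;> rfl
  rw [e1] at h
  simp only [e2] at h
  exact h

theorem Rels_up1 {k x : ℕ} (h : x < k) :
    up1 (Fin.ofNat (k + 1) x) = Fin.ofNat (k + 1) (x + 1) := by
  apply Fin.ext
  simp only [up1, Fin.ofNat]
  rw [Nat.mod_eq_of_lt (by omega), Nat.mod_eq_of_lt (by omega)]
  omega

theorem Rels_key {k n : ℕ} (ρ : Res k n) (N : ℕ) (v : Vx k) (a' b'' : Lb n) (d : Fin 4) :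
    (ev (gw ρ N) (Tree.node v a' fun b' _ => Tree.leaf (decide (b' d = b'')))).2 = true ↔
      ρ.β (nb v d) ((ρ.β v).symm a') = b'' := by
  change decide (ρ.β (nb v d) ((ρ.β v).symm a') = b'') = true ↔ _
  exact decide_eq_true_iff

theorem Rels_key2 {k n : ℕ} (ρ : Res k n) (N : ℕ) (v : Vx k) (a' : Lb n) :
    (ev (gw ρ N) (Tree.node v a' fun _ c => Tree.leaf c)).2 =
      (bd v && (if (ρ.β v).symm a' = 0 then
        decide (v.2.val = 0 ∧ 1 ≤ v.1.val ∧ v.1.val ≤ N) else if (ρ.β v).symm a' = 1 then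
        !decide (v.2.val = 0 ∧ 1 ≤ v.1.val ∧ v.1.val ≤ N) else ρ.ζ ((ρ.β v).symm a'))) := by
  change (bd v && (cl (gw ρ N) v ((ρ.β v).symm a')).getD false) = _
  unfold cl
  split_ifs
  · rfl
  · rfl
  · rfl

theorem Rels_evH {k n : ℕ} (ρ : Res k n) (N x y a b : ℕ) :
    (ev (gw ρ N) (relTree k n ![0, x, y, a, b])).2 = true ↔ hR ρ x y a b := by
  unfold relTree hR
  have t0 : (![0, x, y, a, b] : Fin 5 → ℕ) 0 = 0 := rfl
  have t1 : (![0, x, y, a, b] : Fin 5 → ℕ) 1 = x := rfl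
  have t2 : (![0, x, y, a, b] : Fin 5 → ℕ) 2 = y := rfl
  have t3 : (![0, x, y, a, b] : Fin 5 → ℕ) 3 = a := rfl
  have t4 : (![0, x, y, a, b] : Fin 5 → ℕ) 4 = b := rfl
  rw [t0, t1, t2, t3, t4]
  by_cases h : x < k ∧ y ≤ k ∧ a ≤ n ∧ b ≤ n
  · rw [if_pos ⟨rfl, h⟩, Rels_key]
    have e : nb ((Fin.ofNat (k + 1) x, Fin.ofNat (k + 1) y) : Vx k) 0 =
        (Fin.ofNat (k + 1) (x + 1), Fin.ofNat (k + 1) y) := by
      unfold nb
      rw [if_pos rfl, Rels_up1 h.1]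
    rw [e]
    exact ⟨fun h' => ⟨h.1, h.2.1, h.2.2.1, h.2.2.2, h'⟩, fun h' => h'.2.2.2.2⟩
  · rw [if_neg (fun h' => h h'.2), if_neg (fun h' => by omega), if_neg (fun h' => by omega)]
    simp only [ev, decide_eq_true_eq]
    constructor
    · intro h'
      omega
    · intro h'
      exact absurd ⟨h'.1, h'.2.1, h'.2.2.1, h'.2.2.2.1⟩ h

theorem Rels_evU {k n : ℕ} (ρ : Res k n) (N x y a b : ℕ) :
    (ev (gw ρ N) (relTree k n ![1, x, y, a, b])).2 = true ↔ uR ρ x y a b := by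
  unfold relTree uR
  have t0 : (![1, x, y, a, b] : Fin 5 → ℕ) 0 = 1 := rfl
  have t1 : (![1, x, y, a, b] : Fin 5 → ℕ) 1 = x := rfl
  have t2 : (![1, x, y, a, b] : Fin 5 → ℕ) 2 = y := rfl
  have t3 : (![1, x, y, a, b] : Fin 5 → ℕ) 3 = a := rfl
  have t4 : (![1, x, y, a, b] : Fin 5 → ℕ) 4 = b := rfl
  rw [t0, t1, t2, t3, t4, if_neg (fun h' => by omega)]
  by_cases h : x ≤ k ∧ y < k ∧ a ≤ n ∧ b ≤ n
  · rw [if_pos ⟨rfl, h⟩, Rels_key]
    have e : nb ((Fin.ofNat (k + 1) x, Fin.ofNat (k + 1) y) : Vx k) 1 =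
        (Fin.ofNat (k + 1) x, Fin.ofNat (k + 1) (y + 1)) := by
      unfold nb
      rw [if_neg (by decide), if_pos rfl, Rels_up1 h.2.1]
    rw [e]
    exact ⟨fun h' => ⟨h.1, h.2.1, h.2.2.1, h.2.2.2, h'⟩, fun h' => h'.2.2.2.2⟩
  · rw [if_neg (fun h' => h h'.2), if_neg (fun h' => by omega)]
    simp only [ev, decide_eq_true_eq]
    constructor
    · intro h'
      omega
    · intro h'
      exact absurd ⟨h'.1, h'.2.1, h'.2.2.1, h'.2.2.2.1⟩ h

theorem Rels_bd {k x y : ℕ} (hx : x ≤ k) (hy : y ≤ k) :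
    bd ((Fin.ofNat (k + 1) x, Fin.ofNat (k + 1) y) : Vx k) = true ↔
      (x = 0 ∨ x = k ∨ y = 0 ∨ y = k) ∧ ¬ (x = 0 ∧ y = 0) := by
  unfold bd
  simp only [decide_eq_true_eq, Fin.ofNat]
  rw [Nat.mod_eq_of_lt (by omega : x < k + 1), Nat.mod_eq_of_lt (by omega : y < k + 1)]

theorem Rels_evC {k n : ℕ} (ρ : Res k n) (N x y a : ℕ) :
    (ev (gw ρ N) (relTree k n ![2, x, y, a, 0])).2 = true ↔ cR ρ N x y a := by
  unfold relTree cR
  have t0 : (![2, x, y, a, 0] : Fin 5 → ℕ) 0 = 2 := rfl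
  have t1 : (![2, x, y, a, 0] : Fin 5 → ℕ) 1 = x := rfl
  have t2 : (![2, x, y, a, 0] : Fin 5 → ℕ) 2 = y := rfl
  have t3 : (![2, x, y, a, 0] : Fin 5 → ℕ) 3 = a := rfl
  have t4 : (![2, x, y, a, 0] : Fin 5 → ℕ) 4 = 0 := rfl
  rw [t0, t1, t2, t3, t4, if_neg (fun h' => by omega), if_neg (fun h' => by omega)]
  by_cases h : x ≤ k ∧ y ≤ k ∧ a ≤ n ∧
      bd ((Fin.ofNat (k + 1) x, Fin.ofNat (k + 1) y) : Vx k) = true
  · rw [if_pos ⟨rfl, h.1, h.2.1, h.2.2.1, rfl, h.2.2.2⟩]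
    have hb := (Rels_bd h.1 h.2.1).1 h.2.2.2
    rw [Rels_key2, h.2.2.2, Bool.true_and]
    have ex : (Fin.ofNat (k + 1) x).val = x := Nat.mod_eq_of_lt (by omega : x < k + 1)
    have ey : (Fin.ofNat (k + 1) y).val = y := Nat.mod_eq_of_lt (by omega : y < k + 1)
    simp only [ex, ey]
    constructor
    · intro h'
      refine ⟨h.1, h.2.1, h.2.2.1, hb.1, hb.2, ?_⟩
      split_ifs at h' ⊢
      · exact of_decide_eq_true h'
      · rw [Bool.not_eq_true'] at h'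
        exact of_decide_eq_false h'
      · exact h'
    · rintro ⟨-, -, -, -, -, h'⟩
      split_ifs at h' ⊢
      · exact decide_eq_true h'
      · rw [Bool.not_eq_true']
        exact decide_eq_false h'
      · exact h'
  · rw [if_neg (fun h' => h ⟨h'.2.1, h'.2.2.1, h'.2.2.2.1, h'.2.2.2.2.2⟩)]
    simp only [ev, decide_eq_true_eq]
    constructor
    · intro h'
      omega
    · intro h'
      exact absurd ⟨h'.1, h'.2.1, h'.2.2.1,
        (Rels_bd h'.1 h'.2.1).2 ⟨h'.2.2.2.1, h'.2.2.2.2.1⟩⟩ h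

theorem Rels_evP {k n : ℕ} (ρ : Res k n) (N x y : ℕ) :
    (ev (gw ρ N) (relTree k n ![3, x, y, 0, 0])).2 = true ↔ x ≤ k ∧ y = 2 ^ x := by
  unfold relTree
  have t0 : (![3, x, y, 0, 0] : Fin 5 → ℕ) 0 = 3 := rfl
  have t1 : (![3, x, y, 0, 0] : Fin 5 → ℕ) 1 = x := rfl
  have t2 : (![3, x, y, 0, 0] : Fin 5 → ℕ) 2 = y := rfl
  have t3 : (![3, x, y, 0, 0] : Fin 5 → ℕ) 3 = 0 := rfl
  have t4 : (![3, x, y, 0, 0] : Fin 5 → ℕ) 4 = 0 := rfl
  rw [t0, t1, t2, t3, t4, if_neg (fun h' => by omega), if_neg (fun h' => by omega),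
    if_neg (fun h' => by omega)]
  simp only [ev, decide_eq_true_eq]
  constructor
  · intro h
    exact ⟨h.2.1, h.2.2.1⟩
  · intro h
    exact ⟨trivial, h.1, h.2, trivial, trivial⟩

/-- truth that does not depend on `N` -/
theorem Rels_EvT {s : SD} {T : ∀ i, Tree (s.kk i) (s.nn i)} {P : ℕ → Prop}
    (h : ∀ i N, (ev (gw (s.ρ i) N) (T i)).2 = true ↔ P i) : EvT s T ↔ ∀ᶠ i in UU, P i := by
  constructor
  · rintro ⟨N0, h0⟩
    exact (h0 N0 le_rfl).mono fun i hi => (h i N0).1 hi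
  · intro h0
    exact ⟨0, fun N _ => h0.mono fun i hi => (h i N).2 hi⟩

theorem prf_Rels : S_Rels := by
  intro s x y a b
  refine ⟨?_, ?_, ?_, ?_⟩
  · unfold Str.H
    rw [Rels_num, Rels_rel]
    exact Rels_EvT fun i N => Rels_evH (s.ρ i) N (x.1 i) (y.1 i) (a.1 i) (b.1 i)
  · unfold Str.U
    rw [Rels_num, Rels_rel]
    exact Rels_EvT fun i N => Rels_evU (s.ρ i) N (x.1 i) (y.1 i) (a.1 i) (b.1 i)
  · unfold Str.C
    rw [Rels_num, Rels_num, Rels_rel]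
    unfold EvT
    have h : ∀ i N, (ev (gw (s.ρ i) N) (relTree (s.kk i) (s.nn i)
        ![(BSeq.const s 2).1 i, x.1 i, y.1 i, a.1 i, (BSeq.const s 0).1 i])).2 = true ↔
          cR (s.ρ i) N (x.1 i) (y.1 i) (a.1 i) := fun i N =>
      Rels_evC (s.ρ i) N (x.1 i) (y.1 i) (a.1 i)
    simp only [h]
  · unfold Str.P
    rw [Rels_num, Rels_num, Rels_rel]
    exact Rels_EvT fun i N => Rels_evP (s.ρ i) N (x.1 i) (y.1 i)

end Pool.Agent.Work.MP_610017_lc.PP
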