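import Mathlib
import Pool.Agent.Work.MP_610017_lc.PP.B_Stmts
import Pool.Agent.Work.MP_610017_lc.Bd.B03

/-!
# Block B, item RobM: the model satisfies Robinson arithmetic (MP_610017_lc)
-/

set_option autoImplicit false

namespace Pool.Agent.Work.MP_610017_lc.PP

/-- truncated difference of sequences -/
def RobM_sub {s : SD} (y x : BSeq s) : BSeq s := ⟨fun i => y.1 i - x.1 i, by
  obtain ⟨J, hJ⟩ := y.2
  exact ⟨J, hJ.mono fun i hi => (Nat.sub_le _ _).trans hi⟩⟩

theorem prf_RobM : S_RobM := by
  intro s
  constructor
  · intro x
    induction x using MM.ind' with
    | h x =>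
      rw [MStr_succ, MStr_zero, Ne, MM.eq_iff]
      intro h
      refine UU_false (h.mono fun i hi => ?_)
      exact Nat.succ_ne_zero _ hi
  · intro x y
    induction x using MM.ind' with
    | h x =>
      induction y using MM.ind' with
      | h y =>
        rw [MStr_succ, MStr_succ, MM.eq_iff, MM.eq_iff]
        intro h
        exact h.mono fun i hi => Nat.succ_injective hi
  · intro x
    induction x using MM.ind' with
    | h x =>
      intro hx
      rw [MStr_zero, Ne, MM.eq_iff, UU_not] at hx
      refine ⟨MM.mk (RobM_sub x (BSeq.const s 1)), ?_⟩
      rw [MStr_succ, MM.eq_iff]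
      filter_upwards [hx] with i hi
      have hi' : x.1 i ≠ 0 := hi
      show x.1 i = x.1 i - 1 + 1
      omega
  · intro x
    induction x using MM.ind' with
    | h x =>
      rw [MStr_zero, MStr_add, MM.eq_iff]
      exact Filter.Eventually.of_forall fun i => Nat.add_zero _
  · intro x y
    induction x using MM.ind' with
    | h x =>
      induction y using MM.ind' with
      | h y =>
        rw [MStr_succ, MStr_add, MStr_add, MStr_succ, MM.eq_iff]
        exact Filter.Eventually.of_forall fun i => rfl
  · intro x
    induction x using MM.ind' with
    | h x =>
      rw [MStr_zero, MStr_mul, MM.eq_iff]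
      exact Filter.Eventually.of_forall fun i => Nat.mul_zero _
  · intro x y
    induction x using MM.ind' with
    | h x =>
      induction y using MM.ind' with
      | h y =>
        rw [MStr_succ, MStr_mul, MStr_mul, MStr_add, MM.eq_iff]
        exact Filter.Eventually.of_forall fun i => Nat.mul_succ _ _
  · intro x y
    induction x using MM.ind' with
    | h x =>
      induction y using MM.ind' with
      | h y =>
        rw [MStr_le]
        constructor
        · intro h
          refine ⟨MM.mk (RobM_sub y x), ?_⟩
          rw [MStr_add, MM.eq_iff]
          filter_upwards [h] with i hi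
          show y.1 i - x.1 i + x.1 i = y.1 i
          omega
        · rintro ⟨z, hz⟩
          induction z using MM.ind' with
          | h z =>
            rw [MStr_add, MM.eq_iff] at hz
            filter_upwards [hz] with i hi
            have hi' : z.1 i + x.1 i = y.1 i := hi
            omega

end Pool.Agent.Work.MP_610017_lc.PP
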