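import Mathlib
import Pool.Agent.Work.MP_610017_lc.PP.B_Stmts
import Pool.Agent.Work.MP_610017_lc.Bd.B03

/-!
# The branch of a tree of bounded height is independent of `N` for large `N`
-/

set_option autoImplicit false

namespace Pool.Agent.Work.MP_610017_lc.PP

/-- the vertex of the root query -/
def Stab_tv {k n : ℕ} : Tree k n → Vx k
  | .leaf _ => (0, 0)
  | .node v _ _ => v

/-- the label of the root query -/
def Stab_ta {k n : ℕ} : Tree k n → Lb n
  | .leaf _ => 0
  | .node _ a _ => a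

/-- the children of the root -/
def Stab_tn {k n : ℕ} : Tree k n → (Fin 4 → Lb n) → Bool → Tree k n
  | .leaf r => fun _ _ => .leaf r
  | .node _ _ next => next

/-- the index of the sheet of the root query -/
def Stab_idx {k n : ℕ} (ρ : Res k n) (v : Vx k) (a : Lb n) : Lb n := (ρ.β v).symm a

/-- the answer to the root query -/
def Stab_b {k n : ℕ} (ρ : Res k n) (v : Vx k) (a : Lb n) : Fin 4 → Lb n :=
  fun d => ρ.β (nb v d) (Stab_idx ρ v a)

/-- the colour in the answer to the root query -/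
def Stab_c {k n : ℕ} (ρ : Res k n) (v : Vx k) (a : Lb n) (N : ℕ) : Bool :=
  bd v && (if Stab_idx ρ v a = 0 then some (decide (v.2.val = 0 ∧ 1 ≤ v.1.val ∧ v.1.val ≤ N))
    else if Stab_idx ρ v a = 1 then
      (some (decide (v.2.val = 0 ∧ 1 ≤ v.1.val ∧ v.1.val ≤ N))).map (fun c => !c)
    else some (ρ.ζ (Stab_idx ρ v a))).getD false

theorem Stab_ev {k n : ℕ} (ρ : Res k n) (N : ℕ) (v : Vx k) (a : Lb n)
    (next : (Fin 4 → Lb n) → Bool → Tree k n) :
    ev (gw ρ N) (.node v a next) = (star v a (Stab_b ρ v a) (Stab_c ρ v a N) ∪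
      (ev (gw ρ N) (next (Stab_b ρ v a) (Stab_c ρ v a N))).1,
      (ev (gw ρ N) (next (Stab_b ρ v a) (Stab_c ρ v a N))).2) := rfl

theorem Stab_c_le {k n : ℕ} (ρ : Res k n) (v : Vx k) (a : Lb n) (N N1 : ℕ) (h : v.1.val ≤ N1)
    (h1 : N1 ≤ N) : Stab_c ρ v a N = Stab_c ρ v a N1 := by
  have h2 : v.1.val ≤ N := h.trans h1
  unfold Stab_c
  simp only [h, h2, and_true]

theorem Stab_c_gt {k n : ℕ} (ρ : Res k n) (v : Vx k) (a : Lb n) (N N1 : ℕ) (h : ¬ v.1.val ≤ N)
    (h1 : ¬ v.1.val ≤ N1) : Stab_c ρ v a N = Stab_c ρ v a N1 := by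
  unfold Stab_c
  simp only [h, h1, and_false]

theorem prf_Stab : S_Stab := by
  intro s h
  induction h with
  | zero =>
    intro T hT
    refine ⟨0, fun N _ => ?_⟩
    filter_upwards [hT] with i hi
    match T i, hi with
    | .leaf r, _ => rfl
  | succ h ih =>
    intro T hT
    rcases UU_em (fun i => ∃ r, T i = .leaf r) with hl | hn
    · refine ⟨0, fun N _ => ?_⟩
      filter_upwards [hl] with i hi
      obtain ⟨r, hr⟩ := hi
      rw [hr]
      rfl
    · have hnode : ∀ i, (¬ ∃ r, T i = .leaf r) →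
          T i = .node (Stab_tv (T i)) (Stab_ta (T i)) (Stab_tn (T i)) := by
        intro i hi
        match hTi : T i with
        | .leaf r => exact absurd ⟨r, hTi⟩ hi
        | .node v a next => rfl
      obtain ⟨N1, hN1⟩ : ∃ N1, ∀ N, N1 ≤ N → ∀ᶠ i in UU,
          Stab_c (s.ρ i) (Stab_tv (T i)) (Stab_ta (T i)) N =
            Stab_c (s.ρ i) (Stab_tv (T i)) (Stab_ta (T i)) N1 := by
        by_cases hb : ∃ N1, ∀ᶠ i in UU, (Stab_tv (T i)).1.val ≤ N1
        · obtain ⟨N1, hN1⟩ := hb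
          refine ⟨N1, fun N hN => ?_⟩
          filter_upwards [hN1] with i hi
          exact Stab_c_le _ _ _ _ _ hi hN
        · have hb' : ∀ N1, ∀ᶠ i in UU, ¬ (Stab_tv (T i)).1.val ≤ N1 := fun N1 =>
            (UU_not _).1 fun h0 => hb ⟨N1, h0⟩
          refine ⟨0, fun N _ => ?_⟩
          filter_upwards [hb' N, hb' 0] with i h1 h2
          exact Stab_c_gt _ _ _ _ _ h1 h2
      obtain ⟨N2, hN2⟩ := ih (fun i => Stab_tn (T i)
        (Stab_b (s.ρ i) (Stab_tv (T i)) (Stab_ta (T i)))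
        (Stab_c (s.ρ i) (Stab_tv (T i)) (Stab_ta (T i)) N1)) (by
          filter_upwards [hT, hn] with i hi hni
          rw [hnode i hni] at hi
          exact hi _ _)
      refine ⟨max N1 N2, fun N hN => ?_⟩
      filter_upwards [hn, hN1 N ((le_max_left _ _).trans hN), hN1 _ (le_max_left N1 N2),
        hN2 N ((le_max_right _ _).trans hN), hN2 _ (le_max_right N1 N2)] with i hni h1 h2 h3 h4
      have h5 := h3.trans h4.symm
      rw [hnode i hni, Stab_ev, Stab_ev, h1, h2, h5]

end Pool.Agent.Work.MP_610017_lc.PP
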