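import Mathlib
import Pool.Agent.Work.MP_610017_lc.PP.B_Stmts
import Pool.Agent.Work.MP_610017_lc.Bd.B03

/-!
# Item Truth: truth in the model is truth of the trees (MP_610017_lc)
-/

set_option autoImplicit false

namespace Pool.Agent.Work.MP_610017_lc.PP

instance Truth_inst (k n : ℕ) : Nonempty (Tree k n) := ⟨.leaf true⟩

/-- choice along the ultrafilter -/
theorem Truth_choose {α : ℕ → Type} [∀ i, Nonempty (α i)] {P : ∀ i, α i → Prop}
    (h : ∀ᶠ i in UU, ∃ x, P i x) : ∃ f : ∀ i, α i, ∀ᶠ i in UU, P i (f i) := by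
  classical
  refine ⟨fun i => if hx : ∃ x, P i x then hx.choose else Classical.arbitrary _, ?_⟩
  filter_upwards [h] with i hi
  rw [dif_pos hi]
  exact hi.choose_spec

/-- leaves -/
theorem Truth_leaf (s : SD) (P : ℕ → Prop) [∀ i, Decidable (P i)] :
    EvT s (fun i => .leaf (decide (P i))) ↔ ∀ᶠ i in UU, P i := by
  constructor
  · rintro ⟨N0, h⟩
    filter_upwards [h N0 le_rfl] with i hi
    simpa [ev] using hi
  · intro h
    refine ⟨0, fun N _ => ?_⟩
    filter_upwards [h] with i hi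
    simpa [ev] using hi

theorem Truth_cons_mk (s : SD) {v : ℕ} (x : BSeq s) (r : Fin v → BSeq s) :
    (Fin.cons (MM.mk x) (fun j => MM.mk (r j)) : Fin (v + 1) → MM s) =
      fun j => MM.mk ((Fin.cons x r : Fin (v + 1) → BSeq s) j) := by
  funext j
  refine Fin.cases ?_ (fun j => ?_) j
  · rw [Fin.cons_zero, Fin.cons_zero]
  · rw [Fin.cons_succ, Fin.cons_succ]

theorem Truth_cons_val (s : SD) {v : ℕ} (x : BSeq s) (r : Fin v → BSeq s) (i : ℕ) :
    (Fin.cons (x.1 i) (fun j => (r j).1 i) : Fin (v + 1) → ℕ) =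
      fun j => ((Fin.cons x r : Fin (v + 1) → BSeq s) j).1 i := by
  funext j
  refine Fin.cases ?_ (fun j => ?_) j
  · rw [Fin.cons_zero, Fin.cons_zero]
  · rw [Fin.cons_succ, Fin.cons_succ]

theorem prf_Truth (hV : S_TmVal) (hB : S_EvBool) (hO : S_OrTruth) (hH : S_RepHLe)
    (hF : S_BrFlip) (hA : S_BrAnd) : S_Truth := by
  classical
  intro s v φ
  induction φ with
  | @eq v t1 t2 =>
    intro h r T hT
    obtain ⟨a, ha1, ha2⟩ := hV s v t1 r
    obtain ⟨b, hb1, hb2⟩ := hV s v t2 r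
    have e1 : ∀ᶠ i in UU, T i = Tree.leaf (decide (a.1 i = b.1 i)) := by
      filter_upwards [hT] with i hi
      have hi' : T i = Tree.leaf (decide (t1.val stdN (fun j => (r j).1 i) =
        t2.val stdN (fun j => (r j).1 i))) := hi
      rw [hi', ha1, hb1]
    rw [EvT_congr s _ _ e1, Truth_leaf]
    show t1.val (MStr s) (fun j => MM.mk (r j)) = t2.val (MStr s) (fun j => MM.mk (r j)) ↔ _
    rw [ha2, hb2, MM.eq_iff]
  | @le v t1 t2 =>
    intro h r T hT
    obtain ⟨a, ha1, ha2⟩ := hV s v t1 r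
    obtain ⟨b, hb1, hb2⟩ := hV s v t2 r
    have e1 : ∀ᶠ i in UU, T i = Tree.leaf (decide (a.1 i ≤ b.1 i)) := by
      filter_upwards [hT] with i hi
      have hi' : T i = Tree.leaf (decide (t1.val stdN (fun j => (r j).1 i) ≤
        t2.val stdN (fun j => (r j).1 i))) := hi
      rw [hi', ha1, hb1]
    rw [EvT_congr s _ _ e1, Truth_leaf]
    show (MStr s).le (t1.val (MStr s) (fun j => MM.mk (r j)))
      (t2.val (MStr s) (fun j => MM.mk (r j))) ↔ _
    rw [ha2, hb2, MStr_le]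
  | @rel v t =>
    intro h r T hT
    choose a ha1 ha2 using fun j => hV s v (t j) r
    have e1 : ∀ᶠ i in UU, T i = relTree (s.kk i) (s.nn i) fun j => (a j).1 i := by
      filter_upwards [hT] with i hi
      have hi' : T i = relTree (s.kk i) (s.nn i) (fun l => (t l).val stdN (fun j => (r j).1 i)) :=
        hi.2
      rw [hi']
      congr 1
      funext j
      rw [ha1]
    rw [EvT_congr s _ _ e1, ← MStr_rel]
    show (MStr s).rel (fun l => (t l).val (MStr s) (fun j => MM.mk (r j))) ↔ _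
    have e2 : (fun l => (t l).val (MStr s) (fun j => MM.mk (r j))) = fun l => MM.mk (a l) :=
      funext ha2
    rw [e2]
  | @neg v φ ih =>
    intro h r T hT
    have hT' : ∀ᶠ i in UU, ∃ x : Tree (s.kk i) (s.nn i),
        T i = x.flip ∧ Rep (s.ρ i) h φ (fun j => (r j).1 i) x := hT
    obtain ⟨T1, hT1⟩ := Truth_choose hT'
    have e1 : ∀ᶠ i in UU, T i = (T1 i).flip := hT1.mono fun i hi => hi.1
    have e2 : ∀ᶠ i in UU, Rep (s.ρ i) h φ (fun j => (r j).1 i) (T1 i) := hT1.mono fun i hi => hi.2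
    have e3 : ∀ᶠ i in UU, HLe h (T1 i) := e2.mono fun i hi => hH _ _ _ _ _ _ _ _ hi
    rw [EvT_congr s _ _ e1, (hB s h T1 T1 e3).1, ← ih h r T1 e2]
    rfl
  | @and v φ ψ ih1 ih2 =>
    intro h r T hT
    have hT' : ∀ᶠ i in UU, ∃ x : Tree (s.kk i) (s.nn i) × Tree (s.kk i) (s.nn i),
        T i = andT x.1 x.2 ∧ Rep (s.ρ i) h φ (fun j => (r j).1 i) x.1 ∧
          Rep (s.ρ i) h ψ (fun j => (r j).1 i) x.2 := by
      filter_upwards [hT] with i hi
      obtain ⟨-, T1, T2, h1, h2, h3⟩ := hi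
      exact ⟨(T1, T2), h1, h2, h3⟩
    obtain ⟨T1, hT1⟩ := Truth_choose hT'
    have e1 : ∀ᶠ i in UU, T i = andT (T1 i).1 (T1 i).2 := hT1.mono fun i hi => hi.1
    have e2 : ∀ᶠ i in UU, Rep (s.ρ i) h φ (fun j => (r j).1 i) (T1 i).1 :=
      hT1.mono fun i hi => hi.2.1
    have e3 : ∀ᶠ i in UU, Rep (s.ρ i) h ψ (fun j => (r j).1 i) (T1 i).2 :=
      hT1.mono fun i hi => hi.2.2
    have e4 : ∀ᶠ i in UU, HLe h (T1 i).1 := e2.mono fun i hi => hH _ _ _ _ _ _ _ _ hi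
    rw [EvT_congr s _ _ e1, (hB s h (fun i => (T1 i).1) (fun i => (T1 i).2) e4).2,
      ← ih1 h r _ e2, ← ih2 h r _ e3]
    rfl
  | @bex v t φ ih =>
    intro h r T hT
    obtain ⟨m, hm1, hm2⟩ := hV s v t r
    haveI : ∀ i, Nonempty (ℕ → Tree (s.kk i) (s.nn i)) := fun i => ⟨fun _ => .leaf true⟩
    have hT' : ∀ᶠ i in UU, ∃ Tx : ℕ → Tree (s.kk i) (s.nn i),
        (∀ x, x ≤ m.1 i → Rep (s.ρ i) h φ (Fin.cons x (fun j => (r j).1 i)) (Tx x)) ∧
          OrRep (s.ρ i) h (m.1 i) Tx (T i) := by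
      filter_upwards [hT] with i hi
      rw [hm1]
      exact hi
    obtain ⟨Tx, hTx⟩ := Truth_choose hT'
    have e1 : ∀ᶠ i in UU, OrRep (s.ρ i) h (m.1 i) (Tx i) (T i) := hTx.mono fun i hi => hi.2
    have e2 : ∀ᶠ i in UU, ∀ x, x ≤ m.1 i → HLe h (Tx i x) :=
      hTx.mono fun i hi x hx => hH _ _ _ _ _ _ _ _ (hi.1 x hx)
    rw [hO s h h m.1 Tx T e1 e2]
    show (∃ x : MM s, (MStr s).le x (t.val (MStr s) (fun j => MM.mk (r j))) ∧
      φ.sat (MStr s) (Fin.cons x (fun j => MM.mk (r j)))) ↔ _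
    rw [hm2]
    have key : ∀ rx : BSeq s, (∀ᶠ i in UU, rx.1 i ≤ m.1 i) →
        (φ.sat (MStr s) (Fin.cons (MM.mk rx) (fun j => MM.mk (r j))) ↔
          EvT s (fun i => Tx i (rx.1 i))) := by
      intro rx hrx
      rw [Truth_cons_mk]
      refine ih h (Fin.cons rx r) _ ?_
      filter_upwards [hTx, hrx] with i hi hi2
      rw [← Truth_cons_val]
      exact hi.1 _ hi2
    constructor
    · rintro ⟨x, hx1, hx2⟩
      obtain ⟨rx, rfl⟩ : ∃ rx : BSeq s, x = MM.mk rx := ⟨Quotient.out x, (Quotient.out_eq x).symm⟩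
      rw [MStr_le] at hx1
      exact ⟨rx.1, hx1, (key rx hx1).1 hx2⟩
    · rintro ⟨x, hx1, hx2⟩
      obtain ⟨J, hJ⟩ := m.2
      let rx : BSeq s := ⟨x, J, by
        filter_upwards [hx1, hJ] with i h1 h2
        exact h1.trans h2⟩
      exact ⟨MM.mk rx, (MStr_le s _ _).2 hx1, (key rx hx1).2 hx2⟩
  | @ind v φ ih =>
    intro h r T hT
    obtain ⟨m, hm⟩ : ∃ m : BSeq s, m = r 0 := ⟨_, rfl⟩
    obtain ⟨r', hr'⟩ : ∃ r' : Fin v → BSeq s, r' = fun j => r j.succ := ⟨_, rfl⟩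
    haveI : ∀ i, Nonempty (ℕ → Tree (s.kk i) (s.nn i)) := fun i => ⟨fun _ => .leaf true⟩
    have hT' : ∀ᶠ i in UU, ∃ Tx : ℕ → Tree (s.kk i) (s.nn i),
        (∀ x, x ≤ m.1 i + 1 → Rep (s.ρ i) h φ (Fin.cons x (fun j => (r' j).1 i)) (Tx x)) ∧
          OrRep (s.ρ i) h (m.1 i) (fun x => andT (Tx x) (Tx (x + 1)).flip) (T i) := by
      filter_upwards [hT] with i hi
      rw [hm, hr']
      exact hi
    obtain ⟨Tx, hTx⟩ := Truth_choose hT'
    have e1 : ∀ᶠ i in UU, OrRep (s.ρ i) h (m.1 i)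
        (fun x => andT (Tx i x) (Tx i (x + 1)).flip) (T i) := hTx.mono fun i hi => hi.2
    have e2 : ∀ᶠ i in UU, ∀ x, x ≤ m.1 i + 1 → HLe h (Tx i x) :=
      hTx.mono fun i hi x hx => hH _ _ _ _ _ _ _ _ (hi.1 x hx)
    have e3 : ∀ᶠ i in UU, ∀ x, x ≤ m.1 i → HLe (h + h) (andT (Tx i x) (Tx i (x + 1)).flip) := by
      filter_upwards [e2] with i hi x hx
      exact (hA _ _ _ _).2.2 _ _ (hi x (by omega)) (((hF _ _ _).2 h).2 (hi (x + 1) (by omega)))
    rw [hO s h (h + h) m.1 (fun i x => andT (Tx i x) (Tx i (x + 1)).flip) T e1 e3]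
    have hsat : (Gm.ind φ).sat (MStr s) (fun j => MM.mk (r j)) ↔
        ∃ x : MM s, (MStr s).le x (MM.mk m) ∧
          φ.sat (MStr s) (Fin.cons x (fun j => MM.mk (r' j))) ∧
          ¬ φ.sat (MStr s) (Fin.cons ((MStr s).succ x) (fun j => MM.mk (r' j))) := by
      rw [hm, hr']
      rfl
    rw [hsat]
    have key : ∀ rx : BSeq s, (∀ᶠ i in UU, rx.1 i ≤ m.1 i + 1) →
        (φ.sat (MStr s) (Fin.cons (MM.mk rx) (fun j => MM.mk (r' j))) ↔
          EvT s (fun i => Tx i (rx.1 i))) := by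
      intro rx hrx
      rw [Truth_cons_mk]
      refine ih h (Fin.cons rx r') _ ?_
      filter_upwards [hTx, hrx] with i hi hi2
      rw [← Truth_cons_val]
      exact hi.1 _ hi2
    have key2 : ∀ rx : BSeq s, (∀ᶠ i in UU, rx.1 i ≤ m.1 i) →
        (EvT s (fun i => andT (Tx i (rx.1 i)) (Tx i (rx.1 i + 1)).flip) ↔
          φ.sat (MStr s) (Fin.cons (MM.mk rx) (fun j => MM.mk (r' j))) ∧
          ¬ φ.sat (MStr s) (Fin.cons ((MStr s).succ (MM.mk rx)) (fun j => MM.mk (r' j)))) := by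
      intro rx hrx
      have h1 : ∀ᶠ i in UU, HLe h (Tx i (rx.1 i)) := by
        filter_upwards [e2, hrx] with i hi hi2
        exact hi _ (by omega)
      have h2 : ∀ᶠ i in UU, HLe h (Tx i (rx.1 i + 1)) := by
        filter_upwards [e2, hrx] with i hi hi2
        exact hi _ (by omega)
      rw [(hB s h (fun i => Tx i (rx.1 i)) (fun i => (Tx i (rx.1 i + 1)).flip) h1).2,
        (hB s h (fun i => Tx i (rx.1 i + 1)) (fun i => Tx i (rx.1 i + 1)) h2).1, MStr_succ,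
        key rx (hrx.mono fun i hi => by omega),
        key (BSeq.succ rx) (hrx.mono fun i hi => by
          show rx.1 i + 1 ≤ m.1 i + 1
          omega)]
      rfl
    constructor
    · rintro ⟨x, hx1, hx2⟩
      obtain ⟨rx, rfl⟩ : ∃ rx : BSeq s, x = MM.mk rx := ⟨Quotient.out x, (Quotient.out_eq x).symm⟩
      rw [MStr_le] at hx1
      exact ⟨rx.1, hx1, (key2 rx hx1).2 hx2⟩
    · rintro ⟨x, hx1, hx2⟩
      obtain ⟨J, hJ⟩ := m.2
      let rx : BSeq s := ⟨x, J, by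
        filter_upwards [hx1, hJ] with i h1 h2
        exact h1.trans h2⟩
      exact ⟨MM.mk rx, (MStr_le s _ _).2 hx1, (key2 rx hx1).1 hx2⟩

end Pool.Agent.Work.MP_610017_lc.PP
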