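import Mathlib
import Pool.Agent.Work.MP_610017_lc.PP.A_Ball
import Pool.Agent.Work.MP_610017_lc.PP.A_Emb
import Pool.Agent.Work.MP_610017_lc.PP.A_Ev
import Pool.Agent.Work.MP_610017_lc.PP.A_Exist
import Pool.Agent.Work.MP_610017_lc.PP.A_Greedy
import Pool.Agent.Work.MP_610017_lc.PP.A_Hit
import Pool.Agent.Work.MP_610017_lc.PP.A_Hit1
import Pool.Agent.Work.MP_610017_lc.PP.A_LE
import Pool.Agent.Work.MP_610017_lc.PP.A_Mod
import Pool.Agent.Work.MP_610017_lc.PP.A_Star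
import Pool.Agent.Work.MP_610017_lc.PP.A_OR
import Pool.Agent.Work.MP_610017_lc.PP.A_Reroute
import Pool.Agent.Work.MP_610017_lc.PP.A_ResMono
import Pool.Agent.Work.MP_610017_lc.PP.A_Round
import Pool.Agent.Work.MP_610017_lc.PP.A_Seq
import Pool.Agent.Work.MP_610017_lc.PP.A_Ext
import Pool.Agent.Work.MP_610017_lc.PP.A_Ext1
import Pool.Agent.Work.MP_610017_lc.PP.B_EvBool
import Pool.Agent.Work.MP_610017_lc.PP.B_FinInd
import Pool.Agent.Work.MP_610017_lc.PP.B_HypA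
import Pool.Agent.Work.MP_610017_lc.PP.B_HypB
import Pool.Agent.Work.MP_610017_lc.PP.B_IndM
import Pool.Agent.Work.MP_610017_lc.PP.B_LosM
import Pool.Agent.Work.MP_610017_lc.PP.B_OrTruth
import Pool.Agent.Work.MP_610017_lc.PP.B_Rels
import Pool.Agent.Work.MP_610017_lc.PP.B_RobM
import Pool.Agent.Work.MP_610017_lc.PP.B_Stab
import Pool.Agent.Work.MP_610017_lc.PP.B_TmVal
import Pool.Agent.Work.MP_610017_lc.PP.B_Truth

/-!
# Assembly of the lower side (MP_610017_lc)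
-/

set_option autoImplicit false

namespace Pool.Agent.Work.MP_610017_lc.PP

theorem pf_Ext : S_Ext :=
  prf_Ext (prf_Ext1 prf_Reroute prf_NbLevel prf_StarValid) prf_StarValid

theorem pf_BrBasic : S_BrBasic := prf_BrBasic prf_StarValid

theorem pf_LE : S_LE := prf_LE prf_Reroute prf_NbLevel

theorem pf_RepMono : S_RepMono := prf_RepMono prf_ResMono prf_HLeMono

theorem pf_RepHLe : S_RepHLe := prf_RepHLe prf_BrFlip

theorem pf_Hit : S_Hit := prf_Hit (prf_Hit1 (prf_Mod (prf_Emb prf_NbLevel) prf_Swap) prf_Count)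

theorem pf_Round : S_Round :=
  prf_Round pf_Hit prf_Greedy prf_Query prf_BrCount prf_Graft prf_StarClosed prf_ResMono
    prf_HLeMono pf_BrBasic

theorem pf_OR : S_OR :=
  prf_OR pf_Round (prf_Ball prf_Graft prf_StarClosed prf_HLeMono) prf_BrCount prf_Graft
    pf_BrBasic prf_HLeMono

theorem pf_Exist : S_Exist :=
  prf_Exist pf_OR prf_ResMono pf_RepMono pf_RepHLe prf_TmBound prf_HLeMono prf_BrFlip prf_BrAnd

theorem pf_Seq : S_Seq := prf_Seq pf_Exist prf_Countable prf_ResMono pf_RepMono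

theorem pf_EvBool : S_EvBool := prf_EvBool prf_Stab

theorem pf_OrTruth : S_OrTruth := prf_OrTruth prf_Stab prf_Ev pf_LE pf_BrBasic

theorem pf_Truth : S_Truth :=
  prf_Truth prf_TmVal pf_EvBool pf_OrTruth pf_RepHLe prf_BrFlip prf_BrAnd

theorem pf_FinInd : S_FinInd :=
  prf_FinInd pf_Ext pf_BrBasic prf_BrUnique prf_BrFlip prf_BrAnd prf_HLeMono

theorem pf_IndM : S_IndM :=
  prf_IndM pf_Truth pf_FinInd prf_Stab prf_Ev pf_LE pf_BrBasic pf_RepHLe

theorem pf_Lower : S_Lower :=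
  lower_of pf_Seq prf_RobM pf_IndM (prf_HypA prf_Rels) (prf_HypB prf_Rels) (prf_LosM prf_TmVal)

end Pool.Agent.Work.MP_610017_lc.PP
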