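import Mathlib
import Pool.Agent.Work.MP_610017_lc.PP.B_Asm

/-!
# Block PP: two trees for one formula agree; trees for substituted formulas (MP_610017_lc)
-/

set_option autoImplicit false

namespace Pool.Agent.Work.MP_610017_lc.PP

/-- a fact which is true on a known sheet is true in all extensions -/
theorem setTrue_holds {k n : ℕ} {ρ : Res k n} {ω : GW k n} (hω : Ext ρ ω.β ω.ζ)
    {f : Fact k n} (h : SetTrue ρ f) : holds ω f := by
  cases f with
  | edge v w a b =>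
    obtain ⟨i, hi, h1, h2⟩ := h
    have e1 : (ω.β v).symm a = i := by rw [Equiv.symm_apply_eq, hω.beta v i hi, h1]
    have e2 : (ω.β w).symm b = i := by rw [Equiv.symm_apply_eq, hω.beta w i hi, h2]
    exact e1.trans e2.symm
  | col v a c =>
    obtain ⟨i, hi, h1, h2⟩ := h
    have e1 : (ω.β v).symm a = i := by rw [Equiv.symm_apply_eq, hω.beta v i hi, h1]
    have e3 : i ≠ 0 := fun h3 => hi (h3 ▸ ρ.zero_mem)
    have e4 : i ≠ 1 := fun h3 => hi (h3 ▸ ρ.one_mem)
    show cl ω v ((ω.β v).symm a) = some c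
    rw [e1, cl_other e3 e4, hω.zeta i hi, h2]

/-- decided facts are true in all worlds -/
theorem dec_holds {k n : ℕ} {ρ : Res k n} {ω : GW k n} (hω : Ext ρ ω.β ω.ζ)
    {F F' : Finset (Fact k n)} (hF : ∀ f ∈ F, holds ω f) (h : ∀ f ∈ F', Dec ρ F f) :
    ∀ f ∈ F', holds ω f := by
  intro f hf
  rcases h f hf with h1 | h1
  · exact hF f h1
  · exact setTrue_holds hω h1

theorem con_union {k n : ℕ} {ρ : Res k n} {ω : GW k n} (hω : Ext ρ ω.β ω.ζ) (hs : ω.χ = spec)
    {F F' : Finset (Fact k n)} (hF : ∀ f ∈ F, holds ω f) (hF' : ∀ f ∈ F', holds ω f) :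
    Con ρ (F ∪ F') :=
  ⟨ω, hω, hs, fun f hf => (Finset.mem_union.1 hf).elim (hF f) (hF' f)⟩

/-- one step of the agreement: disjunctions -/
theorem agree_or {k n h : ℕ} {ρ : Res k n} {m : ℕ} {Tx Tx' : ℕ → Tree k n} {T T' : Tree k n}
    (hk : 2 * (27 * h) + 3 ≤ k) (hI : 27 * h + 4 ≤ ρ.I.card) (hT : OrRep ρ h m Tx T)
    (hT' : OrRep ρ h m Tx' T') (hh : ∀ x, x ≤ m → ∃ h', h' ≤ h ∧ HLe h' (Tx' x))
    (ih : ∀ x, x ≤ m → ∀ F F', Br (Tx x) F true → Br (Tx' x) F' false → ¬ Con ρ (F ∪ F'))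
    {F F' : Finset (Fact k n)} (hF : Br T F true) (hF' : Br T' F' false) : ¬ Con ρ (F ∪ F') := by
  intro hC
  obtain ⟨h1, h2, -⟩ := hT
  obtain ⟨h4, -, h6⟩ := hT'
  obtain ⟨x, hx, F1, hF1, hd⟩ := h2 F hF (FinInd_con_mono Finset.subset_union_left hC)
  obtain ⟨c1, v1⟩ := pf_BrBasic k n h T F true h1 hF
  obtain ⟨c2, v2⟩ := pf_BrBasic k n h T' F' false h4 hF'
  have hv : ∀ f ∈ F ∪ F', Valid f := fun f hf => (Finset.mem_union.1 hf).elim (v1 f) (v2 f)
  have hc := Finset.card_union_le F F'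
  obtain ⟨h', hh', hx'⟩ := hh x hx
  obtain ⟨G, r, hG, hCG⟩ := pf_Ext k n h' ρ (F ∪ F') (Tx' x) hv hC hx' (by omega) (by omega)
  obtain ⟨ω, w1, w2, w3⟩ := hCG
  have w4 : ∀ f ∈ F, holds ω f := fun f hf =>
    w3 f (Finset.mem_union_left _ (Finset.mem_union_left _ hf))
  have w5 : ∀ f ∈ F', holds ω f := fun f hf =>
    w3 f (Finset.mem_union_left _ (Finset.mem_union_right _ hf))
  have w6 : ∀ f ∈ G, holds ω f := fun f hf => w3 f (Finset.mem_union_right _ hf)
  cases r with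
  | true => exact h6 F' hF' x hx G hG (con_union w1 w2 w5 w6)
  | false => exact ih x hx F1 G hF1 hG (con_union w1 w2 (dec_holds w1 w4 hd) w6)

/-- one step of the agreement: conjunctions -/
theorem agree_and {k n : ℕ} {ρ : Res k n} {A B A' B' : Tree k n}
    (iA : ∀ F F', Br A F true → Br A' F' false → ¬ Con ρ (F ∪ F'))
    (iB : ∀ F F', Br B F true → Br B' F' false → ¬ Con ρ (F ∪ F'))
    {F F' : Finset (Fact k n)} (hF : Br (andT A B) F true) (hF' : Br (andT A' B') F' false) :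
    ¬ Con ρ (F ∪ F') := by
  intro hC
  obtain ⟨F1, F2, h1, h2, rfl⟩ := ((prf_BrAnd k n A B).1 F).1 hF
  rcases ((prf_BrAnd k n A' B').2.1 F').1 hF' with h3 | ⟨F3, F4, h3, h4, rfl⟩
  · refine iA F1 F' h1 h3 (FinInd_con_mono ?_ hC)
    intro f hf
    simp only [Finset.mem_union] at hf ⊢
    tauto
  · refine iB F2 F4 h2 h4 (FinInd_con_mono ?_ hC)
    intro f hf
    simp only [Finset.mem_union] at hf ⊢
    tauto

theorem con_comm {k n : ℕ} {ρ : Res k n} {F F' : Finset (Fact k n)} (h : Con ρ (F ∪ F')) :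
    Con ρ (F' ∪ F) := by
  rw [Finset.union_comm]
  exact h

/-- Two trees for the same formula agree in all worlds. -/
theorem agree {k n h : ℕ} (ρ : Res k n) (hk : 2 * (54 * h) + 3 ≤ k)
    (hI : 54 * h + 4 ≤ ρ.I.card) : ∀ {v : ℕ} (φ : Gm v) (e : Fin v → ℕ) (T T' : Tree k n),
    Rep ρ h φ e T → Rep ρ h φ e T' → ∀ F F', Br T F true → Br T' F' false →
      ¬ Con ρ (F ∪ F') := by
  intro v φ
  induction φ with
  | eq s t =>
    intro e T T' hT hT' F F' hF hF' _
    rw [show T = _ from hT] at hF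
    rw [show T' = _ from hT'] at hF'
    cases hb : decide (s.val stdN e = t.val stdN e) with
    | true => rw [hb] at hF'; cases hF'
    | false => rw [hb] at hF; cases hF
  | le s t =>
    intro e T T' hT hT' F F' hF hF' _
    rw [show T = _ from hT] at hF
    rw [show T' = _ from hT'] at hF'
    cases hb : decide (s.val stdN e ≤ t.val stdN e) with
    | true => rw [hb] at hF'; cases hF'
    | false => rw [hb] at hF; cases hF
  | rel s =>
    intro e T T' hT hT' F F' hF hF' hC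
    have e1 : T = T' := hT.2.trans hT'.2.symm
    subst e1
    exact FinInd_unique prf_BrUnique hF hF' Finset.subset_union_left
      Finset.subset_union_right hC
  | neg φ ih =>
    intro e T T' hT hT' F F' hF hF' hC
    obtain ⟨T1, rfl, hT1⟩ := hT
    obtain ⟨T2, rfl, hT2⟩ := hT'
    have h1 : Br T1 F false := by simpa using ((prf_BrFlip k n T1).1 F true).1 hF
    have h2 : Br T2 F' true := by simpa using ((prf_BrFlip k n T2).1 F' false).1 hF'
    exact ih e T2 T1 hT2 hT1 F' F h2 h1 (con_comm hC)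
  | and φ ψ ih1 ih2 =>
    intro e T T' hT hT' F F' hF hF' hC
    obtain ⟨-, T1, T2, rfl, hT1, hT2⟩ := hT
    obtain ⟨-, T3, T4, rfl, hT3, hT4⟩ := hT'
    exact agree_and (ih1 e T1 T3 hT1 hT3) (ih2 e T2 T4 hT2 hT4) hF hF' hC
  | bex t φ ih =>
    intro e T T' hT hT' F F' hF hF' hC
    obtain ⟨Tx, h1, h2⟩ := hT
    obtain ⟨Tx', h3, h4⟩ := hT'
    exact agree_or (by omega) (by omega) h2 h4
      (fun x hx => ⟨h, le_rfl, pf_RepHLe _ _ _ _ _ _ _ _ (h3 x hx)⟩)
      (fun x hx F F' => ih _ _ _ (h1 x hx) (h3 x hx) F F') hF hF' hC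
  | ind φ ih =>
    intro e T T' hT hT' F F' hF hF' hC
    obtain ⟨Tx, h1, h2⟩ := hT
    obtain ⟨Tx', h3, h4⟩ := hT'
    have h2' : OrRep ρ (2 * h) (e 0) (fun x => andT (Tx x) (Tx (x + 1)).flip) T :=
      ⟨prf_HLeMono _ _ _ _ _ (by omega) h2.1, h2.2⟩
    have h4' : OrRep ρ (2 * h) (e 0) (fun x => andT (Tx' x) (Tx' (x + 1)).flip) T' :=
      ⟨prf_HLeMono _ _ _ _ _ (by omega) h4.1, h4.2⟩
    refine agree_or (by omega) (by omega) h2' h4' (fun x hx => ⟨h + h, by omega, ?_⟩)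
      (fun x hx F F' => agree_and (ih _ _ _ (h1 x (by omega)) (h3 x (by omega))) ?_) hF hF' hC
    · exact (prf_BrAnd k n (Tx' x) (Tx' (x + 1)).flip).2.2 h h
        (pf_RepHLe _ _ _ _ _ _ _ _ (h3 x (by omega)))
        (((prf_BrFlip k n (Tx' (x + 1))).2 h).2 (pf_RepHLe _ _ _ _ _ _ _ _ (h3 (x + 1) (by omega))))
    · intro F F' hF hF' hC
      have h5 : Br (Tx (x + 1)) F false := by
        simpa using ((prf_BrFlip k n (Tx (x + 1))).1 F true).1 hF
      have h6 : Br (Tx' (x + 1)) F' true := by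
        simpa using ((prf_BrFlip k n (Tx' (x + 1))).1 F' false).1 hF'
      exact ih _ _ _ (h3 (x + 1) (by omega)) (h1 (x + 1) (by omega)) F' F h6 h5 (con_comm hC)

/-- trees for substituted formulas -/
theorem rep_sub {k n h : ℕ} (ρ : Res k n) {v : ℕ} (φ : Fm v) : ∀ (w : ℕ) (σ : Fin v → Tm w)
    (e : Fin w → ℕ) (T : Tree k n),
    Rep ρ h (φ.sub w σ).toGm e T ↔ Rep ρ h φ.toGm (fun i => (σ i).val stdN e) T := by
  induction φ with
  | eq s t =>
    intro w σ e T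
    simp only [Fm.sub, Fm.toGm, Rep, Tm.val_sub]
  | le s t =>
    intro w σ e T
    simp only [Fm.sub, Fm.toGm, Rep, Tm.val_sub]
  | rel s =>
    intro w σ e T
    simp only [Fm.sub, Fm.toGm, Rep, Tm.val_sub]
  | neg φ ih =>
    intro w σ e T
    simp only [Fm.sub, Fm.toGm, Rep, ih]
  | and φ ψ ih1 ih2 =>
    intro w σ e T
    simp only [Fm.sub, Fm.toGm, Rep, ih1, ih2]
  | bex t φ ih =>
    intro w σ e T
    simp only [Fm.sub, Fm.toGm, Rep, Tm.val_sub, ih, liftSub_val]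

end Pool.Agent.Work.MP_610017_lc.PP
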