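import Mathlib
import Pool.Agent.Work.MP_610017_lc.PP.Agree

/-!
# Blocks of bounded existential quantifiers (MP_610017_lc, block PP)
-/

set_option autoImplicit false

namespace Pool.Agent.Work.MP_610017_lc.PP

/-- a block of `r` quantifiers `∃ x ≤ a`, where `a` is the variable `0` of the outer context -/
def exs {v : ℕ} : (r : ℕ) → Fm (v + 1 + r) → Fm (v + 1)
  | 0, ψ => ψ
  | r + 1, ψ => exs r (.bex (.var ⟨r, by omega⟩) ψ)

/-- the assignment `X (r - 1), …, X 0, e` -/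
def asg {M : Type} {v : ℕ} (e : Fin (v + 1) → M) (X : ℕ → M) : (r : ℕ) → Fin (v + 1 + r) → M
  | 0 => e
  | r + 1 => Fin.cons (X r) (asg e X r)

/-- the variable `X i` -/
def tv (v r i : ℕ) (h : i < r) : Tm (v + 1 + r) := .var ⟨r - 1 - i, by omega⟩

theorem asg_tv {M : Type} {v : ℕ} (e : Fin (v + 1) → M) (X : ℕ → M) : ∀ (r i : ℕ) (h : i < r),
    asg e X r ⟨r - 1 - i, by omega⟩ = X i := by
  intro r
  induction r with
  | zero => exact fun i h => absurd h (Nat.not_lt_zero _)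
  | succ r ih =>
    intro i h
    rcases Nat.lt_succ_iff_lt_or_eq.1 h with h1 | h1
    · have h2 : (⟨r + 1 - 1 - i, by omega⟩ : Fin (v + 1 + (r + 1))) =
          Fin.succ (⟨r - 1 - i, by omega⟩ : Fin (v + 1 + r)) := Fin.ext (by simp; omega)
      rw [h2]
      exact ih i h1
    · subst h1
      have h2 : (⟨i + 1 - 1 - i, by omega⟩ : Fin (v + 1 + (i + 1))) = 0 := Fin.ext (by simp)
      rw [h2]
      rfl

theorem asg_par {M : Type} {v : ℕ} (e : Fin (v + 1) → M) (X : ℕ → M) (j : Fin (v + 1)) :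
    ∀ r : ℕ, asg e X r ⟨r + j.val, by omega⟩ = e j := by
  intro r
  induction r with
  | zero =>
    show e _ = e j
    exact congrArg e (Fin.ext (by simp))
  | succ r ih =>
    have h2 : (⟨r + 1 + j.val, by omega⟩ : Fin (v + 1 + (r + 1))) =
        Fin.succ (⟨r + j.val, by omega⟩ : Fin (v + 1 + r)) := Fin.ext (by simp; omega)
    rw [h2]
    exact ih

theorem asg_bound {M : Type} {v : ℕ} (a : M) (e : Fin v → M) (X : ℕ → M) (r : ℕ) :
    asg (Fin.cons a e : Fin (v + 1) → M) X r ⟨r, by omega⟩ = a := by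
  have h := asg_par (Fin.cons a e : Fin (v + 1) → M) X 0 r
  simpa using h

theorem asg_congr {M : Type} {v : ℕ} (e : Fin (v + 1) → M) {X X' : ℕ → M} :
    ∀ r, (∀ i, i < r → X i = X' i) → asg e X r = asg e X' r := by
  intro r
  induction r with
  | zero => exact fun _ => rfl
  | succ r ih =>
    intro h
    show (Fin.cons (X r) (asg e X r) : Fin (v + 1 + r + 1) → M) = Fin.cons (X' r) (asg e X' r)
    rw [h r (Nat.lt_succ_self r), ih fun i hi => h i (Nat.lt_succ_of_lt hi)]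

theorem exs_sat {M : Type} (N : Str M) {v : ℕ} (a : M) (e : Fin v → M) : ∀ (r : ℕ)
    (ψ : Fm (v + 1 + r)), (exs r ψ).sat N (Fin.cons a e) ↔
      ∃ X : ℕ → M, (∀ i, i < r → N.le (X i) a) ∧ ψ.sat N (asg (Fin.cons a e) X r) := by
  classical
  intro r
  induction r with
  | zero =>
    intro ψ
    constructor
    · intro h
      exact ⟨fun _ => a, fun i hi => absurd hi (Nat.not_lt_zero _), h⟩
    · rintro ⟨X, -, h⟩
      exact h
  | succ r ih =>
    intro ψ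
    show (exs r (.bex (.var ⟨r, by omega⟩) ψ)).sat N (Fin.cons a e) ↔ _
    rw [ih]
    constructor
    · rintro ⟨X, h1, x, h2, h3⟩
      have h4 : N.le x (asg (Fin.cons a e : Fin (v + 1) → M) X r ⟨r, by omega⟩) := h2
      rw [asg_bound] at h4
      have h5 : asg (Fin.cons a e : Fin (v + 1) → M) (fun i => if i = r then x else X i) r =
          asg (Fin.cons a e : Fin (v + 1) → M) X r :=
        asg_congr _ r fun i hi => if_neg (by omega)
      refine ⟨fun i => if i = r then x else X i, fun i hi => ?_, ?_⟩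
      · show N.le (if i = r then x else X i) a
        split_ifs with h6
        · exact h4
        · exact h1 i (by omega)
      · show ψ.sat N (Fin.cons (if r = r then x else X r) (asg _ _ r))
        rw [if_pos rfl, h5]
        exact h3
    · rintro ⟨X, h1, h2⟩
      refine ⟨X, fun i hi => h1 i (by omega), X r, ?_, h2⟩
      show N.le (X r) (asg (Fin.cons a e : Fin (v + 1) → M) X r ⟨r, by omega⟩)
      rw [asg_bound]
      exact h1 r (by omega)

/-- conjunction of a list of formulas -/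
def cnj {w : ℕ} : List (Fm w) → Fm w
  | [] => .eq .zero .zero
  | ψ :: L => .and ψ (cnj L)

theorem cnj_sat {M : Type} (N : Str M) {w : ℕ} (e : Fin w → M) : ∀ L : List (Fm w),
    (cnj L).sat N e ↔ ∀ ψ ∈ L, ψ.sat N e := by
  intro L
  induction L with
  | nil => simp [cnj, Fm.sat]
  | cons ψ L ih => simp only [cnj, Fm.sat, ih, List.forall_mem_cons]

section

variable {k n h : ℕ}

theorem cnj_rep {ρ : Res k n} {w : ℕ} {e : Fin w → ℕ} : ∀ (L : List (Fm w)) (T : Tree k n),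
    Rep ρ h (cnj L).toGm e T → ∀ ψ ∈ L, ∃ T', Rep ρ h ψ.toGm e T' := by
  intro L
  induction L with
  | nil => exact fun T _ ψ hψ => absurd hψ (List.not_mem_nil)
  | cons ψ L ih =>
    rintro T ⟨-, T1, T2, -, h1, h2⟩ χ hχ
    rcases List.mem_cons.1 hχ with rfl | hχ
    · exact ⟨T1, h1⟩
    · exact ih T2 h2 χ hχ

/-- true branches of conjunctions -/
theorem cnj_true {ρ : Res k n} {w : ℕ} {e : Fin w → ℕ} : ∀ (L : List (Fm w)) (T : Tree k n)
    (G : Finset (Fact k n)), Rep ρ h (cnj L).toGm e T → Br T G true →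
    ∀ ψ ∈ L, ∃ T' G', Rep ρ h ψ.toGm e T' ∧ Br T' G' true ∧ G' ⊆ G := by
  intro L
  induction L with
  | nil => exact fun T G _ _ ψ hψ => absurd hψ (List.not_mem_nil)
  | cons ψ L ih =>
    rintro T G ⟨-, T1, T2, rfl, h1, h2⟩ hG χ hχ
    obtain ⟨G1, G2, b1, b2, rfl⟩ := ((prf_BrAnd k n T1 T2).1 G).1 hG
    rcases List.mem_cons.1 hχ with rfl | hχ
    · exact ⟨T1, G1, h1, b1, Finset.subset_union_left⟩
    · obtain ⟨T', G', c1, c2, c3⟩ := ih T2 G2 h2 b2 χ hχ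
      exact ⟨T', G', c1, c2, c3.trans Finset.subset_union_right⟩

/-- false branches of conjunctions -/
theorem cnj_false {ρ : Res k n} {w : ℕ} {e : Fin w → ℕ} : ∀ (L : List (Fm w)) (T : Tree k n)
    (G : Finset (Fact k n)), Rep ρ h (cnj L).toGm e T → Br T G false →
    ∃ ψ ∈ L, ∃ T' G', Rep ρ h ψ.toGm e T' ∧ Br T' G' false ∧ G' ⊆ G := by
  intro L
  induction L with
  | nil =>
    intro T G hT hG
    have h1 : T = .leaf (decide ((0 : ℕ) = 0)) := hT
    rw [h1] at hG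
    cases hG
  | cons ψ L ih =>
    rintro T G ⟨-, T1, T2, rfl, h1, h2⟩ hG
    rcases ((prf_BrAnd k n T1 T2).2.1 G).1 hG with h3 | ⟨G1, G2, b1, b2, rfl⟩
    · exact ⟨ψ, List.mem_cons_self, T1, G, h1, h3, Finset.Subset.refl _⟩
    · obtain ⟨χ, hχ, T', G', c1, c2, c3⟩ := ih T2 G2 h2 b2
      exact ⟨χ, List.mem_cons_of_mem _ hχ, T', G', c1, c2, c3.trans Finset.subset_union_right⟩

theorem exs_rep {ρ : Res k n} {v : ℕ} {a : ℕ} {e : Fin v → ℕ} : ∀ (r : ℕ)
    (ψ : Fm (v + 1 + r)) (T : Tree k n), Rep ρ h (exs r ψ).toGm (Fin.cons a e) T →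
    ∀ X : ℕ → ℕ, (∀ i, i < r → X i ≤ a) →
      ∃ T', Rep ρ h ψ.toGm (asg (Fin.cons a e) X r) T' := by
  intro r
  induction r with
  | zero => exact fun ψ T hT X _ => ⟨T, hT⟩
  | succ r ih =>
    intro ψ T hT X hX
    obtain ⟨T', Tx, h1, -⟩ := ih (.bex (.var ⟨r, by omega⟩) ψ) T hT X
      (fun i hi => hX i (by omega))
    have hb : (Tm.var (⟨r, by omega⟩ : Fin (v + 1 + r))).val stdN
        (asg (Fin.cons a e : Fin (v + 1) → ℕ) X r) = a := asg_bound a e X r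
    rw [hb] at h1
    exact ⟨Tx (X r), h1 (X r) (hX r (by omega))⟩

/-- falsity goes down: a consistent branch of an instance of a false disjunction -/
theorem down {m : ℕ} {ρ : Res k n} {Tx : ℕ → Tree k n} {T : Tree k n}
    {F0 S : Finset (Fact k n)} (hT : OrRep ρ h m Tx T) (hF0 : Br T F0 false) (hsub : F0 ⊆ S)
    (hV : ∀ f ∈ S, Valid f) (hS : Con ρ S) (x : ℕ) (hx : x ≤ m) (hx' : HLe h (Tx x))
    (hk : 2 * (S.card + 9 * h) + 3 ≤ k) (hI : S.card + 9 * h + 4 ≤ ρ.I.card) :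
    ∃ G, Br (Tx x) G false ∧ Con ρ (S ∪ G) ∧ G.card ≤ 9 * h ∧ ∀ f ∈ G, Valid f := by
  obtain ⟨G, r, hG, hC⟩ := pf_Ext k n h ρ S (Tx x) hV hS hx' hk hI
  obtain ⟨c1, v1⟩ := pf_BrBasic k n h (Tx x) G r hx' hG
  cases r with
  | true =>
    exact absurd (FinInd_con_mono (Finset.union_subset_union_left hsub) hC)
      (hT.2.2 F0 hF0 x hx G hG)
  | false => exact ⟨G, hG, hC, c1, v1⟩

/-- falsity goes down through a block of quantifiers -/
theorem neg_block {ρ : Res k n} {v : ℕ} {a : ℕ} {e : Fin v → ℕ} {S : Finset (Fact k n)}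
    (hV : ∀ f ∈ S, Valid f) (hS : Con ρ S) (hk : 2 * (S.card + 18 * h) + 3 ≤ k)
    (hI : S.card + 18 * h + 4 ≤ ρ.I.card) : ∀ (r : ℕ) (ψ : Fm (v + 1 + r)) (T : Tree k n)
    (B : Finset (Fact k n)), Rep ρ h (exs r ψ).toGm (Fin.cons a e) T → Br T B false → B ⊆ S →
    ∀ X : ℕ → ℕ, (∀ i, i < r → X i ≤ a) →
      ∃ T' G, Rep ρ h ψ.toGm (asg (Fin.cons a e) X r) T' ∧ Br T' G false ∧ Con ρ (S ∪ G) ∧
        G.card ≤ 9 * h ∧ ∀ f ∈ G, Valid f := by
  intro r
  induction r with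
  | zero =>
    intro ψ T B hT hB hBS X _
    obtain ⟨c1, v1⟩ := pf_BrBasic k n h T B false (pf_RepHLe _ _ _ _ _ _ _ _ hT) hB
    exact ⟨T, B, hT, hB, by rw [Finset.union_eq_left.2 hBS]; exact hS, c1, v1⟩
  | succ r ih =>
    intro ψ T B hT hB hBS X hX
    obtain ⟨T', G, h1, h2, h3, h4, h5⟩ := ih (.bex (.var ⟨r, by omega⟩) ψ) T B hT hB hBS X
      (fun i hi => hX i (by omega))
    obtain ⟨Tx, g1, g2⟩ := h1
    have hb : (Tm.var (⟨r, by omega⟩ : Fin (v + 1 + r))).val stdN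
        (asg (Fin.cons a e : Fin (v + 1) → ℕ) X r) = a := asg_bound a e X r
    rw [hb] at g1 g2
    have g3 := g1 (X r) (hX r (by omega))
    have hc := Finset.card_union_le S G
    obtain ⟨G', k1, k2, k3, k4⟩ := down g2 h2 (Finset.subset_union_right (s₁ := S))
      (fun f hf => (Finset.mem_union.1 hf).elim (hV f) (h5 f)) h3 (X r) (hX r (by omega))
      (pf_RepHLe _ _ _ _ _ _ _ _ g3) (by omega) (by omega)
    refine ⟨Tx (X r), G', g3, k1, FinInd_con_mono ?_ k2, k3, k4⟩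
    exact Finset.union_subset_union_left Finset.subset_union_left

end

/-! ### Literals -/

/-- the substitution for `φ (X i, X j, e)` -/
def sgl (v r i j : ℕ) (hi : i < r) (hj : j < r) : Fin (v + 2) → Tm (v + 1 + r) :=
  Fin.cons (tv v r i hi) (Fin.cons (tv v r j hj) fun l => .var ⟨r + (l.val + 1), by omega⟩)

theorem sgl_val {M : Type} (N : Str M) {v : ℕ} (a : M) (e : Fin v → M) (X : ℕ → M)
    (r i j : ℕ) (hi : i < r) (hj : j < r) :
    (fun l => (sgl v r i j hi hj l).val N (asg (Fin.cons a e) X r)) =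
      (Fin.cons (X i) (Fin.cons (X j) e) : Fin (v + 2) → M) := by
  funext l
  refine Fin.cases ?_ (fun l => Fin.cases ?_ (fun l => ?_) l) l
  · exact asg_tv _ X r i hi
  · exact asg_tv _ X r j hj
  · exact asg_par (Fin.cons a e : Fin (v + 1) → M) X l.succ r

/-- `φ (X i, X j, e)` -/
def lit {v : ℕ} (φ : Fm (v + 2)) (r i j : ℕ) (hi : i < r) (hj : j < r) : Fm (v + 1 + r) :=
  φ.sub (v + 1 + r) (sgl v r i j hi hj)

/-- `X i ≠ X j` -/
def nel (v r i j : ℕ) (hi : i < r) (hj : j < r) : Fm (v + 1 + r) :=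
  .neg (.eq (tv v r i hi) (tv v r j hj))

/-- `X i ≠ a` -/
def nea (v r i : ℕ) (hi : i < r) : Fm (v + 1 + r) :=
  .neg (.eq (tv v r i hi) (.var ⟨r, by omega⟩))

theorem lit_sat {M : Type} (N : Str M) {v : ℕ} (φ : Fm (v + 2)) (a : M) (e : Fin v → M)
    (X : ℕ → M) (r i j : ℕ) (hi : i < r) (hj : j < r) :
    (lit φ r i j hi hj).sat N (asg (Fin.cons a e) X r) ↔
      φ.sat N (Fin.cons (X i) (Fin.cons (X j) e)) := by
  unfold lit
  rw [Fm.sat_sub, sgl_val]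

theorem nel_sat {M : Type} (N : Str M) {v : ℕ} (a : M) (e : Fin v → M)
    (X : ℕ → M) (r i j : ℕ) (hi : i < r) (hj : j < r) :
    (nel v r i j hi hj).sat N (asg (Fin.cons a e) X r) ↔ X i ≠ X j := by
  show ¬ (asg (Fin.cons a e : Fin (v + 1) → M) X r ⟨r - 1 - i, by omega⟩ =
    asg (Fin.cons a e : Fin (v + 1) → M) X r ⟨r - 1 - j, by omega⟩) ↔ _
  rw [asg_tv _ X r i hi, asg_tv _ X r j hj]

theorem nea_sat {M : Type} (N : Str M) {v : ℕ} (a : M) (e : Fin v → M)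
    (X : ℕ → M) (r i : ℕ) (hi : i < r) :
    (nea v r i hi).sat N (asg (Fin.cons a e) X r) ↔ X i ≠ a := by
  show ¬ (asg (Fin.cons a e : Fin (v + 1) → M) X r ⟨r - 1 - i, by omega⟩ =
    asg (Fin.cons a e : Fin (v + 1) → M) X r ⟨r, by omega⟩) ↔ _
  rw [asg_tv _ X r i hi, asg_bound]

section

variable {k n h : ℕ}

theorem lit_rep {ρ : Res k n} {v : ℕ} (φ : Fm (v + 2)) (a : ℕ) (e : Fin v → ℕ)
    (X : ℕ → ℕ) (r i j : ℕ) (hi : i < r) (hj : j < r) (T : Tree k n) :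
    Rep ρ h (lit φ r i j hi hj).toGm (asg (Fin.cons a e) X r) T ↔
      Rep ρ h φ.toGm (Fin.cons (X i) (Fin.cons (X j) e)) T := by
  unfold lit
  rw [rep_sub, sgl_val]

theorem nel_br {ρ : Res k n} {v : ℕ} {a : ℕ} {e : Fin v → ℕ}
    {X : ℕ → ℕ} {r i j : ℕ} {hi : i < r} {hj : j < r} {T : Tree k n} {G : Finset (Fact k n)}
    {b : Bool} (hT : Rep ρ h (nel v r i j hi hj).toGm (asg (Fin.cons a e) X r) T)
    (hG : Br T G b) : (b = true ↔ X i ≠ X j) := by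
  obtain ⟨T1, rfl, h1⟩ := hT
  have h2 : T1 = .leaf (decide (asg (Fin.cons a e : Fin (v + 1) → ℕ) X r ⟨r - 1 - i, by omega⟩ =
    asg (Fin.cons a e : Fin (v + 1) → ℕ) X r ⟨r - 1 - j, by omega⟩)) := h1
  rw [asg_tv _ X r i hi, asg_tv _ X r j hj] at h2
  rw [h2] at hG
  cases hG
  simp

theorem nea_br {ρ : Res k n} {v : ℕ} {a : ℕ} {e : Fin v → ℕ}
    {X : ℕ → ℕ} {r i : ℕ} {hi : i < r} {T : Tree k n} {G : Finset (Fact k n)}
    {b : Bool} (hT : Rep ρ h (nea v r i hi).toGm (asg (Fin.cons a e) X r) T)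
    (hG : Br T G b) : (b = true ↔ X i ≠ a) := by
  obtain ⟨T1, rfl, h1⟩ := hT
  have h2 : T1 = .leaf (decide (asg (Fin.cons a e : Fin (v + 1) → ℕ) X r ⟨r - 1 - i, by omega⟩ =
    asg (Fin.cons a e : Fin (v + 1) → ℕ) X r ⟨r, by omega⟩)) := h1
  rw [asg_tv _ X r i hi, asg_bound] at h2
  rw [h2] at hG
  cases hG
  simp

/-- branches of the tree of a negation -/
theorem neg_br {ρ : Res k n} {w : ℕ} {ψ : Fm w} {e : Fin w → ℕ} {T : Tree k n}
    {G : Finset (Fact k n)} {b : Bool} (hT : Rep ρ h (Fm.neg ψ).toGm e T) (hG : Br T G b) :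
    ∃ T', Rep ρ h ψ.toGm e T' ∧ Br T' G (!b) := by
  obtain ⟨T1, rfl, h1⟩ := hT
  exact ⟨T1, h1, ((prf_BrFlip k n T1).1 G b).1 hG⟩

/-- a decided instance of `φ` -/
def Dt (ρ : Res k n) (h : ℕ) {v : ℕ} (φ : Fm (v + 2)) (e : Fin v → ℕ) (x y : ℕ)
    (Q : Finset (Fact k n)) : Prop :=
  ∃ T P, Rep ρ h φ.toGm (Fin.cons x (Fin.cons y e)) T ∧ Br T P true ∧ ∀ f ∈ P, Dec ρ Q f

/-- a forced instance of `φ` -/
def Fc (ρ : Res k n) (h : ℕ) {v : ℕ} (φ : Fm (v + 2)) (e : Fin v → ℕ) (x y : ℕ)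
    (Q : Finset (Fact k n)) : Prop :=
  ∀ T F, Rep ρ h φ.toGm (Fin.cons x (Fin.cons y e)) T → Br T F false → ¬ Con ρ (Q ∪ F)

theorem dt_mono {ρ : Res k n} {v : ℕ} {φ : Fm (v + 2)} {e : Fin v → ℕ} {x y : ℕ}
    {Q Q' : Finset (Fact k n)} (hQ : Q ⊆ Q') (hd : Dt ρ h φ e x y Q) : Dt ρ h φ e x y Q' := by
  obtain ⟨T, P, h1, h2, h3⟩ := hd
  exact ⟨T, P, h1, h2, fun f hf => (h3 f hf).imp (fun h => hQ h) id⟩

theorem fc_of_dt {ρ : Res k n} {v : ℕ} {φ : Fm (v + 2)} {e : Fin v → ℕ} {x y : ℕ}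
    {Q : Finset (Fact k n)} (hk : 2 * (54 * h) + 3 ≤ k) (hI : 54 * h + 4 ≤ ρ.I.card)
    (hd : Dt ρ h φ e x y Q) : Fc ρ h φ e x y Q := by
  obtain ⟨T0, P, h1, h2, h3⟩ := hd
  rintro T F hT hF ⟨ω, w1, w2, w3⟩
  have w4 : ∀ f ∈ Q, holds ω f := fun f hf => w3 f (Finset.mem_union_left _ hf)
  have w5 : ∀ f ∈ F, holds ω f := fun f hf => w3 f (Finset.mem_union_right _ hf)
  exact agree ρ hk hI φ.toGm _ T0 T h1 hT P F h2 hF (con_union w1 w2 (dec_holds w1 w4 h3) w5)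

end

end Pool.Agent.Work.MP_610017_lc.PP
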