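import Mathlib
import Pool.Agent.Work.MP_610017_lc.PP.A_Ext1
import Pool.Agent.Work.MP_610017_lc.PP.A_Ext

/-!
# Gauge transformations of the special sheets and the movable defect (MP_610017_lc, block PP)

`s : ZMod m → Lb n` enumerates `m` special indices, `s 0 = 0` and `s 1 = 1`. The colour of the sheet
with index `i` is `f i` on the bottom and on the right side up to the height `y0`, and it is
`f (rot (-1) i)` on the right side above `y0`, on the top and on the left side.
-/

set_option autoImplicit false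

namespace Pool.Agent.Work.MP_610017_lc.PP

section Rot

variable {n m : ℕ} [NeZero m] (s : ZMod m → Lb n) (hs : Function.Injective s)

open Classical in
/-- the rotation of the special indices -/
noncomputable def rot (a : ZMod m) : Equiv.Perm (Lb n) :=
  (Equiv.addRight a : Equiv.Perm (ZMod m)).extendDomain (Equiv.ofInjective s hs)

theorem rot_s (a l : ZMod m) : rot s hs a (s l) = s (l + a) := by
  classical
  unfold rot
  have h := Equiv.Perm.extendDomain_apply_image (Equiv.addRight a : Equiv.Perm (ZMod m))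
    (Equiv.ofInjective s hs) l
  simpa using h

theorem rot_not (a : ZMod m) {i : Lb n} (hi : ∀ l, s l ≠ i) : rot s hs a i = i := by
  classical
  unfold rot
  refine Equiv.Perm.extendDomain_apply_not_subtype _ _ ?_
  rintro ⟨l, hl⟩
  exact hi l hl

theorem rot_zero : rot s hs 0 = 1 := by
  classical
  refine Equiv.ext fun i => ?_
  by_cases hi : ∃ l, s l = i
  · obtain ⟨l, rfl⟩ := hi
    rw [rot_s, add_zero]
    rfl
  · rw [rot_not s hs 0 (fun l hl => hi ⟨l, hl⟩)]
    rfl

theorem rot_rot (a b : ZMod m) (i : Lb n) : rot s hs a (rot s hs b i) = rot s hs (b + a) i := by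
  classical
  by_cases hi : ∃ l, s l = i
  · obtain ⟨l, rfl⟩ := hi
    rw [rot_s, rot_s, rot_s, add_assoc]
  · have h : ∀ l, s l ≠ i := fun l hl => hi ⟨l, hl⟩
    rw [rot_not s hs b h, rot_not s hs a h, rot_not s hs _ h]

theorem rot_symm (a : ZMod m) (i : Lb n) : (rot s hs a).symm i = rot s hs (-a) i := by
  rw [Equiv.symm_apply_eq, rot_rot, neg_add_cancel, rot_zero]
  rfl

end Rot

section Gauge

variable {k n m : ℕ} [NeZero m] (s : ZMod m → Lb n) (hs : Function.Injective s)

/-- the gauge transformation `g` -/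
noncomputable def bg (β : Vx k → Equiv.Perm (Lb n)) (g : Vx k → ZMod m) (v : Vx k) :
    Equiv.Perm (Lb n) := β v * rot s hs (g v)

theorem bg_symm (β : Vx k → Equiv.Perm (Lb n)) (g : Vx k → ZMod m) (v : Vx k) (a : Lb n) :
    (bg s hs β g v).symm a = rot s hs (-(g v)) ((β v).symm a) := by
  show (rot s hs (g v)).symm ((β v).symm a) = _
  rw [rot_symm]

/-- the colour -/
noncomputable def colY (f : Lb n → Bool) (y0 : ℕ) (v : Vx k) (i : Lb n) : Bool :=
  f (if y0 < v.2.val ∨ v.1.val = 0 then rot s hs (-1) i else i)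

/-- truth of a fact in the covering with a defect at the height `y0` on the right side -/
def hY (f : Lb n → Bool) (y0 : ℕ) (β : Vx k → Equiv.Perm (Lb n)) : Fact k n → Prop
  | .edge v w a b => (β v).symm a = (β w).symm b
  | .col v a c => colY s hs f y0 v ((β v).symm a) = c

/-- the gauge group -/
def GGr (k m : ℕ) : AddSubgroup (Vx k → ZMod m) where
  carrier := {g | ∀ v : Vx k, ¬ (1 ≤ v.1.val ∧ 1 ≤ v.2.val ∧ v.2.val < k) → g v = 0}
  zero_mem' := fun _ _ => rfl
  add_mem' := fun {a b} ha hb v hv => by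
    show a v + b v = 0
    rw [ha v hv, hb v hv, add_zero]
  neg_mem' := fun {a} ha v hv => by
    show -(a v) = 0
    rw [ha v hv, neg_zero]

open Classical in
/-- the number of gauge transformations in which the facts of `P` are true -/
noncomputable def Wt (f : Lb n → Bool) (β : Vx k → Equiv.Perm (Lb n)) (y0 : ℕ)
    (P : Finset (Fact k n)) : ℕ :=
  ((Finset.univ : Finset (Vx k → ZMod m)).filter
    (fun g => g ∈ GGr k m ∧ ∀ φ ∈ P, hY s hs f y0 (bg s hs β g) φ)).card

/-- no edge of `P` crosses the height `y0` -/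
def RowF {k n : ℕ} (y0 : ℕ) (P : Finset (Fact k n)) : Prop :=
  ∀ v w a b, Fact.edge v w a b ∈ P → (v.2.val ≤ y0 ↔ w.2.val ≤ y0)

/-- no edge of `P` crosses the column `x0` -/
def ColF {k n : ℕ} (x0 : ℕ) (P : Finset (Fact k n)) : Prop :=
  ∀ v w a b, Fact.edge v w a b ∈ P → (v.1.val ≤ x0 ↔ w.1.val ≤ x0)

/-- moving the defect -/
theorem Wt_move (f : Lb n → Bool) (β : Vx k → Equiv.Perm (Lb n)) {y0 y1 x0 : ℕ}
    {P : Finset (Fact k n)} (hV : ∀ φ ∈ P, Valid φ) (h0 : RowF y0 P) (h1 : RowF y1 P)
    (hc : ColF x0 P) (hy : y0 ≤ y1) (hk : y1 < k) (hx : x0 < k) :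
    Wt s hs f β y0 P = Wt s hs f β y1 P := by
  classical
  obtain ⟨δ, hδ⟩ : ∃ δ : Vx k → ZMod m,
    δ = fun v => if x0 < v.1.val ∧ y0 < v.2.val ∧ v.2.val ≤ y1 then 1 else 0 := ⟨_, rfl⟩
  have hδG : δ ∈ GGr k m := by
    intro v hv
    rw [hδ]
    refine if_neg ?_
    rintro ⟨a1, a2, a3⟩
    exact hv ⟨by omega, by omega, by omega⟩
  have key : ∀ (g : Vx k → ZMod m), ∀ φ ∈ P,
      (hY s hs f y0 (bg s hs β g) φ ↔ hY s hs f y1 (bg s hs β (g + δ)) φ) := by
    intro g φ hφ
    have hidx : ∀ v a, (bg s hs β (g + δ) v).symm a =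
        rot s hs (-(δ v)) ((bg s hs β g v).symm a) := by
      intro v a
      rw [bg_symm, bg_symm, rot_rot]
      congr 2
      show -(g v + δ v) = _
      rw [neg_add]
    cases φ with
    | edge v w a b =>
      have e1 := h0 v w a b hφ
      have e2 := h1 v w a b hφ
      have e3 := hc v w a b hφ
      have e4 : δ v = δ w := by
        rw [hδ]
        show (if _ then _ else _) = (if _ then _ else _)
        have e5 : (x0 < v.1.val ∧ y0 < v.2.val ∧ v.2.val ≤ y1) ↔
          (x0 < w.1.val ∧ y0 < w.2.val ∧ w.2.val ≤ y1) := by omega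
        simp only [e5]
      show _ = _ ↔ _ = _
      rw [hidx, hidx, e4]
      exact ((rot s hs (-(δ w))).injective.eq_iff).symm
    | col v a c =>
      show _ = _ ↔ _ = _
      rw [hidx]
      generalize (bg s hs β g v).symm a = i
      have hb : bd v = true := hV _ hφ
      simp only [bd, decide_eq_true_eq] at hb
      unfold colY
      by_cases hR : x0 < v.1.val ∧ y0 < v.2.val ∧ v.2.val ≤ y1
      · have e1 : δ v = 1 := by
          rw [hδ]
          exact if_pos hR
        rw [e1, if_pos (Or.inl hR.2.1), if_neg (by omega)]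
      · have e1 : δ v = 0 := by
          rw [hδ]
          exact if_neg hR
        have e2 : (y0 < v.2.val ∨ v.1.val = 0) ↔ (y1 < v.2.val ∨ v.1.val = 0) := by omega
        rw [e1, neg_zero, rot_zero]
        simp only [e2]
        rfl
  unfold Wt
  refine Finset.card_equiv (Equiv.addRight δ) fun g => ?_
  simp only [Finset.mem_filter, Finset.mem_univ, true_and, Equiv.coe_addRight]
  refine and_congr ?_ (forall₂_congr (key g))
  constructor
  · intro hg
    exact (GGr k m).add_mem hg hδG
  · intro hg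
    have := (GGr k m).sub_mem hg hδG
    rwa [add_sub_cancel_right] at this

/-- the possible answers to a query at `v` -/
def ans (n : ℕ) {k : ℕ} (v : Vx k) : Finset ((Fin 4 → Lb n) × Bool) :=
  Finset.univ.filter fun p => bd v = true ∨ p.2 = false

theorem mem_ans {v : Vx k} {p : (Fin 4 → Lb n) × Bool} :
    p ∈ ans n v ↔ (bd v = true ∨ p.2 = false) := by
  simp [ans]

/-- the true answer -/
noncomputable def ansY (f : Lb n → Bool) (y0 : ℕ) (β : Vx k → Equiv.Perm (Lb n)) (v : Vx k)
    (a : Lb n) : (Fin 4 → Lb n) × Bool :=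
  (fun d => β (nb v d) ((β v).symm a), bd v && colY s hs f y0 v ((β v).symm a))

theorem ansY_mem (f : Lb n → Bool) (y0 : ℕ) (β : Vx k → Equiv.Perm (Lb n)) (v : Vx k)
    (a : Lb n) : ansY s hs f y0 β v a ∈ ans n v := by
  rw [mem_ans]
  unfold ansY
  cases bd v <;> simp

theorem star_hY (f : Lb n → Bool) (y0 : ℕ) (β : Vx k → Equiv.Perm (Lb n)) (v : Vx k)
    (a : Lb n) (p : (Fin 4 → Lb n) × Bool) (hp : p ∈ ans n v) :
    (∀ φ ∈ star v a p.1 p.2, hY s hs f y0 β φ) ↔ ansY s hs f y0 β v a = p := by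
  obtain ⟨b, c⟩ := p
  rw [mem_ans] at hp
  constructor
  · intro h
    refine Prod.ext ?_ ?_
    · funext d
      have h1 : (β v).symm a = (β (nb v d)).symm (b d) :=
        h (Fact.edge v (nb v d) a (b d)) ((Ev_star _ _ _ _ _).2 (Or.inl ⟨d, rfl⟩))
      show β (nb v d) ((β v).symm a) = b d
      rw [h1, Equiv.apply_symm_apply]
    · show (bd v && colY s hs f y0 v ((β v).symm a)) = c
      cases hb : bd v with
      | true =>
        have h1 : colY s hs f y0 v ((β v).symm a) = c :=
          h (Fact.col v a c) ((Ev_star _ _ _ _ _).2 (Or.inr (Or.inr ⟨hb, rfl⟩)))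
        rw [Bool.true_and, h1]
      | false =>
        rcases hp with hp | hp
        · rw [hb] at hp
          exact absurd hp (by simp)
        · rw [Bool.false_and]
          exact hp.symm
  · intro h
    have h1 : ∀ d, β (nb v d) ((β v).symm a) = b d := fun d => congrFun (congrArg Prod.fst h) d
    have h2 : (bd v && colY s hs f y0 v ((β v).symm a)) = c := congrArg Prod.snd h
    intro φ hφ
    rcases (Ev_star _ _ _ _ _).1 hφ with ⟨d, rfl⟩ | ⟨d, rfl⟩ | ⟨hb, rfl⟩
    · show (β v).symm a = (β (nb v d)).symm (b d)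
      rw [← h1 d, Equiv.symm_apply_apply]
    · show (β (nb v d)).symm (b d) = (β v).symm a
      rw [← h1 d, Equiv.symm_apply_apply]
    · show colY s hs f y0 v ((β v).symm a) = c
      rw [← h2, hb, Bool.true_and]

theorem Wt_exact (f : Lb n → Bool) (β : Vx k → Equiv.Perm (Lb n)) (y0 : ℕ)
    (P : Finset (Fact k n)) (v : Vx k) (a : Lb n) :
    ∑ p ∈ ans n v, Wt s hs f β y0 (P ∪ star v a p.1 p.2) = Wt s hs f β y0 P := by
  classical
  unfold Wt
  rw [Finset.card_eq_sum_card_fiberwise (f := fun g => ansY s hs f y0 (bg s hs β g) v a)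
    (t := ans n v) (fun g _ => ansY_mem s hs f y0 _ v a)]
  refine Finset.sum_congr rfl fun p hp => ?_
  rw [Finset.filter_filter]
  congr 1
  refine Finset.filter_congr fun g _ => ?_
  rw [← star_hY s hs f y0 _ v a p hp]
  constructor
  · rintro ⟨h1, h2⟩
    exact ⟨⟨h1, fun φ hφ => h2 φ (Finset.mem_union_left _ hφ)⟩,
      fun φ hφ => h2 φ (Finset.mem_union_right _ hφ)⟩
  · rintro ⟨⟨h1, h2⟩, h3⟩
    exact ⟨h1, fun φ hφ => (Finset.mem_union.1 hφ).elim (h2 φ) (h3 φ)⟩

end Gauge

end Pool.Agent.Work.MP_610017_lc.PP
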