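import Mathlib
import Pool.Agent.Work.MP_610017_lc.PP.Gauge

/-!
# The weights of sets of facts (MP_610017_lc, block PP)
-/

set_option autoImplicit false

namespace Pool.Agent.Work.MP_610017_lc.PP

theorem nb_fst {k : ℕ} (v : Vx k) (d : Fin 4) :
    (nb v d).1.val ≤ v.1.val + 1 ∧ v.1.val ≤ (nb v d).1.val + 1 := by
  have h1 := v.1.isLt
  have h2 := v.2.isLt
  unfold nb
  split_ifs <;> simp [up1, dn1] <;> omega

theorem exists_row {k n : ℕ} (P : Finset (Fact k n)) (hV : ∀ f ∈ P, Valid f) :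
    ∃ y0, y0 ≤ P.card ∧ RowF y0 P := by
  obtain ⟨j, -, hj, h⟩ := Ext1_cut P (fun u => u.2.val) (fun v d => (prf_NbLevel k v d).1) hV 0
  exact ⟨j, by omega, h⟩

theorem exists_col {k n : ℕ} (P : Finset (Fact k n)) (hV : ∀ f ∈ P, Valid f) :
    ∃ x0, x0 ≤ P.card ∧ ColF x0 P := by
  obtain ⟨j, -, hj, h⟩ := Ext1_cut P (fun u => u.1.val) (fun v d => nb_fst v d) hV 0
  exact ⟨j, by omega, h⟩

theorem rowF_mono {k n : ℕ} {P Q : Finset (Fact k n)} {y0 : ℕ} (h : P ⊆ Q) (hQ : RowF y0 Q) :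
    RowF y0 P := fun v w a b hf => hQ v w a b (h hf)

section

variable {k n m : ℕ} [NeZero m] (s : ZMod m → Lb n) (hs : Function.Injective s)

theorem Wt_indep (f : Lb n → Bool) (β : Vx k → Equiv.Perm (Lb n)) {y0 y1 : ℕ}
    {P : Finset (Fact k n)} (hV : ∀ φ ∈ P, Valid φ) (hP : P.card < k) (h0 : RowF y0 P)
    (h1 : RowF y1 P) (hk0 : y0 < k) (hk1 : y1 < k) :
    Wt s hs f β y0 P = Wt s hs f β y1 P := by
  obtain ⟨x0, hx, hc⟩ := exists_col P hV
  rcases le_total y0 y1 with h | h
  · exact Wt_move s hs f β hV h0 h1 hc h hk1 (by omega)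
  · exact (Wt_move s hs f β hV h1 h0 hc h hk0 (by omega)).symm

open Classical in
/-- a row which is not crossed by the edges of `P` -/
noncomputable def rowOf (P : Finset (Fact k n)) : ℕ :=
  if h : ∃ y0, y0 < k ∧ RowF y0 P then h.choose else 0

theorem rowOf_spec {P : Finset (Fact k n)} (hV : ∀ φ ∈ P, Valid φ) (hP : P.card < k) :
    rowOf P < k ∧ RowF (rowOf P) P := by
  obtain ⟨y0, hy, h⟩ := exists_row P hV
  have hex : ∃ y0, y0 < k ∧ RowF y0 P := ⟨y0, by omega, h⟩
  unfold rowOf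
  rw [dif_pos hex]
  exact hex.choose_spec

/-- the weight -/
noncomputable def WS (f : Lb n → Bool) (β : Vx k → Equiv.Perm (Lb n)) (P : Finset (Fact k n)) :
    ℕ := Wt s hs f β (rowOf P) P

theorem WS_eq (f : Lb n → Bool) (β : Vx k → Equiv.Perm (Lb n)) {P : Finset (Fact k n)}
    (hV : ∀ φ ∈ P, Valid φ) (hP : P.card < k) {y0 : ℕ} (hk : y0 < k) (h0 : RowF y0 P) :
    WS s hs f β P = Wt s hs f β y0 P := by
  obtain ⟨h1, h2⟩ := rowOf_spec hV hP
  exact Wt_indep s hs f β hV hP h2 h0 h1 hk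

theorem WS_exact (f : Lb n → Bool) (β : Vx k → Equiv.Perm (Lb n)) {P : Finset (Fact k n)}
    (hV : ∀ φ ∈ P, Valid φ) (hP : P.card + 9 < k) (v : Vx k) (a : Lb n) :
    ∑ p ∈ ans n v, WS s hs f β (P ∪ star v a p.1 p.2) = WS s hs f β P := by
  have hcard : ∀ (b : Fin 4 → Lb n) (c : Bool), (P ∪ star v a b c).card ≤ P.card + 9 := by
    intro b c
    have h1 := Finset.card_union_le P (star v a b c)
    have h2 := (prf_StarValid k n v a b c).1
    omega
  have hval : ∀ (b : Fin 4 → Lb n) (c : Bool), ∀ φ ∈ P ∪ star v a b c, Valid φ := by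
    intro b c φ hφ
    exact (Finset.mem_union.1 hφ).elim (hV φ) ((prf_StarValid k n v a b c).2 φ)
  obtain ⟨y0, hy, h0⟩ := exists_row (P ∪ star v a (fun _ => 0) false) (hval _ _)
  have hy0 : y0 < k := by
    have := hcard (fun _ => 0) false
    omega
  have hrow : ∀ (b : Fin 4 → Lb n) (c : Bool), RowF y0 (P ∪ star v a b c) := by
    intro b c u w x y hf
    rcases Finset.mem_union.1 hf with hf | hf
    · exact h0 u w x y (Finset.mem_union_left _ hf)
    · rcases (Ev_star _ _ _ _ _).1 hf with ⟨d, hd⟩ | ⟨d, hd⟩ | ⟨-, hd⟩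
      · cases hd
        exact h0 v (nb v d) a 0 (Finset.mem_union_right _
          ((Ev_star _ _ _ _ _).2 (Or.inl ⟨d, rfl⟩)))
      · cases hd
        exact h0 (nb v d) v 0 a (Finset.mem_union_right _
          ((Ev_star _ _ _ _ _).2 (Or.inr (Or.inl ⟨d, rfl⟩))))
      · cases hd
  rw [WS_eq s hs f β hV (by omega) hy0 (rowF_mono Finset.subset_union_left (hrow (fun _ => 0) false)),
    ← Wt_exact s hs f β y0 P v a]
  refine Finset.sum_congr rfl fun p _ => ?_
  have := hcard p.1 p.2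
  exact WS_eq s hs f β (hval _ _) (by omega) hy0 (hrow _ _)

end

/-- an involution which exchanges two injective families -/
theorem exch {n m : ℕ} [NeZero m] (s u : ZMod m → Lb n) (hs : Function.Injective s)
    (hu : Function.Injective u) (hsu : ∀ i j, s i ≠ u j) :
    ∃ τ : Equiv.Perm (Lb n), (∀ l, τ (s l) = u l) ∧ (∀ l, τ (u l) = s l) ∧
      ∀ x, (∀ l, x ≠ s l) → (∀ l, x ≠ u l) → τ x = x := by
  classical
  obtain ⟨e⟩ : Nonempty (Fin m ≃ ZMod m) := Fintype.card_eq.1 (by rw [Fintype.card_fin, ZMod.card])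
  obtain ⟨τ, h1, h2, h3⟩ := prf_Swap n m Finset.univ (fun i => s (e i)) (fun i => u (e i))
    (fun i _ j _ hij h => hij (e.injective (hs h)))
    (fun i _ j _ hij h => hij (e.injective (hu h))) (fun i _ j _ => hsu _ _)
  refine ⟨τ, fun l => ?_, fun l => ?_, fun x hx1 hx2 => h3 x fun i _ => ⟨hx1 _, hx2 _⟩⟩
  · have := h1 (e.symm l) (Finset.mem_univ _)
    simpa using this
  · have := h2 (e.symm l) (Finset.mem_univ _)
    simpa using this

/-- fresh families -/
theorem fresh2 {n m : ℕ} [NeZero m] (I S : Finset (Lb n)) (h : S.card + 2 * m ≤ I.card) :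
    ∃ u w : ZMod m → Lb n, Function.Injective u ∧ Function.Injective w ∧ (∀ i j, u i ≠ w j) ∧
      (∀ l, u l ∈ I ∧ u l ∉ S) ∧ ∀ l, w l ∈ I ∧ w l ∉ S := by
  classical
  have h1 := Finset.le_card_sdiff S I
  obtain ⟨e⟩ : Nonempty ((ZMod m ⊕ ZMod m) ↪ (I \ S : Finset (Lb n))) :=
    Function.Embedding.nonempty_of_card_le (by
      rw [Fintype.card_sum, ZMod.card, Fintype.card_coe]
      omega)
  refine ⟨fun l => (e (Sum.inl l)).1, fun l => (e (Sum.inr l)).1, ?_, ?_, ?_, ?_, ?_⟩
  · intro i j hij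
    exact Sum.inl_injective (e.injective (Subtype.ext hij))
  · intro i j hij
    exact Sum.inr_injective (e.injective (Subtype.ext hij))
  · intro i j hij
    exact absurd (e.injective (Subtype.ext hij)) (by simp)
  · intro l
    exact Finset.mem_sdiff.1 (e (Sum.inl l)).2
  · intro l
    exact Finset.mem_sdiff.1 (e (Sum.inr l)).2

/-- Facts which are true in a covering with a defect are consistent. -/
theorem con_of_hY {k n m : ℕ} [NeZero m] (hm : 2 ≤ m) (s : ZMod m → Lb n)
    (hs : Function.Injective s) (hs0 : s 0 = 0) (hs1 : s 1 = 1) (ρ : Res k n)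
    (hsI : ∀ l, s l ∈ ρ.I) (β : Vx k → Equiv.Perm (Lb n)) (ζ : Lb n → Bool) (hE : Ext ρ β ζ)
    (f : Lb n → Bool) (hf0 : f (s 0) = true) (hfs : ∀ l, l ≠ 0 → f (s l) = false)
    (hfn : ∀ i, (∀ l, s l ≠ i) → f i = ζ i) {P : Finset (Fact k n)} (hV : ∀ φ ∈ P, Valid φ)
    {y0 x0 : ℕ} (hy : y0 < k) (hx : x0 < k) (hr : RowF y0 P) (hc : ColF x0 P)
    (hI : P.card + 3 * m ≤ ρ.I.card) (g : Vx k → ZMod m) (hg : g ∈ GGr k m)
    (hP : ∀ φ ∈ P, hY s hs f y0 (bg s hs β g) φ) : Con ρ P := by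
  classical
  set β1 := bg s hs β g with hβ1
  have h10 : (1 : ZMod m) ≠ 0 := by
    haveI : _root_.Fact (1 < m) := ⟨by omega⟩
    exact one_ne_zero
  -- fresh indices
  set S : Finset (Lb n) := (Finset.univ.image s) ∪ P.image (LE_i β1) with hS
  have hSc : S.card ≤ m + P.card := by
    refine (Finset.card_union_le _ _).trans (Nat.add_le_add ?_ Finset.card_image_le)
    refine Finset.card_image_le.trans ?_
    rw [Finset.card_univ, ZMod.card]
  obtain ⟨u, w, hu, hw, huw, huI, hwI⟩ := fresh2 (m := m) ρ.I S (by omega)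
  have hsS : ∀ l, s l ∈ S := fun l =>
    Finset.mem_union_left _ (Finset.mem_image_of_mem s (Finset.mem_univ l))
  have hsu : ∀ i j, s i ≠ u j := fun i j h => (huI j).2 (h ▸ hsS i)
  have hsw : ∀ i j, s i ≠ w j := fun i j h => (hwI j).2 (h ▸ hsS i)
  obtain ⟨τu, tu1, tu2, tu3⟩ := exch s u hs hu hsu
  obtain ⟨τw, tw1, tw2, tw3⟩ := exch s w hs hw hsw
  have tus : ∀ l, τu.symm (s l) = u l := fun l => by rw [Equiv.symm_apply_eq, tu2]
  have tws : ∀ l, τw.symm (s l) = w l := fun l => by rw [Equiv.symm_apply_eq, tw2]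
  have tux : ∀ x, (∀ l, x ≠ s l) → (∀ l, x ≠ u l) → τu.symm x = x := fun x h1 h2 => by
    rw [Equiv.symm_apply_eq, tu3 x h1 h2]
  have twx : ∀ x, (∀ l, x ≠ s l) → (∀ l, x ≠ w l) → τw.symm x = x := fun x h1 h2 => by
    rw [Equiv.symm_apply_eq, tw3 x h1 h2]
  -- the new covering
  obtain ⟨τ, hτ⟩ : ∃ τ : Vx k → Equiv.Perm (Lb n), τ = fun v =>
    if v.2.val ≤ y0 then (if v.1.val ≤ x0 then 1 else τu) else τw := ⟨_, rfl⟩
  have τ0 : ∀ v : Vx k, v.2.val ≤ y0 → v.1.val ≤ x0 → τ v = 1 := fun v h1 h2 => by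
    rw [hτ]
    show (if _ then _ else _) = _
    rw [if_pos h1, if_pos h2]
  have τ1 : ∀ v : Vx k, v.2.val ≤ y0 → ¬ v.1.val ≤ x0 → τ v = τu := fun v h1 h2 => by
    rw [hτ]
    show (if _ then _ else _) = _
    rw [if_pos h1, if_neg h2]
  have τ2 : ∀ v : Vx k, ¬ v.2.val ≤ y0 → τ v = τw := fun v h1 => by
    rw [hτ]
    show (if _ then _ else _) = _
    rw [if_neg h1]
  have τfix : ∀ v i, i ∉ ρ.I → τ v i = i := by
    intro v i hi
    have e1 : ∀ l, i ≠ s l := fun l h => hi (h ▸ hsI l)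
    have e2 : ∀ l, i ≠ u l := fun l h => hi (h ▸ (huI l).1)
    have e3 : ∀ l, i ≠ w l := fun l h => hi (h ▸ (hwI l).1)
    by_cases h1 : v.2.val ≤ y0
    · by_cases h2 : v.1.val ≤ x0
      · rw [τ0 v h1 h2]
        rfl
      · rw [τ1 v h1 h2, tu3 i e1 e2]
    · rw [τ2 v h1, tw3 i e1 e3]
  -- the new colours
  obtain ⟨ζ', hζ⟩ : ∃ ζ' : Lb n → Bool, ζ' = fun i =>
    if h : ∃ l, u l = i then f (s h.choose) else
      if h : ∃ l, w l = i then f (s (h.choose - 1)) else f i := ⟨_, rfl⟩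
  have ζu : ∀ l, ζ' (u l) = f (s l) := by
    intro l
    have h : ∃ l', u l' = u l := ⟨l, rfl⟩
    rw [hζ]
    show (if h : _ then _ else _) = _
    rw [dif_pos h, hu h.choose_spec]
  have ζw : ∀ l, ζ' (w l) = f (s (l - 1)) := by
    intro l
    have h : ∃ l', w l' = w l := ⟨l, rfl⟩
    have h2 : ¬ ∃ l', u l' = w l := fun ⟨l', h⟩ => huw _ _ h
    rw [hζ]
    show (if h : _ then _ else _) = _
    rw [dif_neg h2, dif_pos h, hw h.choose_spec]
  have ζo : ∀ i, (∀ l, i ≠ u l) → (∀ l, i ≠ w l) → ζ' i = f i := by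
    intro i h1 h2
    rw [hζ]
    show (if h : _ then _ else _) = _
    rw [dif_neg (fun ⟨l, h⟩ => h1 l h.symm), dif_neg (fun ⟨l, h⟩ => h2 l h.symm)]
  -- indices of the facts
  have hidx : ∀ φ ∈ P, ∀ v a, (v, a) ∈ touch φ →
      (∀ l, (β1 v).symm a ≠ u l) ∧ ∀ l, (β1 v).symm a ≠ w l := by
    intro φ hφ v a hva
    have hi : (β1 v).symm a = LE_i β1 φ := by
      have h1 := hP φ hφ
      cases φ with
      | edge v' w' a' b' =>
        simp only [touch, Finset.mem_insert, Finset.mem_singleton, Prod.mk.injEq] at hva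
        rcases hva with ⟨rfl, rfl⟩ | ⟨rfl, rfl⟩
        · rfl
        · exact h1.symm
      | col v' a' c' =>
        simp only [touch, Finset.mem_singleton, Prod.mk.injEq] at hva
        obtain ⟨rfl, rfl⟩ := hva
        rfl
    have hm' : LE_i β1 φ ∈ S := Finset.mem_union_right _ (Finset.mem_image_of_mem _ hφ)
    rw [hi]
    exact ⟨fun l h => (huI l).2 (h ▸ hm'), fun l h => (hwI l).2 (h ▸ hm')⟩
  have hcrn : τ (crn k) = 1 := τ0 _ (Nat.zero_le _) (Nat.zero_le _)
  have hgc : g (crn k) = 0 := hg _ (by rintro ⟨h1, -⟩; exact absurd h1 (by simp [crn]))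
  refine ⟨⟨fun v => β1 v * τ v, ζ', spec⟩, ⟨?_, ?_, ?_, ?_⟩, rfl, ?_⟩
  · intro v i hi
    show β1 v (τ v i) = ρ.β v i
    rw [τfix v i hi]
    show β v (rot s hs (g v) i) = ρ.β v i
    rw [rot_not s hs _ (i := i) (fun l h => hi (h ▸ hsI l)), hE.beta v i hi]
  · intro i hi
    show ζ' i = ρ.ζ i
    rw [ζo i (fun l h => hi (h ▸ (huI l).1)) (fun l h => hi (h ▸ (hwI l).1)),
      hfn i (fun l h => hi (h ▸ hsI l)), hE.zeta i hi]
  · show β1 (crn k) (τ (crn k) 0) = 0
    rw [hcrn]
    show β (crn k) (rot s hs (g (crn k)) 0) = 0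
    rw [hgc, rot_zero]
    exact hE.corner
  · show β1 (crn k) (τ (crn k) 1) = 1
    rw [hcrn]
    show β (crn k) (rot s hs (g (crn k)) 1) = 1
    rw [hgc, rot_zero]
    exact hE.corner1
  · intro φ hφ
    have hh := hP φ hφ
    have hid := hidx φ hφ
    have hval := hV φ hφ
    cases φ with
    | edge v v' a b =>
      have e1 : v.2.val ≤ y0 ↔ v'.2.val ≤ y0 := hr v v' a b hφ
      have e2 : v.1.val ≤ x0 ↔ v'.1.val ≤ x0 := hc v v' a b hφ
      have e3 : τ v = τ v' := by
        rw [hτ]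
        show (if _ then _ else _) = (if _ then _ else _)
        simp only [e1, e2]
      show (τ v).symm ((β1 v).symm a) = (τ v').symm ((β1 v').symm b)
      rw [e3]
      exact congrArg _ hh
    | col v a c =>
      have hb : bd v = true := hval
      obtain ⟨hiu, hiw⟩ := hid v a (by simp [touch])
      have hcol : colY s hs f y0 v ((β1 v).symm a) = c := hh
      show cl _ v ((τ v).symm ((β1 v).symm a)) = some c
      generalize (β1 v).symm a = i at hiu hiw hcol
      simp only [bd, decide_eq_true_eq] at hb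
      obtain ⟨hb1, hb2⟩ := hb
      have hlt1 := v.1.isLt
      have hlt2 := v.2.isLt
      rw [← hcol]
      unfold colY
      by_cases hi : ∃ l, s l = i
      · obtain ⟨l, rfl⟩ := hi
        have hrot : rot s hs (-1) (s l) = s (l - 1) := by rw [rot_s, sub_eq_add_neg]
        by_cases c1 : v.2.val ≤ y0
        · by_cases c2 : v.1.val ≤ x0
          · rw [τ0 v c1 c2]
            show cl _ v (s l) = _
            have hb3 : (v.2.val = 0 ∧ 1 ≤ v.1.val ∧ v.1.val < k) ∨
              (v.1.val = 0 ∧ 1 ≤ v.2.val ∧ v.2.val < k) := by omega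
            by_cases l0 : l = 0
            · subst l0
              rw [hs0, cl_zero]
              show spec v = _
              unfold spec
              rw [← hs0, hrot]
              rcases hb3 with hb3 | hb3
              · rw [if_pos hb3, if_neg (by omega), hf0]
              · rw [if_neg (by omega), if_pos hb3, if_pos (by omega),
                  hfs _ (by rw [zero_sub]; exact neg_ne_zero.2 h10)]
            by_cases l1 : l = 1
            · subst l1
              rw [hs1, cl_one ρ.one_ne]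
              show (spec v).map (fun c => !c) = _
              unfold spec
              rw [← hs1, hrot]
              rcases hb3 with hb3 | hb3
              · rw [if_pos hb3, if_neg (by omega), hfs _ l0]
                rfl
              · rw [if_neg (by omega), if_pos hb3, if_pos (by omega), sub_self, hf0]
                rfl
            · rw [cl_other (fun h => l0 (hs (h.trans hs0.symm)))
                (fun h => l1 (hs (h.trans hs1.symm)))]
              show some (ζ' (s l)) = _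
              rw [ζo _ (hsu l) (hsw l), hfs _ l0]
              split_ifs
              · rw [hrot, hfs _ (sub_ne_zero.2 l1)]
              · rw [hfs _ l0]
          · rw [τ1 v c1 c2, tus]
            rw [cl_other (fun h => hsu 0 l (hs0.trans h.symm)) (fun h => hsu 1 l (hs1.trans h.symm))]
            show some (ζ' (u l)) = _
            rw [ζu, if_neg (by omega)]
        · rw [τ2 v c1, tws]
          rw [cl_other (fun h => hsw 0 l (hs0.trans h.symm)) (fun h => hsw 1 l (hs1.trans h.symm))]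
          show some (ζ' (w l)) = _
          rw [ζw, if_pos (by omega), hrot]
      · have hn : ∀ l, i ≠ s l := fun l h => hi ⟨l, h.symm⟩
        have e1 : (τ v).symm i = i := by
          by_cases c1 : v.2.val ≤ y0
          · by_cases c2 : v.1.val ≤ x0
            · rw [τ0 v c1 c2]
              rfl
            · rw [τ1 v c1 c2, tux i hn hiu]
          · rw [τ2 v c1, twx i hn hiw]
        rw [e1, cl_other (fun h => hn 0 (h.trans hs0.symm)) (fun h => hn 1 (h.trans hs1.symm))]
        show some (ζ' i) = _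
        rw [ζo i hiu hiw, rot_not s hs _ (fun l h => hn l h.symm), ite_self]

end Pool.Agent.Work.MP_610017_lc.PP
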