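import Mathlib
import Pool.Agent.Work.MP_610017_lc.PP.Pse

/-!
# The existence of weights (MP_610017_lc, block PP)
-/

set_option autoImplicit false

namespace Pool.Agent.Work.MP_610017_lc.PP

/-- the family of the special indices -/
theorem fam {k n m : ℕ} [NeZero m] (hm : 2 ≤ m) (ρ : Res k n) (S : Finset (Lb n))
    (h : S.card + m + 2 ≤ ρ.I.card) : ∃ s : ZMod m → Lb n, Function.Injective s ∧ s 0 = 0 ∧
      s 1 = 1 ∧ (∀ l, s l ∈ ρ.I) ∧ ∀ l, l ≠ 0 → l ≠ 1 → s l ∉ S := by
  classical
  haveI : _root_.Fact (1 < m) := ⟨by omega⟩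
  have h10 : (1 : ZMod m) ≠ 0 := one_ne_zero
  have h1 := Finset.le_card_sdiff (insert 0 (insert 1 S)) ρ.I
  have h2 := Finset.card_insert_le (0 : Lb n) (insert 1 S)
  have h3 := Finset.card_insert_le (1 : Lb n) S
  obtain ⟨e⟩ : Nonempty (ZMod m ↪ (ρ.I \ insert 0 (insert 1 S) : Finset (Lb n))) :=
    Function.Embedding.nonempty_of_card_le (by
      rw [ZMod.card, Fintype.card_coe]
      omega)
  have he : ∀ l, (e l).1 ∈ ρ.I ∧ (e l).1 ≠ 0 ∧ (e l).1 ≠ 1 ∧ (e l).1 ∉ S := by
    intro l
    have h4 := Finset.mem_sdiff.1 (e l).2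
    rw [Finset.mem_insert, Finset.mem_insert, not_or, not_or] at h4
    exact ⟨h4.1, h4.2.1, h4.2.2.1, h4.2.2.2⟩
  obtain ⟨s, hs⟩ : ∃ s : ZMod m → Lb n, s = fun l => if l = 0 then 0 else if l = 1 then 1 else
    (e l).1 := ⟨_, rfl⟩
  have s0 : s 0 = 0 := by rw [hs]; exact if_pos rfl
  have s1 : s 1 = 1 := by
    rw [hs]
    show (if _ then _ else _) = _
    rw [if_neg h10, if_pos rfl]
  have sl : ∀ l, l ≠ 0 → l ≠ 1 → s l = (e l).1 := fun l a b => by
    rw [hs]
    show (if _ then _ else _) = _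
    rw [if_neg a, if_neg b]
  refine ⟨s, ?_, s0, s1, ?_, ?_⟩
  · intro i j hij
    by_cases i0 : i = 0
    · subst i0
      by_cases j0 : j = 0
      · exact j0.symm
      by_cases j1 : j = 1
      · subst j1
        rw [s0, s1] at hij
        exact absurd hij.symm ρ.one_ne
      · rw [s0, sl j j0 j1] at hij
        exact absurd hij.symm (he j).2.1
    by_cases i1 : i = 1
    · subst i1
      by_cases j0 : j = 0
      · subst j0
        rw [s0, s1] at hij
        exact absurd hij ρ.one_ne
      by_cases j1 : j = 1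
      · exact j1.symm
      · rw [s1, sl j j0 j1] at hij
        exact absurd hij.symm (he j).2.2.1
    · rw [sl i i0 i1] at hij
      by_cases j0 : j = 0
      · subst j0
        rw [s0] at hij
        exact absurd hij (he i).2.1
      by_cases j1 : j = 1
      · subst j1
        rw [s1] at hij
        exact absurd hij (he i).2.2.1
      · rw [sl j j0 j1] at hij
        exact e.injective (Subtype.ext hij)
  · intro l
    by_cases l0 : l = 0
    · rw [l0, s0]
      exact ρ.zero_mem
    by_cases l1 : l = 1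
    · rw [l1, s1]
      exact ρ.one_mem
    · rw [sl l l0 l1]
      exact (he l).1
  · intro l l0 l1
    rw [sl l l0 l1]
    exact (he l).2.2.2

section

variable {k n m : ℕ} [NeZero m] (s : ZMod m → Lb n) (hs : Function.Injective s)

/-- the gauge transformations which are constant on the edges of `P` on the special sheets -/
def stabG (β : Vx k → Equiv.Perm (Lb n)) (P : Finset (Fact k n)) :
    AddSubgroup (Vx k → ZMod m) where
  carrier := {g | g ∈ GGr k m ∧ ∀ v w a b, Fact.edge v w a b ∈ P →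
    (∃ l, s l = (β v).symm a) → g v = g w}
  zero_mem' := ⟨(GGr k m).zero_mem, fun _ _ _ _ _ _ => rfl⟩
  add_mem' := fun {a b} ha hb => ⟨(GGr k m).add_mem ha.1 hb.1, fun v w x y h1 h2 => by
    show a v + b v = a w + b w
    rw [ha.2 v w x y h1 h2, hb.2 v w x y h1 h2]⟩
  neg_mem' := fun {a} ha => ⟨(GGr k m).neg_mem ha.1, fun v w x y h1 h2 => by
    show -(a v) = -(a w)
    rw [ha.2 v w x y h1 h2]⟩

include hs in
theorem Wt_base (hm : 2 ≤ m) (hs0 : s 0 = 0) (hs1 : s 1 = 1) (h01 : (1 : Lb n) ≠ 0)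
    (ω : GW k n) (hχ : ω.χ = spec) (f : Lb n → Bool) (hf0 : f (s 0) = true)
    (hfs : ∀ l, l ≠ 0 → f (s l) = false) (hfn : ∀ i, (∀ l, s l ≠ i) → f i = ω.ζ i)
    {P : Finset (Fact k n)} (hP : ∀ φ ∈ P, holds ω φ)
    (hPs : ∀ l, l ≠ 0 → l ≠ 1 → s l ∉ P.image (LE_i ω.β)) (y0 : ℕ) :
    0 < Wt s hs f ω.β y0 P ∧ Wt s hs f ω.β y0 P ∣ m ^ Fintype.card (Vx k) := by
  classical
  haveI : _root_.Fact (1 < m) := ⟨by omega⟩
  have h10 : (1 : ZMod m) ≠ 0 := one_ne_zero
  have key : ∀ g : Vx k → ZMod m, (g ∈ GGr k m ∧ ∀ φ ∈ P, hY s hs f y0 (bg s hs ω.β g) φ) ↔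
      g ∈ stabG s ω.β P := by
    intro g
    refine and_congr_right fun hg => ?_
    constructor
    · intro h v w a b hφ hl
      obtain ⟨l, hl⟩ := hl
      have h1 : (bg s hs ω.β g v).symm a = (bg s hs ω.β g w).symm b := h _ hφ
      have h2 : (ω.β v).symm a = (ω.β w).symm b := hP _ hφ
      rw [bg_symm, bg_symm, ← h2, ← hl, rot_s, rot_s] at h1
      have h3 := add_left_cancel (hs h1)
      exact neg_injective h3
    · intro h φ hφ
      have hh := hP φ hφ
      cases φ with
      | edge v w a b =>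
        have h2 : (ω.β v).symm a = (ω.β w).symm b := hh
        show (bg s hs ω.β g v).symm a = (bg s hs ω.β g w).symm b
        rw [bg_symm, bg_symm, ← h2]
        by_cases hl : ∃ l, s l = (ω.β v).symm a
        · rw [h v w a b hφ hl]
        · have hl' : ∀ l, s l ≠ (ω.β v).symm a := fun l h => hl ⟨l, h⟩
          rw [rot_not s hs _ hl', rot_not s hs _ hl']
      | col v a c =>
        have h2 : cl ω v ((ω.β v).symm a) = some c := hh
        have h3 : (ω.β v).symm a ∈ P.image (LE_i ω.β) := Finset.mem_image.2 ⟨_, hφ, rfl⟩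
        show colY s hs f y0 v ((bg s hs ω.β g v).symm a) = c
        rw [bg_symm]
        generalize (ω.β v).symm a = i at h2 h3
        by_cases hi : ∃ l, s l = i
        · obtain ⟨l, rfl⟩ := hi
          have hl01 : l = 0 ∨ l = 1 := by
            by_contra hl
            rw [not_or] at hl
            exact hPs l hl.1 hl.2 h3
          have hsp : ((v.2.val = 0 ∧ 1 ≤ v.1.val ∧ v.1.val < k) ∧ spec v = some true) ∨
              ((v.1.val = 0 ∧ 1 ≤ v.2.val ∧ v.2.val < k) ∧ spec v = some false) := by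
            have hne : spec v ≠ none := by
              intro hn
              rcases hl01 with rfl | rfl
              · rw [hs0, cl_zero, hχ, hn] at h2
                exact absurd h2 (by simp)
              · rw [hs1, cl_one h01, hχ, hn] at h2
                exact absurd h2 (by simp)
            unfold spec at hne ⊢
            by_cases c1 : v.2.val = 0 ∧ 1 ≤ v.1.val ∧ v.1.val < k
            · exact Or.inl ⟨c1, if_pos c1⟩
            · by_cases c2 : v.1.val = 0 ∧ 1 ≤ v.2.val ∧ v.2.val < k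
              · exact Or.inr ⟨c2, by rw [if_neg c1, if_pos c2]⟩
              · rw [if_neg c1, if_neg c2] at hne
                exact absurd rfl hne
          have hgv : g v = 0 := hg v (by rcases hsp with h | h <;> omega)
          rw [hgv, neg_zero, rot_zero]
          show colY s hs f y0 v (s l) = c
          unfold colY
          rw [rot_s, ← sub_eq_add_neg]
          rcases hl01 with rfl | rfl
          · rw [hs0, cl_zero, hχ] at h2
            rcases hsp with ⟨h4, h5⟩ | ⟨h4, h5⟩
            · rw [if_neg (by omega), hf0]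
              rw [h5] at h2
              exact Option.some.inj h2
            · rw [if_pos (by omega), hfs _ (by rw [zero_sub]; exact neg_ne_zero.2 h10)]
              rw [h5] at h2
              exact Option.some.inj h2
          · rw [hs1, cl_one h01, hχ] at h2
            rcases hsp with ⟨h4, h5⟩ | ⟨h4, h5⟩
            · rw [if_neg (by omega), hfs _ h10]
              rw [h5] at h2
              exact Option.some.inj h2
            · rw [if_pos (by omega), sub_self, hf0]
              rw [h5] at h2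
              exact Option.some.inj h2
        · have hi' : ∀ l, s l ≠ i := fun l h => hi ⟨l, h⟩
          rw [cl_other (fun h => hi' 0 (hs0.trans h.symm)) (fun h => hi' 1 (hs1.trans h.symm))] at h2
          rw [rot_not s hs _ hi']
          unfold colY
          rw [rot_not s hs _ hi', ite_self, hfn i hi']
          exact Option.some.inj h2
  have hWt : Wt s hs f ω.β y0 P = Nat.card (stabG s ω.β P) := by
    unfold Wt
    rw [Nat.card_eq_fintype_card, Fintype.card_subtype]
    refine congrArg Finset.card (Finset.filter_congr fun g _ => key g)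
  rw [hWt]
  constructor
  · exact Nat.card_pos
  · have h := AddSubgroup.card_addSubgroup_dvd_card (stabG s ω.β P)
    rw [Nat.card_fun, Nat.card_zmod, Nat.card_eq_fintype_card (α := Vx k)] at h
    exact h

end

/-- The existence of weights. -/
theorem pse {k n m : ℕ} (hm : 2 ≤ m) (ρ : Res k n) (P0 : Finset (Fact k n))
    (hV0 : ∀ f ∈ P0, Valid f) (hk : P0.card < k) (hI : P0.card + m + 2 ≤ ρ.I.card)
    (hC : Con ρ P0) : ∃ W : Finset (Fact k n) → ℕ,
      (0 < W P0 ∧ W P0 ∣ m ^ Fintype.card (Vx k)) ∧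
      (∀ P : Finset (Fact k n), (∀ f ∈ P, Valid f) → P.card + 9 < k → ∀ v a,
        ∑ p ∈ ans n v, W (P ∪ star v a p.1 p.2) = W P) ∧
      (∀ P : Finset (Fact k n), (∀ f ∈ P, Valid f) → P.card < k → P.card + 3 * m ≤ ρ.I.card →
        0 < W P → Con ρ P) := by
  classical
  haveI : NeZero m := ⟨by omega⟩
  obtain ⟨ω, hE, hχ, hP0⟩ := hC
  have hcard : (P0.image (LE_i ω.β)).card ≤ P0.card := Finset.card_image_le
  obtain ⟨s, hs, hs0, hs1, hsI, hsS⟩ := fam hm ρ (P0.image (LE_i ω.β)) (by omega)
  obtain ⟨f, hf⟩ : ∃ f : Lb n → Bool, f = fun i => if i = s 0 then true else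
    if ∃ l, s l = i then false else ω.ζ i := ⟨_, rfl⟩
  have hf0 : f (s 0) = true := by rw [hf]; exact if_pos rfl
  have hfs : ∀ l, l ≠ 0 → f (s l) = false := fun l hl => by
    rw [hf]
    show (if _ then _ else _) = _
    rw [if_neg (fun h => hl (hs h)), if_pos ⟨l, rfl⟩]
  have hfn : ∀ i, (∀ l, s l ≠ i) → f i = ω.ζ i := fun i hi => by
    rw [hf]
    show (if _ then _ else _) = _
    rw [if_neg (fun h => hi 0 h.symm), if_neg (fun ⟨l, h⟩ => hi l h)]
  refine ⟨WS s hs f ω.β, ?_, ?_, ?_⟩
  · exact Wt_base s hs hm hs0 hs1 ρ.one_ne ω hχ f hf0 hfs hfn hP0 hsS (rowOf P0)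
  · intro P hV hP v a
    exact WS_exact s hs f ω.β hV hP v a
  · intro P hV hP hPI hpos
    obtain ⟨h1, h2⟩ := rowOf_spec hV hP
    obtain ⟨x0, hx, hc⟩ := exists_col P hV
    obtain ⟨g, hg⟩ := Finset.card_pos.1 hpos
    obtain ⟨-, hg1, hg2⟩ := Finset.mem_filter.1 hg
    exact con_of_hY hm s hs hs0 hs1 ρ hsI ω.β ω.ζ hE f hf0 hfs hfn hV h1 (by omega) h2 hc hPI g
      hg1 hg2

end Pool.Agent.Work.MP_610017_lc.PP
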