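import Mathlib
import Pool.Agent.Work.MP_610017_lc.PP.Pse2

/-!
# Sums over branches and double counting (MP_610017_lc, block PP)
-/

set_option autoImplicit false

namespace Pool.Agent.Work.MP_610017_lc.PP

/-- the sum over the branches of a tree -/
def sm {k n : ℕ} : Tree k n → (Finset (Fact k n) → Bool → ℕ) → ℕ
  | .leaf r, φ => φ ∅ r
  | .node v a next, φ =>
    ∑ p ∈ ans n v, sm (next p.1 p.2) (fun F r => φ (star v a p.1 p.2 ∪ F) r)

section

variable {k n : ℕ}

theorem sm_le (T : Tree k n) : ∀ (φ ψ : Finset (Fact k n) → Bool → ℕ),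
    (∀ F r, Br T F r → φ F r ≤ ψ F r) → sm T φ ≤ sm T ψ := by
  induction T with
  | leaf r => exact fun φ ψ h => h _ _ (Br.leaf r)
  | node v a next ih =>
    intro φ ψ h
    refine Finset.sum_le_sum fun p hp => ih _ _ _ _ fun F r hF => ?_
    exact h _ _ (Br.node v a next p.1 p.2 F r (mem_ans.1 hp) hF)

theorem sm_congr (T : Tree k n) {φ ψ : Finset (Fact k n) → Bool → ℕ}
    (h : ∀ F r, Br T F r → φ F r = ψ F r) : sm T φ = sm T ψ :=
  le_antisymm (sm_le T _ _ fun F r hF => (h F r hF).le)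
    (sm_le T _ _ fun F r hF => (h F r hF).ge)

theorem sm_sum {ι : Type} (S : Finset ι) (T : Tree k n) :
    ∀ φ : ι → Finset (Fact k n) → Bool → ℕ,
      sm T (fun F r => ∑ i ∈ S, φ i F r) = ∑ i ∈ S, sm T (φ i) := by
  induction T with
  | leaf r => exact fun φ => rfl
  | node v a next ih =>
    intro φ
    show ∑ p ∈ ans n v, sm (next p.1 p.2) (fun F r => ∑ i ∈ S, φ i (star v a p.1 p.2 ∪ F) r) = _
    rw [Finset.sum_congr rfl fun p _ => ih p.1 p.2 _, Finset.sum_comm]
    rfl

theorem sm_zero (T : Tree k n) : sm T (fun _ _ => 0) = 0 := by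
  have h := sm_sum (∅ : Finset ℕ) T (fun _ _ _ => 0)
  simpa using h

theorem sm_comm (T T' : Tree k n) :
    ∀ Φ : Finset (Fact k n) → Bool → Finset (Fact k n) → Bool → ℕ,
      sm T (fun F r => sm T' (fun G r' => Φ F r G r')) =
        sm T' (fun G r' => sm T (fun F r => Φ F r G r')) := by
  induction T with
  | leaf r => exact fun Φ => rfl
  | node v a next ih =>
    intro Φ
    show ∑ p ∈ ans n v, sm (next p.1 p.2)
      (fun F r => sm T' (fun G r' => Φ (star v a p.1 p.2 ∪ F) r G r')) = _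
    rw [Finset.sum_congr rfl fun p _ => ih p.1 p.2 _, ← sm_sum]
    rfl

/-- exactness of the weights -/
def Exa (W : Finset (Fact k n) → ℕ) : Prop :=
  ∀ P : Finset (Fact k n), (∀ f ∈ P, Valid f) → P.card + 9 < k → ∀ v a,
    ∑ p ∈ ans n v, W (P ∪ star v a p.1 p.2) = W P

theorem sm_exact {W : Finset (Fact k n) → ℕ} (hW : Exa W) (T : Tree k n) :
    ∀ (h : ℕ) (P : Finset (Fact k n)), HLe h T → (∀ f ∈ P, Valid f) → P.card + 9 * h < k →
      sm T (fun F _ => W (P ∪ F)) = W P := by
  induction T with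
  | leaf r =>
    intro h P _ _ _
    show W (P ∪ ∅) = W P
    rw [Finset.union_empty]
  | node v a next ih =>
    intro h P hT hV hP
    cases h with
    | zero => exact hT.elim
    | succ h' =>
      rw [← hW P hV (by omega) v a]
      refine Finset.sum_congr rfl fun p _ => ?_
      obtain ⟨h1, h2⟩ := prf_StarValid k n v a p.1 p.2
      have h3 := Finset.card_union_le P (star v a p.1 p.2)
      rw [← ih p.1 p.2 h' (P ∪ star v a p.1 p.2) (hT _ _)
        (fun f hf => (Finset.mem_union.1 hf).elim (hV f) (h2 f)) (by omega)]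
      refine congrArg _ (funext fun F => funext fun _ => ?_)
      rw [Finset.union_assoc]

theorem br_size {h : ℕ} {T : Tree k n} {F : Finset (Fact k n)} {r : Bool} (hT : HLe h T)
    (hF : Br T F r) {P : Finset (Fact k n)} (hV : ∀ f ∈ P, Valid f) :
    (∀ f ∈ P ∪ F, Valid f) ∧ (P ∪ F).card ≤ P.card + 9 * h := by
  obtain ⟨h1, h2⟩ := prf_BrBasic prf_StarValid k n h T F r hT hF
  have h3 := Finset.card_union_le P F
  exact ⟨fun f hf => (Finset.mem_union.1 hf).elim (hV f) (h2 f), by omega⟩

/-- Double counting: there is no total relation without collisions. -/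
theorem dcP {W : Finset (Fact k n) → ℕ} (hW : Exa W) {h a : ℕ} {P0 : Finset (Fact k n)}
    (hV0 : ∀ f ∈ P0, Valid f) (hk : P0.card + 18 * h < k) (hpos : 0 < W P0)
    (E D : ℕ → Tree k n) (yv xv : ℕ → Finset (Fact k n) → ℕ)
    (hE : ∀ x, x ≤ a + 1 → HLe h (E x)) (hD : ∀ y, y ≤ a → HLe h (D y))
    (h1 : ∀ x, x ≤ a + 1 → ∀ F r, Br (E x) F r → 0 < W (P0 ∪ F) → yv x F ≤ a)
    (h2 : ∀ x, x ≤ a + 1 → ∀ F r, Br (E x) F r → ∀ G r', yv x F ≤ a → Br (D (yv x F)) G r' →
      0 < W (P0 ∪ F ∪ G) → xv (yv x F) G = x) : False := by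
  classical
  have e1 : ∀ x, x ≤ a + 1 → W P0 = ∑ y ∈ Finset.range (a + 1),
      sm (E x) (fun F _ => if yv x F = y then W (P0 ∪ F) else 0) := by
    intro x hx
    rw [← sm_sum, ← sm_exact hW (E x) h P0 (hE x hx) hV0 (by omega)]
    refine sm_congr _ fun F r hF => ?_
    rw [Finset.sum_ite_eq]
    rcases Nat.eq_zero_or_pos (W (P0 ∪ F)) with h0 | h0
    · rw [h0, ite_self]
    · rw [if_pos (Finset.mem_range.2 (Nat.lt_succ_of_le (h1 x hx F r hF h0)))]
  have e2 : ∀ x, x ≤ a + 1 → ∀ y, y ≤ a →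
      sm (E x) (fun F _ => if yv x F = y then W (P0 ∪ F) else 0) =
        sm (D y) (fun G _ => sm (E x) (fun F _ => if yv x F = y then W (P0 ∪ F ∪ G) else 0)) := by
    intro x hx y hy
    rw [sm_comm (D y) (E x)]
    refine sm_congr _ fun F r hF => ?_
    obtain ⟨b1, b2⟩ := br_size (hE x hx) hF hV0
    by_cases h3 : yv x F = y
    · simp only [h3, if_true]
      exact (sm_exact hW (D y) h (P0 ∪ F) (hD y hy) b1 (by omega)).symm
    · simp only [h3, if_false]
      exact (sm_zero _).symm
  have e3 : ∀ y, y ≤ a → ∑ x ∈ Finset.range (a + 2),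
      sm (D y) (fun G _ => sm (E x) (fun F _ => if yv x F = y then W (P0 ∪ F ∪ G) else 0)) ≤
        W P0 := by
    intro y hy
    rw [← sm_sum, ← sm_exact hW (D y) h P0 (hD y hy) hV0 (by omega)]
    refine sm_le _ _ _ fun G r' hG => ?_
    obtain ⟨b1, b2⟩ := br_size (hD y hy) hG hV0
    have h3 : ∀ x ∈ Finset.range (a + 2),
        sm (E x) (fun F _ => if yv x F = y then W (P0 ∪ F ∪ G) else 0) ≤
          if xv y G = x then W (P0 ∪ G) else 0 := by
      intro x hx
      have hx' : x ≤ a + 1 := by have := Finset.mem_range.1 hx; omega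
      by_cases h4 : xv y G = x
      · rw [if_pos h4, ← sm_exact hW (E x) h (P0 ∪ G) (hE x hx') b1 (by omega)]
        refine sm_le _ _ _ fun F r hF => ?_
        split_ifs
        · rw [Finset.union_right_comm]
        · exact Nat.zero_le _
      · rw [if_neg h4]
        refine (sm_le (E x) _ (fun _ _ => 0) fun F r hF => ?_).trans (sm_zero (E x)).le
        split_ifs with h5
        · by_contra h6
          subst h5
          exact h4 (h2 x hx' F r hF G r' hy hG (Nat.pos_of_ne_zero (by omega)))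
        · exact le_rfl
    refine (Finset.sum_le_sum h3).trans ?_
    rw [Finset.sum_ite_eq]
    split_ifs
    · exact le_rfl
    · exact Nat.zero_le _
  have e4 : (a + 2) * W P0 ≤ (a + 1) * W P0 := by
    calc (a + 2) * W P0 = ∑ x ∈ Finset.range (a + 2), W P0 := by
          rw [Finset.sum_const, Finset.card_range, smul_eq_mul]
      _ = ∑ x ∈ Finset.range (a + 2), ∑ y ∈ Finset.range (a + 1),
            sm (D y) (fun G _ => sm (E x)
              (fun F _ => if yv x F = y then W (P0 ∪ F ∪ G) else 0)) := by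
          refine Finset.sum_congr rfl fun x hx => ?_
          have hx' : x ≤ a + 1 := by have := Finset.mem_range.1 hx; omega
          rw [e1 x hx']
          refine Finset.sum_congr rfl fun y hy => ?_
          exact e2 x hx' y (by have := Finset.mem_range.1 hy; omega)
      _ = ∑ y ∈ Finset.range (a + 1), ∑ x ∈ Finset.range (a + 2),
            sm (D y) (fun G _ => sm (E x)
              (fun F _ => if yv x F = y then W (P0 ∪ F ∪ G) else 0)) := Finset.sum_comm
      _ ≤ ∑ y ∈ Finset.range (a + 1), W P0 := Finset.sum_le_sum fun y hy =>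
          e3 y (by have := Finset.mem_range.1 hy; omega)
      _ = (a + 1) * W P0 := by
          rw [Finset.sum_const, Finset.card_range, smul_eq_mul]
  have e5 := Nat.le_of_mul_le_mul_right e4 hpos
  omega

/-- Double counting: the classes of a partition into sets with `q` elements. -/
theorem dcQ {W : Finset (Fact k n) → ℕ} (hW : Exa W) {h a q : ℕ} {P0 : Finset (Fact k n)}
    (hV0 : ∀ f ∈ P0, Valid f) (hk : P0.card + 18 * h < k)
    (E : ℕ → Tree k n) (V : ℕ → Finset (Fact k n) → Finset ℕ)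
    (hE : ∀ x, x ≤ a → HLe h (E x))
    (h1 : ∀ x, x ≤ a → ∀ F r, Br (E x) F r → 0 < W (P0 ∪ F) →
      (V x F).card = q ∧ x ∈ V x F ∧ V x F ⊆ Finset.range (a + 1))
    (h2 : ∀ x, x ≤ a → ∀ F r, Br (E x) F r → ∀ y, y ≤ a → y ∈ V x F → ∀ G r', Br (E y) G r' →
      0 < W (P0 ∪ F ∪ G) → V y G = V x F) : q ∣ (a + 1) * W P0 := by
  classical
  obtain ⟨wt, hwt⟩ : ∃ wt : ℕ → Finset ℕ → ℕ, wt = fun x S =>
    sm (E x) (fun F _ => if V x F = S then W (P0 ∪ F) else 0) := ⟨_, rfl⟩
  have e1 : ∀ x, x ≤ a → W P0 = ∑ S ∈ Finset.powersetCard q (Finset.range (a + 1)), wt x S := by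
    intro x hx
    rw [hwt]
    show _ = ∑ S ∈ _, sm (E x) (fun F _ => if V x F = S then W (P0 ∪ F) else 0)
    rw [← sm_sum, ← sm_exact hW (E x) h P0 (hE x hx) hV0 (by omega)]
    refine sm_congr _ fun F r hF => ?_
    rw [Finset.sum_ite_eq]
    rcases Nat.eq_zero_or_pos (W (P0 ∪ F)) with h0 | h0
    · rw [h0, ite_self]
    · obtain ⟨a1, a2, a3⟩ := h1 x hx F r hF h0
      rw [if_pos (Finset.mem_powersetCard.2 ⟨a3, a1⟩)]
  have e2 : ∀ x, x ≤ a → ∀ S, x ∉ S → wt x S = 0 := by
    intro x hx S hS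
    rw [hwt]
    show sm (E x) (fun F _ => if V x F = S then W (P0 ∪ F) else 0) = 0
    refine Nat.le_zero.1 ?_
    refine (sm_le (E x) _ (fun _ _ => 0) fun F r hF => ?_).trans (sm_zero (E x)).le
    split_ifs with h3
    · by_contra h4
      exact hS (h3 ▸ (h1 x hx F r hF (Nat.pos_of_ne_zero (by omega))).2.1)
    · exact le_rfl
  have e3 : ∀ x, x ≤ a → ∀ y, y ≤ a → ∀ S, x ∈ S → y ∈ S → wt x S = wt y S := by
    intro x hx y hy S hxS hyS
    rw [hwt]
    show sm (E x) (fun F _ => if V x F = S then W (P0 ∪ F) else 0) =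
      sm (E y) (fun G _ => if V y G = S then W (P0 ∪ G) else 0)
    have a1 : sm (E x) (fun F _ => if V x F = S then W (P0 ∪ F) else 0) =
        sm (E x) (fun F _ => sm (E y) (fun G _ => if V x F = S then W (P0 ∪ F ∪ G) else 0)) := by
      refine sm_congr _ fun F r hF => ?_
      obtain ⟨b1, b2⟩ := br_size (hE x hx) hF hV0
      by_cases h3 : V x F = S
      · simp only [h3, if_true]
        exact (sm_exact hW (E y) h (P0 ∪ F) (hE y hy) b1 (by omega)).symm
      · simp only [h3, if_false]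
        exact (sm_zero _).symm
    have a2 : sm (E y) (fun G _ => if V y G = S then W (P0 ∪ G) else 0) =
        sm (E y) (fun G _ => sm (E x) (fun F _ => if V y G = S then W (P0 ∪ F ∪ G) else 0)) := by
      refine sm_congr _ fun G r hG => ?_
      obtain ⟨b1, b2⟩ := br_size (hE y hy) hG hV0
      by_cases h3 : V y G = S
      · simp only [h3, if_true]
        rw [← sm_exact hW (E x) h (P0 ∪ G) (hE x hx) b1 (by omega)]
        refine sm_congr _ fun F r' _ => ?_
        rw [Finset.union_right_comm]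
      · simp only [h3, if_false]
        exact (sm_zero _).symm
    rw [a1, a2, sm_comm (E y) (E x)]
    refine sm_congr _ fun F r hF => sm_congr _ fun G r' hG => ?_
    rcases Nat.eq_zero_or_pos (W (P0 ∪ F ∪ G)) with h0 | h0
    · rw [h0, ite_self, ite_self]
    · refine if_congr ?_ rfl rfl
      constructor
      · intro h3
        rw [← h3]
        exact h2 x hx F r hF y hy (h3 ▸ hyS) G r' hG h0
      · intro h3
        rw [← h3]
        have h4 : 0 < W (P0 ∪ G ∪ F) := by
          rw [Finset.union_right_comm]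
          exact h0
        exact h2 y hy G r' hG x hx (h3 ▸ hxS) F r hF h4
  have e4 : (a + 1) * W P0 = ∑ S ∈ Finset.powersetCard q (Finset.range (a + 1)),
      ∑ x ∈ Finset.range (a + 1), wt x S := by
    rw [Finset.sum_comm]
    calc (a + 1) * W P0 = ∑ x ∈ Finset.range (a + 1), W P0 := by
          rw [Finset.sum_const, Finset.card_range, smul_eq_mul]
      _ = _ := Finset.sum_congr rfl fun x hx =>
          e1 x (by have := Finset.mem_range.1 hx; omega)
  rw [e4]
  refine Finset.dvd_sum fun S hS => ?_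
  obtain ⟨hS1, hS2⟩ := Finset.mem_powersetCard.1 hS
  have hle : ∀ x ∈ S, x ≤ a := fun x hx => by
    have := Finset.mem_range.1 (hS1 hx)
    omega
  rw [← Finset.sum_subset hS1 fun x hx hxS =>
    e2 x (by have := Finset.mem_range.1 hx; omega) S hxS]
  rcases S.eq_empty_or_nonempty with h0 | ⟨x0, hx0⟩
  · rw [h0, Finset.sum_empty]
    exact dvd_zero _
  · rw [Finset.sum_congr rfl fun x hx => e3 x (hle x hx) x0 (hle x0 hx0) S hx hx0,
      Finset.sum_const, hS2, smul_eq_mul]
    exact dvd_mul_right _ _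

end

end Pool.Agent.Work.MP_610017_lc.PP
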