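import Mathlib
import Pool.Agent.Work.MP_610017_lc.PP.Neg
import Pool.Agent.Work.MP_610017_lc.PP.Sm

/-!
# The finite form of the pigeonhole principle (MP_610017_lc, block PP)
-/

set_option autoImplicit false

namespace Pool.Agent.Work.MP_610017_lc.PP

/-- `∃ y ≤ b, φ (x, y) ∧ y ≠ b` in the context `(x, b, e)` -/
def pE {v : ℕ} (φ : Fm (v + 2)) : Fm (v + 1 + 1) :=
  .bex (.var ⟨1, by omega⟩) (cnj [lit φ 2 0 1 (by omega) (by omega), nea v 2 1 (by omega)])

/-- `∃ x ≤ b, φ (x, y)` in the context `(y, b, e)` -/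
def pD {v : ℕ} (φ : Fm (v + 2)) : Fm (v + 1 + 1) :=
  .bex (.var ⟨1, by omega⟩) (lit φ 2 1 0 (by omega) (by omega))

/-- some `x ≤ b` has no value -/
def vE {v : ℕ} (φ : Fm (v + 2)) : Fm (v + 1) := exs 1 (.neg (pE φ))

/-- there is a collision -/
def vC {v : ℕ} (φ : Fm (v + 2)) : Fm (v + 1) :=
  exs 3 (cnj [lit φ 3 0 2 (by omega) (by omega), lit φ 3 1 2 (by omega) (by omega),
    nel v 3 0 1 (by omega) (by omega), nea v 3 2 (by omega)])

/-- a false formula which contains `pD φ` -/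
def vD {v : ℕ} (φ : Fm (v + 2)) : Fm (v + 1) := exs 1 (cnj [pD φ, .neg (.eq .zero .zero)])

/-- the disjunction of the three formulas -/
def vP {v : ℕ} (φ : Fm (v + 2)) : Fm (v + 1) :=
  .neg (cnj [.neg (vE φ), .neg (vC φ), .neg (vD φ)])

/-- the sequence `x, y, y, …` -/
def X2 {M : Type} (x y : M) : ℕ → M := fun i => if i = 0 then x else y

/-- the sequence `x, x', y, y, …` -/
def X3 {M : Type} (x x' y : M) : ℕ → M := fun i => if i = 0 then x else if i = 1 then x' else y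

/-- false branches of the tree of a disjunction -/
theorem dis_br {k n h w : ℕ} {ρ : Res k n} {e : Fin w → ℕ} {L : List (Fm w)} {T : Tree k n}
    {B : Finset (Fact k n)} (hT : Rep ρ h (Fm.neg (cnj (L.map Fm.neg))).toGm e T)
    (hB : Br T B false) : ∀ ψ ∈ L, ∃ T' B', Rep ρ h ψ.toGm e T' ∧ Br T' B' false ∧ B' ⊆ B := by
  intro ψ hψ
  obtain ⟨T1, h1, h2⟩ := neg_br hT hB
  obtain ⟨T2, B2, h3, h4, h5⟩ := cnj_true _ T1 B h1 h2 (Fm.neg ψ) (List.mem_map_of_mem hψ)
  obtain ⟨T3, h6, h7⟩ := neg_br h3 h4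
  exact ⟨T3, B2, h6, h7, h5⟩

/-- The core of the pigeonhole principle. -/
theorem coreP {k n h v : ℕ} (ρ : Res k n) (φ : Fm (v + 2)) (a : ℕ) (e : Fin v → ℕ)
    (T : Tree k n) (B : Finset (Fact k n)) (hT : Rep ρ h (vP φ).toGm (Fin.cons (a + 1) e) T)
    (hB : Br T B false) (hC : Con ρ B) (hk : 1000 * h + 1000 ≤ k)
    (hI : 1000 * h + 1000 ≤ ρ.I.card) : False := by
  classical
  obtain ⟨cB, vB⟩ := pf_BrBasic k n h T B false (pf_RepHLe _ _ _ _ _ _ _ _ hT) hB
  have hL := dis_br (L := [vE φ, vC φ, vD φ]) hT hB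
  obtain ⟨TE, BE, hE1, hE2, hE3⟩ := hL (vE φ) (by simp)
  obtain ⟨TC, BC, hC1, hC2, hC3⟩ := hL (vC φ) (by simp)
  obtain ⟨TD, BD, hD1, -, -⟩ := hL (vD φ) (by simp)
  -- the trees for `∃ y`
  have hE : ∀ x, ∃ E Ty, x ≤ a + 1 → Rep ρ h (pE φ).toGm (Fin.cons x (Fin.cons (a + 1) e)) E ∧
      (∀ y, y ≤ a + 1 → Rep ρ h (cnj [lit φ 2 0 1 (by omega) (by omega),
        nea v 2 1 (by omega)]).toGm (Fin.cons y (Fin.cons x (Fin.cons (a + 1) e))) (Ty y)) ∧
      OrRep ρ h (a + 1) Ty E := by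
    intro x
    by_cases hx : x ≤ a + 1
    · obtain ⟨T', hT'⟩ := exs_rep 1 (.neg (pE φ)) TE hE1 (fun _ => x) (fun _ _ => hx)
      obtain ⟨E, -, hE⟩ := hT'
      obtain ⟨Ty, h1, h2⟩ := hE
      have hb : (Tm.var (⟨1, by omega⟩ : Fin (v + 1 + 1))).val stdN
        (asg (Fin.cons (a + 1) e : Fin (v + 1) → ℕ) (fun _ => x) 1) = a + 1 :=
        asg_bound (a + 1) e (fun _ => x) 1
      rw [hb] at h1 h2
      refine ⟨E, Ty, fun _ => ⟨⟨Ty, ?_, ?_⟩, h1, h2⟩⟩
      · show ∀ y, y ≤ (Tm.var (⟨1, by omega⟩ : Fin (v + 1 + 1))).val stdN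
          (asg (Fin.cons (a + 1) e : Fin (v + 1) → ℕ) (fun _ => x) 1) → _
        rw [hb]
        exact h1
      · show OrRep ρ h ((Tm.var (⟨1, by omega⟩ : Fin (v + 1 + 1))).val stdN
          (asg (Fin.cons (a + 1) e : Fin (v + 1) → ℕ) (fun _ => x) 1)) Ty E
        rw [hb]
        exact h2
    · exact ⟨.leaf true, fun _ => .leaf true, fun h => absurd h hx⟩
  choose E Ty hE using hE
  -- the trees for `∃ x`
  have hD : ∀ y, ∃ D Tx, y ≤ a + 1 →
      (∀ x, x ≤ a + 1 → Rep ρ h φ.toGm (Fin.cons x (Fin.cons y e)) (Tx x)) ∧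
      OrRep ρ h (a + 1) Tx D := by
    intro y
    by_cases hy : y ≤ a + 1
    · obtain ⟨T', hT'⟩ := exs_rep 1 _ TD hD1 (fun _ => y) (fun _ _ => hy)
      obtain ⟨D, hD⟩ := cnj_rep _ T' hT' (pD φ) (by simp)
      obtain ⟨Tx, h1, h2⟩ := hD
      have hb : (Tm.var (⟨1, by omega⟩ : Fin (v + 1 + 1))).val stdN
        (asg (Fin.cons (a + 1) e : Fin (v + 1) → ℕ) (fun _ => y) 1) = a + 1 :=
        asg_bound (a + 1) e (fun _ => y) 1
      rw [hb] at h1 h2
      refine ⟨D, Tx, fun _ => ⟨fun x hx => ?_, h2⟩⟩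
      exact (lit_rep φ (a + 1) e (X2 y x) 2 1 0 (by omega) (by omega) (Tx x)).1 (h1 x hx)
    · exact ⟨.leaf true, fun _ => .leaf true, fun h => absurd h hy⟩
  choose D Tx hD using hD
  -- the values of `E x`
  have valE : ∀ x, x ≤ a + 1 → ∀ F r, Br (E x) F r → Con ρ (B ∪ F) →
      ∃ y, y ≤ a ∧ Dt ρ h φ e x y F := by
    intro x hx F r hF hCF
    obtain ⟨e1, e2, e3⟩ := hE x hx
    obtain ⟨b1, b2⟩ := br_size e3.1 hF vB
    cases r with
    | false =>
      exfalso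
      obtain ⟨T', G, g1, g2, g3, g4, g5⟩ := neg_block (a := a + 1) (e := e) b1 hCF (by omega)
        (by omega) 1 (.neg (pE φ)) TE BE hE1 hE2 (hE3.trans Finset.subset_union_left)
        (fun _ => x) (fun _ _ => hx)
      obtain ⟨T'', t1, t2⟩ := neg_br g1 g2
      refine agree ρ (by omega) (by omega) (pE φ).toGm _ T'' (E x) t1 e1 G F t2 hF ?_
      refine FinInd_con_mono ?_ g3
      intro f hf
      simp only [Finset.mem_union] at hf ⊢
      tauto
    | true =>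
      obtain ⟨y, hy, F', hF', hd⟩ := e3.2.1 F hF (FinInd_con_mono Finset.subset_union_right hCF)
      have c1 := cnj_true _ _ F' (e2 y hy) hF'
      obtain ⟨T2, G2, t1, t2, t3⟩ := c1 (lit φ 2 0 1 (by omega) (by omega)) (by simp)
      obtain ⟨T3, G3, t4, t5, t6⟩ := c1 (nea v 2 1 (by omega)) (by simp)
      have t7 := (nea_br (X := X2 x y) t4 t5).1 rfl
      have t8 : y ≠ a + 1 := t7
      refine ⟨y, by omega, T2, G2, ?_, t2, fun f hf => hd f (t3 hf)⟩
      exact (lit_rep φ (a + 1) e (X2 x y) 2 0 1 (by omega) (by omega) T2).1 t1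
  -- the values of `D y`
  have valD : ∀ y, y ≤ a → ∀ G r, Br (D y) G r → ∀ Q : Finset (Fact k n), G ⊆ Q →
      (∀ f ∈ Q, Valid f) → Q.card ≤ 27 * h → Con ρ Q → ∀ x, x ≤ a + 1 → Dt ρ h φ e x y Q →
      ∃ x', x' ≤ a + 1 ∧ Dt ρ h φ e x' y G := by
    intro y hy G r hG Q hGQ hVQ hQc hCQ x hx hdt
    obtain ⟨e2, e3⟩ := hD y (by omega)
    cases r with
    | false =>
      exfalso
      obtain ⟨G1, r1, g1, g2⟩ := pf_Ext k n h ρ Q (Tx y x) hVQ hCQ
        (pf_RepHLe _ _ _ _ _ _ _ _ (e2 x hx)) (by omega) (by omega)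
      cases r1 with
      | true =>
        exact e3.2.2 G hG x hx G1 g1 (FinInd_con_mono (Finset.union_subset_union_left hGQ) g2)
      | false =>
        exact fc_of_dt (by omega) (by omega) hdt (Tx y x) G1 (e2 x hx) g1 g2
    | true =>
      obtain ⟨x', hx', F', hF', hd⟩ := e3.2.1 G hG (FinInd_con_mono hGQ hCQ)
      exact ⟨x', hx', Tx y x', F', e2 x' hx', hF', hd⟩
  -- collisions
  have coll : ∀ Q : Finset (Fact k n), B ⊆ Q → (∀ f ∈ Q, Valid f) → Q.card ≤ 27 * h →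
      Con ρ Q → ∀ x x' y, x ≤ a + 1 → x' ≤ a + 1 → y ≤ a → Dt ρ h φ e x y Q →
      Dt ρ h φ e x' y Q → x = x' := by
    intro Q hBQ hVQ hQc hCQ x x' y hx hx' hy d1 d2
    by_contra hne
    obtain ⟨T', G, g1, g2, g3, g4, g5⟩ := neg_block (a := a + 1) (e := e) hVQ hCQ (by omega)
      (by omega) 3 _ TC BC hC1 hC2 (hC3.trans hBQ) (X3 x x' y) (by
        intro i _
        unfold X3
        split_ifs
        · exact hx
        · exact hx'
        · omega)
    obtain ⟨ψ, hψ, T2, G2, t1, t2, t3⟩ := cnj_false _ T' G g1 g2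
    have hcon : Con ρ (Q ∪ G2) := FinInd_con_mono (Finset.union_subset_union_right t3) g3
    simp only [List.mem_cons, List.not_mem_nil, or_false] at hψ
    rcases hψ with rfl | rfl | rfl | rfl
    · exact fc_of_dt (by omega) (by omega) d1 T2 G2
        ((lit_rep φ (a + 1) e (X3 x x' y) 3 0 2 (by omega) (by omega) T2).1 t1) t2 hcon
    · exact fc_of_dt (by omega) (by omega) d2 T2 G2
        ((lit_rep φ (a + 1) e (X3 x x' y) 3 1 2 (by omega) (by omega) T2).1 t1) t2 hcon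
    · have t4 := (nel_br (X := X3 x x' y) t1 t2).2 hne
      exact absurd t4 (by simp)
    · have t4 := (nea_br (X := X3 x x' y) t1 t2).2 (show y ≠ a + 1 by omega)
      exact absurd t4 (by simp)
  -- the weights
  obtain ⟨W, ⟨W1, -⟩, W2, W3⟩ := pse (m := 2) le_rfl ρ B vB (by omega) (by omega) hC
  refine dcP (W := W) W2 (h := h) (a := a) vB (by omega) W1 E D
    (fun x F => if hh : ∃ y, y ≤ a ∧ Dt ρ h φ e x y F then hh.choose else 0)
    (fun y G => if hh : ∃ x, x ≤ a + 1 ∧ Dt ρ h φ e x y G then hh.choose else 0)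
    (fun x hx => (hE x hx).2.2.1) (fun y hy => (hD y (by omega)).2.1) ?_ ?_
  · intro x hx F r hF hpos
    obtain ⟨b1, b2⟩ := br_size (hE x hx).2.2.1 hF vB
    have hex := valE x hx F r hF (W3 _ b1 (by omega) (by omega) hpos)
    show (if h : _ then _ else _) ≤ a
    rw [dif_pos hex]
    exact hex.choose_spec.1
  · intro x hx F r hF G r' hy hG hpos
    obtain ⟨b1, b2⟩ := br_size (hE x hx).2.2.1 hF vB
    obtain ⟨b3, b4⟩ := br_size (hD _ (by omega)).2.1 hG b1
    have hCQ := W3 _ b3 (by omega) (by omega) hpos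
    have hex := valE x hx F r hF (FinInd_con_mono Finset.subset_union_left hCQ)
    simp only [dif_pos hex] at hy hG ⊢
    have d1 := hex.choose_spec.2
    have d1' := dt_mono (Finset.subset_union_right.trans
      (Finset.subset_union_left : B ∪ F ⊆ B ∪ F ∪ G)) d1
    have hex2 := valD _ hy G r' hG _ Finset.subset_union_right b3 (by omega) hCQ x hx d1'
    rw [dif_pos hex2]
    exact coll _ (Finset.subset_union_left.trans Finset.subset_union_left) b3 (by omega) hCQ _ _ _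
      hex2.choose_spec.1 hx hy (dt_mono Finset.subset_union_right hex2.choose_spec.2) d1'

end Pool.Agent.Work.MP_610017_lc.PP
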