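import Mathlib
import Pool.Agent.Work.MP_610017_lc.PP.CoreP

/-!
# The finite form of the modular counting principles (MP_610017_lc, block PP)
-/

set_option autoImplicit false

namespace Pool.Agent.Work.MP_610017_lc.PP

/-- the matrix of `qG` -/
def qM {v : ℕ} (φ : Fm (v + 2)) (j : ℕ) : List (Fm (v + 1 + (j + 2))) :=
  lit φ (j + 2) 0 (j + 1) (by omega) (by omega) ::
    (List.finRange j).map fun i => nel v (j + 2) (i.val + 1) (j + 1) (by omega) (by omega)

/-- `∃ y ≤ a, φ (X 0, y) ∧ y ≠ X 1, …, X j` in the context `X 0, …, X j` -/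
def qG {v : ℕ} (φ : Fm (v + 2)) (j : ℕ) : Fm (v + 1 + (j + 1)) :=
  .bex (.var ⟨j + 1, by omega⟩) (cnj (qM φ j))

/-- some element has no value outside of `X 1, …, X j` -/
def q0 {v : ℕ} (φ : Fm (v + 2)) (j : ℕ) : Fm (v + 1) := exs (j + 1) (.neg (qG φ j))

/-- reflexivity fails -/
def q1 {v : ℕ} (φ : Fm (v + 2)) : Fm (v + 1) := exs 1 (.neg (lit φ 1 0 0 (by omega) (by omega)))

/-- transitivity fails -/
def q2 {v : ℕ} (φ : Fm (v + 2)) : Fm (v + 1) :=
  exs 3 (cnj [lit φ 3 0 1 (by omega) (by omega), lit φ 3 1 2 (by omega) (by omega),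
    .neg (lit φ 3 0 2 (by omega) (by omega))])

/-- the matrix of `q4` -/
def q4M {v : ℕ} (φ : Fm (v + 2)) (q : ℕ) : List (Fm (v + 1 + (q + 2))) :=
  ((List.finRange (q + 1)).map fun i => lit φ (q + 2) 0 (i.val + 1) (by omega) (by omega)) ++
    (List.finRange (q + 1)).flatMap fun j => (List.finRange j.val).map fun i =>
      nel v (q + 2) (i.val + 1) (j.val + 1) (by omega) (by omega)

/-- some element has `q + 1` values -/
def q4 {v : ℕ} (φ : Fm (v + 2)) (q : ℕ) : Fm (v + 1) := exs (q + 2) (cnj (q4M φ q))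

/-- the list of the formulas -/
def qL {v : ℕ} (φ : Fm (v + 2)) (q : ℕ) : List (Fm (v + 1)) :=
  q1 φ :: q2 φ :: q4 φ q :: (List.range q).map (q0 φ)

/-- the disjunction of the formulas -/
def vQ {v : ℕ} (φ : Fm (v + 2)) (q : ℕ) : Fm (v + 1) := .neg (cnj ((qL φ q).map Fm.neg))

/-- The core of the counting principle. -/
theorem coreQ {k n h v q : ℕ} (hq : 1 ≤ q) (ρ : Res k n) (φ : Fm (v + 2)) (a : ℕ)
    (e : Fin v → ℕ) (T : Tree k n) (B : Finset (Fact k n))
    (hT : Rep ρ h (vQ φ q).toGm (Fin.cons a e) T) (hB : Br T B false) (hC : Con ρ B)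
    (hk : 1000 * ((q + 1) * (h + 1)) + 1000 ≤ k)
    (hI : 1000 * ((q + 1) * (h + 1)) + 1000 ≤ ρ.I.card) : q ∣ a + 1 := by
  classical
  obtain ⟨cB, vB⟩ := pf_BrBasic k n h T B false (pf_RepHLe _ _ _ _ _ _ _ _ hT) hB
  obtain ⟨H, hH⟩ : ∃ H, H = q * h := ⟨_, rfl⟩
  have hk' : 1000 * (H + h + q) + 1000 ≤ k ∧ 1000 * (H + h + q) + 1000 ≤ ρ.I.card := by
    have h1 : (q + 1) * (h + 1) = H + h + q + 1 := by rw [hH]; ring
    rw [h1] at hk hI
    omega
  obtain ⟨hk1, hI1⟩ := hk'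
  clear hk hI
  have hL := dis_br (L := qL φ q) hT hB
  obtain ⟨T1, B1, hR1, hF1, hS1⟩ := hL (q1 φ) (by simp [qL])
  obtain ⟨T2, B2, hR2, hF2, hS2⟩ := hL (q2 φ) (by simp [qL])
  obtain ⟨T4, B4, hR4, hF4, hS4⟩ := hL (q4 φ q) (by simp [qL])
  have hL0 : ∀ j, j < q → ∃ T' B', Rep ρ h (q0 φ j).toGm (Fin.cons a e) T' ∧ Br T' B' false ∧
      B' ⊆ B := by
    intro j hj
    refine hL (q0 φ j) ?_
    unfold qL
    refine List.mem_cons_of_mem _ (List.mem_cons_of_mem _ (List.mem_cons_of_mem _ ?_))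
    exact List.mem_map_of_mem (List.mem_range.2 hj)
  -- reflexivity
  have refl' : ∀ Q : Finset (Fact k n), B ⊆ Q → (∀ f ∈ Q, Valid f) → Q.card ≤ 9 * h + 18 * H →
      ∀ x, x ≤ a → Fc ρ h φ e x x Q := by
    intro Q hBQ hVQ hQc x hx T F hT hF hCF
    obtain ⟨b1, b2⟩ := br_size (pf_RepHLe _ _ _ _ _ _ _ _ hT) hF hVQ
    obtain ⟨T', G, g1, g2, g3, g4, g5⟩ := neg_block (a := a) (e := e) b1 hCF (by omega)
      (by omega) 1 _ T1 B1 hR1 hF1 (hS1.trans (hBQ.trans Finset.subset_union_left))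
      (fun _ => x) (fun _ _ => hx)
    obtain ⟨T'', t1, t2⟩ := neg_br g1 g2
    refine agree ρ (by omega) (by omega) φ.toGm _ T'' T
      ((lit_rep φ a e (fun _ => x) 1 0 0 (by omega) (by omega) T'').1 t1) hT G F t2 hF ?_
    refine FinInd_con_mono ?_ g3
    intro f hf
    simp only [Finset.mem_union] at hf ⊢
    tauto
  -- transitivity
  have trans' : ∀ Q : Finset (Fact k n), B ⊆ Q → (∀ f ∈ Q, Valid f) → Q.card ≤ 9 * h + 18 * H →
      ∀ x y z, x ≤ a → y ≤ a → z ≤ a → Fc ρ h φ e x y Q → Fc ρ h φ e y z Q →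
      Fc ρ h φ e x z Q := by
    intro Q hBQ hVQ hQc x y z hx hy hz f1 f2 T F hT hF hCF
    obtain ⟨b1, b2⟩ := br_size (pf_RepHLe _ _ _ _ _ _ _ _ hT) hF hVQ
    obtain ⟨T', G, g1, g2, g3, g4, g5⟩ := neg_block (a := a) (e := e) b1 hCF (by omega)
      (by omega) 3 _ T2 B2 hR2 hF2 (hS2.trans (hBQ.trans Finset.subset_union_left))
      (X3 x y z) (by
        intro i _
        unfold X3
        split_ifs
        · exact hx
        · exact hy
        · exact hz)
    obtain ⟨ψ, hψ, T3, G3, t1, t2, t3⟩ := cnj_false _ T' G g1 g2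
    simp only [List.mem_cons, List.not_mem_nil, or_false] at hψ
    rcases hψ with rfl | rfl | rfl
    · refine f1 T3 G3 ((lit_rep φ a e (X3 x y z) 3 0 1 (by omega) (by omega) T3).1 t1) t2
        (FinInd_con_mono ?_ g3)
      exact (Finset.union_subset_union_right t3).trans
        (Finset.union_subset_union_left Finset.subset_union_left)
    · refine f2 T3 G3 ((lit_rep φ a e (X3 x y z) 3 1 2 (by omega) (by omega) T3).1 t1) t2
        (FinInd_con_mono ?_ g3)
      exact (Finset.union_subset_union_right t3).trans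
        (Finset.union_subset_union_left Finset.subset_union_left)
    · obtain ⟨T'', t4, t5⟩ := neg_br t1 t2
      refine agree ρ (by omega) (by omega) φ.toGm _ T'' T
        ((lit_rep φ a e (X3 x y z) 3 0 2 (by omega) (by omega) T'').1 t4) hT G3 F t5 hF
        (FinInd_con_mono ?_ g3)
      intro f hf
      rcases Finset.mem_union.1 hf with hf | hf
      · exact Finset.mem_union_right _ (t3 hf)
      · exact Finset.mem_union_left _ (Finset.mem_union_right _ hf)
  -- at most `q` values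
  have many : ∀ Q : Finset (Fact k n), B ⊆ Q → (∀ f ∈ Q, Valid f) → Q.card ≤ 9 * h + 18 * H →
      Con ρ Q → ∀ X : ℕ → ℕ, (∀ i, i ≤ q + 1 → X i ≤ a) →
      (∀ i, 1 ≤ i → i ≤ q + 1 → Fc ρ h φ e (X 0) (X i) Q) →
      (∀ i j, 1 ≤ i → i < j → j ≤ q + 1 → X i ≠ X j) → False := by
    intro Q hBQ hVQ hQc hCQ X hX hF hne
    obtain ⟨T', G, g1, g2, g3, g4, g5⟩ := neg_block (a := a) (e := e) hVQ hCQ (by omega)
      (by omega) (q + 2) _ T4 B4 hR4 hF4 (hS4.trans hBQ) X (fun i hi => hX i (by omega))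
    obtain ⟨ψ, hψ, T3, G3, t1, t2, t3⟩ := cnj_false _ T' G g1 g2
    have hcon : Con ρ (Q ∪ G3) := FinInd_con_mono (Finset.union_subset_union_right t3) g3
    unfold q4M at hψ
    rcases List.mem_append.1 hψ with hψ | hψ
    · obtain ⟨i, -, rfl⟩ := List.mem_map.1 hψ
      have hi := i.isLt
      exact hF (i.val + 1) (by omega) (by omega) T3 G3
        ((lit_rep φ a e X (q + 2) 0 (i.val + 1) (by omega) (by omega) T3).1 t1) t2 hcon
    · obtain ⟨j, -, hψ⟩ := List.mem_flatMap.1 hψ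
      obtain ⟨i, -, rfl⟩ := List.mem_map.1 hψ
      have hi := i.isLt
      have hj := j.isLt
      have t4 := (nel_br (X := X) t1 t2).2 (hne (i.val + 1) (j.val + 1) (by omega) (by omega)
        (by omega))
      exact absurd t4 (by simp)
  -- one more value
  have stepG : ∀ j, j < q → ∀ X : ℕ → ℕ, (∀ i, i ≤ j → X i ≤ a) → ∃ E, HLe h E ∧
      ∀ F r, Br E F r → ∀ S : Finset (Fact k n), B ⊆ S → (∀ f ∈ S, Valid f) →
      S.card ≤ 9 * h + 9 * H → Con ρ (S ∪ F) →
      ∃ y, y ≤ a ∧ Dt ρ h φ e (X 0) y F ∧ ∀ i, 1 ≤ i → i ≤ j → y ≠ X i := by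
    intro j hj X hX
    obtain ⟨T0, B0, hR0, hF0, hS0⟩ := hL0 j hj
    obtain ⟨T', hT'⟩ := exs_rep (j + 1) (.neg (qG φ j)) T0 hR0 X (fun i hi => hX i (by omega))
    obtain ⟨E, -, hE⟩ := hT'
    have hE' := hE
    obtain ⟨Ty, h1, h2⟩ := hE'
    have hb : (Tm.var (⟨j + 1, by omega⟩ : Fin (v + 1 + (j + 1)))).val stdN
      (asg (Fin.cons a e : Fin (v + 1) → ℕ) X (j + 1)) = a := asg_bound a e X (j + 1)
    rw [hb] at h1 h2
    refine ⟨E, h2.1, ?_⟩
    intro F r hF S hBS hVS hSc hCF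
    obtain ⟨b1, b2⟩ := br_size h2.1 hF hVS
    cases r with
    | false =>
      exfalso
      obtain ⟨T', G, g1, g2, g3, g4, g5⟩ := neg_block (a := a) (e := e) b1 hCF (by omega)
        (by omega) (j + 1) (.neg (qG φ j)) T0 B0 hR0 hF0
        (hS0.trans (hBS.trans Finset.subset_union_left)) X (fun i hi => hX i (by omega))
      obtain ⟨T'', t1, t2⟩ := neg_br g1 g2
      refine agree ρ (by omega) (by omega) (qG φ j).toGm _ T'' E t1 hE G F t2 hF ?_
      refine FinInd_con_mono ?_ g3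
      intro f hf
      simp only [Finset.mem_union] at hf ⊢
      tauto
    | true =>
      obtain ⟨y, hy, F', hF', hd⟩ := h2.2.1 F hF (FinInd_con_mono Finset.subset_union_right hCF)
      obtain ⟨X', hX'⟩ : ∃ X' : ℕ → ℕ, X' = fun i => if i = j + 1 then y else X i := ⟨_, rfl⟩
      have x1 : X' (j + 1) = y := by rw [hX']; exact if_pos rfl
      have x2 : ∀ i, i ≤ j → X' i = X i := fun i hi => by rw [hX']; exact if_neg (by omega)
      have x3 : (Fin.cons y (asg (Fin.cons a e : Fin (v + 1) → ℕ) X (j + 1)) :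
          Fin (v + 1 + (j + 1) + 1) → ℕ) = asg (Fin.cons a e : Fin (v + 1) → ℕ) X' (j + 2) := by
        show _ = (Fin.cons (X' (j + 1)) (asg (Fin.cons a e : Fin (v + 1) → ℕ) X' (j + 1)) :
          Fin (v + 1 + (j + 1) + 1) → ℕ)
        rw [x1, asg_congr _ (j + 1) fun i hi => x2 i (by omega)]
      have h3 := h1 y hy
      rw [x3] at h3
      have c1 := cnj_true (qM φ j) _ F' h3 hF'
      obtain ⟨T3, G3, t1, t2, t3⟩ := c1 (lit φ (j + 2) 0 (j + 1) (by omega) (by omega))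
        (by simp [qM])
      refine ⟨y, hy, ⟨T3, G3, ?_, t2, fun f hf => hd f (t3 hf)⟩, fun i hi1 hi2 => ?_⟩
      · have t4 := (lit_rep φ a e X' (j + 2) 0 (j + 1) (by omega) (by omega) T3).1 t1
        rw [x1, x2 0 (by omega)] at t4
        exact t4
      · obtain ⟨T5, G5, s1, s2, -⟩ := c1 (nel v (j + 2) i (j + 1) (by omega) (by omega)) (by
          unfold qM
          refine List.mem_cons_of_mem _ (List.mem_map.2 ⟨⟨i - 1, by omega⟩, List.mem_finRange _, ?_⟩)
          have : i - 1 + 1 = i := by omega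
          simp only [this])
        have s3 := (nel_br (X := X') s1 s2).1 rfl
        rw [x1, x2 i hi2] at s3
        exact s3.symm
  -- the classes
  have cls : ∀ j, j ≤ q → ∀ x, x ≤ a → ∃ E, HLe (j * h) E ∧ ∀ F r, Br E F r → Con ρ (B ∪ F) →
      ∃ Y : ℕ → ℕ, Y 0 = x ∧ (∀ i, 1 ≤ i → i ≤ j → Y i ≤ a ∧ Dt ρ h φ e x (Y i) F) ∧
        ∀ i i', 1 ≤ i → i < i' → i' ≤ j → Y i ≠ Y i' := by
    intro j
    induction j with
    | zero =>
      intro _ x _
      refine ⟨.leaf true, by rw [Nat.zero_mul]; trivial, fun F r _ _ => ⟨fun _ => x, rfl, fun i h1 h2 => ?_,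
        fun i i' h1 h2 h3 => ?_⟩⟩ <;> exfalso <;> omega
    | succ j ih =>
      intro hj x hx
      obtain ⟨E, hE1, hE2⟩ := ih (by omega) x hx
      have hjh : j * h ≤ H := by
        rw [hH]
        exact Nat.mul_le_mul_right _ (by omega)
      obtain ⟨T, hT1, hT2⟩ := prf_Graft k n (j * h) h E
        (fun F T => Con ρ (B ∪ F) → ∃ Y : ℕ → ℕ, Y 0 = x ∧
          (∀ i, 1 ≤ i → i ≤ j → Y i ≤ a ∧ Dt ρ h φ e x (Y i) F) ∧
          (∀ i i', 1 ≤ i → i < i' → i' ≤ j → Y i ≠ Y i') ∧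
          ∀ F2 r2, Br T F2 r2 → Con ρ (B ∪ F ∪ F2) →
            ∃ y, y ≤ a ∧ Dt ρ h φ e x y F2 ∧ ∀ i, 1 ≤ i → i ≤ j → y ≠ Y i) hE1 (by
        intro F r hF
        by_cases hcon : Con ρ (B ∪ F)
        · obtain ⟨Y, y0, y1, y2⟩ := hE2 F r hF hcon
          obtain ⟨T, t1, t2⟩ := stepG j (by omega) Y (fun i hi => by
            rcases Nat.eq_zero_or_pos i with h0 | h0
            · rw [h0, y0]
              exact hx
            · exact (y1 i h0 hi).1)
          obtain ⟨b1, b2⟩ := br_size hE1 hF vB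
          refine ⟨T, t1, fun _ => ⟨Y, y0, y1, y2, fun F2 r2 hF2 hc2 => ?_⟩⟩
          have t3 := t2 F2 r2 hF2 (B ∪ F) Finset.subset_union_left b1 (by omega) hc2
          rw [y0] at t3
          exact t3
        · exact ⟨.leaf true, by cases h <;> trivial, fun hc => absurd hc hcon⟩)
      refine ⟨T, by rw [Nat.succ_mul]; exact hT1, ?_⟩
      intro F r hF hcon
      obtain ⟨F1, r1, F2, T2, k1, k2, k3, rfl⟩ := hT2 F r hF
      rw [← Finset.union_assoc] at hcon
      obtain ⟨Y, y0, y1, y2, y3⟩ := k2 (FinInd_con_mono Finset.subset_union_left hcon)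
      obtain ⟨y, z1, z2, z3⟩ := y3 F2 r k3 hcon
      refine ⟨fun i => if i = j + 1 then y else Y i, ?_, ?_, ?_⟩
      · show (if 0 = j + 1 then y else Y 0) = x
        rw [if_neg (by omega), y0]
      · intro i h1 h2
        show (if i = j + 1 then y else Y i) ≤ a ∧
          Dt ρ h φ e x (if i = j + 1 then y else Y i) (F1 ∪ F2)
        split_ifs with h3
        · exact ⟨z1, dt_mono Finset.subset_union_right z2⟩
        · obtain ⟨w1, w2⟩ := y1 i h1 (by omega)
          exact ⟨w1, dt_mono Finset.subset_union_left w2⟩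
      · intro i i' h1 h2 h3
        show (if i = j + 1 then y else Y i) ≠ (if i' = j + 1 then y else Y i')
        rw [if_neg (by omega : ¬ i = j + 1)]
        split_ifs with h4
        · exact (z3 i h1 (by omega)).symm
        · exact y2 i i' h1 h2 (by omega)
  -- the trees
  have hE : ∀ x, ∃ E : Tree k n, x ≤ a → HLe H E ∧ ∀ F r, Br E F r → Con ρ (B ∪ F) →
      ∃ Y : ℕ → ℕ, Y 0 = x ∧ (∀ i, 1 ≤ i → i ≤ q → Y i ≤ a ∧ Dt ρ h φ e x (Y i) F) ∧
        ∀ i i', 1 ≤ i → i < i' → i' ≤ q → Y i ≠ Y i' := by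
    intro x
    by_cases hx : x ≤ a
    · obtain ⟨E, h1, h2⟩ := cls q le_rfl x hx
      exact ⟨E, fun _ => ⟨by rw [hH]; exact h1, h2⟩⟩
    · exact ⟨.leaf true, fun h => absurd h hx⟩
  choose E hE using hE
  obtain ⟨V, hV⟩ : ∃ V : ℕ → Finset (Fact k n) → Finset ℕ, V = fun x F =>
    if hh : ∃ Y : ℕ → ℕ, Y 0 = x ∧ (∀ i, 1 ≤ i → i ≤ q → Y i ≤ a ∧ Dt ρ h φ e x (Y i) F) ∧
      ∀ i i', 1 ≤ i → i < i' → i' ≤ q → Y i ≠ Y i' then (Finset.Icc 1 q).image hh.choose
    else ∅ := ⟨_, rfl⟩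
  have hVs : ∀ x, x ≤ a → ∀ F r, Br (E x) F r → Con ρ (B ∪ F) → ∃ Y : ℕ → ℕ,
      V x F = (Finset.Icc 1 q).image Y ∧ Y 0 = x ∧
      (∀ i, 1 ≤ i → i ≤ q → Y i ≤ a ∧ Dt ρ h φ e x (Y i) F) ∧
        ∀ i i', 1 ≤ i → i < i' → i' ≤ q → Y i ≠ Y i' := by
    intro x hx F r hF hcon
    have hex := (hE x hx).2 F r hF hcon
    refine ⟨hex.choose, ?_, hex.choose_spec⟩
    rw [hV]
    show (if hh : _ then _ else _) = _
    rw [dif_pos hex]
  have hVc : ∀ x, x ≤ a → ∀ F r, Br (E x) F r → Con ρ (B ∪ F) → (V x F).card = q := by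
    intro x hx F r hF hcon
    obtain ⟨Y, h1, h2, h3, h4⟩ := hVs x hx F r hF hcon
    rw [h1, Finset.card_image_of_injOn, Nat.card_Icc]
    · omega
    · intro i hi j hj hij
      have hi' := Finset.mem_Icc.1 (Finset.mem_coe.1 hi)
      have hj' := Finset.mem_Icc.1 (Finset.mem_coe.1 hj)
      rcases lt_trichotomy i j with h5 | h5 | h5
      · exact absurd hij (h4 i j hi'.1 h5 hj'.2)
      · exact h5
      · exact absurd hij.symm (h4 j i hj'.1 h5 hi'.2)
  -- forced elements are in the class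
  have mem_of : ∀ x, x ≤ a → ∀ F r, Br (E x) F r → ∀ Q : Finset (Fact k n), B ∪ F ⊆ Q →
      (∀ f ∈ Q, Valid f) → Q.card ≤ 9 * h + 18 * H → Con ρ Q → ∀ z, z ≤ a →
      Fc ρ h φ e x z Q → z ∈ V x F := by
    intro x hx F r hF Q hBQ hVQ hQc hCQ z hz hfc
    obtain ⟨Y, h1, h2, h3, h4⟩ := hVs x hx F r hF (FinInd_con_mono hBQ hCQ)
    by_contra hzV
    refine many Q (Finset.subset_union_left.trans hBQ) hVQ hQc hCQ
      (fun i => if i = q + 1 then z else Y i) ?_ ?_ ?_
    · intro i hi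
      show (if i = q + 1 then z else Y i) ≤ a
      split_ifs with h5
      · exact hz
      · rcases Nat.eq_zero_or_pos i with h0 | h0
        · rw [h0, h2]
          exact hx
        · exact (h3 i h0 (by omega)).1
    · intro i hi1 hi2
      show Fc ρ h φ e (if 0 = q + 1 then z else Y 0) (if i = q + 1 then z else Y i) Q
      rw [if_neg (by omega : ¬ 0 = q + 1), h2]
      split_ifs with h5
      · exact hfc
      · exact fc_of_dt (by omega) (by omega)
          (dt_mono (Finset.subset_union_right.trans hBQ) (h3 i hi1 (by omega)).2)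
    · intro i j hi hij hj
      show (if i = q + 1 then z else Y i) ≠ (if j = q + 1 then z else Y j)
      rw [if_neg (by omega : ¬ i = q + 1)]
      split_ifs with h5
      · intro h6
        apply hzV
        rw [h1, ← h6]
        exact Finset.mem_image_of_mem _ (Finset.mem_Icc.2 ⟨hi, by omega⟩)
      · exact h4 i j hi hij (by omega)
  -- the weights
  obtain ⟨W, ⟨W1, W1'⟩, W2, W3⟩ := pse (m := q + 1) (by omega) ρ B vB (by omega) (by omega) hC
  have hdvd : q ∣ (a + 1) * W B := by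
    refine dcQ (W := W) W2 (h := H) (a := a) vB (by omega) E V (fun x hx => (hE x hx).1) ?_ ?_
    · intro x hx F r hF hpos
      obtain ⟨b1, b2⟩ := br_size (hE x hx).1 hF vB
      have hcon := W3 _ b1 (by omega) (by omega) hpos
      refine ⟨hVc x hx F r hF hcon, ?_, ?_⟩
      · exact mem_of x hx F r hF _ (Finset.Subset.refl _) b1 (by omega) hcon x hx
          (refl' _ Finset.subset_union_left b1 (by omega) x hx)
      · obtain ⟨Y, h1, h2, h3, h4⟩ := hVs x hx F r hF hcon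
        rw [h1]
        intro z hz
        obtain ⟨i, hi, rfl⟩ := Finset.mem_image.1 hz
        have hi' := Finset.mem_Icc.1 hi
        exact Finset.mem_range.2 (Nat.lt_succ_of_le (h3 i hi'.1 hi'.2).1)
    · intro x hx F r hF y hy hyV G r' hG hpos
      obtain ⟨b1, b2⟩ := br_size (hE x hx).1 hF vB
      obtain ⟨b3, b4⟩ := br_size (hE y hy).1 hG b1
      have hCQ := W3 _ b3 (by omega) (by omega) hpos
      have hC1 : Con ρ (B ∪ F) := FinInd_con_mono Finset.subset_union_left hCQ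
      have hsub : B ∪ G ⊆ B ∪ F ∪ G := by
        intro f hf
        simp only [Finset.mem_union] at hf ⊢
        tauto
      have hC2 : Con ρ (B ∪ G) := FinInd_con_mono hsub hCQ
      obtain ⟨Y, h1, h2, h3, h4⟩ := hVs x hx F r hF hC1
      obtain ⟨Z, k1, k2, k3, k4⟩ := hVs y hy G r' hG hC2
      refine Finset.eq_of_subset_of_card_le ?_ ?_
      · intro z hz
        rw [k1] at hz
        obtain ⟨i, hi, rfl⟩ := Finset.mem_image.1 hz
        have hi' := Finset.mem_Icc.1 hi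
        rw [h1] at hyV
        obtain ⟨i2, hi2, hy2⟩ := Finset.mem_image.1 hyV
        have hi2' := Finset.mem_Icc.1 hi2
        obtain ⟨z1, z2⟩ := k3 i hi'.1 hi'.2
        have d1 := (h3 i2 hi2'.1 hi2'.2).2
        rw [hy2] at d1
        have f1 : Fc ρ h φ e x y (B ∪ F ∪ G) := fc_of_dt (by omega) (by omega)
          (dt_mono (Finset.subset_union_right.trans
            (Finset.subset_union_left : B ∪ F ⊆ B ∪ F ∪ G)) d1)
        have f2 : Fc ρ h φ e y (Z i) (B ∪ F ∪ G) := fc_of_dt (by omega) (by omega)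
          (dt_mono Finset.subset_union_right z2)
        exact mem_of x hx F r hF _ Finset.subset_union_left b3 (by omega) hCQ _ z1
          (trans' _ (Finset.subset_union_left.trans Finset.subset_union_left) b3 (by omega)
            x y (Z i) hx hy z1 f1 f2)
      · rw [hVc x hx F r hF hC1, hVc y hy G r' hG hC2]
  have hcop : Nat.Coprime q (W B) := by
    refine Nat.Coprime.coprime_dvd_right W1' ?_
    exact Nat.Coprime.pow_right _ (by simp)
  exact hcop.dvd_of_dvd_mul_right hdvd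

end Pool.Agent.Work.MP_610017_lc.PP
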