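import Mathlib
import Pool.Agent.Work.MP_610017_lc.Logic

/-!
# The pigeonhole principle and the modular counting principles for bounded formulas (MP_610017_lc)
-/

set_option autoImplicit false

namespace Pool.Agent.Work.MP_610017_lc

/-- The pigeonhole principle for all bounded formulas `φ` (the relation symbol `R` may occur) with
parameters `e`: every relation `φ (x, y)` between `{x | x ≤ a + 1}` and `{y | y ≤ a}` such that
every `x` has some `y` has a collision, two different `x`, `x'` with the same `y`. -/
def PHP {M : Type} (N : Str M) : Prop :=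
  ∀ (v : ℕ) (φ : Fm (v + 2)) (e : Fin v → M) (a : M),
    (∀ x, N.le x (N.succ a) → ∃ y, N.le y a ∧ φ.sat N (Fin.cons x (Fin.cons y e))) →
    ∃ x x' y, N.le x (N.succ a) ∧ N.le x' (N.succ a) ∧ x ≠ x' ∧
      N.le y a ∧ φ.sat N (Fin.cons x (Fin.cons y e)) ∧ φ.sat N (Fin.cons x' (Fin.cons y e))

/-- The counting principle modulo `q` for all bounded formulas `φ` (the relation symbol `R` may
occur) with parameters `e`: if `φ (x, y)` is an equivalence relation on `{x | x ≤ a}` and every
class has exactly `q` elements, then `q` divides `a + 1`. -/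
def CountMod {M : Type} (N : Str M) (q : ℕ) : Prop :=
  ∀ (v : ℕ) (φ : Fm (v + 2)) (e : Fin v → M) (a : M),
    (∀ x, N.le x a → φ.sat N (Fin.cons x (Fin.cons x e))) →
    (∀ x y, N.le x a → N.le y a → φ.sat N (Fin.cons x (Fin.cons y e)) →
      φ.sat N (Fin.cons y (Fin.cons x e))) →
    (∀ x y z, N.le x a → N.le y a → N.le z a → φ.sat N (Fin.cons x (Fin.cons y e)) →
      φ.sat N (Fin.cons y (Fin.cons z e)) → φ.sat N (Fin.cons x (Fin.cons z e))) →
    (∀ x, N.le x a → {y | N.le y a ∧ φ.sat N (Fin.cons x (Fin.cons y e))}.ncard = q) →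
    ∃ c, N.mul (N.num q) c = N.succ a

end Pool.Agent.Work.MP_610017_lc
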