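import Mathlib
import Pool.Agent.Work.MP_610017_lc.PP.Def
import Pool.Agent.Work.MP_610017_lc.PP.CoreQ

/-!
# The pigeonhole principle and the counting principles in the model (MP_610017_lc, block PP)
-/

set_option autoImplicit false

namespace Pool.Agent.Work.MP_610017_lc.PP

/-- trees for a formula which is false in the model: branches in two coverings -/
theorem false_branch (s : SD) {v : ℕ} (φ : Gm v) (R : Fin v → BSeq s)
    (h : ¬ φ.sat (MStr s) (fun j => MM.mk (R j))) :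
    ∃ h0 N0 : ℕ, ∀ H, h0 ≤ H → ∀ N N', N0 ≤ N → N0 ≤ N' → ∀ᶠ i in UU,
      ∃ (T : Tree (s.kk i) (s.nn i)) (F : Finset (Fact (s.kk i) (s.nn i))),
        Rep (s.ρ i) H φ (fun j => (R j).1 i) T ∧ Br T F false ∧
        (∀ f ∈ F, holds (gw (s.ρ i) N) f) ∧ ∀ f ∈ F, holds (gw (s.ρ i) N') f := by
  obtain ⟨J, hJ⟩ : ∃ J, ∀ᶠ i in UU, ∀ j, (R j).1 i ≤ (s.nn i + 1) ^ J := by
    have h1 := fun j => (R j).2
    choose J hJ using h1
    refine ⟨Finset.univ.sup J, Filter.eventually_all.2 fun j => ?_⟩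
    filter_upwards [hJ j] with i hi
    exact hi.trans (Nat.pow_le_pow_right (Nat.succ_pos _) (Finset.le_sup (Finset.mem_univ j)))
  obtain ⟨h0, i0, hex⟩ := s.ex v φ J
  have hch : ∀ i, ∃ T : Tree (s.kk i) (s.nn i),
      (∃ T, Rep (s.ρ i) h0 φ (fun j => (R j).1 i) T) →
        Rep (s.ρ i) h0 φ (fun j => (R j).1 i) T := by
    intro i
    by_cases hc : ∃ T, Rep (s.ρ i) h0 φ (fun j => (R j).1 i) T
    · obtain ⟨T, hT⟩ := hc
      exact ⟨T, fun _ => hT⟩
    · exact ⟨.leaf true, fun h => absurd h hc⟩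
  choose T hT using hch
  have hP : ∀ᶠ i in UU, Rep (s.ρ i) h0 φ (fun j => (R j).1 i) (T i) := by
    filter_upwards [hJ, UU_ge i0] with i hi hi0
    exact hT i (hex i hi0 _ hi)
  have hT0 : ¬ EvT s T := fun hev => h ((pf_Truth s v φ h0 R T hP).2 hev)
  have hh : ∀ᶠ i in UU, HLe h0 (T i) := hP.mono fun i hi => pf_RepHLe _ _ _ _ _ _ _ _ hi
  obtain ⟨N0, hN0⟩ := prf_Stab s h0 T hh
  refine ⟨h0, N0, fun H hH N N' hN hN' => ?_⟩
  filter_upwards [hP, hh, hN0 N hN, hN0 N' hN', IndM_false s T N0 hN0 hT0 N hN] with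
    i p1 p2 p3 p4 p5
  obtain ⟨F, f1, f2, f3, -⟩ := IndM_branch prf_Ev pf_BrBasic (s.ρ i) N N' (T i) p2
    (by rw [p3, p4]) false p5
  exact ⟨T i, F, pf_RepMono _ _ _ _ _ _ _ _ _ _ (Exist_refl _) hH p1, f1, f2, f3⟩

/-- A formula which is false in the model: consistent false branches, at almost all places. -/
theorem false_con (s : SD) {v : ℕ} (ψ : Fm (v + 1)) (a : BSeq s) (r : Fin v → BSeq s)
    (h : ¬ ψ.sat (MStr s) (Fin.cons (MM.mk a) fun j => MM.mk (r j))) :
    ∃ h0 : ℕ, ∀ K : ℕ, ∀ᶠ i in UU, K ≤ s.kk i ∧ K ≤ (s.ρ i).I.card ∧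
      ∃ (T : Tree (s.kk i) (s.nn i)) (B : Finset (Fact (s.kk i) (s.nn i))),
        Rep (s.ρ i) h0 ψ.toGm (Fin.cons (a.1 i) fun j => (r j).1 i) T ∧ Br T B false ∧
        Con (s.ρ i) B := by
  set R : Fin (v + 1) → BSeq s := Fin.cons a r with hR
  have hRsat : (fun j => MM.mk (R j)) = (Fin.cons (MM.mk a) (fun j => MM.mk (r j)) :
      Fin (v + 1) → MM s) := by
    funext j
    refine Fin.cases rfl (fun j => rfl) j
  have hRval : ∀ i, (fun j => (R j).1 i) =
      (Fin.cons (a.1 i) (fun j => (r j).1 i) : Fin (v + 1) → ℕ) := by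
    intro i
    funext j
    refine Fin.cases rfl (fun j => rfl) j
  have hn : ¬ ψ.toGm.sat (MStr s) (fun j => MM.mk (R j)) := by
    rw [hRsat, Fm.sat_toGm]
    exact h
  obtain ⟨h0, N0, H⟩ := false_branch s ψ.toGm R hn
  refine ⟨h0, fun K => ?_⟩
  filter_upwards [H h0 le_rfl N0 (N0 + 9 * h0 + 1) le_rfl (by omega),
    UU_ge (K + N0 + 9 * h0 + 5)] with i p hi
  have hk := s.le_kk i
  have hI := s.le_I i
  obtain ⟨T, B, b1, b2, b3, b4⟩ := p
  rw [hRval i] at b1
  obtain ⟨c1, c2⟩ := pf_BrBasic _ _ h0 T B false (pf_RepHLe _ _ _ _ _ _ _ _ b1) b2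
  exact ⟨by omega, by omega, T, B, b1, b2,
    pf_LE _ _ (s.ρ i) N0 (N0 + 9 * h0 + 1) B c2 b3 b4 (by omega) (by omega) (by omega)⟩

theorem dis_sat {M : Type} (N : Str M) {w : ℕ} (e : Fin w → M) (L : List (Fm w)) :
    (Fm.neg (cnj (L.map Fm.neg))).sat N e ↔ ∃ ψ ∈ L, ψ.sat N e := by
  show ¬ (cnj (L.map Fm.neg)).sat N e ↔ _
  rw [cnj_sat]
  constructor
  · intro h
    by_contra hc
    apply h
    intro ψ hψ
    obtain ⟨χ, hχ, rfl⟩ := List.mem_map.1 hψ
    exact fun h2 => hc ⟨χ, hχ, h2⟩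
  · rintro ⟨ψ, hψ, h⟩ h2
    exact h2 (.neg ψ) (List.mem_map_of_mem hψ) h

theorem M_le_succ {s : SD} {a y : MM s} (h : (MStr s).le y a) :
    (MStr s).le y ((MStr s).succ a) ∧ y ≠ (MStr s).succ a := by
  obtain ⟨ra, rfl⟩ : ∃ ra : BSeq s, a = MM.mk ra := ⟨_, (Quotient.out_eq a).symm⟩
  obtain ⟨ry, rfl⟩ : ∃ ry : BSeq s, y = MM.mk ry := ⟨_, (Quotient.out_eq y).symm⟩
  rw [MStr_le] at h
  rw [MStr_succ]
  have h2 : (MStr s).lt (MM.mk ry) (MM.mk (BSeq.succ ra)) := by
    rw [MStr_lt]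
    filter_upwards [h] with i hi
    exact Nat.lt_succ_of_le hi
  exact h2

theorem M_of_succ {s : SD} {a y : MM s} (h : (MStr s).le y ((MStr s).succ a))
    (h2 : y ≠ (MStr s).succ a) : (MStr s).le y a := by
  obtain ⟨ra, rfl⟩ : ∃ ra : BSeq s, a = MM.mk ra := ⟨_, (Quotient.out_eq a).symm⟩
  obtain ⟨ry, rfl⟩ : ∃ ry : BSeq s, y = MM.mk ry := ⟨_, (Quotient.out_eq y).symm⟩
  rw [MStr_succ] at h h2
  have h3 : (MStr s).lt (MM.mk ry) (MM.mk (BSeq.succ ra)) := ⟨h, h2⟩
  rw [MStr_lt] at h3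
  rw [MStr_le]
  filter_upwards [h3] with i hi
  exact Nat.le_of_lt_succ hi

/-- The model satisfies the pigeonhole principle for all bounded formulas. -/
theorem php (s : SD) : PHP (MStr s) := by
  intro v φ e a hall
  by_contra hcol
  obtain ⟨r, rfl⟩ := MM.reps e
  have hf : ¬ (vP φ).sat (MStr s) (Fin.cons ((MStr s).succ a) fun j => MM.mk (r j)) := by
    intro h
    obtain ⟨ψ, hψ, hs⟩ := (dis_sat (MStr s) _ [vE φ, vC φ, vD φ]).1 h
    simp only [List.mem_cons, List.not_mem_nil, or_false] at hψ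
    rcases hψ with rfl | rfl | rfl
    · obtain ⟨X, hX, h1⟩ := (exs_sat (MStr s) _ _ 1 _).1 hs
      obtain ⟨y, hy, hxy⟩ := hall (X 0) (hX 0 (by omega))
      obtain ⟨y1, y2⟩ := M_le_succ hy
      apply h1
      refine ⟨y, ?_, ?_⟩
      · show (MStr s).le y (asg _ X 1 ⟨1, _⟩)
        rw [asg_bound]
        exact y1
      · show (cnj _).sat (MStr s) (asg (Fin.cons ((MStr s).succ a) fun j => MM.mk (r j))
          (X2 (X 0) y) 2)
        rw [cnj_sat]
        intro ψ hψ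
        simp only [List.mem_cons, List.not_mem_nil, or_false] at hψ
        rcases hψ with rfl | rfl
        · rw [lit_sat]
          exact hxy
        · rw [nea_sat]
          exact y2
    · obtain ⟨X, hX, h1⟩ := (exs_sat (MStr s) _ _ 3 _).1 hs
      rw [cnj_sat] at h1
      have a1 := (lit_sat _ _ _ _ _ _ _ _ _ _).1 (h1 (lit φ 3 0 2 (by omega) (by omega)) (by simp))
      have a2 := (lit_sat _ _ _ _ _ _ _ _ _ _).1 (h1 (lit φ 3 1 2 (by omega) (by omega)) (by simp))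
      have a3 := (nel_sat _ _ _ _ _ _ _ _ _).1 (h1 (nel v 3 0 1 (by omega) (by omega)) (by simp))
      have a4 := (nea_sat _ _ _ _ _ _ _).1 (h1 (nea v 3 2 (by omega)) (by simp))
      exact hcol ⟨X 0, X 1, X 2, hX 0 (by omega), hX 1 (by omega), a3,
        M_of_succ (hX 2 (by omega)) a4, a1, a2⟩
    · obtain ⟨X, hX, h1⟩ := (exs_sat (MStr s) _ _ 1 _).1 hs
      rw [cnj_sat] at h1
      exact h1 (.neg (.eq .zero .zero)) (by simp) rfl
  obtain ⟨ra, rfl⟩ : ∃ ra : BSeq s, a = MM.mk ra := ⟨_, (Quotient.out_eq a).symm⟩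
  rw [MStr_succ] at hf
  obtain ⟨h, H⟩ := false_con s (vP φ) (BSeq.succ ra) r hf
  apply UU_false
  filter_upwards [H (1000 * h + 1000)] with i p
  obtain ⟨p1, p2, T, B, b1, b2, b3⟩ := p
  exact coreP (s.ρ i) φ (ra.1 i) (fun j => (r j).1 i) T B b1 b2 b3 p1 p2

theorem M_num (s : SD) (c : ℕ) : (MStr s).num c = MM.mk (BSeq.const s c) := Rels_num s c

/-- The model satisfies the counting principles for all bounded formulas. -/
theorem countMod (s : SD) (q : ℕ) (hq : 1 ≤ q) : CountMod (MStr s) q := by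
  classical
  intro v φ e a hrefl _ htrans hcard
  obtain ⟨r, rfl⟩ := MM.reps e
  have hfin : ∀ x, (MStr s).le x a →
      {y | (MStr s).le y a ∧ φ.sat (MStr s) (Fin.cons x (Fin.cons y fun j => MM.mk (r j)))}.Finite :=
    fun x hx => Set.finite_of_ncard_pos (by rw [hcard x hx]; omega)
  have hf : ¬ (vQ φ q).sat (MStr s) (Fin.cons a fun j => MM.mk (r j)) := by
    intro h
    obtain ⟨ψ, hψ, hs⟩ := (dis_sat (MStr s) _ (qL φ q)).1 h
    unfold qL at hψ
    rcases List.mem_cons.1 hψ with rfl | hψ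
    · obtain ⟨X, hX, h1⟩ := (exs_sat (MStr s) _ _ 1 _).1 hs
      exact h1 ((lit_sat _ _ _ _ _ _ _ _ _ _).2 (hrefl (X 0) (hX 0 (by omega))))
    rcases List.mem_cons.1 hψ with rfl | hψ
    · obtain ⟨X, hX, h1⟩ := (exs_sat (MStr s) _ _ 3 _).1 hs
      rw [cnj_sat] at h1
      have a1 := (lit_sat _ _ _ _ _ _ _ _ _ _).1 (h1 (lit φ 3 0 1 (by omega) (by omega)) (by simp))
      have a2 := (lit_sat _ _ _ _ _ _ _ _ _ _).1 (h1 (lit φ 3 1 2 (by omega) (by omega)) (by simp))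
      have a3 := h1 (.neg (lit φ 3 0 2 (by omega) (by omega))) (by simp)
      exact a3 ((lit_sat _ _ _ _ _ _ _ _ _ _).2 (htrans _ _ _ (hX 0 (by omega))
        (hX 1 (by omega)) (hX 2 (by omega)) a1 a2))
    rcases List.mem_cons.1 hψ with rfl | hψ
    · obtain ⟨X, hX, h1⟩ := (exs_sat (MStr s) _ _ (q + 2) _).1 hs
      rw [cnj_sat] at h1
      have a1 : ∀ i : Fin (q + 1), φ.sat (MStr s) (Fin.cons (X 0) (Fin.cons (X (i.val + 1))
          fun j => MM.mk (r j))) := by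
        intro i
        refine (lit_sat _ _ _ _ _ _ _ _ _ _).1 (h1 (lit φ (q + 2) 0 (i.val + 1) (by omega)
          (by omega)) ?_)
        exact List.mem_append_left _ (List.mem_map.2 ⟨i, List.mem_finRange _, rfl⟩)
      have a2 : ∀ i j : Fin (q + 1), i.val < j.val → X (i.val + 1) ≠ X (j.val + 1) := by
        intro i j hij
        refine (nel_sat _ _ _ _ _ _ _ _ _).1 (h1 (nel v (q + 2) (i.val + 1) (j.val + 1) (by omega)
          (by omega)) ?_)
        refine List.mem_append_right _ (List.mem_flatMap.2 ⟨j, List.mem_finRange _,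
          List.mem_map.2 ⟨⟨i.val, hij⟩, List.mem_finRange _, rfl⟩⟩)
      have hinj : Function.Injective fun i : Fin (q + 1) => X (i.val + 1) := by
        intro i j hij
        rcases lt_trichotomy i.val j.val with h5 | h5 | h5
        · exact absurd hij (a2 i j h5)
        · exact Fin.ext h5
        · exact absurd hij.symm (a2 j i h5)
      have hsub : Set.range (fun i : Fin (q + 1) => X (i.val + 1)) ⊆
          {y | (MStr s).le y a ∧ φ.sat (MStr s) (Fin.cons (X 0) (Fin.cons y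
            fun j => MM.mk (r j)))} := by
        rintro _ ⟨i, rfl⟩
        exact ⟨hX _ (by have := i.isLt; omega), a1 i⟩
      have h2 := Set.ncard_le_ncard hsub (hfin _ (hX 0 (by omega)))
      rw [hcard _ (hX 0 (by omega)), ← Set.image_univ, Set.ncard_image_of_injective _ hinj,
        Set.ncard_univ, Nat.card_eq_fintype_card, Fintype.card_fin] at h2
      omega
    · obtain ⟨j, hj, rfl⟩ := List.mem_map.1 hψ
      have hj' := List.mem_range.1 hj
      obtain ⟨X, hX, h1⟩ := (exs_sat (MStr s) _ _ (j + 1) _).1 hs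
      have h2 : ∃ y, y ∈ {y | (MStr s).le y a ∧ φ.sat (MStr s) (Fin.cons (X 0) (Fin.cons y
            fun j => MM.mk (r j)))} ∧ y ∉ ((Finset.Icc 1 j).image X : Set (MM s)) := by
        refine Set.exists_mem_notMem_of_ncard_lt_ncard ?_ (Finset.finite_toSet _)
        rw [hcard _ (hX 0 (by omega)), Set.ncard_coe_finset]
        refine Finset.card_image_le.trans_lt ?_
        rw [Nat.card_Icc]
        omega
      obtain ⟨y, ⟨y1, y2⟩, y3⟩ := h2
      obtain ⟨X', hX'⟩ : ∃ X' : ℕ → MM s, X' = fun i => if i = j + 1 then y else X i := ⟨_, rfl⟩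
      have x1 : X' (j + 1) = y := by rw [hX']; exact if_pos rfl
      have x2 : ∀ i, i ≤ j → X' i = X i := fun i hi => by rw [hX']; exact if_neg (by omega)
      have x3 : (Fin.cons y (asg (Fin.cons a fun j => MM.mk (r j) : Fin (v + 1) → MM s) X (j + 1)) :
          Fin (v + 1 + (j + 1) + 1) → MM s) =
            asg (Fin.cons a fun j => MM.mk (r j) : Fin (v + 1) → MM s) X' (j + 2) := by
        show _ = (Fin.cons (X' (j + 1)) (asg (Fin.cons a fun j => MM.mk (r j) :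
          Fin (v + 1) → MM s) X' (j + 1)) : Fin (v + 1 + (j + 1) + 1) → MM s)
        rw [x1, asg_congr _ (j + 1) fun i hi => x2 i (by omega)]
      apply h1
      refine ⟨y, ?_, ?_⟩
      · show (MStr s).le y (asg _ X (j + 1) ⟨j + 1, _⟩)
        rw [asg_bound]
        exact y1
      · rw [x3, cnj_sat]
        intro ψ hψ
        unfold qM at hψ
        rcases List.mem_cons.1 hψ with rfl | hψ
        · rw [lit_sat, x1, x2 0 (by omega)]
          exact y2
        · obtain ⟨i, -, rfl⟩ := List.mem_map.1 hψ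
          have hi := i.isLt
          rw [nel_sat, x1, x2 _ (by omega)]
          intro h5
          apply y3
          rw [← h5]
          exact Finset.mem_coe.2 (Finset.mem_image_of_mem _ (Finset.mem_Icc.2
            ⟨by omega, by omega⟩))
  obtain ⟨ra, rfl⟩ : ∃ ra : BSeq s, a = MM.mk ra := ⟨_, (Quotient.out_eq a).symm⟩
  obtain ⟨h, H⟩ := false_con s (vQ φ q) ra r hf
  have hdvd : ∀ᶠ i in UU, q ∣ ra.1 i + 1 := by
    filter_upwards [H (1000 * ((q + 1) * (h + 1)) + 1000)] with i p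
    obtain ⟨p1, p2, T, B, b1, b2, b3⟩ := p
    exact coreQ hq (s.ρ i) φ (ra.1 i) (fun j => (r j).1 i) T B b1 b2 b3 p1 p2
  obtain ⟨J, hJ⟩ := (BSeq.succ ra).2
  refine ⟨MM.mk ⟨fun i => (ra.1 i + 1) / q, J, ?_⟩, ?_⟩
  · filter_upwards [hJ] with i hi
    exact (Nat.div_le_self _ _).trans hi
  · rw [M_num, MStr_mul, MStr_succ, MM.eq_iff]
    filter_upwards [hdvd] with i hi
    exact Nat.mul_div_cancel' hi

end Pool.Agent.Work.MP_610017_lc.PP
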