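import Mathlib
import Pool.Agent.Work.MP_610017_lc.PP.Mod

/-!
# The main theorem with the pigeonhole principle and the counting principles (MP_610017_lc)
-/

set_option autoImplicit false

namespace Pool.Agent.Work.MP_610017_lc

/-- The main theorem, with the pigeonhole principle and the modular counting principles. -/
def S_MainP : Prop := ∃ θ : Fm 2,
  (∀ (M : Type) (N : Str M), IDelta0 N → Omega1 N → ∀ e, θ.sat N e) ∧
  ∃ (M : Type) (N : Str M), IDelta0 N ∧ PHP N ∧ (∀ q : ℕ, 1 ≤ q → CountMod N q) ∧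
    (∀ (v : ℕ) (φ : Fm v), φ.RFree → (∀ e, φ.sat stdN e) → ∀ e, φ.sat N e) ∧
    ∃ e, ¬ θ.sat N e

theorem pf_MainP : S_MainP := by
  obtain ⟨θ, hθ⟩ := prf_Theta
  refine ⟨θ, ?_, ?_⟩
  · intro M N h1 h2 e
    rw [hθ]
    exact pf_Upper M N h1 h2 _ _
  · obtain ⟨s⟩ := PP.pf_Seq
    refine ⟨PP.MM s, PP.MStr s, ⟨PP.prf_RobM s, PP.pf_IndM s⟩, PP.php s, PP.countMod s,
      PP.prf_LosM PP.prf_TmVal s, ![PP.nM s, PP.kM s], ?_⟩
    rw [hθ]
    obtain ⟨a1, a2, a3, a4, a5, a6, a7⟩ := PP.prf_HypA PP.prf_Rels s _ rfl _ _ rfl rfl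
    obtain ⟨b1, b2, b3, b4, b5, b6⟩ := PP.prf_HypB PP.prf_Rels s _ rfl _ _ rfl rfl
    have h : Hyp (PP.MStr s) (PP.nM s) (PP.kM s) :=
      ⟨a1, a2, a3, a4, a5, a6, a7, b1, b2, b3, b4, b5, b6⟩
    exact not_not_intro h

end Pool.Agent.Work.MP_610017_lc
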