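import Mathlib
import Pool.Agent.Work.MP_610017_lc.PP.StmtsA
import Pool.Agent.Work.MP_610017_lc.Bd.B02

/-!
# Block A, items NbSymm, NbLevel, StarClosed, StarValid (MP_610017_lc)
-/

set_option autoImplicit false

namespace Pool.Agent.Work.MP_610017_lc.PP

theorem StarClosed_mem {k n : ℕ} {v : Vx k} {a : Lb n} {b : Fin 4 → Lb n} {c : Bool}
    {f : Fact k n} : f ∈ star v a b c ↔ (∃ d, Fact.edge v (nb v d) a (b d) = f) ∨
      (∃ d, Fact.edge (nb v d) v (b d) a = f) ∨ (bd v = true ∧ f = Fact.col v a c) := by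
  unfold star
  rw [Finset.mem_union, Finset.mem_union, or_assoc]
  refine or_congr ?_ (or_congr ?_ ?_)
  · simp
  · simp
  · by_cases h : bd v = true
    · rw [if_pos h]
      simp [h]
    · rw [if_neg h]
      simp [h]

theorem prf_StarClosed : S_StarClosed := by
  intro k n ω v a b c f hs hv ht hf
  rw [StarClosed_mem]
  cases f with
  | edge u w x y =>
    obtain ⟨d, rfl⟩ := hv
    have ht' : (v, a) = (u, x) ∨ (v, a) = (nb u d, y) := by
      simpa [touch] using ht
    rcases ht' with h | h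
    · obtain ⟨rfl, rfl⟩ := Prod.ext_iff.1 h
      have h1 : holds ω (Fact.edge v (nb v d) a (b d)) :=
        hs _ (StarClosed_mem.2 (Or.inl ⟨d, rfl⟩))
      have h2 : (ω.β v).symm a = (ω.β (nb v d)).symm (b d) := h1
      have h3 : (ω.β v).symm a = (ω.β (nb v d)).symm y := hf
      rw [h2] at h3
      have h4 : b d = y := (ω.β (nb v d)).symm.injective h3
      exact Or.inl ⟨d, by rw [h4]⟩
    · have hv' : v = nb u d := (Prod.ext_iff.1 h).1
      have ha : a = y := (Prod.ext_iff.1 h).2
      obtain ⟨d', hd'⟩ := prf_NbSymm k u d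
      rw [← hv'] at hd' ⊢
      subst ha
      have h1 : holds ω (Fact.edge (nb v d') v (b d') a) :=
        hs _ (StarClosed_mem.2 (Or.inr (Or.inl ⟨d', rfl⟩)))
      have h2 : (ω.β (nb v d')).symm (b d') = (ω.β v).symm a := h1
      have h3 : (ω.β u).symm x = (ω.β v).symm a := by
        have h5 : (ω.β u).symm x = (ω.β (nb u d)).symm a := hf
        rwa [← hv'] at h5
      rw [← hd', ← h3] at h2
      have h4 : b d' = x := (ω.β u).symm.injective h2
      exact Or.inr (Or.inl ⟨d', by rw [h4, ← hd']⟩)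
  | col u x c' =>
    have ht' : (v, a) = (u, x) := by
      simpa [touch] using ht
    obtain ⟨rfl, rfl⟩ := Prod.ext_iff.1 ht'
    have hb : bd v = true := hv
    have h1 : holds ω (Fact.col v a c) :=
      hs _ (StarClosed_mem.2 (Or.inr (Or.inr ⟨hb, rfl⟩)))
    have h2 : cl ω v ((ω.β v).symm a) = some c := h1
    have h3 : cl ω v ((ω.β v).symm a) = some c' := hf
    have h4 : c' = c := by
      rw [h2] at h3
      exact (Option.some.inj h3).symm
    exact Or.inr (Or.inr ⟨hb, by rw [h4]⟩)

end Pool.Agent.Work.MP_610017_lc.PP
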