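import Mathlib
import Pool.Agent.Work.MP_610017_lc.PP.B_Stmts
import Pool.Agent.Work.MP_610017_lc.Bd.B03

/-!
# The first half of `Hyp` in the model (MP_610017_lc, block B)
-/

set_option autoImplicit false

namespace Pool.Agent.Work.MP_610017_lc.PP

theorem HypA_ofNat {n : ℕ} (z : Fin (n + 1)) : Fin.ofNat (n + 1) z.val = z := by
  apply Fin.ext
  simp [Fin.ofNat, Nat.mod_eq_of_lt z.isLt]

/-- sequences bounded by `nn` -/
def HypA_seq (s : SD) (x : ℕ → ℕ) (h : ∀ i, x i ≤ s.nn i) : BSeq s :=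
  ⟨x, 1, Filter.Eventually.of_forall fun i => by
    rw [pow_one]
    exact (h i).trans (Nat.le_succ _)⟩

theorem HypA_hR {k n : ℕ} (ρ : Res k n) (x y a : ℕ) (h1 : x < k) (h2 : y ≤ k) (h3 : a < n + 1) :
    hR ρ x y a (ρ.β (Fin.ofNat (k + 1) (x + 1), Fin.ofNat (k + 1) y)
      ((ρ.β (Fin.ofNat (k + 1) x, Fin.ofNat (k + 1) y)).symm (Fin.ofNat (n + 1) a))).val := by
  refine ⟨h1, h2, Nat.lt_succ_iff.1 h3, Nat.lt_succ_iff.1 (Fin.isLt _), ?_⟩
  rw [HypA_ofNat]

theorem HypA_uR {k n : ℕ} (ρ : Res k n) (x y a : ℕ) (h1 : x ≤ k) (h2 : y < k) (h3 : a < n + 1) :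
    uR ρ x y a (ρ.β (Fin.ofNat (k + 1) x, Fin.ofNat (k + 1) (y + 1))
      ((ρ.β (Fin.ofNat (k + 1) x, Fin.ofNat (k + 1) y)).symm (Fin.ofNat (n + 1) a))).val := by
  refine ⟨h1, h2, Nat.lt_succ_iff.1 h3, Nat.lt_succ_iff.1 (Fin.isLt _), ?_⟩
  rw [HypA_ofNat]

theorem HypA_comm {k n : ℕ} (ρ : Res k n) (x y a b c d : ℕ) (h1 : hR ρ x y a b)
    (h2 : uR ρ x y a d) (h3 : uR ρ (x + 1) y b c) : hR ρ x (y + 1) d c := by
  obtain ⟨a1, a2, a3, a4, a5⟩ := h1
  obtain ⟨b1, b2, b3, b4, b5⟩ := h2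
  obtain ⟨c1, c2, c3, c4, c5⟩ := h3
  refine ⟨a1, b2, b4, c4, ?_⟩
  rw [← b5, Equiv.symm_apply_apply, ← c5, ← a5, Equiv.symm_apply_apply]

theorem prf_HypA (hR' : S_Rels) : S_HypA := by
  intro s N hN n k hn hk
  subst hN
  subst hn
  subst hk
  refine ⟨?_, ?_, ?_, ?_, ?_, ?_, ?_⟩
  · rw [MStr_zero, kM, MStr_lt]
    filter_upwards [UU_ge 1] with i hi
    have h2 := s.le_kk i
    simp only [BSeq.const]
    omega
  · intro u
    induction u using MM.ind' with
    | h u =>
    intro _ hP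
    rw [MStr_zero] at hP
    have h1 := (hR' s (BSeq.const s 0) u u u).2.2.2.1 hP
    have h2 : (MStr s).num 1 = MM.mk (BSeq.succ (BSeq.const s 0)) := by
      rw [← MStr_succ]
      rfl
    rw [h2, MM.eq_iff]
    filter_upwards [h1] with i hi
    rw [hi.2]
    simp [BSeq.succ, BSeq.const]
  · intro x
    induction x using MM.ind' with
    | h x =>
    intro hx
    rw [kM, MStr_le] at hx
    have hb : ∀ᶠ i in UU, 2 ^ x.1 i ≤ (s.nn i + 1) ^ 1 := by
      filter_upwards [hx] with i hi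
      rw [pow_one]
      exact (Nat.pow_le_pow_right (by norm_num) hi).trans (s.pow_le i)
    refine ⟨MM.mk ⟨fun i => 2 ^ x.1 i, 1, hb⟩, ?_, ?_⟩
    · rw [nM, MStr_le]
      filter_upwards [hb] with i hi
      rw [pow_one] at hi
      exact hi
    · refine (hR' s x _ x x).2.2.2.2 ?_
      filter_upwards [hx] with i hi
      exact ⟨hi, rfl⟩
  · intro x u u'
    induction x using MM.ind' with
    | h x =>
    induction u using MM.ind' with
    | h u =>
    induction u' using MM.ind' with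
    | h u' =>
    intro _ _ _ hP hP'
    rw [MStr_succ] at hP'
    have h1 := (hR' s x u x x).2.2.2.1 hP
    have h2 := (hR' s (BSeq.succ x) u' x x).2.2.2.1 hP'
    rw [MStr_add, MM.eq_iff]
    filter_upwards [h1, h2] with i hi hj
    have e1 := hi.2
    have e2 := hj.2
    simp only [BSeq.succ, pow_succ] at e2
    simp only [BSeq.add]
    omega
  · intro x y a
    induction x using MM.ind' with
    | h x =>
    induction y using MM.ind' with
    | h y =>
    induction a using MM.ind' with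
    | h a =>
    intro hx hy ha
    rw [kM, MStr_lt] at hx
    rw [kM, MStr_le] at hy
    rw [nM, MStr_lt] at ha
    refine ⟨MM.mk (HypA_seq s (fun i => ((s.ρ i).β (Fin.ofNat (s.kk i + 1) (x.1 i + 1),
      Fin.ofNat (s.kk i + 1) (y.1 i)) (((s.ρ i).β (Fin.ofNat (s.kk i + 1) (x.1 i),
      Fin.ofNat (s.kk i + 1) (y.1 i))).symm (Fin.ofNat (s.nn i + 1) (a.1 i)))).val)
      (fun i => Nat.lt_succ_iff.1 (Fin.isLt _))), ?_, ?_⟩
    · rw [nM, MStr_lt]
      exact Filter.Eventually.of_forall fun i => Fin.isLt _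
    · refine (hR' s x y a _).1.2 ?_
      filter_upwards [hx, hy, ha] with i h1 h2 h3
      exact HypA_hR (s.ρ i) _ _ _ h1 h2 h3
  · intro x y a
    induction x using MM.ind' with
    | h x =>
    induction y using MM.ind' with
    | h y =>
    induction a using MM.ind' with
    | h a =>
    intro hx hy ha
    rw [kM, MStr_le] at hx
    rw [kM, MStr_lt] at hy
    rw [nM, MStr_lt] at ha
    refine ⟨MM.mk (HypA_seq s (fun i => ((s.ρ i).β (Fin.ofNat (s.kk i + 1) (x.1 i),
      Fin.ofNat (s.kk i + 1) (y.1 i + 1)) (((s.ρ i).β (Fin.ofNat (s.kk i + 1) (x.1 i),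
      Fin.ofNat (s.kk i + 1) (y.1 i))).symm (Fin.ofNat (s.nn i + 1) (a.1 i)))).val)
      (fun i => Nat.lt_succ_iff.1 (Fin.isLt _))), ?_, ?_⟩
    · rw [nM, MStr_lt]
      exact Filter.Eventually.of_forall fun i => Fin.isLt _
    · refine (hR' s x y a _).2.1.2 ?_
      filter_upwards [hx, hy, ha] with i h1 h2 h3
      exact HypA_uR (s.ρ i) _ _ _ h1 h2 h3
  · intro x y a b c d
    induction x using MM.ind' with
    | h x =>
    induction y using MM.ind' with
    | h y =>
    induction a using MM.ind' with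
    | h a =>
    induction b using MM.ind' with
    | h b =>
    induction c using MM.ind' with
    | h c =>
    induction d using MM.ind' with
    | h d =>
    intro _ _ _ _ _ _ h1 h2 h3
    rw [MStr_succ] at h3 ⊢
    have g1 := (hR' s x y a b).1.1 h1
    have g2 := (hR' s x y a d).2.1.1 h2
    have g3 := (hR' s (BSeq.succ x) y b c).2.1.1 h3
    refine (hR' s x (BSeq.succ y) d c).1.2 ?_
    filter_upwards [g1, g2, g3] with i e1 e2 e3
    exact HypA_comm (s.ρ i) _ _ _ _ _ _ e1 e2 e3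

end Pool.Agent.Work.MP_610017_lc.PP
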